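import Pool.Agent.P.MP_740b33_co.Dual

/-! Package C3: graded extensions. -/

namespace G94

open H40M Polynomial

variable {R R' R'' : Type} [CommRing R] [Algebra ℝ R] [CommRing R'] [Algebra ℝ R']
  [CommRing R''] [Algebra ℝ R''] {V : Submodule ℝ R} {φ : R →ₗ[ℝ] ℝ} {V' : Submodule ℝ R'}
  {φ' : R' →ₗ[ℝ] ℝ} {V'' : Submodule ℝ R''} {φ'' : R'' →ₗ[ℝ] ℝ}

namespace GExtA

lemma wt_X_pow [Nontrivial R] (h1 : (1 : R) ∈ V) (k : ℕ) : Wt V k (X ^ k : R[X]) := by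
  refine ⟨monic_X_pow k, natDegree_X_pow k, fun j => ?_⟩
  rw [coeff_X_pow]
  split_ifs
  · exact one_mem_pow h1 _
  · exact zero_mem _

omit [Algebra ℝ R] in
lemma push_dual [Nontrivial R] {N : ℕ} {Q : R[X]} (hQ : Q.Monic) (hN : Q.natDegree = N + 1)
    {e c : ℕ} (he : e ≤ N) (hc : c ≤ N) :
    push (N + 1) Q (X ^ e * (Q /ₘ X ^ (c + 1))) = if e = c then 1 else 0 := by
  have hX : (X ^ (c + 1) : R[X]).Monic := monic_X_pow _
  have hd : (Q /ₘ X ^ (c + 1)).natDegree = N - c := by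
    rw [natDegree_divByMonic _ hX, hN, natDegree_X_pow]; omega
  have hl : (Q /ₘ X ^ (c + 1)).leadingCoeff = 1 := by
    rw [leadingCoeff_divByMonic_of_monic hX, hQ.leadingCoeff]
    rw [degree_X_pow, degree_eq_natDegree hQ.ne_zero, hN]
    exact_mod_cast (by omega : c + 1 ≤ N + 1)
  by_cases hec : e ≤ c
  · have h2 : (X ^ e * (Q /ₘ X ^ (c + 1)) : R[X]).natDegree ≤ e + (N - c) :=
      natDegree_mul_le.trans (by rw [natDegree_X_pow, hd])
    rw [push_of_lt hQ hN (degree_le_natDegree.trans_lt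
      (by exact_mod_cast (by omega : _ < N + 1))), Nat.add_sub_cancel]
    split_ifs with h
    · subst h
      have h3 : N = (N - e) + e := by omega
      rw [h3, coeff_X_pow_mul, ← hd]
      exact hl
    · exact coeff_eq_zero_of_natDegree_lt (by omega)
  · rw [if_neg (by omega)]
    obtain ⟨a, rfl⟩ : ∃ a, e = a + (c + 1) := ⟨e - (c + 1), by omega⟩
    have h3 : (X ^ (a + (c + 1)) * (Q /ₘ X ^ (c + 1)) : R[X]) =
        Q * X ^ a - X ^ a * (Q %ₘ X ^ (c + 1)) := by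
      have h4 := modByMonic_add_div Q (X ^ (c + 1) : R[X])
      rw [pow_add, mul_assoc, eq_sub_of_add_eq' h4]
      ring
    have h5 : (Q %ₘ X ^ (c + 1)).natDegree ≤ c := by
      have h6 := natDegree_modByMonic_lt Q hX (by
        intro h
        have := congrArg natDegree h
        rw [natDegree_X_pow, natDegree_one] at this
        omega)
      rw [natDegree_X_pow] at h6
      omega
    have h2 : (X ^ a * (Q %ₘ X ^ (c + 1)) : R[X]).natDegree ≤ a + c :=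
      natDegree_mul_le.trans (by rw [natDegree_X_pow]; omega)
    rw [h3, map_sub, push_self_mul _ hQ, push_of_lt hQ hN (degree_le_natDegree.trans_lt
      (by exact_mod_cast (by omega : _ < N + 1))), Nat.add_sub_cancel,
      coeff_eq_zero_of_natDegree_lt (by omega), sub_zero]

omit [Algebra ℝ R] in
lemma mod_eq_sum [Nontrivial R] {N : ℕ} {Q : R[X]} (hQ : Q.Monic) (hN : Q.natDegree = N + 1)
    (η : R[X]) :
    η %ₘ Q = ∑ e ∈ Finset.range (N + 1), C ((η %ₘ Q).coeff e) * X ^ e := by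
  have h1 : Q ≠ 1 := by
    intro h; rw [h, natDegree_one] at hN; omega
  have h2 := natDegree_modByMonic_lt η hQ h1
  rw [hN] at h2
  exact as_sum_range_C_mul_X_pow' _ h2

lemma ev_mem {ι : R →ₐ[ℝ] R'} {Y : R'} (hι : ∀ v ∈ V, ι v ∈ V') (hY : Y ∈ V') {k : ℕ}
    {f : R[X]} (hf : f ∈ extV V ^ k) : aevalTower ι Y f ∈ V' ^ k := by
  refine map_mem_pow (aevalTower ι Y) (fun v hv => ?_) hf
  obtain ⟨a, ha, c, rfl⟩ := mem_extV.1 hv
  rw [map_add, map_smul, aevalTower_C, aevalTower_X]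
  exact add_mem (hι a ha) (Submodule.smul_mem _ _ hY)

/-- Reduction modulo the relation. -/
lemma reduce [Nontrivial R] {d N : ℕ} {ι : R →ₐ[ℝ] R'} {Y : R'} {Q : R[X]}
    (hQ : Wt V (N + 1) Q) (hι : ∀ v ∈ V, ι v ∈ V') (hY : Y ∈ V')
    (p3 : ∀ i, i + (N + 1) = d + N → ∀ ζ ∈ V' ^ i, φ' (aevalTower ι Y Q * ζ) = 0)
    {i j : ℕ} (hij : i + j = d + N) {ζ : R'} (hζ : ζ ∈ V' ^ j) {f : R[X]} (hf : f ∈ extV V ^ i) :
    φ' (aevalTower ι Y f * ζ) =
      ∑ e ∈ Finset.range (N + 1), φ' (ι ((f %ₘ Q).coeff e) * (Y ^ e * ζ)) := by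
  obtain ⟨h2, h3⟩ := div_mem_extV_pow hQ hf
  have h4 : φ' (aevalTower ι Y Q * (aevalTower ι Y (f /ₘ Q) * ζ)) = 0 := by
    by_cases hi : i < N + 1
    · rw [h3 hi]; simp
    · exact p3 (i - (N + 1) + j) (by omega) _ (mul_mem_pow (ev_mem hι hY h2) hζ)
  conv_lhs => rw [← modByMonic_add_div f Q, map_add, map_mul (aevalTower ι Y), add_mul, map_add,
    mul_assoc, h4, add_zero, mod_eq_sum hQ.1 hQ.2.1 f, map_sum, Finset.sum_mul, map_sum]
  refine Finset.sum_congr rfl fun e _ => ?_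
  rw [map_mul (aevalTower ι Y), map_pow, aevalTower_C, aevalTower_X, mul_assoc]

lemma C_mem_mvV {m : ℕ} {a : R} (ha : a ∈ V) : MvPolynomial.C a ∈ mvV V m :=
  Submodule.mem_sup_left ⟨a, ha, rfl⟩

lemma X_mem_mvV {m : ℕ} (b : Fin m) : MvPolynomial.X b ∈ mvV V m :=
  Submodule.mem_sup_right (Submodule.subset_span ⟨b, rfl⟩)

lemma mem_mvV {m : ℕ} {v : MvPolynomial (Fin m) R} : v ∈ mvV V m ↔
    ∃ a ∈ V, ∃ c : Fin m → ℝ, v = MvPolynomial.C a + ∑ b, c b • MvPolynomial.X b := by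
  constructor
  · intro h
    obtain ⟨y, ⟨a, ha, rfl⟩, z, hz, rfl⟩ := Submodule.mem_sup.1 h
    obtain ⟨c, rfl⟩ := (Submodule.mem_span_range_iff_exists_fun ℝ).1 hz
    exact ⟨a, ha, c, rfl⟩
  · rintro ⟨a, ha, c, rfl⟩
    exact add_mem (C_mem_mvV ha) (sum_mem fun b _ => Submodule.smul_mem _ _ (X_mem_mvV b))

lemma C_mem_mvV_pow {m k : ℕ} {a : R} (ha : a ∈ V ^ k) : MvPolynomial.C a ∈ mvV V m ^ k :=
  map_mem_pow (V' := mvV V m) (IsScalarTower.toAlgHom ℝ R (MvPolynomial (Fin m) R))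
    (fun _ hv => C_mem_mvV hv) ha

lemma fsE_mem {m k : ℕ} {f : MvPolynomial (Fin (m + 1)) R} (hf : f ∈ mvV V (m + 1) ^ k) :
    fsE R m f ∈ extV (mvV V m) ^ k := by
  refine map_mem_pow (V' := extV (mvV V m)) (fsE R m).toAlgHom (fun v hv => ?_) hf
  obtain ⟨a, ha, c, rfl⟩ := mem_mvV.1 hv
  refine mem_extV.2 ⟨_, mem_mvV.2 ⟨a, ha, fun b => c b.succ, rfl⟩, c 0, ?_⟩
  exact fsE_lin m a c

lemma exists_fsE {m k : ℕ} {g : (MvPolynomial (Fin m) R)[X]} (hg : g ∈ extV (mvV V m) ^ k) :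
    ∃ f ∈ mvV V (m + 1) ^ k, fsE R m f = g := by
  refine exists_map_of_mem_pow (V := mvV V (m + 1)) (fsE R m).toAlgHom (fun v hv => ?_) hg
  obtain ⟨a, ha, c0, rfl⟩ := mem_extV.1 hv
  obtain ⟨a0, ha0, c, rfl⟩ := mem_mvV.1 ha
  refine ⟨_, mem_mvV.2 ⟨a0, ha0, Fin.cons c0 c, rfl⟩, ?_⟩
  refine (fsE_lin m a0 (Fin.cons c0 c)).trans ?_
  simp

lemma wt_map_C [Nontrivial R] {m N : ℕ} {Q : R[X]} (hQ : Wt V N Q) :
    Wt (mvV V m) N (Q.map MvPolynomial.C) :=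
  ⟨hQ.1.map _, by rw [hQ.1.natDegree_map, hQ.2.1], fun j => by
    rw [coeff_map]; exact C_mem_mvV_pow (hQ.2.2 j)⟩

lemma mv_ev_mem {m : ℕ} {ι : R →ₐ[ℝ] R'} {Y : Fin m → R'} (hι : ∀ v ∈ V, ι v ∈ V')
    (hY : ∀ b, Y b ∈ V') {k : ℕ} {f : MvPolynomial (Fin m) R} (hf : f ∈ mvV V m ^ k) :
    MvPolynomial.aevalTower ι Y f ∈ V' ^ k := by
  refine map_mem_pow (MvPolynomial.aevalTower ι Y) (fun v hv => ?_) hf
  obtain ⟨a, ha, c, rfl⟩ := mem_mvV.1 hv
  rw [map_add, map_sum, MvPolynomial.aevalTower_C]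
  refine add_mem (hι a ha) (sum_mem fun b _ => ?_)
  rw [map_smul, MvPolynomial.aevalTower_X]
  exact Submodule.smul_mem _ _ (hY b)

lemma map_ev_mem {m : ℕ} {ι : R →ₐ[ℝ] R'} {Y : Fin m → R'} (hι : ∀ v ∈ V, ι v ∈ V')
    (hY : ∀ b, Y b ∈ V') {k : ℕ} {g : (MvPolynomial (Fin m) R)[X]} (hg : g ∈ extV (mvV V m) ^ k) :
    g.map (MvPolynomial.aevalTower ι Y : MvPolynomial (Fin m) R →+* R') ∈ extV V' ^ k := by
  rw [mem_extV_pow] at hg ⊢
  intro j
  rw [coeff_map]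
  exact ⟨fun hj => mv_ev_mem hι hY ((hg j).1 hj), fun hj => by rw [(hg j).2 hj, map_zero]⟩

lemma ev_cons {m : ℕ} (ι : R →ₐ[ℝ] R') (Y : Fin m → R') (ι' : R' →ₐ[ℝ] R'') (Z : R'')
    {ι'' : R →ₐ[ℝ] R''} (hc : ∀ g, ι'' g = ι' (ι g)) (f : MvPolynomial (Fin (m + 1)) R) :
    MvPolynomial.aevalTower ι'' (Fin.cons Z fun b => ι' (Y b) : Fin (m + 1) → R'') f =
      aevalTower ι' Z ((fsE R m f).map
        (MvPolynomial.aevalTower ι Y : MvPolynomial (Fin m) R →+* R')) := by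
  induction f using MvPolynomial.induction_on with
  | C a => simp [fsE_C, hc]
  | add p q hp hq => simp only [map_add, Polynomial.map_add, hp, hq]
  | mul_X p b hp =>
    rw [map_mul, map_mul, Polynomial.map_mul, map_mul, hp]
    congr 1
    refine Fin.cases ?_ (fun b => ?_) b
    · simp [fsE_X_zero]
    · simp [fsE_X_succ]

lemma push_ev {m N : ℕ} (ι : R →ₐ[ℝ] R') (Y : Fin m → R') {Q : R[X]} (hQ : Q.Monic)
    (g : (MvPolynomial (Fin m) R)[X]) :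
    push N (Q.map (ι : R →+* R'))
      (g.map (MvPolynomial.aevalTower ι Y : MvPolynomial (Fin m) R →+* R')) =
      MvPolynomial.aevalTower ι Y (push N (Q.map MvPolynomial.C) g) := by
  have h := map_push (MvPolynomial.aevalTower ι Y : MvPolynomial (Fin m) R →+* R') N
    (hQ.map MvPolynomial.C) g
  rw [Polynomial.map_map] at h
  have h2 : (MvPolynomial.aevalTower ι Y : MvPolynomial (Fin m) R →+* R').comp MvPolynomial.C =
      (ι : R →+* R') := RingHom.ext fun a => by simp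
  rw [h2] at h
  exact h.symm

end GExtA

open GExtA

theorem GExt.of_push [Nontrivial R] (h1 : (1 : R) ∈ V) {d N : ℕ} {ι : R →ₐ[ℝ] R'} {Y : R'}
    {Q : R[X]} {c : ℝ} (hQ : Wt V (N + 1) Q) (h1' : (1 : R') ∈ V') (hι : ∀ v ∈ V, ι v ∈ V')
    (hY : Y ∈ V')
    (p1 : ∀ j, ∀ ζ ∈ V' ^ j, ∃ u ∈ V ^ (j - N), (j < N → u = 0) ∧ ∀ g, φ' (ι g * ζ) = φ (g * u))
    (p2 : ∀ g, φ' (ι g * Y ^ N) = c * φ g)
    (p3 : ∀ i, i + (N + 1) = d + N → ∀ ζ ∈ V' ^ i, φ' (aevalTower ι Y Q * ζ) = 0) :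
    GExt V φ d V' φ' ι Y N Q c := by
  refine ⟨fun i j hij ζ hζ => ?_, fun f hf => ?_⟩
  · choose u hu h0 hφ using fun e => p1 (e + j) (Y ^ e * ζ) (mul_mem_pow (pow_mem_pow hY e) hζ)
    refine ⟨∑ e ∈ Finset.range (N + 1), C (u e) * (Q /ₘ X ^ (e + 1)), sum_mem fun e he => ?_,
      fun f hf => ?_⟩
    · have he' : e < N + 1 := Finset.mem_range.1 he
      by_cases hj : e + j < N
      · rw [h0 e hj]; simp
      · exact mul_mem_pow' (C_mem_extV_pow (hu e))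
          (div_mem_extV_pow (wt_X_pow h1 (e + 1)) hQ.mem).1 (by omega)
    · rw [reduce hQ hι hY p3 hij hζ hf]
      conv_rhs => rw [← modByMonic_add_div f Q, add_mul, map_add, mul_assoc,
        push_self_mul _ hQ.1, add_zero, mod_eq_sum hQ.1 hQ.2.1 f, Finset.sum_mul, map_sum, map_sum]
      refine Finset.sum_congr rfl fun e he => ?_
      have he' : e < N + 1 := Finset.mem_range.1 he
      rw [hφ, mul_assoc, push_C_mul, Finset.mul_sum, map_sum, Finset.sum_eq_single_of_mem e he]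
      · rw [mul_left_comm, push_C_mul, push_dual hQ.1 hQ.2.1 (by omega) (by omega), if_pos rfl,
          mul_one]
      · intro b hb hbe
        have hb' : b < N + 1 := Finset.mem_range.1 hb
        rw [mul_left_comm, push_C_mul, push_dual hQ.1 hQ.2.1 (by omega) (by omega),
          if_neg (Ne.symm hbe), mul_zero]
  · have h := reduce hQ hι hY p3 (i := d + N) (j := 0) rfl one_mem_pow_zero hf
    rw [mul_one] at h
    rw [h, Finset.sum_range_succ, Finset.sum_eq_zero, zero_add, mul_one, p2, push_apply,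
      Nat.add_sub_cancel]
    intro e he
    obtain ⟨u, -, h0, hφ⟩ := p1 e (Y ^ e) (pow_mem_pow hY e)
    rw [mul_one, hφ, h0 (Finset.mem_range.1 he), mul_zero, map_zero]

theorem GExt.cut {d p N : ℕ} {ι : R →ₐ[ℝ] R'} {Y : R'} {Q : R[X]} {c : ℝ}
    (h : GExt V φ (d + p) V' φ' ι Y N Q c) {u : R} (hu : u ∈ V ^ p) :
    GExt V (cutφ φ u) d V' (cutφ φ' (ι u)) ι Y N Q c := by
  refine ⟨fun i j hij ζ hζ => ?_, fun f hf => ?_⟩
  · obtain ⟨P, hP, h2⟩ := h.g1 (p + i) j (by omega) ζ hζ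
    refine ⟨P, hP, fun f hf => ?_⟩
    have h3 := h2 (C u * f) (mul_mem_pow (C_mem_extV_pow hu) hf)
    rw [map_mul (aevalTower ι Y), aevalTower_C, mul_assoc, mul_assoc, push_C_mul] at h3
    rw [cutφ_apply, cutφ_apply, h3]
  · have h3 := h.g2 (C u * f) (mul_mem_pow' (C_mem_extV_pow hu) hf (by omega))
    rw [map_mul, aevalTower_C, push_C_mul] at h3
    rw [cutφ_apply, cutφ_apply, h3]

theorem MG.cut {d p N m : ℕ} {ι : R →ₐ[ℝ] R'} {Y : Fin m → R'} {Q : R[X]} {c : ℝ}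
    (h : MG V φ (d + p) V' φ' ι Y N Q c) {u : R} (hu : u ∈ V ^ p) :
    MG V (cutφ φ u) d V' (cutφ φ' (ι u)) ι Y N Q c := by
  refine ⟨fun i j hij ζ hζ => ?_, fun f hf => ?_⟩
  · obtain ⟨P, hP, h2⟩ := h.g1 (p + i) j (by omega) ζ hζ
    refine ⟨P, hP, fun f hf => ?_⟩
    have h3 := h2 (MvPolynomial.C u * f) (mul_mem_pow (C_mem_mvV_pow hu) hf)
    rw [map_mul (MvPolynomial.aevalTower ι Y), MvPolynomial.aevalTower_C, mul_assoc, mul_assoc,
      tens_C_mul] at h3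
    rw [cutφ_apply, cutφ_apply, h3]
  · have h3 := h.g2 (MvPolynomial.C u * f) (mul_mem_pow' (C_mem_mvV_pow hu) hf (by omega))
    rw [map_mul, MvPolynomial.aevalTower_C, tens_C_mul] at h3
    rw [cutφ_apply, cutφ_apply, h3]

theorem MG.zero (d N : ℕ) (Q : R[X]) (Y : Fin 0 → R) (ι : R →ₐ[ℝ] R) (hι : ∀ g, ι g = g) :
    MG V φ d V φ ι Y N Q 1 := by
  refine ⟨fun i j _ ζ hζ => ⟨MvPolynomial.C ζ, C_mem_mvV_pow hζ, fun f _ => ?_⟩, fun f _ => ?_⟩
  · rw [← C_feE f, MvPolynomial.aevalTower_C, hι, ← map_mul, tens_feE, feE_C]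
  · rw [← C_feE f, MvPolynomial.aevalTower_C, hι, tens_feE, feE_C, one_mul]

theorem MG.succ [Nontrivial R] [Nontrivial R'] (h1 : (1 : R) ∈ V) {d N m : ℕ} {ι : R →ₐ[ℝ] R'}
    {Y : Fin m → R'} {Q : R[X]} {c c' : ℝ} (hQ : Wt V (N + 1) Q) (hι : ∀ v ∈ V, ι v ∈ V')
    (hY : ∀ b, Y b ∈ V') (h : MG V φ d V' φ' ι Y N Q c) {ι' : R' →ₐ[ℝ] R''} {Z : R''}
    (h' : GExt V' φ' (d + m * N) V'' φ'' ι' Z N (Q.map (ι : R →+* R')) c')
    {ι'' : R →ₐ[ℝ] R''} (hc : ∀ g, ι'' g = ι' (ι g)) :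
    MG V φ d V'' φ'' ι'' (Fin.cons Z fun b => ι' (Y b) : Fin (m + 1) → R'') N Q (c' * c) := by
  have h1m : (1 : MvPolynomial (Fin m) R) ∈ mvV V m := by simpa using C_mem_mvV (m := m) h1
  have hQC : Wt (mvV V m) (N + 1) (Q.map MvPolynomial.C) := wt_map_C hQ
  have hm : (m + 1) * N = m * N + N := Nat.succ_mul m N
  refine ⟨fun i j hij ζ hζ => ?_, fun f hf => ?_⟩
  · obtain ⟨P', hP', h2⟩ := h'.g1 i j (by omega) ζ hζ
    have h3 : ∀ e, ∃ P : MvPolynomial (Fin m) R, e ≤ j → P ∈ mvV V m ^ (j - e) ∧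
        ∀ g ∈ extV (mvV V m) ^ i,
          φ' (MvPolynomial.aevalTower ι Y (push (N + 1) (Q.map MvPolynomial.C) (g * X ^ e)) *
            P'.coeff e) =
          φ (tens (fun _ => push (N + 1) Q)
            (push (N + 1) (Q.map MvPolynomial.C) (g * X ^ e) * P)) := by
      intro e
      by_cases he : e ≤ j
      · by_cases hi : i + e < N
        · refine ⟨0, fun _ => ⟨zero_mem _, fun g hg => ?_⟩⟩
          rw [push_eq_zero hQC (mul_mem_pow hg (pow_mem_pow X_mem_extV e)) (by omega)]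
          simp
        · obtain ⟨P, hP, h4⟩ := h.g1 (i + e + 1 - (N + 1)) (j - e) (by omega) _
            ((mem_extV_pow.1 hP' e).1 he)
          exact ⟨P, fun _ => ⟨hP, fun g hg => h4 _ (push_mem h1m (by omega) hQC
            (mul_mem_pow hg (pow_mem_pow X_mem_extV e)))⟩⟩
      · exact ⟨0, fun h => absurd h he⟩
    choose P hP using h3
    have h4 : ∑ e ∈ Finset.range (j + 1), C (P e) * X ^ e ∈ extV (mvV V m) ^ j :=
      sum_mem fun e he => C_mul_X_pow_mem (Nat.lt_succ_iff.1 (Finset.mem_range.1 he))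
        (hP e (Nat.lt_succ_iff.1 (Finset.mem_range.1 he))).1
    obtain ⟨P0, hP0, h5⟩ := exists_fsE h4
    refine ⟨P0, hP0, fun f hf => ?_⟩
    have hd : P'.natDegree < j + 1 :=
      Nat.lt_succ_of_le (natDegree_le_iff_coeff_eq_zero.2 fun e he => (mem_extV_pow.1 hP' e).2 he)
    rw [ev_cons ι Y ι' Z hc, h2 _ (map_ev_mem hι hY (fsE_mem hf)), ← tens_fsE m _ hQ.1,
      map_mul (fsE R m), h5, as_sum_range_C_mul_X_pow' P' hd, Finset.mul_sum, Finset.mul_sum, map_sum, map_sum,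
      map_sum, map_sum, map_sum]
    refine Finset.sum_congr rfl fun e he => ?_
    have h6 := (hP e (Nat.lt_succ_iff.1 (Finset.mem_range.1 he))).2 _ (fsE_mem hf)
    rw [← push_ev ι Y hQ.1, Polynomial.map_mul, Polynomial.map_pow, map_X] at h6
    rw [mul_left_comm, push_C_mul, mul_left_comm, push_C_mul, mul_comm (P'.coeff e), h6,
      mul_comm (P e)]
  · have hf' := fsE_mem hf
    rw [ev_cons ι Y ι' Z hc, h'.g2 _ (by
      rw [show d + m * N + N = d + (m + 1) * N by omega]; exact map_ev_mem hι hY hf'),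
      push_ev ι Y hQ.1, h.g2 _ (by
        have := push_mem h1m (by omega) hQC hf'
        rwa [show d + (m + 1) * N + 1 - (N + 1) = d + m * N by omega] at this),
      tens_fsE m _ hQ.1, mul_assoc]

end G94
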