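import Pool.Agent.P.MP_740b33_co.Defs

/-! Package C8: the localisation functional of the braid fan is unique. -/

namespace G94

open H40M Polynomial

namespace Ident

open Finset

variable {n : ℕ}

lemma supp {w u : Equiv.Perm (Fin n)} {a b : Fin n}
    (hu : ∀ S ∈ (inis w).erase (insert a (bef w a)), Ini u S)
    (h : bef w b = insert a (bef w a)) (hab : u.symm a < u.symm b) : w = u := by
  refine eq_of_order fun c d hcd => ?_
  have hc : c ∈ bef w d := mem_bef.2 hcd
  have hd : d ∉ insert c (bef w c) := fun h1 => absurd (mem_insert_bef.1 h1) (not_le.2 hcd)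
  by_cases h1 : bef w d = insert a (bef w a)
  · by_cases h2 : insert c (bef w c) = insert a (bef w a)
    · rw [insert_bef_inj h2, bef_inj (h1.trans h.symm)]
      exact hab
    · exact hu _ (mem_erase.2 ⟨h2, mem_inis.2 ⟨insert_ne_empty _ _,
        fun h3 => hd (h3 ▸ mem_univ d), ini_insert_bef w c⟩⟩) c (mem_insert_self _ _) d hd
  · exact hu _ (mem_erase.2 ⟨h1, mem_inis.2 ⟨ne_empty_of_mem hc,
      fun h3 => not_mem_bef_self w d (h3 ▸ mem_univ d), ini_bef w d⟩⟩) c hc d
      (not_mem_bef_self w d)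

lemma mem_adj {w : Equiv.Perm (Fin n)} {a b : Fin n} (h : bef w b = insert a (bef w a)) :
    insert a (bef w a) ∈ inis w :=
  mem_inis.2 ⟨insert_ne_empty _ _, fun h3 => not_mem_bef_self w b (h ▸ h3 ▸ mem_univ b),
    ini_insert_bef w a⟩

lemma step {t : Fin n → ℝ} (Λ : Equiv.Perm (Fin n) → ℝ)
    (h : ∀ j, j + 1 < n → ∀ η ∈ permV t ^ j, ∑ u, Λ u * η u = 0)
    {w : Equiv.Perm (Fin n)} {a b : Fin n} (hw : bef w b = insert a (bef w a)) :
    Λ (Equiv.swap a b * w) * ∏ S ∈ inis (Equiv.swap a b * w), xs t S (Equiv.swap a b * w) =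
      Λ w * ∏ S ∈ inis w, xs t S w := by
  classical
  set w' := Equiv.swap a b * w with hw'
  set F := (inis w).erase (insert a (bef w a)) with hF
  have hadj : bef w' a = insert b (bef w' b) := swp_adj hw
  have hF' : (inis w').erase (insert b (bef w' b)) = F := by
    have h1 := swp_inis hw ∅
    rw [sdiff_empty, sdiff_empty] at h1
    rw [hw', swp_bef_right hw]
    exact h1
  have hab : a ≠ b := adj_ne hw
  have hne : w ≠ w' := by
    intro h1
    have h2 := adj_lt hw
    have h3 := adj_lt hadj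
    rw [← h1] at h3
    exact lt_asymm h2 h3
  have hcard : F.card + 1 < n := by
    have h1 := card_inis_le w
    have h2 := card_erase_add_one (mem_adj hw)
    have h3 : 0 < n := Fin.pos a
    rw [← hF] at h2
    omega
  have hη : (∏ S ∈ F, xs t S) ∈ permV t ^ F.card := by
    have h1 := multiset_prod_mem_pow (V := permV t) (F.val.map fun S => xs t S) (by
      intro x hx
      obtain ⟨S, -, rfl⟩ := Multiset.mem_map.1 hx
      exact xs_mem t S)
    rw [Multiset.card_map] at h1
    exact h1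
  have h0 := h _ hcard _ hη
  rw [sum_eq_add w w' hne] at h0
  · rw [Finset.prod_apply, Finset.prod_apply] at h0
    rw [← mul_prod_erase _ _ (mem_adj hw), ← mul_prod_erase _ _ (mem_adj hadj), hF', ← hF,
      xs_eq hw rfl, xs_eq hadj rfl]
    linear_combination (t a - t b) * h0
  · intro u _ hu
    by_contra h1
    have h2 : ∀ S ∈ F, Ini u S := by
      intro S hS
      by_contra h3
      apply h1
      rw [Finset.prod_apply, prod_eq_zero hS (xs_eq_zero h3), mul_zero]
    rcases lt_trichotomy (u.symm a) (u.symm b) with h3 | h3 | h3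
    · exact hu.1 (supp h2 hw h3).symm
    · exact hab (u.symm.injective h3)
    · exact hu.2 (supp (hF'.symm ▸ h2) hadj h3).symm
  · simp
  · simp

lemma adj_succ {m : ℕ} (u : Equiv.Perm (Fin (m + 1))) (k : Fin m) :
    bef u (u k.succ) = insert (u k.castSucc) (bef u (u k.castSucc)) := by
  ext c
  rw [mem_bef, mem_insert_bef, Equiv.symm_apply_apply, Equiv.symm_apply_apply,
    Fin.le_castSucc_iff]

lemma xs_empty {N : ℕ} (t : Fin (N + 1) → ℝ) (u : Equiv.Perm (Fin (N + 1))) :
    xs t ∅ u = t (u 0) := by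
  rw [xs_apply, sum_eq_single (u 0), sum_eq_zero, if_pos, sub_zero]
  · ext c
    simp
  · intro e _
    exact if_neg (insert_ne_empty _ _)
  · intro e _ he
    rw [if_neg]
    intro h1
    have h2 : u 0 ∈ bef u e := by
      rw [mem_bef, Equiv.symm_apply_apply, Fin.pos_iff_ne_zero]
      intro h3
      exact he (by rw [← h3, Equiv.apply_symm_apply])
    rw [h1] at h2
    exact notMem_empty _ h2
  · simp

lemma sub_first {N : ℕ} (t : Fin (N + 1) → ℝ) (j : Fin (N + 1)) :
    (t j • (1 : Equiv.Perm (Fin (N + 1)) → ℝ) - xs t ∅) =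
      ∑ S ∈ univ.filter (fun S : Finset (Fin (N + 1)) => S ≠ ∅ ∧ j ∉ S), xs t S := by
  have h1 : lov t (fun A => -1 + ∑ e ∈ A, if e = j then (1 : ℝ) else 0) =
      t j • (1 : Equiv.Perm (Fin (N + 1)) → ℝ) := by
    funext w
    rw [lov_modular]
    simp
  rw [← h1, lov_eq_sum, sub_eq_iff_eq_add', ← add_sum_erase _ _ (mem_univ ∅), sum_filter]
  congr 1
  · simp
  · rw [← sum_erase (s := univ) (a := ∅) (by simp)]
    refine sum_congr rfl fun S hS => ?_
    have h2 : S ≠ ∅ := ne_of_mem_erase hS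
    by_cases h3 : j ∈ S <;> simp [h2, h3]

lemma nef_first {N : ℕ} {t : Fin (N + 1) → ℝ} (ht : Function.Injective t) (i : Fin (N + 1))
    (G : Face (N + 1)) :
    (permSys t ht).Eff G (t i • (1 : Equiv.Perm (Fin (N + 1)) → ℝ) - xs t ∅) := by
  obtain ⟨w, hw⟩ := G.2
  have h1 : (permSys t ht).Eff G (t (w 0) • (1 : Equiv.Perm (Fin (N + 1)) → ℝ) - xs t ∅) := by
    rw [sub_first]
    refine Sys.Eff.sum _ _ fun S hS => ?_
    obtain ⟨h0, h2⟩ := (mem_filter.1 hS).2
    refine eff_xs ht G h0 (fun h3 => h2 (h3 ▸ mem_univ _)) fun h3 => ?_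
    obtain ⟨c, hc⟩ := nonempty_iff_ne_empty.2 h0
    have h4 := (mem_inis.1 (hw h3)).2.2 c hc _ h2
    rw [Equiv.symm_apply_apply] at h4
    exact absurd h4 (Fin.not_lt_zero _)
  have h2 := h1.add (eff_const ht G (t i - t (w 0)))
  have h3 : t (w 0) • (1 : Equiv.Perm (Fin (N + 1)) → ℝ) - xs t ∅ + (t i - t (w 0)) • 1 =
      t i • 1 - xs t ∅ := by
    rw [sub_smul]; abel
  rwa [h3] at h2

end Ident

theorem ident {n : ℕ} {t : Fin n → ℝ} (ht : Function.Injective t) (Λ : Equiv.Perm (Fin n) → ℝ)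
    (h : ∀ j, j + 1 < n → ∀ η ∈ permV t ^ j, ∑ u, Λ u * η u = 0) :
    ∃ c : ℝ, ∀ u, Λ u = c / ∏ S ∈ inis u, xs t S u := by
  have key : ∀ w u : Equiv.Perm (Fin n), Λ (u * w) * ∏ S ∈ inis (u * w), xs t S (u * w) =
      Λ u * ∏ S ∈ inis u, xs t S u := by
    intro w
    rcases n with _ | m
    · intro u
      rw [Subsingleton.elim (u * w) u]
    · have hw : w ∈ Submonoid.closure
          (Set.range fun i : Fin m => Equiv.swap i.castSucc i.succ) := by
        rw [Equiv.Perm.mclosure_swap_castSucc_succ]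
        exact Submonoid.mem_top w
      induction hw using Submonoid.closure_induction with
      | mem x hx =>
        obtain ⟨k, rfl⟩ := hx
        intro u
        rw [Equiv.mul_swap_eq_swap_mul]
        exact Ident.step Λ h (Ident.adj_succ u k)
      | one => intro u; rw [mul_one]
      | mul x y _ _ hx hy => intro u; rw [← mul_assoc, hy, hx]
  refine ⟨Λ 1 * ∏ S ∈ inis 1, xs t S 1, fun u => ?_⟩
  rw [eq_div_iff (Finset.prod_ne_zero_iff.2 fun S hS => xs_ne_zero ht hS), ← key u 1, one_mul]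

theorem first_nonneg {N : ℕ} {t : Fin (N + 1) → ℝ} (ht : Function.Injective t) :
    0 ≤ ∑ u : Equiv.Perm (Fin (N + 1)),
      (∏ i : Fin N, (t i.succ - t (u 0))) / ∏ S ∈ inis u, xs t S u := by
  have h := sign_base (permSys t ht) (perm_lef ht) (face0 (N + 1)) ⊤ Algebra.mem_top (p := 0)
    (Δ := 1) one_mem_pow_zero (fun g _ => orthLT_zero _)
    (Finset.univ.val.map fun i : Fin N =>
      t i.succ • (1 : Equiv.Perm (Fin (N + 1)) → ℝ) - xs t ∅)
    (by
      intro a ha
      obtain ⟨i, -, rfl⟩ := Multiset.mem_map.1 ha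
      exact fun G _ => Ident.nef_first ht i.succ G)
    (fun _ => Algebra.mem_top) (by
      change 2 * 0 + _ = N + 1 - 1 - (∅ : Finset (Finset (Fin (N + 1)))).card
      simp)
  change 0 ≤ _ * faceφ t ∅ _ at h
  rw [pow_zero, one_mul, mul_one, mul_one, faceφ_apply] at h
  refine h.trans_eq ?_
  rw [Finset.filter_true_of_mem fun w _ => Finset.empty_subset _]
  refine Finset.sum_congr rfl fun u _ => ?_
  rw [Finset.sdiff_empty]
  congr 1
  change (∏ i : Fin N, (t i.succ • (1 : Equiv.Perm (Fin (N + 1)) → ℝ) - xs t ∅)) u = _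
  rw [Finset.prod_apply]
  refine Finset.prod_congr rfl fun i _ => ?_
  rw [Pi.sub_apply, Ident.xs_empty]
  simp

end G94
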