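import Pool.Agent.P.MP_740b33_co.MapB

/-! Package C1: braid functions on ordered fans and tautological relations. -/

namespace G94

open H40M Polynomial

variable {n : ℕ}

lemma fQ_map {Ω : Type} (t : Fin n → Ω → ℝ) {B : Ω → Finset (Fin n)} {N : ℕ}
    (hB : ∀ ω, (B ω).card = N) (ω : Ω) :
    (fQ t B N).map (Pi.evalRingHom (fun _ => ℝ) ω) = ∏ b ∈ B ω, (X + C (t b ω)) := by
  have h1 : (∏ b ∈ B ω, (X + C (t b ω))).natDegree < N + 1 := by
    rw [natDegree_prod_of_monic _ _ fun b _ => monic_X_add_C (t b ω), ← hB ω]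
    simp
  rw [as_sum_range' _ _ h1, fQ, Polynomial.map_sum]
  exact Finset.sum_congr rfl fun j _ => by rw [map_monomial]; rfl

lemma eval_fQ {Ω : Type} (t : Fin n → Ω → ℝ) {B : Ω → Finset (Fin n)} {N : ℕ}
    (hB : ∀ ω, (B ω).card = N) (y : Ω → ℝ) (ω : Ω) :
    (fQ t B N).eval y ω = ∏ b ∈ B ω, (y ω + t b ω) := by
  have h1 : (fQ t B N).eval y ω = ((fQ t B N).map (Pi.evalRingHom (fun _ => ℝ) ω)).eval (y ω) := by
    rw [eval_map]
    exact (eval₂_hom (Pi.evalRingHom (fun _ => ℝ) ω) y).symm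
  rw [h1, fQ_map t hB, eval_prod]
  simp

lemma PermF.lov_layer {z : Fin n → ℝ} {w : Equiv.Perm (Fin n)} (h : Monotone fun k => z (w k))
    (f : Finset (Fin n) → ℝ) : lov z f w = ∑ c ∈ Finset.univ.image z,
      c * (f (Finset.univ.filter fun e => z e ≤ c) - f (Finset.univ.filter fun e => z e < c)) := by
  have key : ∀ a b, z a < z b → w.symm a < w.symm b := fun a b hab => by
    by_contra h1
    have h2 := h (not_lt.1 h1)
    simp only [Equiv.apply_symm_apply] at h2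
    exact absurd hab (not_lt.2 h2)
  rw [lov, ← Finset.sum_fiberwise_of_maps_to (g := z) (t := Finset.univ.image z)
    fun e he => Finset.mem_image_of_mem z he]
  refine Finset.sum_congr rfl fun c _ => ?_
  have h1 := sum_ini w f (S := Finset.univ.filter fun e => z e ≤ c) fun a ha b hb =>
    key a b (by simp at ha hb; linarith)
  have h2 := sum_ini w f (S := Finset.univ.filter fun e => z e < c) fun a ha b hb =>
    key a b (by simp at ha hb; linarith)
  have h3 : f (Finset.univ.filter fun e => z e ≤ c) - f (Finset.univ.filter fun e => z e < c) =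
      ∑ e ∈ Finset.univ.filter fun e => z e = c, (f (insert e (bef w e)) - f (bef w e)) := by
    rw [← sub_sub_sub_cancel_right _ _ (f ∅), ← h1, ← h2, Finset.sum_filter, Finset.sum_filter,
      Finset.sum_filter, ← Finset.sum_sub_distrib]
    refine Finset.sum_congr rfl fun e _ => ?_
    rcases lt_trichotomy (z e) c with h4 | h4 | h4
    · simp [h4, h4.le, h4.ne]
    · simp [h4]
    · simp [h4.ne', not_le.2 h4, not_lt.2 h4.le]
  rw [h3, Finset.mul_sum]
  exact Finset.sum_congr rfl fun e he => by rw [(Finset.mem_filter.1 he).2]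

lemma lov_compat {z : Fin n → ℝ} {w w' : Equiv.Perm (Fin n)} (h : Monotone fun k => z (w k))
    (h' : Monotone fun k => z (w' k)) (f : Finset (Fin n) → ℝ) : lov z f w = lov z f w' := by
  rw [PermF.lov_layer h, PermF.lov_layer h']

lemma xs_nonneg {z : Fin n → ℝ} {w : Equiv.Perm (Fin n)} (h : Monotone fun k => z (w k))
    {S : Finset (Fin n)} (h0 : S ≠ ∅) (h1 : S ≠ Finset.univ) : 0 ≤ xs z S w := by
  by_cases hS : Ini w S
  · obtain ⟨b, hb⟩ := hS.exists_bef h1
    obtain ⟨a, ha⟩ := hS.exists_insert_bef h0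
    have h2 : a ∈ bef w b := by rw [hb, ← ha]; exact Finset.mem_insert_self _ _
    have h3 := h (mem_bef.1 h2).le
    rw [xs_eq hb ha, sub_nonneg]
    simpa using h3
  · rw [xs_eq_zero hS]

namespace PermF

lemma fQ_monic {Ω : Type} (t : Fin n → Ω → ℝ) {B : Ω → Finset (Fin n)} {N : ℕ}
    (hB : ∀ ω, (B ω).card = N) : (fQ t B N).Monic := by
  refine monic_of_natDegree_le_of_coeff_eq_one N ?_ ?_
  · exact natDegree_sum_le_of_forall_le _ _ fun j hj =>
      (natDegree_monomial_le _).trans (Nat.lt_succ_iff.1 (Finset.mem_range.1 hj))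
  · funext ω
    have h1 := congrArg (fun p => p.coeff N) (fQ_map t hB ω)
    have h2 : (∏ b ∈ B ω, (X + C (t b ω))).natDegree = N := by
      rw [natDegree_prod_of_monic _ _ fun b _ => monic_X_add_C (t b ω), ← hB ω]
      simp
    have h3 := (monic_prod_of_monic (B ω) _ fun b _ => monic_X_add_C (t b ω)).coeff_natDegree
    rw [h2] at h3
    simp only [coeff_map, Pi.evalRingHom_apply, h3] at h1
    exact h1

lemma fQ_zero {Ω : Type} (t : Fin n → Ω → ℝ) {w : Ω → Equiv.Perm (Fin n)}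
    {ρ : Finset (Fin n) → ℕ} (hρ : IsRk ρ) (hN : ρ Finset.univ = 0) :
    fQ t (fun ω => greedy ρ (w ω)) 0 = 1 := by
  refine poly_pi_ext fun ω => ?_
  rw [fQ_map t fun ω => (hρ.card_greedy (w ω)).trans hN,
    Finset.card_eq_zero.1 ((hρ.card_greedy (w ω)).trans hN), Finset.prod_empty, Polynomial.map_one]

lemma exists_greedy {ρ : Finset (Fin n) → ℕ} (h : IsRk ρ) {N : ℕ} (hN : ρ Finset.univ = N + 1)
    (w : Equiv.Perm (Fin n)) : ∃ j ∈ greedy ρ w, ρ {j} = 1 := by
  obtain ⟨j, hg⟩ : (greedy ρ w).Nonempty := by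
    rw [← Finset.card_pos, h.card_greedy, hN]
    exact N.succ_pos
  refine ⟨j, hg, ?_⟩
  have h1 := h.submod ∅ (bef w j) j (Finset.empty_subset _)
  have h2 := h.unit ∅ j
  have h3 := mem_greedy.1 hg
  rw [h.empty, show insert j (∅ : Finset (Fin n)) = {j} from rfl] at h1 h2
  omega

lemma ctr_univ {ρ : Finset (Fin n) → ℕ} (h : IsRk ρ) {j : Fin n} (hj : ρ {j} = 1) {N : ℕ}
    (hN : ρ Finset.univ = N + 1) : ctr ρ j Finset.univ = N := by
  have h1 := h.ctr_add hj Finset.univ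
  rw [Finset.insert_eq_of_mem (Finset.mem_univ j)] at h1
  omega

lemma fQ_ctr {Ω : Type} (t : Fin n → Ω → ℝ) (w : Ω → Equiv.Perm (Fin n))
    {ρ : Finset (Fin n) → ℕ} (h : IsRk ρ) {j : Fin n} (hj : ρ {j} = 1) {N : ℕ}
    (hN : ρ Finset.univ = N + 1) : fQ t (fun ω => greedy ρ (w ω)) (N + 1) =
      (X - C (-lovF t w fun A => (ρ A : ℝ) - ctr ρ j A)) *
        fQ t (fun ω => greedy (ctr ρ j) (w ω)) N := by
  refine poly_pi_ext fun ω => ?_
  have h1 := congrArg (Polynomial.map (Pi.evalRingHom (fun _ => ℝ) (w ω)))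
    (matQ_ctr (fun i => t i ω) h hj)
  rw [Polynomial.map_mul, matQ_map _ h, matQ_map _ (h.ctr hj), Polynomial.map_sub, map_X,
    map_C] at h1
  rw [Polynomial.map_mul, fQ_map t fun ω => (h.card_greedy (w ω)).trans hN,
    fQ_map t fun ω => ((h.ctr hj).card_greedy (w ω)).trans (ctr_univ h hj hN), Polynomial.map_sub,
    map_X, map_C]
  exact h1

lemma wt_step {R : Type} [CommRing R] [Algebra ℝ R] [Nontrivial R] {V : Submodule ℝ R} {N : ℕ}
    {a : R} {Q : R[X]} (ha : a ∈ V) (hQ : Wt V N Q) : Wt V (N + 1) ((X - C a) * Q) := by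
  obtain ⟨h1, h2, h3⟩ := hQ
  refine ⟨(monic_X_sub_C a).mul h1, ?_, fun j => ?_⟩
  · rw [(monic_X_sub_C a).natDegree_mul h1, natDegree_X_sub_C, h2, add_comm]
  · rw [sub_mul, coeff_sub, coeff_C_mul]
    refine sub_mem ?_ ?_
    · rcases j with _ | j
      · simp
      · rw [coeff_X_mul]
        simpa using h3 j
    · by_cases hj : j ≤ N
      · exact mul_mem_pow' (mem_pow_one ha) (h3 j) (by omega)
      · rw [coeff_eq_zero_of_natDegree_lt (by omega), mul_zero]
        exact zero_mem _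

/-- The indicator of the sets that span `j` without containing it. -/
noncomputable def fc (ρ : Finset (Fin n) → ℕ) (j : Fin n) (A : Finset (Fin n)) : ℝ :=
  if j ∉ A ∧ ρ (insert j A) = ρ A then 1 else 0

lemma lov_ctr (z : Fin n → ℝ) {ρ : Finset (Fin n) → ℕ} (h : IsRk ρ) {j : Fin n} (hj : ρ {j} = 1)
    (v : Equiv.Perm (Fin n)) :
    lov z (fun A => (ρ A : ℝ) - ctr ρ j A) v = z j + lov z (fc ρ j) v := by
  have e1 : ∀ A, (ρ A : ℝ) - ctr ρ j A = (0 + ∑ e ∈ A, if e = j then 1 else 0) + fc ρ j A := by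
    intro A
    have h1 := h.ctr_add hj A
    have h2 := h.mono A j
    have h3 := h.unit A j
    simp only [fc, Finset.sum_ite_eq', zero_add]
    by_cases hA : j ∈ A
    · rw [Finset.insert_eq_of_mem hA] at h1
      rw [← h1]
      simp [hA]
    · by_cases h4 : ρ (insert j A) = ρ A
      · rw [if_neg hA, if_pos ⟨hA, h4⟩, ← h4, ← h1]
        simp
      · rw [show ctr ρ j A = ρ A by omega]
        simp [hA, h4]
  have e4 := lov_modular z 0 (fun e => if e = j then 1 else 0) v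
  simp only [mul_ite, mul_one, mul_zero, Finset.sum_ite_eq' Finset.univ, Finset.mem_univ,
    if_true] at e4
  rw [← e4]
  unfold lov
  rw [← Finset.sum_add_distrib]
  refine Finset.sum_congr rfl fun e _ => ?_
  simp only [e1]
  ring

lemma neg_lov_fc_nonneg {z : Fin n → ℝ} {ρ : Finset (Fin n) → ℕ} (h : IsRk ρ) {j : Fin n}
    (hj : ρ {j} = 1) {v : Equiv.Perm (Fin n)} (hv : Monotone fun k => z (v k)) :
    0 ≤ -lov z (fc ρ j) v := by
  rw [lov_eq_sum, Finset.sum_apply, ← Finset.sum_neg_distrib]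
  refine Finset.sum_nonneg fun S _ => ?_
  rw [Pi.smul_apply, smul_eq_mul, neg_mul, neg_neg, fc]
  split_ifs with hS
  · rw [one_mul]
    refine xs_nonneg hv ?_ ?_
    · rintro rfl
      have h1 := hS.2
      rw [h.empty, show insert j (∅ : Finset (Fin n)) = {j} from rfl] at h1
      omega
    · rintro rfl
      exact hS.1 (Finset.mem_univ j)
  · rw [zero_mul]

lemma lov_fc_zero (z : Fin n → ℝ) {ρ : Finset (Fin n) → ℕ} (h : IsRk ρ) {j : Fin n}
    {v : Equiv.Perm (Fin n)} (hg : j ∈ greedy ρ v) : lov z (fc ρ j) v = 0 := by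
  rw [lov_eq_sum, Finset.sum_apply]
  refine Finset.sum_eq_zero fun S _ => ?_
  rw [Pi.smul_apply, smul_eq_mul, fc]
  split_ifs with hS
  · rw [xs_eq_zero fun hI => ?_, mul_zero]
    have h1 := h.submod S (bef v j) j fun a ha => mem_bef.2 (hI a ha j hS.1)
    have h2 := hS.2
    rw [mem_greedy] at hg
    omega
  · rw [neg_zero, zero_mul]

end PermF

lemma wt_greedy {Ω : Type} [Nonempty Ω] {V : Submodule ℝ (Ω → ℝ)} (h1 : (1 : Ω → ℝ) ∈ V)
    {t : Fin n → Ω → ℝ} {w : Ω → Equiv.Perm (Fin n)} (hV : ∀ f, lovF t w f ∈ V)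
    {ρ : Finset (Fin n) → ℕ} (hρ : IsRk ρ) :
    Wt V (ρ Finset.univ) (fQ t (fun ω => greedy ρ (w ω)) (ρ Finset.univ)) := by
  induction hN : ρ Finset.univ generalizing ρ with
  | zero =>
    rw [PermF.fQ_zero t hρ hN]
    simpa using wt_prod h1 (∅ : Finset Unit) (fun _ => 0) fun _ h => absurd h (by simp)
  | succ N ih =>
    obtain ⟨j, -, hj⟩ := PermF.exists_greedy hρ hN (w (Classical.arbitrary Ω))
    rw [PermF.fQ_ctr t w hρ hj hN]
    exact PermF.wt_step (neg_mem (hV _)) (ih (hρ.ctr hj) (PermF.ctr_univ hρ hj hN))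

lemma wt_greedy_compl {Ω : Type} [Nonempty Ω] {V : Submodule ℝ (Ω → ℝ)} (h1 : (1 : Ω → ℝ) ∈ V)
    {t : Fin n → Ω → ℝ} {w : Ω → Equiv.Perm (Fin n)} (hV : ∀ f, lovF t w f ∈ V)
    {ρ : Finset (Fin n) → ℕ} (hρ : IsRk ρ) :
    Wt V (n - ρ Finset.univ) (fQ t (fun ω => (greedy ρ (w ω))ᶜ) (n - ρ Finset.univ)) := by
  have hc : ∀ ω, ((greedy ρ (w ω))ᶜ).card = n - ρ Finset.univ := fun ω => by
    rw [Finset.card_compl, hρ.card_greedy, Fintype.card_fin]
  have hle : ρ Finset.univ ≤ n := by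
    rw [← hρ.card_greedy 1]
    simpa using Finset.card_le_univ (greedy ρ 1)
  have ht : ∀ i, t i ∈ V := fun i => by
    have h2 : lovF t w (fun A => 0 + ∑ e ∈ A, if e = i then 1 else 0) = t i := by
      funext ω
      rw [lovF, lov_modular]
      simp
    exact h2 ▸ hV _
  refine wt_of_mul h1 (wt_greedy h1 hV hρ) (PermF.fQ_monic t hc) ?_
  have h3 : fQ t (fun ω => greedy ρ (w ω)) (ρ Finset.univ) *
      fQ t (fun ω => (greedy ρ (w ω))ᶜ) (n - ρ Finset.univ) =
      ∏ i ∈ Finset.univ, (X + C (t i)) := by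
    refine poly_pi_ext fun ω => ?_
    rw [Polynomial.map_mul, fQ_map t (fun ω => hρ.card_greedy (w ω)), fQ_map t hc,
      Finset.prod_mul_prod_compl, Polynomial.map_prod]
    simp
  have h4 := wt_prod h1 Finset.univ t fun i _ => ht i
  rw [Finset.card_univ, Fintype.card_fin] at h4
  rwa [h3, Nat.add_sub_cancel' hle]

namespace Fan

variable {F : Fan}

/-- The values on the rays of the braid function of a set function. -/
noncomputable def lovR (W : Fin n → F.Ray → ℝ) (f : Finset (Fin n) → ℝ) : F.Ray → ℝ :=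
  fun ρ => lov (fun i => W i ρ) f (Tuple.sort fun i => W i ρ)

lemma cl_lovR {W : Fin n → F.Ray → ℝ} {w : F.Cn → Equiv.Perm (Fin n)} (h : F.Ord W w)
    (f : Finset (Fin n) → ℝ) (ξ : F.Ξ) :
    F.cl (lovR W f) ξ = lovF (fun i => F.cl (W i) ξ) w f := by
  funext σ
  rw [cl_congr (f := lovR W f) (g := fun ρ => lov (fun i => W i ρ) f (w σ))
    (fun ρ hρ => lov_compat (Tuple.monotone_sort fun i => W i ρ) (h σ ρ hρ) f)]
  simp only [cl, lovF, lov, Finset.sum_mul]
  rw [Finset.sum_comm]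
  exact Finset.sum_congr rfl fun e _ => Finset.sum_congr rfl fun ρ _ => by ring

lemma wt_mQ {W : Fin n → F.Ray → ℝ} {w : F.Cn → Equiv.Perm (Fin n)} (h : F.Ord W w)
    {ρ : Finset (Fin n) → ℕ} (hρ : IsRk ρ) (ξ : F.Ξ) :
    Wt (F.V ξ) (ρ Finset.univ) (F.mQ ρ W w ξ) :=
  wt_greedy (one_mem_V ξ) (fun f => cl_lovR h f ξ ▸ cl_mem _ ξ) hρ

theorem good_mQ (hB : F.Bal) {ξ : F.Ξ} (hξ : F.Gen ξ) {s : Fin n → F.Ξ →ₗ[ℝ] ℝ}
    {w : F.Cn → Equiv.Perm (Fin n)} (h : F.Ord (fun j => F.lin (s j)) w)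
    {ρ : Finset (Fin n) → ℕ} (hρ : IsRk ρ) (τ : F.Face) :
    (F.sys ξ).Good (ρ Finset.univ) τ (F.mQ ρ (fun j => F.lin (s j)) w ξ) := by
  unfold mQ
  induction hN : ρ Finset.univ generalizing ρ τ with
  | zero => exact PermF.fQ_zero _ hρ hN
  | succ N ih =>
    intro G _
    obtain ⟨σ, hσ⟩ := G.2
    obtain ⟨j, hg, hj⟩ := PermF.exists_greedy hρ hN (w σ)
    refine ⟨_, _, ?_, PermF.fQ_ctr _ w hρ hj hN, ih (hρ.ctr hj) G (PermF.ctr_univ hρ hj hN)⟩
    have h1 : (-lovF (fun i => F.cl (F.lin (s i)) ξ) w fun A => (ρ A : ℝ) - ctr ρ j A) =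
        algebraMap ℝ _ (-s j ξ) + F.cl (-lovR (fun i => F.lin (s i)) (PermF.fc ρ j)) ξ := by
      rw [cl_neg, cl_lovR h]
      funext σ'
      rw [Pi.neg_apply, lovF, PermF.lov_ctr _ hρ hj, cl_lin]
      simp [lovF]
      ring
    rw [h1]
    refine (eff_const hB hξ _ G).add (eff_nn ξ G (fun _ r _ => ?_) fun r hr => ?_)
    · exact PermF.neg_lov_fc_nonneg hρ hj (Tuple.monotone_sort fun i => F.lin (s i) r)
    · rw [Pi.neg_apply, lovR,
        lov_compat (Tuple.monotone_sort fun i => F.lin (s i) r) (h σ r (hσ hr)),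
        PermF.lov_fc_zero _ hρ hg, neg_zero]

end Fan

lemma Map.mQ_pull {F' F : Fan} {f : ℕ} (M : Map F' F f) (ρ : Finset (Fin n) → ℕ)
    (W : Fin n → F.Ray → ℝ) (w : F.Cn → Equiv.Perm (Fin n)) (ξ : F'.Ξ) :
    F'.mQ ρ (fun i => M.pull (W i)) (fun σ => w (M.par σ)) ξ =
      (F.mQ ρ W w (M.pr ξ)).map (M.ι : (F.Cn → ℝ) →+* (F'.Cn → ℝ)) := by
  rw [Fan.mQ, Fan.mQ, fQ, fQ, Polynomial.map_sum]
  refine Finset.sum_congr rfl fun j _ => ?_
  rw [map_monomial]
  simp only [M.cl_pull]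
  rfl

end G94
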