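import Pool.Agent.P.MP_740b33_co.Refine
import Pool.Agent.P.MP_740b33_co.GExt
import Pool.Agent.P.MP_740b33_co.PermF
import Pool.Agent.P.MP_740b33_co.Ident

/-! Package C9: bundles as graded extensions, products of projective spaces, the braid bundle. -/

namespace G94

open H40M Polynomial

namespace BaseF

variable {F F' : Fan} {N : ℕ} {M : Map F' F N} {b : Fin (N + 1) → F.Ray → ℝ} {Y : F'.Ray → ℝ}
  {s : Fin (N + 1) → F'.Ξ →ₗ[ℝ] ℝ} {top : F'.Cn → Fin (N + 1)}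

lemma rel (hB : F'.Bal) (hM : IsBunW M b Y s top) {ξ : F'.Ξ} (hξ : F'.Gen ξ) {i : ℕ}
    (hi : i + (N + 1) = F.d + N) {ζ : F'.Cn → ℝ} (hζ : ζ ∈ F'.V ξ ^ i) :
    F'.φ ξ ((∏ j, (F'.cl Y ξ - M.ι (F.cl (b j) (M.pr ξ)))) * ζ) = 0 := by
  have h := shift (V := F'.V ξ) (φ := F'.φ ξ) (d := F'.d) (Fan.one_mem_V ξ) (hB ξ hξ)
    Finset.univ (fun j => F'.cl Y ξ - M.ι (F.cl (b j) (M.pr ξ))) (fun j => -s j ξ)
    (fun j _ => sub_mem (Fan.cl_mem _ _) (M.ι_mem ξ _ (Fan.cl_mem _ _))) hζ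
    (by rw [M.dim, ← hi]; simp)
  rw [mul_comm, ← h]
  have h0 : ∏ j, (F'.cl Y ξ - M.ι (F.cl (b j) (M.pr ξ)) +
      algebraMap ℝ (F'.Cn → ℝ) (-s j ξ)) = 0 := by
    funext σ
    rw [Finset.prod_apply]
    refine Finset.prod_eq_zero (Finset.mem_univ (top σ)) ?_
    simp [hM.cl_top ξ σ, Map.ι_apply]
  rw [h0, mul_zero, map_zero]

lemma push_pow (hM : IsBunW M b Y s top) {ξ : F'.Ξ} (hξ : F'.Gen ξ) {κ : Type} (t : Finset κ)
    (g : κ → F.Cn → ℝ) : ∀ e, e + t.card ≤ N →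
      M.push ξ (F'.cl Y ξ ^ e * ∏ i ∈ t, (F'.cl Y ξ - M.ι (g i))) =
        if e + t.card = N then 1 else 0 := by
  classical
  induction t using Finset.induction_on with
  | empty =>
    intro e he
    simp only [Finset.card_empty, add_zero, Finset.prod_empty, mul_one] at he ⊢
    split_ifs with h
    · rw [h]; exact hM.one ξ hξ
    · exact (M.push_mem ξ hξ e _ (pow_mem_pow (Fan.cl_mem _ _) e)).2 (by omega)
  | insert a t ha ih =>
    intro e he
    rw [Finset.card_insert_of_notMem ha] at he ⊢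
    have h1 : F'.cl Y ξ ^ e * ∏ i ∈ insert a t, (F'.cl Y ξ - M.ι (g i)) =
        F'.cl Y ξ ^ (e + 1) * ∏ i ∈ t, (F'.cl Y ξ - M.ι (g i)) -
          M.ι (g a) * (F'.cl Y ξ ^ e * ∏ i ∈ t, (F'.cl Y ξ - M.ι (g i))) := by
      rw [Finset.prod_insert ha]; ring
    rw [h1, map_sub, M.push_ι_mul, ih (e + 1) (by omega), ih e (by omega),
      if_neg (show ¬ e + t.card = N by omega), mul_zero, sub_zero]
    exact if_congr (by omega) rfl rfl

lemma eq_one_of_ini {n : ℕ} {u : Equiv.Perm (Fin n)}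
    (h : ∀ S ∈ inis (1 : Equiv.Perm (Fin n)), Ini u S) : u = 1 := by
  refine (eq_of_order (w := 1) fun a c hac => ?_).symm
  have h1 : a ∈ bef (1 : Equiv.Perm (Fin n)) c := mem_bef.2 hac
  refine h (bef 1 c) (mem_inis.2 ⟨Finset.ne_empty_of_mem h1, fun h2 => ?_, ini_bef _ _⟩) a h1 c
    (not_mem_bef_self _ _)
  exact not_mem_bef_self 1 c (h2 ▸ Finset.mem_univ c)

/-- Push-forward of a function of the base cone and a label. -/
lemma push_label {f : ℕ} (M : Map F' F f) (ξ : F'.Ξ) {κ : Type} [Fintype κ] [DecidableEq κ]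
    (w : F'.Cn → κ) (p : F.Cn) (G : κ → ℝ) {η : F'.Cn → ℝ}
    (h : ∀ σ, M.par σ = p → η σ = G (w σ)) :
    M.push ξ η p = ∑ u, M.push ξ (fun σ => if w σ = u then 1 else 0) p * G u := by
  have h1 : M.push ξ (η - ∑ u, G u • fun σ => if w σ = u then (1 : ℝ) else 0) p = 0 := by
    refine M.push_eq_zero_at ξ fun σ hσ => ?_
    simp [h σ hσ, Finset.sum_apply]
  rw [map_sub, map_sum, Pi.sub_apply, sub_eq_zero, Finset.sum_apply] at h1
  rw [h1]
  refine Finset.sum_congr rfl fun u _ => ?_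
  rw [map_smul, Pi.smul_apply, smul_eq_mul, mul_comm]

lemma lift_perm {n : ℕ} {W : Fin n → F'.Ray → ℝ} {w : F'.Cn → Equiv.Perm (Fin n)}
    (hw : F'.Ord W w) (ξ : F'.Ξ) (A : F'.Cn → Prop) {t : Fin n → ℝ}
    (ht : ∀ σ, A σ → ∀ i, F'.cl (W i) ξ σ = t i) (j : ℕ) :
    ∀ η ∈ permV t ^ j, ∃ η' ∈ F'.V ξ ^ j, ∀ σ, A σ → η' σ = η (w σ) := by
  have h1 : ∀ η ∈ permV t, ∃ η' ∈ F'.V ξ, ∀ σ, A σ → η' σ = η (w σ) := by
    intro η hη
    induction hη using Submodule.span_induction with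
    | mem x hx =>
      rcases hx with rfl | ⟨f, rfl⟩
      · exact ⟨1, Fan.one_mem_V ξ, fun _ _ => rfl⟩
      · refine ⟨F'.cl (Fan.lovR W f) ξ, Fan.cl_mem _ _, fun σ hσ => ?_⟩
        rw [Fan.cl_lovR hw, lovF, funext (ht σ hσ)]
    | zero => exact ⟨0, zero_mem _, fun _ _ => rfl⟩
    | add x y _ _ hx hy =>
      obtain ⟨x', h1, h2⟩ := hx
      obtain ⟨y', h3, h4⟩ := hy
      exact ⟨x' + y', add_mem h1 h3, fun σ hσ => by simp [h2 σ hσ, h4 σ hσ]⟩
    | smul c x _ hx =>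
      obtain ⟨x', h1, h2⟩ := hx
      exact ⟨c • x', Submodule.smul_mem _ _ h1, fun σ hσ => by simp [h2 σ hσ]⟩
  induction j with
  | zero =>
    intro η hη
    obtain ⟨c, rfl⟩ := mem_pow_zero_iff.1 hη
    exact ⟨algebraMap ℝ _ c, mem_pow_zero_iff.2 ⟨c, rfl⟩, fun _ _ => rfl⟩
  | succ j ih =>
    intro η hη
    refine pow_succ_induction
      (P := fun η => ∃ η' ∈ F'.V ξ ^ (j + 1), ∀ σ, A σ → η' σ = η (w σ)) ?_ ?_ hη
    · intro v hv a ha
      obtain ⟨v', h2, h3⟩ := h1 v hv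
      obtain ⟨a', h4, h5⟩ := ih a ha
      exact ⟨v' * a', mul_mem_pow' (mem_pow_one h2) h4 (by omega), fun σ hσ => by
        simp [h3 σ hσ, h5 σ hσ]⟩
    · rintro x y ⟨x', h2, h3⟩ ⟨y', h4, h5⟩
      exact ⟨x' + y', add_mem h2 h4, fun σ hσ => by simp [h3 σ hσ, h5 σ hσ]⟩

/-- The localisation weights of the fibre are those of the braid fan. -/
lemma braid (hM : IsBunW M b Y s top) {W : Fin (N + 1) → F'.Ray → ℝ}
    (hW : ∀ i, W i = -(M.pull (b i) + F'.lin (s i))) {w : F'.Cn → Equiv.Perm (Fin (N + 1))}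
    (hw : F'.Ord W w) {ξ : F'.Ξ} (hξ : F'.Gen ξ) :
    ∃ c : ℝ, 0 < c ∧ ∀ p u, M.push ξ (fun σ => if w σ = u then 1 else 0) p =
      c / ∏ S ∈ inis u, xs (fun i => -(F.cl (b i) (M.pr ξ) p + s i ξ)) S u := by
  set t : F.Cn → Fin (N + 1) → ℝ := fun p i => -(F.cl (b i) (M.pr ξ) p + s i ξ) with htdef
  have ht : ∀ p, Function.Injective (t p) := fun p i j hij => hM.inj ξ hξ p (neg_injective hij)
  have hcl : ∀ σ i, F'.cl (W i) ξ σ = t (M.par σ) i := by
    intro σ i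
    rw [hW, Fan.cl_neg, Fan.cl_add, M.cl_pull, Fan.cl_lin]
    rfl
  have hcl' : ∀ p σ, M.par σ = p → ∀ i, F'.cl (W i) ξ σ = t p i := by
    rintro _ σ rfl i; exact hcl σ i
  have h1 : ∀ p, ∃ c : ℝ, ∀ u, M.push ξ (fun σ => if w σ = u then 1 else 0) p =
      c / ∏ S ∈ inis u, xs (t p) S u := by
    intro p
    refine ident (ht p) _ fun j hj η hη => ?_
    obtain ⟨η', h2, h3⟩ := lift_perm hw ξ (fun σ => M.par σ = p) (hcl' p) j η hη
    rw [← push_label M ξ w p η h3]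
    exact congrFun ((M.push_mem ξ hξ j η' h2).2 (by omega)) p
  choose c hc using h1
  have hE : ∏ S ∈ inis (1 : Equiv.Perm (Fin (N + 1))),
      F'.cl (Fan.lovR W fun A => if A = S then -1 else 0) ξ ∈ F'.V ξ ^ N := by
    have h2 := prod_mem_pow (V := F'.V ξ) (inis (1 : Equiv.Perm (Fin (N + 1))))
      (fun S => F'.cl (Fan.lovR W fun A => if A = S then -1 else 0) ξ) (fun _ => 1)
      fun S _ => mem_pow_one (Fan.cl_mem _ _)
    have h3 := card_inis_le (1 : Equiv.Perm (Fin (N + 1)))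
    refine mem_pow_of_le (Fan.one_mem_V ξ) ?_ h2
    simpa using h3
  have h2 := (M.push_mem ξ hξ N _ hE).1
  rw [Nat.sub_self] at h2
  obtain ⟨c0, hc0⟩ := mem_pow_zero_iff.1 h2
  have h3 : ∀ p, c p = c0 := by
    intro p
    have h4 := push_label M ξ w p (fun u => ∏ S ∈ inis (1 : Equiv.Perm (Fin (N + 1))), xs (t p) S u)
      (η := ∏ S ∈ inis (1 : Equiv.Perm (Fin (N + 1))),
        F'.cl (Fan.lovR W fun A => if A = S then -1 else 0) ξ) (fun σ hσ => by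
        rw [Finset.prod_apply]
        refine Finset.prod_congr rfl fun S _ => ?_
        rw [Fan.cl_lovR hw, lovF, funext (hcl' p σ hσ)]
        rfl)
    rw [Finset.sum_eq_single 1, hc, div_mul_cancel₀ _
      (Finset.prod_ne_zero_iff.2 fun S hS => xs_ne_zero (ht p) hS)] at h4
    · rw [← h4]
      exact (congrFun hc0 p).symm
    · intro u _ hu
      by_contra h5
      refine hu (eq_one_of_ini fun S hS => ?_)
      by_contra h6
      exact h5 (by rw [Finset.prod_eq_zero hS (xs_eq_zero h6), mul_zero])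
    · simp
  refine ⟨c0, ?_, fun p u => by rw [hc, h3]⟩
  obtain ⟨p⟩ := F.ne
  have h4 := push_pow hM hξ Finset.univ
    (fun i : Fin N => F.cl (b i.succ) (M.pr ξ) + algebraMap ℝ _ (s i.succ ξ)) 0 (by simp)
  rw [if_pos (by simp), pow_zero, one_mul] at h4
  have h5 := push_label M ξ w p (fun u => ∏ i : Fin N, (t p i.succ - t p (u 0)))
    (η := ∏ i : Fin N, (F'.cl Y ξ -
      M.ι (F.cl (b i.succ) (M.pr ξ) + algebraMap ℝ _ (s i.succ ξ)))) (fun σ hσ => by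
      rw [Finset.prod_apply]
      refine Finset.prod_congr rfl fun i _ => ?_
      have h6 : F'.cl Y ξ σ = -F'.cl (W (w σ 0)) ξ σ := by
        rw [← Pi.neg_apply (F'.cl (W (w σ 0)) ξ), ← Fan.cl_neg]
        refine Fan.cl_congr (fun ρ hρ => le_antisymm ?_ ?_) ξ
        · have h7 := hw σ ρ hρ (Fin.zero_le ((w σ).symm (top σ)))
          simp only [Equiv.apply_symm_apply] at h7
          rw [hM.eq σ ρ hρ]
          rw [hW (top σ)] at h7
          simp only [Pi.neg_apply, Pi.add_apply] at h7 ⊢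
          linarith
        · rw [hW]
          simpa using hM.le (w σ 0) ρ
      rw [Pi.sub_apply, h6, hcl' p σ hσ, Map.ι_apply, hσ]
      simp only [htdef, Pi.add_apply, Pi.algebraMap_apply, Algebra.algebraMap_self, RingHom.id_apply]
      ring)
  rw [h4] at h5
  have h6 : (1 : ℝ) = c0 * ∑ u : Equiv.Perm (Fin (N + 1)),
      (∏ i : Fin N, (t p i.succ - t p (u 0))) / ∏ S ∈ inis u, xs (t p) S u := by
    rw [Finset.mul_sum]
    refine h5.trans (Finset.sum_congr rfl fun u _ => ?_)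
    rw [hc, h3]
    ring
  have h7 := first_nonneg (ht p)
  by_contra h8
  nlinarith [mul_nonneg (neg_nonneg.2 (not_lt.1 h8)) h7]

lemma shift_pow (hB : F.Bal) {ξ : F.Ξ} (hξ : F.Gen ξ) {k : ℕ} (x : Fin k → F.Cn → ℝ)
    (hx : ∀ i, x i ∈ F.V ξ) (c : Fin k → ℝ) (e : Fin k → ℕ) (he : ∑ i, e i = F.d) :
    F.φ ξ (∏ i, (x i + algebraMap ℝ _ (c i)) ^ e i) = F.φ ξ (∏ i, x i ^ e i) := by
  have h := shift (V := F.V ξ) (φ := F.φ ξ) (d := F.d) (Fan.one_mem_V ξ) (hB ξ hξ)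
    (Finset.univ.sigma fun i : Fin k => Finset.range (e i)) (fun i => x i.1) (fun i => c i.1)
    (fun i _ => hx i.1) (one_mem_pow_zero (V := F.V ξ)) (by simp [Finset.card_sigma, he])
  simpa [Finset.prod_sigma] using h

end BaseF

theorem IsBunW.gext {F F' : Fan} {N : ℕ} {M : Map F' F N} (hB : F'.Bal)
    {b : Fin (N + 1) → F.Ray → ℝ} {Y : F'.Ray → ℝ} {s : Fin (N + 1) → F'.Ξ →ₗ[ℝ] ℝ}
    {top : F'.Cn → Fin (N + 1)} (hM : IsBunW M b Y s top) {ξ : F'.Ξ} (hξ : F'.Gen ξ) :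
    GExt (F.V (M.pr ξ)) (F.φ (M.pr ξ)) F.d (F'.V ξ) (F'.φ ξ) M.ι (F'.cl Y ξ) N
      (∏ j, (X + C (-F.cl (b j) (M.pr ξ)))) 1 := by
  refine GExt.of_push (Fan.one_mem_V _) ?_ (Fan.one_mem_V _) (M.ι_mem ξ) (Fan.cl_mem _ _)
    (fun j ζ hζ => ⟨M.push ξ ζ, (M.push_mem ξ hξ j ζ hζ).1, (M.push_mem ξ hξ j ζ hζ).2,
      fun g => M.φ_ι_mul hξ g ζ⟩) (fun g => ?_) fun i hi ζ hζ => ?_
  · simpa using wt_prod (Fan.one_mem_V (M.pr ξ)) Finset.univ (fun j => -F.cl (b j) (M.pr ξ))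
      fun j _ => neg_mem (Fan.cl_mem _ _)
  · rw [M.φ_ι_mul hξ, hM.one ξ hξ, mul_one, one_mul]
  · rw [← BaseF.rel hB hM hξ hi hζ, map_prod]
    simp only [map_add, aevalTower_X, aevalTower_C, map_neg, sub_eq_add_neg]

theorem exists_prod (k : ℕ) (a : Fin k → ℕ) :
    ∃ (F : Fan) (H : Fin k → F.Ray → ℝ), F.Good ∧ (∀ i, F.Conv (H i)) ∧ F.d = ∑ i, a i ∧
      ∀ ξ, F.Gen ξ → ∀ a' : Fin k → ℕ, ∑ i, a' i = ∑ i, a i →
        F.φ ξ (∏ i, F.cl (H i) ξ ^ a' i) = if a' = a then 1 else 0 := by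
  induction k with
  | zero =>
    refine ⟨point, Fin.elim0, point_good, fun i => i.elim0, rfl, fun ξ _ a' _ => ?_⟩
    rw [if_pos (Subsingleton.elim _ _), Finset.univ_eq_empty, Finset.prod_empty, point_φ]
  | succ k ih =>
    obtain ⟨F, H, hF, hH, hd, hφ⟩ := ih fun i => a i.succ
    obtain ⟨F', M, Y, s, top, hF', hM⟩ :=
      exists_bun hF (N := a 0) (b := fun _ => 0) fun _ => Fan.conv_zero
    refine ⟨F', Fin.cons Y fun i => M.pull (H i), hF', fun i => ?_, ?_, fun ξ hξ a' ha' => ?_⟩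
    · refine Fin.cases ?_ (fun i => ?_) i
      · exact hM.weak.conv fun _ => Fan.conv_zero
      · exact M.conv (hH i)
    · rw [M.dim, hd, Fin.sum_univ_succ, add_comm]
    · rw [Fin.sum_univ_succ, Fin.sum_univ_succ] at ha'
      have hg : ∏ i : Fin k, F.cl (H i) (M.pr ξ) ^ a' i.succ ∈
          F.V (M.pr ξ) ^ (∑ i : Fin k, a' i.succ) :=
        prod_mem_pow _ _ _ fun i _ => pow_mem_pow (Fan.cl_mem _ _) _
      simp only [Fin.prod_univ_succ, Fin.cons_zero, Fin.cons_succ, M.cl_pull, ← map_pow,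
        ← map_prod]
      rcases lt_trichotomy (a' 0) (a 0) with h | h | h
      · rw [if_neg fun h1 => by rw [h1] at h; exact lt_irrefl _ h, mul_comm, M.φ_ι_mul hξ]
        have h2 : M.push ξ (F'.cl Y ξ ^ a' 0) = 0 :=
          (M.push_mem ξ hξ _ _ (pow_mem_pow (Fan.cl_mem _ _) _)).2 h
        rw [h2, mul_zero, map_zero]
      · rw [mul_comm, M.φ_ι_mul hξ, h, hM.weak.one ξ hξ, mul_one,
          hφ _ (M.gen ξ hξ) (fun i => a' i.succ) (by omega)]
        refine if_congr ⟨fun h1 => ?_, fun h1 => by rw [h1]⟩ rfl rfl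
        funext i
        exact Fin.cases h (fun i => congrFun h1 i) i
      · rw [if_neg fun h1 => by rw [h1] at h; exact lt_irrefl _ h]
        obtain ⟨e, he⟩ := Nat.exists_eq_add_of_lt h
        have h2 := BaseF.rel hF'.bal hM.weak hξ (i := e + ∑ i : Fin k, a' i.succ) (by omega)
          (mul_mem_pow (pow_mem_pow (Fan.cl_mem Y ξ) e) (map_mem_pow M.ι (M.ι_mem ξ) hg))
        simp only [Fan.cl_zero, map_zero, sub_zero, Finset.prod_const, Finset.card_univ,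
          Fintype.card_fin] at h2
        rw [← h2, he]
        congr 1
        ring

theorem exists_base (N : ℕ) (a : Fin N →₀ ℕ) :
    ∃ (F : Fan) (W : Fin (N + 1) → F.Ray → ℝ) (w : F.Cn → Equiv.Perm (Fin (N + 1))),
      F.Good ∧ F.Base W w ∧ F.d = ∑ i, a i + N ∧ ∀ ξ, F.Gen ξ → ∃ c : ℝ, 0 < c ∧
        ∀ (P : MvPolynomial (Fin N) ℝ) (H : (Fin (N + 1) → ℝ) → Equiv.Perm (Fin (N + 1)) → ℝ),
          (∀ a' ∈ P.support, ∑ i, a' i = ∑ i, a i) →
          (∀ t, Function.Injective t → ∑ u, H t u / ∏ S ∈ inis u, xs t S u =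
            MvPolynomial.eval (fun i => t i.succ - t i.castSucc) P) →
          F.φ ξ (fun σ => H (fun i => F.cl (W i) ξ σ) (w σ)) = c * P.coeff a := by
  obtain ⟨F0, L, hF0, hL, hd, hφ⟩ := exists_prod N a
  set b : Fin (N + 1) → F0.Ray → ℝ :=
    fun i => ∑ k ∈ Finset.univ.filter fun k : Fin N => (i : ℕ) ≤ k, L k with hbdef
  have hb : ∀ i, F0.Conv (b i) := fun i => Fan.conv_sum _ fun k _ => hL k
  have hbb : ∀ i l : Fin (N + 1), i ≤ l → b i - b l =
      ∑ k ∈ Finset.univ.filter fun k : Fin N => (i : ℕ) ≤ k ∧ (k : ℕ) < l, L k := by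
    intro i l hil
    simp only [hbdef, Finset.sum_filter, ← Finset.sum_sub_distrib]
    refine Finset.sum_congr rfl fun k _ => ?_
    have h1 : (i : ℕ) ≤ l := hil
    split_ifs <;> first | omega | simp
  have hb1 : ∀ i : Fin N, b i.castSucc - b i.succ = L i := by
    intro i
    rw [hbb _ _ (Fin.castSucc_le_succ i), Finset.sum_eq_single i]
    · intro k hk hki
      simp only [Finset.mem_filter, Fin.val_castSucc, Fin.val_succ] at hk
      exact absurd (Fin.ext (by omega)) hki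
    · simp
  obtain ⟨F1, M1, Y1, s1, top1, hF1, hM1⟩ := exists_bun hF0 hb
  obtain ⟨F, R, hF, hR, hS⟩ := exists_ref hF1 fun q : Fin (N + 1) × Fin (N + 1) =>
    -(M1.pull (b q.1) + F1.lin (s1 q.1)) - -(M1.pull (b q.2) + F1.lin (s1 q.2))
  have hM := hM1.weak.refine hR
  set M := R.comp M1 (Nat.add_zero N) with hMdef
  set s : Fin (N + 1) → F.Ξ →ₗ[ℝ] ℝ := fun j => s1 j ∘ₗ R.pr with hsdef
  set W : Fin (N + 1) → F.Ray → ℝ := fun i => -(M.pull (b i) + F.lin (s i)) with hWdef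
  have hW : ∀ i, W i = R.pull (-(M1.pull (b i) + F1.lin (s1 i))) := by
    intro i
    rw [R.pull_neg, R.pull_add, R.pull_lin, ← Map.comp_pull R M1 (Nat.add_zero N)]
  obtain ⟨w, hw⟩ := exists_ord W fun i j => by
    rw [hW, hW, ← R.pull_sub]; exact hS (i, j)
  have hcl : ∀ ξ σ i, F.cl (W i) ξ σ = -(F0.cl (b i) (M.pr ξ) (M.par σ) + s i ξ) := by
    intro ξ σ i
    rw [hWdef, Fan.cl_neg, Fan.cl_add, M.cl_pull, Fan.cl_lin]
    rfl
  refine ⟨F, W, w, hF, ⟨hw, fun j => ?_, fun i l hil => ?_, fun ξ hξ σ i j hij => ?_⟩, ?_,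
    fun ξ hξ => ?_⟩
  · rw [hWdef, neg_neg]
    exact (M.conv (hb j)).add (Fan.conv_lin _)
  · have h1 : W l - W i = M.pull (b i - b l) + (F.lin (s i) + -F.lin (s l)) := by
      rw [M.pull_sub, hWdef]; ring
    rw [h1, hbb i l hil]
    exact (M.conv (Fan.conv_sum _ fun k _ => hL k)).add
      ((Fan.conv_lin _).add (Fan.conv_neg_lin _))
  · simp only [hcl] at hij
    exact hM.inj ξ hξ (M.par σ) (neg_injective hij)
  · rw [M.dim, hd]
  obtain ⟨c, hc, hΛ⟩ := BaseF.braid hM (W := W) (fun _ => rfl) hw hξ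
  refine ⟨c, hc, fun P H hP hH => ?_⟩
  have h1 : M.push ξ (fun σ => H (fun i => F.cl (W i) ξ σ) (w σ)) =
      c • ∑ a' ∈ P.support, P.coeff a' • ∏ i, (F0.cl (L i) (M.pr ξ) +
        algebraMap ℝ (F0.Cn → ℝ) (s i.castSucc ξ - s i.succ ξ)) ^ a' i := by
    funext p
    rw [BaseF.push_label M ξ w p (H fun i => -(F0.cl (b i) (M.pr ξ) p + s i ξ))
      fun σ hσ => by simp only [hcl, hσ]]
    have h2 := hH (fun i => -(F0.cl (b i) (M.pr ξ) p + s i ξ))
      fun i j hij => hM.inj ξ hξ p (neg_injective hij)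
    rw [MvPolynomial.eval_eq'] at h2
    have h3 : ∀ i : Fin N, -(F0.cl (b i.succ) (M.pr ξ) p + s i.succ ξ) -
        -(F0.cl (b i.castSucc) (M.pr ξ) p + s i.castSucc ξ) =
        F0.cl (L i) (M.pr ξ) p + (s i.castSucc ξ - s i.succ ξ) := by
      intro i
      rw [← hb1, Fan.cl_sub, Pi.sub_apply]; ring
    simp only [h3] at h2
    simp only [hΛ, Pi.smul_apply, Finset.sum_apply, Finset.prod_apply, Pi.pow_apply, Pi.add_apply,
      Pi.algebraMap_apply, Algebra.algebraMap_self, RingHom.id_apply, smul_eq_mul, ← h2,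
      Finset.mul_sum]
    exact Finset.sum_congr rfl fun u _ => by ring
  rw [M.φ_push hξ, h1, map_smul, map_sum, smul_eq_mul]
  congr 1
  have h2 : ∀ a' ∈ P.support, F0.φ (M.pr ξ) (P.coeff a' • ∏ i, (F0.cl (L i) (M.pr ξ) +
      algebraMap ℝ (F0.Cn → ℝ) (s i.castSucc ξ - s i.succ ξ)) ^ a' i) =
      if a' = a then P.coeff a' else 0 := by
    intro a' ha'
    rw [map_smul, BaseF.shift_pow hF0.bal (M.gen ξ hξ) _ (fun i => Fan.cl_mem _ _) _ _
      ((hP a' ha').trans hd.symm), hφ _ (M.gen ξ hξ) _ (hP a' ha'), smul_eq_mul]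
    simp only [DFunLike.coe_fn_eq, mul_ite, mul_one, mul_zero]
  rw [Finset.sum_congr rfl h2, Finset.sum_ite_eq']
  split_ifs with h
  · rfl
  · exact (MvPolynomial.notMem_support_iff.1 h).symm

end G94
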