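import Pool.Agent.P.MP_740b33_co.BunMap

/-! Package B5: split projective bundles with convex roots over good fans are good. -/

namespace G94

open H40M Polynomial

namespace BunGood

variable {F : Fan} {N : ℕ} (b : Fin (N + 1) → F.Ray → ℝ)

lemma bunL_inl' (σ : F.Cn) (j : Fin (N + 1)) (ρ : F.Ray) :
    F.bunL b σ j (F.bunV b (Sum.inl ρ)) = F.cl (b j) (F.v ρ) σ + (b 0 ρ - b j ρ) := by
  refine Fin.cases ?_ (fun i => ?_) j <;> simp [Fan.bunL, Fan.bunS, Fan.bunV, Fan.loc_apply]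

lemma cl_elim (g : F.Ray → ℝ) (ξ : (F.bun b).Ξ) (σ : (F.bun b).Cn) :
    (F.bun b).cl (Sum.elim g fun _ => 1) ξ σ =
      F.cl g ξ.1 σ.1 + ∑ j, (F.bunL b σ.1 σ.2 ξ - F.bunL b σ.1 j ξ) := by
  change ∑ ρ : F.Ray ⊕ Fin (N + 1), Sum.elim g (fun _ => (1 : ℝ)) ρ * F.bunX b σ ρ ξ = _
  rw [Fintype.sum_sum_type]
  simp only [Sum.elim_inl, Sum.elim_inr, one_mul]
  rfl

lemma sconv {l : F.Ray → ℝ} (hl : F.SConv l) (hb : ∀ j, F.Conv (b j)) :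
    ∃ g, (F.bun b).SConv g := by
  obtain ⟨K, hK, h⟩ := hl.dom (-∑ j, b j)
  have h1 := (h K le_rfl).1
  refine ⟨Sum.elim (K • l) fun _ => 1, ?_, ?_⟩
  · rintro σ (ρ | j) hρ
    · have hρ' : ρ ∉ F.rays σ.1 := fun h2 => hρ (Finset.inl_mem_disjSum.2 h2)
      have h2 := h1 σ.1 ρ hρ'
      rw [Fan.cl_add, Fan.cl_neg, Fan.cl_sum] at h2
      simp only [Pi.add_apply, Pi.neg_apply, Finset.sum_apply] at h2
      rw [cl_elim]
      change F.cl (K • l) (F.v ρ) σ.1 + ∑ j, (F.bunL b σ.1 σ.2 (F.bunV b (Sum.inl ρ)) -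
        F.bunL b σ.1 j (F.bunV b (Sum.inl ρ))) < (K • l) ρ
      have h3 : ∑ j, (F.bunL b σ.1 σ.2 (F.bunV b (Sum.inl ρ)) -
          F.bunL b σ.1 j (F.bunV b (Sum.inl ρ))) ≤ ∑ j, (b j ρ - F.cl (b j) (F.v ρ) σ.1) := by
        refine Finset.sum_le_sum fun j _ => ?_
        rw [bunL_inl', bunL_inl']
        have := hb σ.2 σ.1 ρ
        linarith
      have h4 : ∑ j, (b j ρ - F.cl (b j) (F.v ρ) σ.1) =
          ∑ j, b j ρ - ∑ j, F.cl (b j) (F.v ρ) σ.1 := Finset.sum_sub_distrib _ _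
      linarith
    · have hj : j = σ.2 := by
        by_contra hj
        exact hρ (Finset.inr_mem_disjSum.2 (Finset.mem_erase.2 ⟨hj, Finset.mem_univ _⟩))
      rw [cl_elim]
      change F.cl (K • l) 0 σ.1 + ∑ k, (F.bunL b σ.1 σ.2 (F.bunV b (Sum.inr j)) -
        F.bunL b σ.1 k (F.bunV b (Sum.inr j))) < 1
      have h0 : F.cl (K • l) 0 σ.1 = 0 := by simp [Fan.cl]
      have h3 : ∑ k, (F.bunL b σ.1 σ.2 (F.bunV b (Sum.inr j)) -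
          F.bunL b σ.1 k (F.bunV b (Sum.inr j))) ≤ 0 := by
        refine Finset.sum_nonpos fun k _ => ?_
        rw [Fan.bunL_inr, Fan.bunL_inr, if_pos hj]
        split_ifs <;> norm_num
      linarith
  · rintro (ρ | j)
    · exact mul_pos hK (hl.2 ρ)
    · exact one_pos

lemma φ_bunEv {ξ : (F.bun b).Ξ} (hξ : (F.bun b).Gen ξ) (P : (F.Cn → ℝ)[X]) :
    (F.bun b).φ ξ (F.bunEv b ξ P) = F.φ ξ.1 (push (N + 1) (F.bunQ b ξ) P) := by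
  rw [(F.bunMap b).φ_push hξ, ← F.pushF_bunEv b hξ]
  rfl

lemma prod_xr (ξ : (F.bun b).Ξ) (τ : Finset F.Ray) (J : Finset (Fin (N + 1))) :
    ∏ ρ ∈ τ.disjSum J, (F.bun b).xr ρ ξ =
      F.bunEv b ξ (C (∏ ρ ∈ τ, F.xr ρ ξ.1) * ∏ j ∈ J, (X + C (-F.bunR b ξ j))) := by
  rw [map_mul, map_prod, map_prod, map_prod]
  refine (Finset.prod_disjSum τ J fun ρ => (F.bun b).xr ρ ξ).trans ?_
  congr 1
  · exact Finset.prod_congr rfl fun ρ _ => F.bun_xr_inl b ξ ρ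
  · exact Finset.prod_congr rfl fun j _ => F.bun_xr_inr b ξ j

lemma cut_bunEv {ξ : (F.bun b).Ξ} (hξ : (F.bun b).Gen ξ) (τ : Finset F.Ray)
    (J : Finset (Fin (N + 1))) {M : ℕ} (hM : Jᶜ.card = M + 1) (P : (F.Cn → ℝ)[X]) :
    cutφ ((F.bun b).φ ξ) (∏ ρ ∈ τ.disjSum J, (F.bun b).xr ρ ξ) (F.bunEv b ξ P) =
      extφ (cutφ (F.φ ξ.1) (∏ ρ ∈ τ, F.xr ρ ξ.1)) (M + 1)
        (∏ j ∈ Jᶜ, (X + C (-F.bunR b ξ j))) P := by
  have hw : ∀ s : Finset (Fin (N + 1)),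
      Wt (F.V ξ.1) s.card (∏ j ∈ s, (X + C (-F.bunR b ξ j))) := fun s =>
    wt_prod (Fan.one_mem_V ξ.1) s _ fun j _ => neg_mem (F.bunR_mem b ξ j)
  have hc : J.card + (M + 1) = N + 1 := by
    rw [← hM, Finset.card_add_card_compl, Fintype.card_fin]
  have h1 := push_monic_mul (hw J).1 (hw J).2.1 (hw Jᶜ).1 ((hw Jᶜ).2.1.trans hM) (by omega) P
  rw [hc] at h1
  rw [cutφ_apply, prod_xr, ← map_mul, φ_bunEv b hξ, extφ_apply, cutφ_apply, mul_assoc,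
    push_C_mul, Fan.bunQ, ← Finset.prod_mul_prod_compl J, h1]

lemma hru (hF : F.Good) (hb : ∀ j, F.Conv (b j)) {ξ : (F.bun b).Ξ} (hξ : (F.bun b).Gen ξ)
    (τ' : (F.bun b).Face) : ∃ l0, ((F.bun b).sys ξ).Nef τ' l0 ∧
      HRu ((F.bun b).sys ξ).V (((F.bun b).sys ξ).φ τ') (((F.bun b).sys ξ).d τ') l0 := by
  obtain ⟨l, hl⟩ := hF.amp
  obtain ⟨τ', σ, hσ⟩ := τ'
  obtain ⟨τ, J, rfl⟩ : ∃ (τ : Finset F.Ray) (J : Finset (Fin (N + 1))), τ' = τ.disjSum J :=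
    ⟨_, _, (Finset.toLeft_disjSum_toRight).symm⟩
  have hσ' : τ.disjSum J ⊆ (F.rays σ.1).disjSum (Finset.univ.erase σ.2) := hσ
  have hτ : τ ⊆ F.rays σ.1 := fun ρ hρ =>
    Finset.inl_mem_disjSum.1 (hσ' (Finset.inl_mem_disjSum.2 hρ))
  have hJ : σ.2 ∈ Jᶜ := Finset.mem_compl.2 fun h =>
    (Finset.mem_erase.1 (Finset.inr_mem_disjSum.1 (hσ' (Finset.inr_mem_disjSum.2 h)))).1 rfl
  obtain ⟨M, hM⟩ : ∃ M, Jᶜ.card = M + 1 :=
    Nat.exists_eq_succ_of_ne_zero (Finset.card_ne_zero.2 ⟨_, hJ⟩)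
  have hc : J.card + (M + 1) = N + 1 := by
    rw [← hM, Finset.card_add_card_compl, Fintype.card_fin]
  have hd : τ.card ≤ F.d := (Finset.card_le_card hτ).trans (F.card_rays _).le
  have hξ1 : F.Gen ξ.1 := (F.bunMap b).gen ξ hξ
  have hw : Wt (F.V ξ.1) (M + 1) (∏ j ∈ Jᶜ, (X + C (-F.bunR b ξ j))) :=
    hM ▸ wt_prod (Fan.one_mem_V ξ.1) Jᶜ _ fun j _ => neg_mem (F.bunR_mem b ξ j)
  have h0 : HRu (F.V ξ.1) (cutφ (F.φ ξ.1) (∏ ρ ∈ τ, F.xr ρ ξ.1)) (F.d - τ.card) (F.cl l ξ.1) :=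
    (hF.hr ξ.1 hξ1 ⟨τ, σ.1, hτ⟩).hru (Fan.amp_sconv hF.bal hξ1 hl ⟨τ, σ.1, hτ⟩)
  obtain ⟨ε, hε, h1⟩ := HRu_proj (Fan.one_mem_V ξ.1) (Fan.fg_V ξ.1) (Fan.cl_mem l ξ.1) h0 hw
  have hconv : (F.bun b).Conv ((F.bunMap b).pull l + ε • F.bunY b) :=
    ((F.bunMap b).conv hl.conv).add (((F.isBun_bunMap b).weak.conv hb).smul hε.le)
  have hev : F.bunEv b ξ (C (F.cl l ξ.1) + ε • X) =
      (F.bun b).cl ((F.bunMap b).pull l + ε • F.bunY b) ξ := by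
    rw [Fan.cl_add, Fan.cl_smul, Map.cl_pull, map_add, map_smul, Fan.bunEv, aevalTower_C,
      aevalTower_X]
    rfl
  refine ⟨(F.bun b).cl ((F.bunMap b).pull l + ε • F.bunY b) ξ,
    fun j _ => Fan.gn_conv ((F.bunMap b).bal hF.bal) hξ hconv j, ?_⟩
  have hdim : F.d + N - (τ.disjSum J).card = F.d - τ.card + M := by
    rw [Finset.card_disjSum]; omega
  change HRu ((F.bun b).V ξ) (cutφ ((F.bun b).φ ξ) (∏ ρ ∈ τ.disjSum J, (F.bun b).xr ρ ξ))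
    (F.d + N - (τ.disjSum J).card) _
  rw [hdim]
  refine (hru_transfer (F.bunEv b ξ) (by simpa using C_mem_extV (Fan.one_mem_V ξ.1))
    (Fan.one_mem_V ξ) ⊥ (fun η hη => ?_) (fun v hv => ⟨_, F.bunEv_mem b ξ v hv, ?_⟩)
    (fun v hv => ?_) one_pos (fun η _ => ?_)
    (add_mem (C_mem_extV (Fan.cl_mem l ξ.1)) (Submodule.smul_mem _ _ X_mem_extV))
    (Fan.cl_mem _ ξ) ?_).1 h1
  · rw [Ideal.mem_bot.1 hη, map_zero]
  · rw [sub_self]; exact zero_mem _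
  · obtain ⟨P, hP, rfl⟩ := F.bunEv_surj b ξ v hv
    exact ⟨P, hP, by rw [sub_self]; exact zero_mem _⟩
  · rw [one_mul]; exact cut_bunEv b hξ τ J hM η
  · rw [hev, sub_self]; exact zero_mem _

end BunGood

theorem Fan.bun_good {F : Fan} (hF : F.Good) {N : ℕ} {b : Fin (N + 1) → F.Ray → ℝ}
    (hb : ∀ j, F.Conv (b j)) : (F.bun b).Good := by
  obtain ⟨l, hl⟩ := hF.amp
  exact ⟨(F.bunMap b).bal hF.bal, BunGood.sconv b hl hb, fun ξ hξ τ =>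
    hri_all _ (fun i _ => BunGood.hru b hF hb hξ i) τ⟩

end G94
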