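import Pool.Agent.P.MP_740b33_co.OpDefs

/-! Package B4: the projection of a split projective bundle. -/

namespace G94

open H40M Polynomial

namespace Fan

variable (F : Fan) {N : ℕ} (b : Fin (N + 1) → F.Ray → ℝ)

/-- The roots as functions on the cones of the base. -/
noncomputable def bunR (ξ : (F.bun b).Ξ) (j : Fin (N + 1)) : F.Cn → ℝ := fun σ => F.bunL b σ j ξ

/-- The relation of the bundle. -/
noncomputable def bunQ (ξ : (F.bun b).Ξ) : (F.Cn → ℝ)[X] := ∏ j, (X + C (-F.bunR b ξ j))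

/-- Pull-back of functions on cones. -/
def bunι : (F.Cn → ℝ) →ₐ[ℝ] ((F.bun b).Cn → ℝ) where
  toFun g := fun σ => g σ.1
  map_one' := rfl
  map_mul' _ _ := rfl
  map_zero' := rfl
  map_add' _ _ := rfl
  commutes' _ := rfl

/-- Evaluation of polynomials at the hyperplane class. -/
noncomputable def bunEv (ξ : (F.bun b).Ξ) : (F.Cn → ℝ)[X] →ₐ[ℝ] ((F.bun b).Cn → ℝ) :=
  aevalTower (F.bunι b) ((F.bun b).cl (F.bunY b) ξ)

lemma BunMap_R_apply (ξ : (F.bun b).Ξ) (j : Fin (N + 1)) (σ : F.Cn) :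
    F.bunR b ξ j σ = F.cl (b j) ξ.1 σ + F.bunS N j ξ := by
  show F.loc (b j) σ ξ.1 + F.bunS N j ξ = _
  rw [loc_apply]

lemma bunR_mem (ξ : (F.bun b).Ξ) (j : Fin (N + 1)) : F.bunR b ξ j ∈ F.V ξ.1 := by
  have h : F.bunR b ξ j = F.cl (b j) ξ.1 + (F.bunS N j ξ) • (1 : F.Cn → ℝ) := by
    funext σ
    rw [BunMap_R_apply]
    simp
  rw [h]
  exact add_mem (cl_mem _ _) (Submodule.smul_mem _ _ (one_mem_V _))

lemma BunMap_x_inl (ξ : (F.bun b).Ξ) (σ : (F.bun b).Cn) (ρ : F.Ray) :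
    (F.bun b).x σ (Sum.inl ρ) ξ = F.x σ.1 ρ ξ.1 := rfl

lemma BunMap_x_inr (ξ : (F.bun b).Ξ) (σ : (F.bun b).Cn) (j : Fin (N + 1)) :
    (F.bun b).x σ (Sum.inr j) ξ = F.bunR b ξ σ.2 σ.1 - F.bunR b ξ j σ.1 := rfl

lemma BunMap_mem_inl (σ : (F.bun b).Cn) (ρ : F.Ray) :
    (Sum.inl ρ : (F.bun b).Ray) ∈ (F.bun b).rays σ ↔ ρ ∈ F.rays σ.1 :=
  Finset.inl_mem_disjSum

lemma BunMap_mem_inr (σ : (F.bun b).Cn) (j : Fin (N + 1)) :
    (Sum.inr j : (F.bun b).Ray) ∈ (F.bun b).rays σ ↔ j ≠ σ.2 := by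
  refine Finset.inr_mem_disjSum.trans ?_
  simp

lemma bun_gen_iff (ξ : (F.bun b).Ξ) :
    (F.bun b).Gen ξ ↔ F.Gen ξ.1 ∧ ∀ σ, Function.Injective fun j => F.bunR b ξ j σ := by
  constructor
  · intro h
    refine ⟨fun σ ρ hρ => ?_, fun σ j k hjk => ?_⟩
    · exact h (σ, 0) (Sum.inl ρ) ((F.BunMap_mem_inl b (σ, 0) ρ).2 hρ)
    · by_contra hne
      have := h (σ, k) (Sum.inr j) ((F.BunMap_mem_inr b (σ, k) j).2 hne)
      exact this ((F.BunMap_x_inr b ξ (σ, k) j).trans (sub_eq_zero.2 hjk.symm))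
  · rintro ⟨h1, h2⟩ σ (ρ | j) hρ
    · exact h1 σ.1 ρ ((F.BunMap_mem_inl b σ ρ).1 hρ)
    · rw [BunMap_x_inr]
      intro h0
      exact (F.BunMap_mem_inr b σ j).1 hρ (h2 σ.1 (sub_eq_zero.1 h0)).symm

lemma cl_bunY (ξ : (F.bun b).Ξ) (σ : (F.bun b).Cn) :
    (F.bun b).cl (F.bunY b) ξ σ = F.bunR b ξ σ.2 σ.1 := by
  have h : (F.bun b).cl (F.bunY b) ξ σ = ∑ ρ, b 0 ρ * F.x σ.1 ρ ξ.1 +
      ∑ j : Fin (N + 1), (if j = 0 then 1 else 0) * (F.bunR b ξ σ.2 σ.1 - F.bunR b ξ j σ.1) :=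
    Fintype.sum_sum_type (fun ρ : F.Ray ⊕ Fin (N + 1) => F.bunY b ρ * (F.bun b).x σ ρ ξ)
  have h0 : F.bunR b ξ 0 σ.1 = ∑ ρ, b 0 ρ * F.x σ.1 ρ ξ.1 := by
    rw [BunMap_R_apply]
    exact add_zero _
  rw [h, ← h0]
  simp

lemma BunMap_ev_C (ξ : (F.bun b).Ξ) (g : F.Cn → ℝ) (σ : (F.bun b).Cn) :
    F.bunEv b ξ (C g) σ = g σ.1 := by
  rw [bunEv, aevalTower_C]
  rfl

lemma BunMap_ev_X (ξ : (F.bun b).Ξ) : F.bunEv b ξ X = (F.bun b).cl (F.bunY b) ξ := by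
  rw [bunEv, aevalTower_X]

lemma bun_xr_inl (ξ : (F.bun b).Ξ) (ρ : F.Ray) :
    (F.bun b).xr (Sum.inl ρ) ξ = F.bunEv b ξ (C (F.xr ρ ξ.1)) := by
  funext σ
  rw [BunMap_ev_C]
  rfl

lemma bun_xr_inr (ξ : (F.bun b).Ξ) (j : Fin (N + 1)) :
    (F.bun b).xr (Sum.inr j) ξ = F.bunEv b ξ (X + C (-F.bunR b ξ j)) := by
  funext σ
  rw [map_add, Pi.add_apply, BunMap_ev_C, BunMap_ev_X, cl_bunY]
  exact (F.BunMap_x_inr b ξ σ j).trans (sub_eq_add_neg _ _)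

lemma BunMap_ev_C_mem (ξ : (F.bun b).Ξ) {a : F.Cn → ℝ} (ha : a ∈ F.V ξ.1) :
    F.bunEv b ξ (C a) ∈ (F.bun b).V ξ := by
  refine Submodule.span_induction (p := fun a _ => F.bunEv b ξ (C a) ∈ (F.bun b).V ξ)
    ?_ ?_ ?_ ?_ ha
  · rintro _ (rfl | ⟨ρ, rfl⟩)
    · rw [C_1, map_one]
      exact one_mem_V _
    · rw [← bun_xr_inl]
      exact xr_mem _ _
  · rw [C_0, map_zero]
    exact zero_mem _
  · intro x y _ _ hx hy
    rw [C_add, map_add]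
    exact add_mem hx hy
  · intro c x _ hx
    rw [← smul_C, map_smul]
    exact Submodule.smul_mem _ _ hx

lemma bunEv_mem (ξ : (F.bun b).Ξ) : ∀ P ∈ extV (F.V ξ.1), F.bunEv b ξ P ∈ (F.bun b).V ξ := by
  intro P hP
  obtain ⟨a, ha, c, rfl⟩ := mem_extV.1 hP
  rw [map_add, map_smul, BunMap_ev_X]
  exact add_mem (F.BunMap_ev_C_mem b ξ ha) (Submodule.smul_mem _ _ (cl_mem _ _))

lemma bunEv_surj (ξ : (F.bun b).Ξ) :
    ∀ η ∈ (F.bun b).V ξ, ∃ P ∈ extV (F.V ξ.1), F.bunEv b ξ P = η := by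
  intro η hη
  refine Submodule.span_induction
    (p := fun η _ => ∃ P ∈ extV (F.V ξ.1), F.bunEv b ξ P = η) ?_ ?_ ?_ ?_ hη
  · rintro _ (rfl | ⟨ρ | j, rfl⟩)
    · exact ⟨1, by simpa using C_mem_extV (one_mem_V ξ.1), map_one _⟩
    · exact ⟨_, C_mem_extV (xr_mem ρ ξ.1), (F.bun_xr_inl b ξ ρ).symm⟩
    · exact ⟨_, add_mem X_mem_extV (C_mem_extV (neg_mem (F.bunR_mem b ξ j))),
        (F.bun_xr_inr b ξ j).symm⟩
  · exact ⟨0, zero_mem _, map_zero _⟩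
  · rintro _ _ _ _ ⟨P, hP, rfl⟩ ⟨Q, hQ, rfl⟩
    exact ⟨P + Q, add_mem hP hQ, map_add _ _ _⟩
  · rintro c _ _ ⟨P, hP, rfl⟩
    exact ⟨c • P, Submodule.smul_mem _ _ hP, map_smul _ _ _⟩

lemma BunMap_ev_apply (ξ : (F.bun b).Ξ) (P : (F.Cn → ℝ)[X]) (σ : (F.bun b).Cn) :
    F.bunEv b ξ P σ =
      (P.map (Pi.evalRingHom (fun _ => ℝ) σ.1)).eval (F.bunR b ξ σ.2 σ.1) := by
  induction P using Polynomial.induction_on' with
  | add p q hp hq => rw [map_add, Pi.add_apply, hp, hq, Polynomial.map_add, eval_add]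
  | monomial n a =>
    rw [← C_mul_X_pow_eq_monomial, map_mul, map_pow, Pi.mul_apply, Pi.pow_apply, BunMap_ev_C,
      BunMap_ev_X, cl_bunY]
    simp

/-- Lagrange interpolation computes the push-forward for distinct real roots. -/
lemma BunMap_lagrange {r : Fin (N + 1) → ℝ} (hr : Function.Injective r) (P : ℝ[X]) :
    push (N + 1) (∏ j, (X + C (-r j))) P =
      ∑ k, P.eval (r k) / ∏ j ∈ Finset.univ.erase k, (r k - r j) := by
  have hm : (∏ j, (X + C (-r j)) : ℝ[X]).Monic :=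
    monic_prod_of_monic _ _ fun j _ => monic_X_add_C _
  have hd : (∏ j, (X + C (-r j)) : ℝ[X]).natDegree = N + 1 := by
    rw [natDegree_prod_of_monic _ _ fun j _ => monic_X_add_C _]
    simp only [natDegree_X_add_C]
    simp
  have hlt := degree_mod_lt hm hd P
  have hc : (Finset.univ : Finset (Fin (N + 1))).card = N + 1 := by simp
  have h := Lagrange.coeff_eq_sum (s := Finset.univ) (v := r) hr.injOn
    (P := P %ₘ ∏ j, (X + C (-r j))) (by rw [hc]; exact hlt)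
  rw [hc] at h
  rw [push_apply, h]
  refine Finset.sum_congr rfl fun k _ => ?_
  congr 1
  conv_rhs => rw [← modByMonic_add_div P (∏ j, (X + C (-r j)))]
  have h0 : ∏ j, eval (r k) (X + C (-r j)) = 0 :=
    Finset.prod_eq_zero (Finset.mem_univ k) (by simp)
  rw [eval_add, eval_mul, eval_prod, h0, zero_mul, add_zero]

lemma BunMap_wt (ξ : (F.bun b).Ξ) (σ : F.Cn) (k : Fin (N + 1)) :
    (F.bun b).wt ξ (σ, k) = F.wt ξ.1 σ /
      ∏ j ∈ Finset.univ.erase k, (F.bunR b ξ k σ - F.bunR b ξ j σ) := by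
  have h : ∏ ρ ∈ (F.bun b).rays (σ, k), (F.bun b).x (σ, k) ρ ξ =
      (∏ ρ ∈ F.rays σ, F.x σ ρ ξ.1) *
        ∏ j ∈ Finset.univ.erase k, (F.bunR b ξ k σ - F.bunR b ξ j σ) :=
    Finset.prod_disjSum (F.rays σ) (Finset.univ.erase k) (fun ρ => (F.bun b).x (σ, k) ρ ξ)
  exact (congrArg (fun t => F.μ σ / t) h).trans (div_div _ _ _).symm

lemma BunMap_Q_monic (ξ : (F.bun b).Ξ) : (F.bunQ b ξ).Monic :=
  monic_prod_of_monic _ _ fun _ _ => monic_X_add_C _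

/-- Lagrange's formula for the push-forward. -/
lemma pushF_bunEv {ξ : (F.bun b).Ξ} (hξ : (F.bun b).Gen ξ) (P : (F.Cn → ℝ)[X]) :
    pushF (F.bun b) F (LinearMap.fst ℝ F.Ξ (Fin N → ℝ)) Prod.fst ξ (F.bunEv b ξ P) =
      push (N + 1) (F.bunQ b ξ) P := by
  obtain ⟨h1, h2⟩ := (F.bun_gen_iff b ξ).1 hξ
  funext σ
  have e1 : push (N + 1) (F.bunQ b ξ) P σ =
      push (N + 1) (∏ j, (X + C (-F.bunR b ξ j σ))) (P.map (Pi.evalRingHom (fun _ => ℝ) σ)) := by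
    refine (map_push (Pi.evalRingHom (fun _ => ℝ) σ) (N + 1) (F.BunMap_Q_monic b ξ) P).trans ?_
    rw [bunQ, Polynomial.map_prod]
    simp
  have e2 : ∑ σ' ∈ Finset.univ.filter (fun σ' : F.Cn × Fin (N + 1) => σ'.1 = σ),
      (F.bun b).wt ξ σ' * F.bunEv b ξ P σ' =
      ∑ k, (F.bun b).wt ξ (σ, k) * F.bunEv b ξ P (σ, k) := by
    rw [Finset.sum_filter, Fintype.sum_prod_type, Finset.sum_eq_single σ]
    · simp
    · intro τ _ hτ
      simp [hτ]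
    · simp
  rw [e1, BunMap_lagrange (h2 σ)]
  show (∑ σ' ∈ Finset.univ.filter (fun σ' : F.Cn × Fin (N + 1) => σ'.1 = σ),
      (F.bun b).wt ξ σ' * F.bunEv b ξ P σ') / F.wt ξ.1 σ = _
  rw [e2, Finset.sum_div]
  refine Finset.sum_congr rfl fun k _ => ?_
  have e3 : F.bunEv b ξ P (σ, k) =
      (P.map (Pi.evalRingHom (fun _ => ℝ) σ)).eval (F.bunR b ξ k σ) :=
    F.BunMap_ev_apply b ξ P (σ, k)
  rw [BunMap_wt, e3]
  have hw := wt_ne_zero h1 σ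
  field_simp

lemma BunMap_Q_wt (ξ : (F.bun b).Ξ) : Wt (F.V ξ.1) (N + 1) (F.bunQ b ξ) := by
  have h := wt_prod (one_mem_V ξ.1) (Finset.univ : Finset (Fin (N + 1)))
    (fun j => -F.bunR b ξ j) fun j _ => neg_mem (F.bunR_mem b ξ j)
  rwa [Finset.card_univ, Fintype.card_fin] at h

/-- The projection of the bundle. -/
def bunMap : Map (F.bun b) F N where
  pr := LinearMap.fst ℝ F.Ξ (Fin N → ℝ)
  par := Prod.fst
  a := Sum.elim (fun ρ' ρ => if ρ' = ρ then 1 else 0) fun _ _ => 0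
  surj := Prod.fst_surjective
  a_nonneg := by
    rintro (ρ' | j) ρ
    · simp only [Sum.elim_inl]
      split_ifs <;> norm_num
    · exact le_rfl
  a_out := by
    rintro σ (ρ' | j) h ρ hρ
    · have h' := (F.BunMap_mem_inl b σ ρ').1 h
      exact if_neg fun e : ρ' = ρ => hρ (e ▸ h')
    · rfl
  pr_v := by
    rintro (ρ' | j)
    · show F.v ρ' = ∑ ρ, (if ρ' = ρ then (1 : ℝ) else 0) • F.v ρ
      simp
    · show (0 : F.Ξ) = ∑ ρ, (0 : ℝ) • F.v ρ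
      simp
  gen := fun ξ hξ => ((F.bun_gen_iff b ξ).1 hξ).1
  dim := rfl
  push_mem := by
    intro ξ hξ j η hη
    obtain ⟨P, hP, rfl⟩ := exists_map_of_mem_pow (F.bunEv b ξ) (F.bunEv_surj b ξ) hη
    rw [F.pushF_bunEv b hξ]
    refine ⟨?_, fun hj => push_eq_zero (F.BunMap_Q_wt b ξ) hP (by omega)⟩
    have h := H40M.push_mem (one_mem_V ξ.1) (by omega) (F.BunMap_Q_wt b ξ) hP
    rwa [show j + 1 - (N + 1) = j - N by omega] at h

lemma bunMap_pull (g : F.Ray → ℝ) : (F.bunMap b).pull g = Sum.elim g fun _ => 0 := by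
  funext ρ'
  rcases ρ' with ρ' | j
  · show ∑ ρ, (if ρ' = ρ then (1 : ℝ) else 0) * g ρ = g ρ'
    simp
  · show ∑ ρ, (0 : ℝ) * g ρ = 0
    simp

lemma BunMap_S_inl (j : Fin (N + 1)) (ρ : F.Ray) :
    (F.bun b).lin (F.bunS N j) (Sum.inl ρ) = b 0 ρ - b j ρ := by
  show F.bunS N j (F.bunV b (Sum.inl ρ)) = _
  refine Fin.cases ?_ (fun i => ?_) j <;> simp [bunS, bunV]

lemma BunMap_S_inr (j k : Fin (N + 1)) :
    (F.bun b).lin (F.bunS N j) (Sum.inr k) =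
      (if k = 0 then 1 else 0) - if k = j then 1 else 0 := by
  show F.bunS N j (F.bunV b (Sum.inr k)) = _
  refine Fin.cases ?_ (fun i => ?_) j <;> simp [bunS, bunV]

lemma isBun_bunMap : IsBun (F.bunMap b) b (F.bunY b) (F.bunS N) Prod.snd := by
  have hR : ∀ (ξ : (F.bun b).Ξ) σ, (fun j => F.cl (b j) ((F.bunMap b).pr ξ) σ + F.bunS N j ξ) =
      fun j => F.bunR b ξ j σ := fun ξ σ => funext fun j => (F.BunMap_R_apply b ξ j σ).symm
  refine ⟨⟨rfl, ?_, ?_, ?_, ?_, ?_⟩, ?_⟩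
  · rintro j (ρ | k)
    · rw [bunMap_pull, BunMap_S_inl]
      show b j ρ + (b 0 ρ - b j ρ) ≤ b 0 ρ
      linarith
    · rw [bunMap_pull, BunMap_S_inr]
      show (0 : ℝ) + _ ≤ if k = 0 then 1 else 0
      split_ifs <;> norm_num
  · rintro σ (ρ | k) h
    · rw [bunMap_pull, BunMap_S_inl]
      show b 0 ρ = b σ.2 ρ + (b 0 ρ - b σ.2 ρ)
      ring
    · have hk := (F.BunMap_mem_inr b σ k).1 h
      rw [bunMap_pull, BunMap_S_inr, if_neg hk]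
      show (if k = 0 then (1 : ℝ) else 0) = 0 + _
      ring
  · intro ξ c hc
    refine ⟨(ξ, fun i => c i.succ), rfl, fun j => ?_⟩
    refine Fin.cases ?_ (fun i => ?_) j
    · exact hc.symm
    · rfl
  · intro ξ hξ σ
    exact (hR ξ σ).symm ▸ ((F.bun_gen_iff b ξ).1 hξ).2 σ
  · intro ξ hξ
    have h := F.pushF_bunEv b hξ (X ^ N)
    rw [map_pow, BunMap_ev_X, push_X_pow_of_lt (F.BunMap_Q_monic b ξ) (F.BunMap_Q_wt b ξ).2.1
      (Nat.lt_succ_self N), if_pos rfl] at h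
    exact h
  · intro ξ h1 h2
    refine (F.bun_gen_iff b ξ).2 ⟨h1, fun σ => ?_⟩
    exact (hR ξ σ) ▸ h2 σ

end Fan

end G94
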