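import Pool.Agent.P.MP_740b33_co.GExt

/-! Package C4: one level of the tower, and determinant identities. -/

namespace G94

open H40M Polynomial

variable {R R' : Type} [CommRing R] [Algebra ℝ R] [CommRing R'] [Algebra ℝ R']
  {V : Submodule ℝ R} {φ : R →ₗ[ℝ] ℝ} {V' : Submodule ℝ R'} {φ' : R' →ₗ[ℝ] ℝ}

namespace Level

lemma mlt_zero (A : ℕ → Submodule ℝ R) (i : ℕ) : Mlt A i 0 := fun _ _ _ => by
  rw [zero_mul]; exact zero_mem _

lemma mlt_one (A : ℕ → Submodule ℝ R) : Mlt A 0 1 := fun _ _ hx => by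
  rw [one_mul]; exact hx

lemma mlt_add {A : ℕ → Submodule ℝ R} {i : ℕ} {u v : R} (hu : Mlt A i u) (hv : Mlt A i v) :
    Mlt A i (u + v) := fun q x hx => by
  rw [add_mul]; exact add_mem (hu q x hx) (hv q x hx)

lemma mlt_neg {A : ℕ → Submodule ℝ R} {i : ℕ} {u : R} (hu : Mlt A i u) :
    Mlt A i (-u) := fun q x hx => by
  rw [neg_mul]; exact neg_mem (hu q x hx)

lemma mlt_zsmul {A : ℕ → Submodule ℝ R} {i : ℕ} {u : R} (hu : Mlt A i u) (z : ℤ) :
    Mlt A i (z • u) := fun q x hx => by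
  rw [smul_mul_assoc]; exact zsmul_mem (hu q x hx) z

lemma mlt_mul {A : ℕ → Submodule ℝ R} {i j k : ℕ} {u v : R} (hu : Mlt A i u) (hv : Mlt A j v)
    (h : i + j = k) : Mlt A k (u * v) := fun q x hx => by
  have h2 := hu _ _ (hv q x hx)
  rw [show q + j + i = q + k by omega] at h2
  rw [mul_assoc]; exact h2

lemma mlt_sum {A : ℕ → Submodule ℝ R} {i : ℕ} {κ : Type} (s : Finset κ) (f : κ → R)
    (h : ∀ b ∈ s, Mlt A i (f b)) : Mlt A i (∑ b ∈ s, f b) := fun q x hx => by
  rw [Finset.sum_mul]; exact sum_mem fun b hb => h b hb q x hx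

lemma mlt_prod {A : ℕ → Submodule ℝ R} {κ : Type} (s : Finset κ) (f : κ → R) (e : κ → ℕ)
    (h : ∀ b ∈ s, Mlt A (e b) (f b)) : Mlt A (∑ b ∈ s, e b) (∏ b ∈ s, f b) := by
  classical
  induction s using Finset.induction_on with
  | empty => simpa using mlt_one A
  | insert a s ha ih =>
    rw [Finset.sum_insert ha, Finset.prod_insert ha]
    exact mlt_mul (h a (Finset.mem_insert_self _ _))
      (ih fun b hb => h b (Finset.mem_insert_of_mem hb)) rfl

lemma mlt_pow {A : ℕ → Submodule ℝ R} {u : R} (hu : Mlt A 1 u) (e : ℕ) : Mlt A e (u ^ e) := by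
  induction e with
  | zero => simpa using mlt_one A
  | succ e ih => rw [pow_succ]; exact mlt_mul ih hu rfl

lemma mlt_coeff {A : ℕ → Submodule ℝ R} {κ : Type} (s : Finset κ) (f : κ → R)
    (h : ∀ b ∈ s, Mlt A 1 (f b)) (j : ℕ) :
    (j ≤ s.card → Mlt A (s.card - j) ((∏ b ∈ s, (X + C (f b))).coeff j)) ∧
      (s.card < j → (∏ b ∈ s, (X + C (f b))).coeff j = 0) := by
  classical
  induction s using Finset.induction_on generalizing j with
  | empty =>
    refine ⟨fun hj => ?_, fun hj => ?_⟩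
    · obtain rfl : j = 0 := by simpa using hj
      simpa using mlt_one A
    · rw [Finset.prod_empty, coeff_one, if_neg (by simp at hj; omega)]
  | insert a s ha ih =>
    have ih' := ih fun b hb => h b (Finset.mem_insert_of_mem hb)
    have h1 := h a (Finset.mem_insert_self _ _)
    rw [Finset.prod_insert ha, Finset.card_insert_of_notMem ha, add_mul, coeff_add, coeff_C_mul]
    cases j with
    | zero =>
      refine ⟨fun _ => ?_, fun hj => absurd hj (by omega)⟩
      rw [coeff_X_mul_zero, zero_add]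
      exact mlt_mul h1 ((ih' 0).1 (by omega)) (by omega)
    | succ j =>
      rw [coeff_X_mul]
      refine ⟨fun hj => mlt_add ?_ ?_, fun hj => ?_⟩
      · have h2 := (ih' j).1 (by omega)
        rwa [show s.card + 1 - (j + 1) = s.card - j by omega]
      · by_cases h3 : j + 1 ≤ s.card
        · exact mlt_mul h1 ((ih' (j + 1)).1 h3) (by omega)
        · rw [(ih' (j + 1)).2 (by omega), mul_zero]
          exact mlt_zero _ _
      · rw [(ih' j).2 (by omega), (ih' (j + 1)).2 (by omega), mul_zero, add_zero]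

lemma mlt_push [Nontrivial R] {A : ℕ → Submodule ℝ R} {N : ℕ} {Q : R[X]} (hQ : Q.Monic)
    (hN : Q.natDegree = N + 1) (hQA : ∀ j ≤ N + 1, Mlt A (N + 1 - j) (Q.coeff j)) (e : ℕ) :
    Mlt A (e - N) (push (N + 1) Q (X ^ e)) := by
  induction e using Nat.strong_induction_on with
  | _ e ih =>
    by_cases he : e ≤ N
    · rw [push_X_pow_of_lt hQ hN (by omega)]
      split_ifs with h
      · rw [show e - N = 0 by omega]; exact mlt_one A
      · exact mlt_zero _ _
    · obtain ⟨a, rfl⟩ : ∃ a, e = a + (N + 1) := ⟨e - (N + 1), by omega⟩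
      have h1 : Q = X ^ (N + 1) + ∑ j ∈ Finset.range (N + 1), C (Q.coeff j) * X ^ j := by
        have h2 := hQ.as_sum
        rwa [hN] at h2
      have h2 : (X ^ (a + (N + 1)) : R[X]) =
          Q * X ^ a - ∑ j ∈ Finset.range (N + 1), C (Q.coeff j) * X ^ (a + j) := by
        conv_rhs => enter [1, 1]; rw [h1]
        rw [add_mul, Finset.sum_mul]
        simp only [pow_add, mul_assoc, mul_comm (X ^ a : R[X])]
        ring
      rw [h2, map_sub, push_self_mul _ hQ, zero_sub, map_sum]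
      refine mlt_neg (mlt_sum _ _ fun j hj => ?_)
      have hj' : j < N + 1 := Finset.mem_range.1 hj
      rw [push_C_mul]
      by_cases h3 : a + j < N
      · rw [push_X_pow_of_lt hQ hN (by omega), if_neg (by omega), mul_zero]
        exact mlt_zero _ _
      · exact mlt_mul (hQA j (by omega)) (ih (a + j) (by omega)) (by omega)

/-- Polynomials with coefficients in the family. -/
noncomputable def pol (A : ℕ → Submodule ℝ R) (m q : ℕ) : Submodule ℝ (MvPolynomial (Fin m) R) :=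
  Submodule.span ℝ {z | ∃ (r : ℕ) (x : R) (s : Fin m → ℕ), x ∈ A r ∧ r + ∑ b, s b = q ∧
    z = MvPolynomial.C x * ∏ b, MvPolynomial.X b ^ s b}

/-- Antisymmetric polynomials. -/
noncomputable def anti (R : Type) [CommRing R] [Algebra ℝ R] (m : ℕ) :
    Submodule ℝ (MvPolynomial (Fin m) R) where
  carrier := {f | ∀ σ : Equiv.Perm (Fin m), MvPolynomial.rename σ f =
    (((Equiv.Perm.sign σ : ℤˣ) : ℤ) : MvPolynomial (Fin m) R) * f}
  add_mem' := fun {a b} ha hb σ => by rw [map_add, ha σ, hb σ, mul_add]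
  zero_mem' := fun σ => by simp
  smul_mem' := fun c a ha σ => by
    rw [← algebraMap_smul R c, map_smul, ha σ, mul_smul_comm]

lemma mlt_of_gen {A : ℕ → Submodule ℝ R} {m i : ℕ} {g : MvPolynomial (Fin m) R}
    (h : ∀ (r : ℕ) (x : R) (s : Fin m → ℕ), x ∈ A r →
      g * (MvPolynomial.C x * ∏ b, MvPolynomial.X b ^ s b) ∈ pol A m (r + ∑ b, s b + i)) :
    Mlt (pol A m) i g := by
  intro q f hf
  induction hf using Submodule.span_induction with
  | mem z hz =>
    obtain ⟨r, x, s, hx, rfl, rfl⟩ := hz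
    exact h r x s hx
  | zero => rw [mul_zero]; exact zero_mem _
  | add x y _ _ hx hy => rw [mul_add]; exact add_mem hx hy
  | smul c x _ hx => rw [mul_smul_comm]; exact Submodule.smul_mem _ _ hx

lemma mlt_C {A : ℕ → Submodule ℝ R} {m i : ℕ} {u : R} (hu : Mlt A i u) :
    Mlt (pol A m) i (MvPolynomial.C u) :=
  mlt_of_gen fun r x s hx => Submodule.subset_span
    ⟨r + i, u * x, s, hu r x hx, by omega, by rw [map_mul, mul_assoc]⟩

lemma mlt_X (A : ℕ → Submodule ℝ R) {m : ℕ} (b : Fin m) :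
    Mlt (pol A m) 1 (MvPolynomial.X b) := by
  classical
  refine mlt_of_gen fun r x s hx => Submodule.subset_span
    ⟨r, x, fun b' => s b' + if b' = b then 1 else 0, hx, ?_, ?_⟩
  · rw [Finset.sum_add_distrib]; simp; omega
  · simp only [pow_add, Finset.prod_mul_distrib, pow_ite, pow_one, pow_zero,
      Finset.prod_ite_eq', Finset.mem_univ, if_true]
    ring

lemma C_mem_pol {A : ℕ → Submodule ℝ R} {m q : ℕ} {x : R} (hx : x ∈ A q) :
    MvPolynomial.C x ∈ pol A m q :=
  Submodule.subset_span ⟨q, x, fun _ => 0, hx, by simp, by simp⟩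

lemma mlt_vdm (A : ℕ → Submodule ℝ R) (m : ℕ) : Mlt (pol A m) (tri m) (SchurP.vdm R m) := by
  unfold SchurP.vdm tri
  rw [Matrix.det_apply]
  refine mlt_sum _ _ fun σ _ => ?_
  rw [Units.smul_def]
  exact mlt_zsmul (mlt_prod _ _ _ fun c _ => mlt_pow (mlt_X A _) _) _

lemma pol_le {A : ℕ → Submodule ℝ R} (hA : ∀ q, A q ≤ V ^ q) (m q : ℕ) :
    pol A m q ≤ mvV V m ^ q := by
  refine Submodule.span_le.2 ?_
  rintro z ⟨r, x, s, hx, rfl, rfl⟩
  exact mul_mem_pow (GExtA.C_mem_mvV_pow (hA r hx))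
    (prod_mem_pow _ _ _ fun b _ => pow_mem_pow (GExtA.X_mem_mvV b) _)

omit [Algebra ℝ R] in
lemma tens_mono {m : ℕ} (π : R[X] →ₗ[R] R) (s : Fin m → ℕ) :
    tens (fun _ => π) (∏ b, (MvPolynomial.X b : MvPolynomial (Fin m) R) ^ s b) =
      ∏ b, π (X ^ s b) := by
  have h := tens_prod (fun _ : Fin m => π) fun b => X ^ s b
  simpa only [map_pow, aeval_X] using h

lemma tens_pol [Nontrivial R] {A : ℕ → Submodule ℝ R} {N m k : ℕ} {Q : R[X]} (hQ : Q.Monic)
    (hN : Q.natDegree = N + 1) (hQA : ∀ j ≤ N + 1, Mlt A (N + 1 - j) (Q.coeff j))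
    {g : MvPolynomial (Fin m) R} (hg : g ∈ pol A m k) :
    (k < m * N → tens (fun _ => push (N + 1) Q) g = 0) ∧
      tens (fun _ => push (N + 1) Q) g ∈ A (k - m * N) := by
  induction hg using Submodule.span_induction with
  | mem z hz =>
    obtain ⟨r, x, s, hx, rfl, rfl⟩ := hz
    rw [tens_C_mul, tens_mono]
    by_cases h : ∀ b, N ≤ s b
    · have h1 : ∑ b, s b = ∑ b, (s b - N) + m * N := by
        rw [Finset.sum_congr rfl fun b _ => (Nat.sub_add_cancel (h b)).symm,
          Finset.sum_add_distrib]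
        simp
      refine ⟨fun h2 => absurd h2 (by omega), ?_⟩
      have h3 := mlt_prod Finset.univ (fun b => push (N + 1) Q (X ^ s b)) (fun b => s b - N)
        (fun b _ => mlt_push hQ hN hQA (s b)) r x hx
      rw [mul_comm x, show r + ∑ b, s b - m * N = r + ∑ b, (s b - N) by omega]
      exact h3
    · obtain ⟨b, hb⟩ := not_forall.1 h
      rw [Finset.prod_eq_zero (Finset.mem_univ b) (by
        rw [push_X_pow_of_lt hQ hN (by omega), if_neg (by omega)]), mul_zero]
      exact ⟨fun _ => rfl, zero_mem _⟩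
  | zero => rw [map_zero]; exact ⟨fun _ => rfl, zero_mem _⟩
  | add x y _ _ hx hy =>
    rw [map_add]
    exact ⟨fun h => by rw [hx.1 h, hy.1 h, add_zero], add_mem hx.2 hy.2⟩
  | smul c x _ hx =>
    rw [← algebraMap_smul R c, map_smul, algebraMap_smul]
    exact ⟨fun h => by rw [hx.1 h, smul_zero], Submodule.smul_mem _ _ hx.2⟩

lemma tens_anti {n : ℕ} (π : R[X] →ₗ[R] R) {g : MvPolynomial (Fin n) R} (hg : g ∈ anti R n)
    {s : Fin n → ℕ} (hs : ¬ Function.Injective s) :
    tens (fun _ => π) (g * ∏ b, MvPolynomial.X b ^ s b) = 0 := by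
  classical
  obtain ⟨b, b', h1, h2⟩ := Function.not_injective_iff.1 hs
  have h3 := tens_rename π (Equiv.swap b b') (g * ∏ b, MvPolynomial.X b ^ s b)
  have h4 : MvPolynomial.rename (Equiv.swap b b')
      (∏ e, (MvPolynomial.X e : MvPolynomial (Fin n) R) ^ s e) = ∏ e, MvPolynomial.X e ^ s e := by
    rw [map_prod, ← Equiv.prod_comp (Equiv.swap b b')
      fun e => (MvPolynomial.X e : MvPolynomial (Fin n) R) ^ s e]
    refine Finset.prod_congr rfl fun e _ => ?_
    rw [map_pow, MvPolynomial.rename_X]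
    congr 1
    rw [Equiv.swap_apply_def]
    split_ifs with h5 h6
    · rw [h5, h1]
    · rw [h6, h1]
    · rfl
  rw [map_mul (MvPolynomial.rename _), hg, Equiv.Perm.sign_swap h2, h4] at h3
  set t := tens (fun _ => π) (g * ∏ b, MvPolynomial.X b ^ s b) with ht
  have h5 : -t = t := by
    refine Eq.trans ?_ h3
    rw [ht, ← map_neg]
    congr 1
    push_cast
    ring
  have h6 : (2 : ℝ) • t = 0 := by rw [two_smul]; linear_combination -h5
  have h7 : t = (1 / 2 : ℝ) • ((2 : ℝ) • t) := by rw [smul_smul]; norm_num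
  rw [h7, h6, smul_zero]

/-- The family on the next level. -/
noncomputable def nxt (A : ℕ → Submodule ℝ R) {m : ℕ} (ι : R →ₐ[ℝ] R') (Y : Fin m → R')
    (q : ℕ) : Submodule ℝ R' :=
  (pol A m q ⊓ anti R m).map (MvPolynomial.aevalTower ι Y).toLinearMap

lemma mlt_nxt {A : ℕ → Submodule ℝ R} {m i : ℕ} (ι : R →ₐ[ℝ] R') (Y : Fin m → R')
    {g : MvPolynomial (Fin m) R} (hg : Mlt (pol A m) i g)
    (hs : ∀ σ : Equiv.Perm (Fin m), MvPolynomial.rename σ g = g) {u : R'}
    (hu : MvPolynomial.aevalTower ι Y g = u) : Mlt (nxt A ι Y) i u := by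
  rintro q x ⟨f, ⟨h1, h2⟩, rfl⟩
  refine ⟨g * f, ⟨hg q f h1, fun σ => ?_⟩, ?_⟩
  · rw [map_mul, hs, h2 σ, mul_left_comm]
  · rw [← hu]; exact map_mul (MvPolynomial.aevalTower ι Y) g f

lemma det_mem {m : ℕ} (M : Fin m → Fin m → R) (e : Fin m → ℕ) (h : ∀ b a, M b a ∈ V ^ e a) :
    Matrix.det (Matrix.of M) ∈ V ^ ∑ a, e a := by
  rw [Matrix.det_apply]
  refine sum_mem fun σ _ => ?_
  rw [Units.smul_def]
  exact zsmul_mem (prod_mem_pow _ _ _ fun c _ => h _ _) _

lemma ev_aeval {m : ℕ} (ι : R →ₐ[ℝ] R') (Y : Fin m → R') (b : Fin m) (p : R[X]) :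
    MvPolynomial.aevalTower ι Y (aeval (MvPolynomial.X b : MvPolynomial (Fin m) R) p) =
      aevalTower ι (Y b) p := by
  induction p using Polynomial.induction_on' with
  | add p q hp hq => simp only [map_add, hp, hq]
  | monomial n a =>
    rw [← C_mul_X_pow_eq_monomial]
    simp

lemma aeval_mem {m k : ℕ} (b : Fin m) {p : R[X]} (hp : p ∈ extV V ^ k) :
    aeval (MvPolynomial.X b : MvPolynomial (Fin m) R) p ∈ mvV V m ^ k := by
  refine map_mem_pow (V' := mvV V m)
    ((aeval (MvPolynomial.X b : MvPolynomial (Fin m) R)).restrictScalars ℝ) (fun v hv => ?_) hp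
  obtain ⟨a, ha, c, rfl⟩ := mem_extV.1 hv
  rw [map_add, map_smul]
  refine add_mem ?_ (Submodule.smul_mem _ _ ?_)
  · simpa using GExtA.C_mem_mvV (m := m) ha
  · simpa using GExtA.X_mem_mvV (V := V) b

omit [Algebra ℝ R] in
lemma det_eval [Nontrivial R] {k : ℕ} {Q : R[X]} (hQ : Q.Monic) (hN : Q.natDegree = k + 1)
    (x : Fin (k + 1) → R) (hx : ∀ b, Q.eval (x b) = 0) (q : Fin (k + 1) → R[X]) (h0 : q 0 = 1) :
    Matrix.det (Matrix.of fun b a : Fin (k + 1) => (q a).eval (x b)) =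
      Matrix.det (Matrix.of fun b c : Fin (k + 1) => x b ^ (c : ℕ)) *
        Matrix.det (Matrix.of fun a e : Fin k => (q a.succ %ₘ Q).coeff (e + 1)) := by
  have h1 : (Matrix.of fun b a : Fin (k + 1) => (q a).eval (x b)) =
      (Matrix.of fun b c : Fin (k + 1) => x b ^ (c : ℕ)) *
        (Matrix.of fun c a : Fin (k + 1) => (q a %ₘ Q).coeff c) := by
    ext b a
    have h2 : (q a %ₘ Q).eval (x b) = (q a).eval (x b) := by
      have h3 := congrArg (eval (x b)) (modByMonic_add_div (q a) Q)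
      simpa [hx b] using h3
    rw [Matrix.mul_apply, Matrix.of_apply, ← h2]
    conv_lhs => rw [SchurP.mod_eq_sum hQ hN (q a)]
    rw [eval_finsetSum]
    refine Finset.sum_congr rfl fun e _ => ?_
    rw [eval_mul, eval_C, eval_pow, eval_X, Matrix.of_apply, Matrix.of_apply, mul_comm]
  rw [h1, Matrix.det_mul]
  congr 1
  have h4 : (q 0 %ₘ Q : R[X]) = 1 := by
    rw [h0, (modByMonic_eq_self_iff hQ).2]
    rw [degree_one, degree_eq_natDegree hQ.ne_zero, hN]
    exact_mod_cast Nat.succ_pos k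
  rw [Matrix.det_succ_column_zero, Fin.sum_univ_succ, Finset.sum_eq_zero]
  · rw [← Matrix.det_transpose]
    simp only [Matrix.of_apply, h4, Fin.val_zero, pow_zero, coeff_one_zero, one_mul, add_zero,
      Fin.succAbove_zero]
    congr 1
  · intro e _
    simp [h4, coeff_one]

omit [Algebra ℝ R] in
lemma det_push [Nontrivial R] {k : ℕ} {Q : R[X]} (hQ : Q.Monic) (hN : Q.natDegree = k + 1)
    (q : Fin k → R[X]) :
    Matrix.det (Matrix.of fun a c : Fin k => push (k + 1) Q (q a * X ^ (c : ℕ))) =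
      Matrix.det (Matrix.of fun a e : Fin k => (q a %ₘ Q).coeff (e + 1)) * (-1) ^ tri k := by
  have h1 : (Matrix.of fun a c : Fin k => push (k + 1) Q (q a * X ^ (c : ℕ))) =
      (Matrix.of fun a e : Fin k => (q a %ₘ Q).coeff (e + 1)) *
        (Matrix.of fun e c : Fin k => push (k + 1) Q (X ^ ((e : ℕ) + 1 + c))) := by
    ext a c
    have h2 : (q a * X ^ (c : ℕ) : R[X]) =
        (q a %ₘ Q) * X ^ (c : ℕ) + Q * ((q a /ₘ Q) * X ^ (c : ℕ)) := by
      rw [← mul_assoc, ← add_mul, modByMonic_add_div]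
    rw [Matrix.mul_apply, Matrix.of_apply, h2, map_add, push_self_mul _ hQ, add_zero]
    conv_lhs => rw [SchurP.mod_eq_sum hQ hN (q a)]
    rw [Finset.sum_mul, map_sum, Fin.sum_univ_succ]
    have h3 : push (k + 1) Q (X ^ (c : ℕ)) = 0 := by
      rw [push_X_pow_of_lt hQ hN (by omega), if_neg (by omega)]
    simp only [mul_assoc, push_C_mul, Fin.val_zero, pow_zero, one_mul, h3, mul_zero, zero_add,
      Matrix.of_apply, Fin.val_succ, ← pow_add]
  rw [h1, Matrix.det_mul]
  congr 1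
  have h2 := SchurP.det_push hQ hN fun e : Fin k => (e : ℕ) + 1
  rw [h2]
  have h3 : (Matrix.of fun a e : Fin k =>
      ((X : R[X]) ^ ((a : ℕ) + 1) %ₘ Q).coeff (e + 1)) = 1 := by
    ext a e
    rw [Matrix.of_apply, (modByMonic_eq_self_iff hQ).2, coeff_X_pow, Matrix.one_apply]
    · by_cases h : a = e
      · simp [h]
      · rw [if_neg h, if_neg (fun h4 => h (Fin.ext (by omega)))]
    · rw [degree_X_pow, degree_eq_natDegree hQ.ne_zero, hN]
      exact_mod_cast (by omega : (a : ℕ) + 1 < k + 1)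
  rw [h3, Matrix.det_one, one_mul, tri]

end Level

open Level

lemma vd_mem {m : ℕ} {Y : Fin m → R} (hY : ∀ b, Y b ∈ V) : vd Y ∈ V ^ tri m := by
  exact det_mem _ (fun c : Fin m => (c : ℕ)) fun b _ => pow_mem_pow (hY b) _

theorem level_step [Nontrivial R] (h1 : (1 : R) ∈ V) {d N m p : ℕ} {ι : R →ₐ[ℝ] R'}
    {Y : Fin m → R'} {Q : R[X]} {c : ℝ} (hQ : Wt V (N + 1) Q) (hι : ∀ v ∈ V, ι v ∈ V')
    (hY : ∀ b, Y b ∈ V') (h : MG V φ d V' φ' ι Y N Q c) {A : ℕ → Submodule ℝ R}
    (hA : PF V φ d p A) (hQA : ∀ j ≤ N + 1, Mlt A (N + 1 - j) (Q.coeff j)) :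
    ∃ A' : ℕ → Submodule ℝ R', PF V' φ' (d + m * N) (p + tri m) A' ∧
      (∀ q, ∀ x ∈ A q, ι x * vd Y ∈ A' (q + tri m)) ∧
      (∀ u, Mlt A 1 u → Mlt A' 1 (ι u)) ∧ Mlt A' 1 (∑ b, Y b) ∧
      (∀ u, Mlt A 1 u → Mlt A' m (∏ b, (Y b + ι u))) ∧
      ∀ j ≤ m, Mlt A' (m - j) ((∏ b, (X + C (-Y b))).coeff j) := by
  classical
  have hev : MvPolynomial.aevalTower ι Y (SchurP.vdm R m) = vd Y := by
    unfold SchurP.vdm vd
    rw [AlgHom.map_det]
    congr 1
    ext b e
    simp
  refine ⟨nxt A ι Y, ⟨?_, ?_⟩, fun q x hx => ?_, fun u hu => ?_, ?_, fun u hu => ?_,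
    fun j hj => ?_⟩
  · rintro q x ⟨f, ⟨h2, -⟩, rfl⟩
    exact GExtA.mv_ev_mem hι hY (pol_le hA.le m q h2)
  · rintro q j hqj hj x ⟨f, ⟨h2, h3⟩, rfl⟩ ζ hζ
    obtain ⟨P, hP, h4⟩ := h.g1 q j hqj ζ hζ
    refine (h4 f (pol_le hA.le m q h2)).trans ?_
    have h5 := SchurP.pow_induction (V := V) (fun v hv => GExtA.mem_mvV.1 hv) hP
    clear hP h4
    induction h5 using Submodule.span_induction with
    | mem z hz =>
      obtain ⟨r, a, s, ha, hs, rfl⟩ := hz
      rw [mul_left_comm, tens_C_mul]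
      by_cases hinj : Function.Injective s
      · have h6 : tri m ≤ ∑ b, s b := SchurP.sum_le_of_inj s hinj
        have h7 := mlt_prod Finset.univ
          (fun b => (MvPolynomial.X b : MvPolynomial (Fin m) R) ^ s b) s
          (fun b _ => mlt_pow (mlt_X A b) (s b)) q f h2
        rw [mul_comm] at h7
        obtain ⟨h8, h9⟩ := tens_pol hQ.1 hQ.2.1 hQA h7
        by_cases h10 : q + ∑ b, s b < m * N
        · rw [h8 h10, mul_zero, map_zero]
        · rw [mul_comm]
          exact hA.orth _ r (by omega) (by omega) _ h9 a ha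
      · rw [tens_anti _ h3 hinj, mul_zero, map_zero]
    | zero => rw [mul_zero, map_zero, map_zero]
    | add x y _ _ hx hy => rw [mul_add, map_add, map_add, hx, hy, add_zero]
    | smul c' x _ hx =>
      rw [mul_smul_comm, ← algebraMap_smul R c', map_smul, algebraMap_smul, map_smul, hx,
        smul_zero]
  · refine ⟨SchurP.vdm R m * MvPolynomial.C x, ⟨mlt_vdm A m q _ (C_mem_pol hx), fun σ => ?_⟩, ?_⟩
    · rw [map_mul, SchurP.rename_vdm, MvPolynomial.rename_C, mul_assoc]
    · refine (map_mul (MvPolynomial.aevalTower ι Y) _ _).trans ?_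
      rw [hev, MvPolynomial.aevalTower_C, mul_comm]
  · exact mlt_nxt ι Y (mlt_C hu) (fun σ => MvPolynomial.rename_C _ _)
      (MvPolynomial.aevalTower_C _ _ _)
  · refine mlt_nxt ι Y (mlt_sum Finset.univ _ fun b _ => mlt_X A b)
      (SchurP.mem_syA.1 (SchurP.sum_X_mem_syA ⊤ m)).2 ?_
    simp
  · have h2 := mlt_prod Finset.univ
      (fun b => (MvPolynomial.X b : MvPolynomial (Fin m) R) + MvPolynomial.C u) (fun _ => 1)
      fun b _ => mlt_add (mlt_X A b) (mlt_C hu)
    rw [show ∑ _b : Fin m, 1 = m by simp] at h2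
    refine mlt_nxt ι Y h2 (fun σ => ?_) (by simp)
    rw [map_prod, ← Equiv.prod_comp σ
      fun b => (MvPolynomial.X b : MvPolynomial (Fin m) R) + MvPolynomial.C u]
    simp
  · have h2 := (mlt_coeff Finset.univ (fun b => -(MvPolynomial.X b : MvPolynomial (Fin m) R))
      (fun b _ => mlt_neg (mlt_X A b)) j).1 (by simpa using hj)
    rw [Finset.card_univ, Fintype.card_fin] at h2
    refine mlt_nxt ι Y h2 ?_ ?_
    · have h3 := (SchurP.mem_syA.1 (SchurP.coeff_prod_mem_syA (R := R) ⊤ m (-1) j)).2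
      simpa only [neg_smul, one_smul] using h3
    · have h3 : (∏ b, (X + C (-(MvPolynomial.X b : MvPolynomial (Fin m) R)))).map
          (MvPolynomial.aevalTower ι Y : MvPolynomial (Fin m) R →+* R') =
          ∏ b, (X + C (-Y b)) := by
        rw [Polynomial.map_prod]
        refine Finset.prod_congr rfl fun b _ => ?_
        simp
      rw [← h3, coeff_map]
      rfl

/-- The value of a product of two alternants. -/
theorem MG.det_det {d N m : ℕ} {ι : R →ₐ[ℝ] R'} {Y : Fin m → R'} {Q : R[X]} {c : ℝ}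
    (h : MG V φ d V' φ' ι Y N Q c) (p : Fin m → R[X]) (e : Fin m → ℕ)
    (hp : ∀ a, p a ∈ extV V ^ e a) {q : ℕ} {g : R} (hg : g ∈ V ^ q)
    (hd : q + ∑ a, e a + tri m = d + m * N) :
    φ' (ι g * (Matrix.det (Matrix.of fun b a : Fin m => aevalTower ι (Y b) (p a)) * vd Y)) =
      c * m.factorial * φ (g * Matrix.det (Matrix.of fun a k : Fin m =>
        push (N + 1) Q (p a * X ^ (k : ℕ)))) := by
  classical
  have h1 := tens_det_mul_det (push (N + 1) Q) p fun k : Fin m => X ^ (k : ℕ)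
  have h2 := h.g2 _ (mul_mem_pow' (GExtA.C_mem_mvV_pow (m := m) hg) (mul_mem_pow
    (det_mem (fun b a : Fin m => aeval (MvPolynomial.X b : MvPolynomial (Fin m) R) (p a)) e
      fun b a => aeval_mem b (hp a))
    (det_mem (fun b k : Fin m => aeval (MvPolynomial.X b : MvPolynomial (Fin m) R)
      (X ^ (k : ℕ) : R[X])) (fun k => (k : ℕ))
      fun b k => aeval_mem b (pow_mem_pow X_mem_extV _))) (by rw [← hd, add_assoc]; rfl))
  rw [tens_C_mul, h1, map_mul (MvPolynomial.aevalTower ι Y), map_mul (MvPolynomial.aevalTower ι Y),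
    MvPolynomial.aevalTower_C, AlgHom.map_det, AlgHom.map_det] at h2
  have h3 : ∀ D : R, g * ((m.factorial : R) * D) = (m.factorial : ℝ) • (g * D) := by
    intro D
    rw [Algebra.smul_def, map_natCast]
    ring
  rw [h3, map_smul, smul_eq_mul, ← mul_assoc c] at h2
  rw [← h2]
  unfold vd
  congr 4
  · ext b a
    simp [ev_aeval]
  · ext b a
    simp

omit [Algebra ℝ R] in
/-- Branching of an alternant whose first column is constant. -/
theorem det_step [Nontrivial R] {k : ℕ} (x : Fin (k + 1) → R) (q : Fin (k + 1) → R[X])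
    (h0 : q 0 = 1) :
    Matrix.det (Matrix.of fun b a : Fin (k + 1) => (q a).eval (x b)) =
      vd x * ((-1) ^ tri k * Matrix.det (Matrix.of fun a c : Fin k =>
        push (k + 1) (∏ b, (X + C (-x b))) (q a.succ * X ^ (c : ℕ)))) := by
  have hQ : (∏ b, (X + C (-x b))).Monic := monic_prod_of_monic _ _ fun b _ => monic_X_add_C _
  have hN : (∏ b, (X + C (-x b))).natDegree = k + 1 := by
    rw [natDegree_prod_of_monic _ _ fun b _ => monic_X_add_C _]
    simp only [natDegree_X_add_C]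
    simp
  have hx : ∀ b, (∏ b, (X + C (-x b))).eval (x b) = 0 := by
    intro b
    rw [eval_prod]
    exact Finset.prod_eq_zero (Finset.mem_univ b) (by simp)
  rw [det_eval hQ hN x hx q h0, det_push hQ hN fun a => q a.succ]
  have h7 : ((-1 : R) ^ tri k) * (-1) ^ tri k = 1 := by
    rw [← mul_pow]; simp
  unfold vd
  congr 1
  rw [mul_left_comm, h7, mul_one]

end G94
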