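import Pool.Agent.P.MP_740b33_co.MapB
import Pool.Agent.P.MP_740b33_co.Level

/-! Package C7: the corrections do not change the numbers. -/

namespace G94

open H40M Polynomial

lemma card_seg {n a b : ℕ} (hb : b ≤ n) : (seg n a b).card = b - 1 - a := by
  have h : (seg n a b).map Fin.valEmbedding = Finset.Ioo a b := by
    ext x
    simp only [seg, Finset.mem_map, Finset.mem_filter, Finset.mem_univ, true_and,
      Fin.valEmbedding_apply, Finset.mem_Ioo]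
    exact ⟨by rintro ⟨y, hy, rfl⟩; exact hy, fun hx => ⟨⟨x, by omega⟩, hx, rfl⟩⟩
  rw [← Finset.card_map Fin.valEmbedding, h, Nat.card_Ioo]
  omega

namespace VanL

lemma mem_seg {n a b : ℕ} {l : Fin n} : l ∈ seg n a b ↔ a < (l : ℕ) ∧ (l : ℕ) < b := by
  simp [seg]

section Alg

variable {R : Type} [CommRing R] [Algebra ℝ R] {V : Submodule ℝ R} {φ : R →ₗ[ℝ] ℝ}

lemma prod_mem {κ : Type} (s : Finset κ) (a : κ → R) {k : ℕ} (ha : ∀ i ∈ s, a i ∈ V ^ k) :
    ∏ i ∈ s, a i ∈ V ^ (s.card * k) := by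
  simpa using prod_mem_pow s a (fun _ => k) ha

lemma prod_mem_one {κ : Type} (s : Finset κ) (a : κ → R) (ha : ∀ i ∈ s, a i ∈ V) :
    ∏ i ∈ s, a i ∈ V ^ s.card := by
  simpa using prod_mem s a (k := 1) fun i hi => mem_pow_one (ha i hi)

lemma const_mem (h1 : (1 : R) ∈ V) (c : ℝ) : algebraMap ℝ R c ∈ V := by
  simpa using algebraMap_mem_pow h1 c 1

omit [Algebra ℝ R] in
lemma vd_eq {m : ℕ} (Y : Fin m → R) : vd Y = ∏ i, ∏ j ∈ Finset.Ioi i, (Y j - Y i) :=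
  Matrix.det_vandermonde Y

lemma tri_succ (m : ℕ) : tri (m + 1) = tri m + m := by
  simp [tri, Fin.sum_univ_castSucc]

lemma sum_card_Ioi (m : ℕ) : ∑ i : Fin m, (Finset.Ioi i).card = tri m := by
  rw [tri, ← Equiv.sum_comp Fin.revPerm]
  refine Finset.sum_congr rfl fun i _ => ?_
  have := i.2
  simp only [Fin.card_Ioi, Fin.revPerm_apply, Fin.val_rev]
  omega

/-- Constants may be dropped from the entries of a Vandermonde determinant. -/
lemma vd_shift {d : ℕ} (h1 : (1 : R) ∈ V) (hB : ∀ j < d, ∀ η ∈ V ^ j, φ η = 0) {m : ℕ}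
    (Y : Fin m → R) (c : Fin m → ℝ) (hY : ∀ i, Y i ∈ V) {q : ℕ} {P : R} (hP : P ∈ V ^ q)
    (hd : q + tri m = d) :
    φ (P * vd fun i => Y i + algebraMap ℝ R (c i)) = φ (P * vd Y) := by
  rw [vd_eq, vd_eq, Finset.prod_sigma', Finset.prod_sigma',
    ← shift h1 hB _ (fun p : (_ : Fin m) × Fin m => Y p.2 - Y p.1) (fun p => c p.2 - c p.1)
      (fun p _ => sub_mem (hY _) (hY _)) hP (by rw [Finset.card_sigma, sum_card_Ioi, hd])]
  congr 2
  refine Finset.prod_congr rfl fun p _ => ?_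
  rw [map_sub]
  ring

omit [Algebra ℝ R] in
lemma vd_ite {m : ℕ} (Y : Fin m → R) : vd Y = ∏ i, ∏ j, if i < j then Y j - Y i else 1 := by
  rw [vd_eq]
  refine Finset.prod_congr rfl fun i _ => ?_
  rw [← Finset.prod_filter]
  congr 1
  ext j
  simp

omit [Algebra ℝ R] in
/-- Splitting off one entry of a Vandermonde determinant. -/
lemma vd_split {m : ℕ} (Y : Fin (m + 1) → R) (c : Fin (m + 1)) :
    vd Y = (∏ j : Fin m, if c < c.succAbove j then (-1 : R) else 1) *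
      vd (fun j => Y (c.succAbove j)) * ∏ j : Fin m, (Y c - Y (c.succAbove j)) := by
  rw [vd_ite, vd_ite, Fin.prod_univ_succAbove _ c, Fin.prod_univ_succAbove _ c, if_neg (lt_irrefl _),
    one_mul, ← Finset.prod_mul_distrib, ← Finset.prod_mul_distrib, ← Finset.prod_mul_distrib]
  refine Finset.prod_congr rfl fun i _ => ?_
  rw [Fin.prod_univ_succAbove _ c]
  simp only [Fin.succAbove_lt_succAbove_iff]
  rcases lt_or_gt_of_ne (Fin.succAbove_ne c i) with h | h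
  · rw [if_pos h, if_neg h.not_gt, if_neg h.not_gt]
    ring
  · rw [if_pos h, if_pos h, if_neg h.not_gt]
    ring

end Alg

lemma seg_succ {n γ b : ℕ} (h : γ + 1 < b) (hb : b ≤ n) :
    seg n γ b = insert ⟨γ + 1, by omega⟩ (seg n (γ + 1) b) := by
  ext l
  simp only [Finset.mem_insert, mem_seg, Fin.ext_iff]
  omega

lemma equiv_one {F : Fan} {n : ℕ} {W : Fin n → F.Ray → ℝ} {X : F.Ray → ℝ}
    {e : Fin n → F.Ray → ℝ} {P : F.Ξ → F.Cn → ℝ} {q b : ℕ} (hb : b ≤ n)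
    (hV : F.Van W P q X e b) {ξ : F.Ξ} (hξ : F.Gen ξ) (k : ℕ) :
    ∀ γ, γ + k + 1 = b → ∀ j, q + k + j = F.d → ∀ ζ ∈ F.V ξ ^ j,
      F.φ ξ (P ξ * (∏ l ∈ seg n γ b, (F.cl X ξ + F.cl (W l) ξ) -
        ∏ l ∈ seg n γ b, F.cl (X + W l - e l) ξ) * ζ) = 0 := by
  induction k with
  | zero =>
    intro γ hγ j _ ζ _
    have h : seg n γ b = ∅ := by
      ext l
      simp only [mem_seg, Finset.notMem_empty, iff_false]
      omega
    simp [h]
  | succ k ih =>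
    intro γ hγ j hj ζ hζ
    have h0 : γ + 1 < b := by omega
    set l : Fin n := ⟨γ + 1, by omega⟩ with hl
    have hn : l ∉ seg n (γ + 1) b := by simp [mem_seg, hl]
    have h1 := hV ξ hξ l h0 (1 + j) (by simp only [hl]; omega) (F.cl (e l) ξ * ζ)
      (mul_mem_pow (mem_pow_one (Fan.cl_mem _ _)) hζ) fun σ hσ => by
        rw [Pi.mul_apply, hσ.cl, zero_mul]
    have h2 := ih (γ + 1) (by omega) (1 + j) (by omega) (F.cl (X + W l - e l) ξ * ζ)
      (mul_mem_pow (mem_pow_one (Fan.cl_mem _ _)) hζ)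
    rw [seg_succ h0 hb, Finset.prod_insert hn, Finset.prod_insert hn, ← add_zero (0 : ℝ)]
    nth_rewrite 1 [← h1]
    rw [← h2, ← map_add]
    congr 1
    rw [Fan.cl_sub, Fan.cl_add]
    ring

end VanL

open VanL

theorem van_top {F F' : Fan} {N : ℕ} {M : Map F' F N} (hB : F'.Bal)
    {W : Fin (N + 1) → F.Ray → ℝ} {Y : F'.Ray → ℝ} {s : Fin (N + 1) → F'.Ξ →ₗ[ℝ] ℝ}
    {top : F'.Cn → Fin (N + 1)} (hM : IsBunW M (fun j => -W j) Y s top)
    {e : Fin (N + 1) → F'.Ray → ℝ} (he : ∀ l σ, top σ ≤ l → F'.Z (e l) σ) :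
    F'.Van (fun l => M.pull (W l)) 1 0 Y e (N + 1) := by
  intro ξ hξ l _ j hj h hh hz
  have h1 := shift (Fan.one_mem_V ξ) (hB ξ hξ) (seg (N + 1) l (N + 1))
    (fun l' => F'.cl Y ξ + F'.cl (M.pull (W l')) ξ) (fun l' => -s l' ξ)
    (fun _ _ => add_mem (Fan.cl_mem _ _) (Fan.cl_mem _ _)) hh
    (by rw [card_seg le_rfl]; omega)
  rw [Pi.one_apply, one_mul, mul_comm, ← h1]
  convert map_zero (F'.φ ξ)
  funext σ
  rw [Pi.mul_apply, Finset.prod_apply, Pi.zero_apply]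
  by_cases hσ : top σ ≤ l
  · rw [hz σ (he l σ hσ), zero_mul]
  · rw [Finset.prod_eq_zero (i := top σ) (mem_seg.2 ⟨not_le.1 hσ, (top σ).2⟩), mul_zero]
    rw [Pi.add_apply, Pi.add_apply, hM.cl_top, Map.cl_pull, Map.ι_apply, Fan.cl_neg]
    simp

theorem van_child {F F' : Fan} {n m : ℕ} {M : Map F' F m} (hB : F'.Bal)
    {W : Fin n → F.Ray → ℝ} {X : Fin (m + 1) → F.Ray → ℝ} {e : Fin (m + 1) → Fin n → F.Ray → ℝ}
    {P : F.Ξ → F.Cn → ℝ} {q b γ : ℕ} (hP : ∀ ξ, F.Gen ξ → P ξ ∈ F.V ξ ^ q) (hγ : γ < b)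
    (hb : b ≤ n) (hV : ∀ c, F.Van W P q (X c) (e c) b) {Y : F'.Ray → ℝ}
    {s : Fin (m + 1) → F'.Ξ →ₗ[ℝ] ℝ} {top : F'.Cn → Fin (m + 1)} (hM : IsBunW M X Y s top)
    {e' : Fin n → F'.Ray → ℝ} (he : ∀ l σ, F'.Z (M.pull (e (top σ) l)) σ → F'.Z (e' l) σ) :
    F'.Van (fun l => M.pull (W l))
      (M.up fun ξ => P ξ * vd (fun c => F.cl (X c) ξ) *
        ∏ c, ∏ l ∈ seg n γ b, (F.cl (X c) ξ + F.cl (W l) ξ))
      (q + tri (m + 1) + (m + 1) * (b - 1 - γ)) Y e' (γ + 1) := by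
  intro ξ hξ l hl j hj h hh hz
  have h1 := Fan.one_mem_V (F := F') ξ
  set x : Fin (m + 1) → F'.Cn → ℝ := fun c => F'.cl (M.pull (X c)) ξ with hx
  set w : Fin n → F'.Cn → ℝ := fun l => F'.cl (M.pull (W l)) ξ with hw
  set y : F'.Cn → ℝ := F'.cl Y ξ with hy
  set t : Fin (m + 1) → F'.Cn → ℝ := fun c => x c + algebraMap ℝ _ (s c ξ) with ht
  set A : Fin (m + 1) → F'.Cn → ℝ := fun c => ∏ l ∈ seg n γ b, (x c + w l) with hA
  set G : Fin (m + 1) → F'.Cn → ℝ := fun c => ∏ i : Fin m, (y - t (c.succAbove i)) with hG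
  set u : Fin (m + 1) → F'.Cn → ℝ := fun c =>
    (∏ j : Fin m, if c < c.succAbove j then (-1 : F'.Cn → ℝ) else 1) *
      vd (fun j => t (c.succAbove j)) with hu
  have hxV : ∀ c, x c ∈ F'.V ξ := fun c => Fan.cl_mem _ _
  have hwV : ∀ c, w c ∈ F'.V ξ := fun c => Fan.cl_mem _ _
  have hyV : y ∈ F'.V ξ := Fan.cl_mem _ _
  have htV : ∀ c, t c ∈ F'.V ξ := fun c => add_mem (hxV c) (const_mem h1 _)
  have hAV : ∀ c, A c ∈ F'.V ξ ^ (b - 1 - γ) := fun c =>
    card_seg hb ▸ prod_mem_one _ _ fun l _ => add_mem (hxV c) (hwV l)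
  have hGV : ∀ c, G c ∈ F'.V ξ ^ m := fun c => by
    simpa using prod_mem_one Finset.univ (fun i : Fin m => y - t (c.succAbove i))
      fun i _ => sub_mem hyV (htV _)
  have huV : ∀ c, u c ∈ F'.V ξ ^ tri m := fun c => by
    refine mul_mem_pow' (i := 0) ?_ (vd_mem fun j => htV _) (zero_add _)
    refine Finset.prod_induction _ (· ∈ F'.V ξ ^ 0) (fun _ _ ha hb => mul_mem_pow ha hb)
      one_mem_pow_zero fun i _ => ?_
    split_ifs
    · exact neg_mem one_mem_pow_zero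
    · exact one_mem_pow_zero
  have hPV : M.up P ξ ∈ F'.V ξ ^ q := map_mem_pow M.ι (M.ι_mem ξ) (hP _ (M.gen ξ hξ))
  have hyt : ∀ σ, y σ = t (top σ) σ := fun σ => by
    simp only [hy, ht, hx, hM.cl_top, Map.cl_pull, Pi.add_apply, Map.ι_apply]
    rfl
  have hG0 : ∀ c σ, top σ ≠ c → G c σ = 0 := fun c σ hc => by
    obtain ⟨i, hi⟩ := Fin.exists_succAbove_eq hc
    simp only [hG, Finset.prod_apply]
    exact Finset.prod_eq_zero (Finset.mem_univ i) (by rw [Pi.sub_apply, hi, hyt, sub_self])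
  have hvd : vd t = ∑ c, u c * G c := by
    funext σ
    rw [Finset.sum_apply, Finset.sum_eq_single (top σ)
      (fun c _ hc => by rw [Pi.mul_apply, hG0 c σ hc.symm, mul_zero]) (by simp),
      vd_split t (top σ)]
    simp only [hu, hG, Pi.mul_apply, Finset.prod_apply, Pi.sub_apply, hyt]
  have hup : (M.up fun ξ => P ξ * vd (fun c => F.cl (X c) ξ) *
      ∏ c, ∏ l ∈ seg n γ b, (F.cl (X c) ξ + F.cl (W l) ξ)) ξ = M.up P ξ * vd x * ∏ c, A c := by
    simp only [Map.up_apply, hA, hx, hw, Map.cl_pull, vd_eq, map_mul, map_prod, map_add, map_sub]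
  have hc1 : (seg n l (γ + 1)).card = γ - l := by rw [card_seg (by omega)]; omega
  have hBV : ∏ l' ∈ seg n l (γ + 1), (y + w l') ∈ F'.V ξ ^ (γ - l) :=
    hc1 ▸ prod_mem_one _ _ fun l _ => add_mem hyV (hwV l)
  have hAA : ∏ c, A c ∈ F'.V ξ ^ ((m + 1) * (b - 1 - γ)) := by
    simpa using prod_mem Finset.univ A fun c _ => hAV c
  have h2 := vd_shift h1 (hB ξ hξ) x (fun c => s c ξ) hxV
    (mul_mem_pow (mul_mem_pow (mul_mem_pow hPV hAA) hBV) hh) (by omega)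
  rw [hup, show M.up P ξ * vd x * (∏ c, A c) * (∏ l' ∈ seg n l (γ + 1), (y + w l')) * h =
    M.up P ξ * (∏ c, A c) * (∏ l' ∈ seg n l (γ + 1), (y + w l')) * h * vd x by ring, ← h2]
  change F'.φ ξ (_ * vd t) = 0
  rw [hvd, Finset.mul_sum, map_sum]
  refine Finset.sum_eq_zero fun c _ => ?_
  have hA' : ∏ i : Fin m, A (c.succAbove i) ∈ F'.V ξ ^ (m * (b - 1 - γ)) := by
    simpa using prod_mem Finset.univ (fun i : Fin m => A (c.succAbove i)) fun c _ => hAV _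
  have h3 := tri_succ m
  have h4 := shift h1 (hB ξ hξ) (seg n l (γ + 1)) (fun l' => x c + w l') (fun _ => s c ξ)
    (fun l _ => add_mem (hxV c) (hwV l))
    (mul_mem_pow (mul_mem_pow (mul_mem_pow (mul_mem_pow hPV hAA) hh) (huV c)) (hGV c))
    (by rw [hc1]; omega)
  have h5 := M.van (hV c) ξ hξ l (by omega) _
    (by rw [Nat.succ_mul] at hj; omega) _
    (mul_mem_pow (mul_mem_pow (mul_mem_pow hA' hh) (huV c)) (hGV c)) fun σ hσ => by
      by_cases hc : top σ = c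
      · subst hc
        simp only [Pi.mul_apply, hz σ (he l σ hσ), mul_zero, zero_mul]
      · simp only [Pi.mul_apply, hG0 c σ hc, mul_zero]
  have h6 : seg n l b = seg n l (γ + 1) ∪ seg n γ b := by
    ext i
    simp only [Finset.mem_union, mem_seg]
    omega
  have h7 : Disjoint (seg n l (γ + 1)) (seg n γ b) :=
    Finset.disjoint_left.2 fun i h1 h2 => by
      rw [mem_seg] at h1 h2
      omega
  have h8 : (∏ l' ∈ seg n l (γ + 1), (y + w l')) * G c =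
      (∏ l' ∈ seg n l (γ + 1), (x c + w l' + algebraMap ℝ _ (s c ξ))) * G c := by
    funext σ
    by_cases hc : top σ = c
    · subst hc
      simp only [Pi.mul_apply, Finset.prod_apply, Pi.add_apply, hyt, ht]
      congr 1
      exact Finset.prod_congr rfl fun _ _ => by ring
    · simp only [Pi.mul_apply, hG0 c σ hc, mul_zero]
  rw [h6, Finset.prod_union h7] at h5
  rw [show M.up P ξ * (∏ c, A c) * (∏ l' ∈ seg n l (γ + 1), (y + w l')) * h * (u c * G c) =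
    M.up P ξ * (∏ c, A c) * h * u c * ((∏ l' ∈ seg n l (γ + 1), (y + w l')) * G c) by ring, h8,
    mul_comm _ (G c), ← mul_assoc, h4, ← h5, Fin.prod_univ_succAbove _ c]
  congr 1
  simp only [hA, hx, hw]
  ring

theorem van_equiv {F : Fan} {n m : ℕ} {W : Fin n → F.Ray → ℝ} {X : Fin m → F.Ray → ℝ}
    {e : Fin m → Fin n → F.Ray → ℝ} {P : F.Ξ → F.Cn → ℝ} {q b γ : ℕ} (hγ : γ < b) (hb : b ≤ n)
    (hV : ∀ c, F.Van W P q (X c) (e c) b) {ξ : F.Ξ} (hξ : F.Gen ξ) :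
    Nul (F.V ξ) (F.φ ξ) F.d (q + m * (b - 1 - γ))
      (P ξ * (∏ c, ∏ l ∈ seg n γ b, (F.cl (X c) ξ + F.cl (W l) ξ) -
        ∏ c, ∏ l ∈ seg n γ b, F.cl (X c + W l - e c l) ξ)) := by
  set A : Fin m → F.Cn → ℝ := fun c => ∏ l ∈ seg n γ b, (F.cl (X c) ξ + F.cl (W l) ξ) with hA
  set B : Fin m → F.Cn → ℝ := fun c => ∏ l ∈ seg n γ b, F.cl (X c + W l - e c l) ξ with hB
  have hAV : ∀ c, A c ∈ F.V ξ ^ (b - 1 - γ) := fun c =>
    card_seg hb ▸ prod_mem_one _ _ fun l _ => add_mem (Fan.cl_mem _ _) (Fan.cl_mem _ _)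
  have hBV : ∀ c, B c ∈ F.V ξ ^ (b - 1 - γ) := fun c =>
    card_seg hb ▸ prod_mem_one _ _ fun l _ => Fan.cl_mem _ _
  have key : ∀ S : Finset (Fin m), ∀ j, q + S.card * (b - 1 - γ) + j = F.d → ∀ ζ ∈ F.V ξ ^ j,
      F.φ ξ (P ξ * (∏ c ∈ S, A c - ∏ c ∈ S, B c) * ζ) = 0 := by
    intro S
    induction S using Finset.induction_on with
    | empty => intro j _ ζ _; simp
    | insert c S hc ih =>
      intro j hj ζ hζ
      rw [Finset.card_insert_of_notMem hc, Nat.succ_mul] at hj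
      have h1 := equiv_one hb (hV c) hξ (b - 1 - γ) γ (by omega) _ (by omega) _
        (mul_mem_pow (prod_mem S A fun c _ => hAV c) hζ)
      have h2 := ih _ (by omega) _ (mul_mem_pow (hBV c) hζ)
      rw [Finset.prod_insert hc, Finset.prod_insert hc, ← add_zero (0 : ℝ)]
      nth_rewrite 1 [← h1]
      rw [← h2, ← map_add]
      congr 1
      simp only [hA, hB]
      ring
  intro j hj ζ hζ
  exact key Finset.univ j (by simpa using hj) ζ hζ

end G94
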