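import Pool.Agent.P.MP_740b33_co.BaseF
import Pool.Agent.P.MP_740b33_co.VanL

/-! The nodes of a lower level of the tower. -/

namespace G94

open H40M Polynomial

lemma map_vd {R R' : Type} [CommRing R] [Algebra ℝ R] [CommRing R'] [Algebra ℝ R']
    (ι : R →ₐ[ℝ] R') {m : ℕ} (Y : Fin m → R) : ι (vd Y) = vd fun b => ι (Y b) := by
  unfold vd
  rw [AlgHom.map_det]
  congr 1
  ext b c
  simp

/-- The multiplier after one more level. -/
noncomputable def Fan.lev (F : Fan) {n m : ℕ} (W : Fin n → F.Ray → ℝ) (X : Fin m → F.Ray → ℝ)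
    (P : F.Ξ → F.Cn → ℝ) (γ b : ℕ) : F.Ξ → F.Cn → ℝ :=
  fun ξ => P ξ * vd (fun c => F.cl (X c) ξ) * ∏ c, ∏ l ∈ seg n γ b, (F.cl (X c) ξ + F.cl (W l) ξ)

lemma Map.up_lev {F' F : Fan} {f : ℕ} (M : Map F' F f) {n m : ℕ} (W : Fin n → F.Ray → ℝ)
    (X : Fin m → F.Ray → ℝ) (P : F.Ξ → F.Cn → ℝ) (γ b : ℕ) :
    M.up (F.lev W X P γ b) =
      F'.lev (fun l => M.pull (W l)) (fun c => M.pull (X c)) (M.up P) γ b := by
  funext ξ
  simp only [Map.up_apply, Fan.lev, map_mul, map_prod, map_add, map_vd, Map.cl_pull]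

lemma Map.up_mem {F' F : Fan} {f : ℕ} (M : Map F' F f) {P : F.Ξ → F.Cn → ℝ} {q : ℕ}
    (hP : ∀ ξ, F.Gen ξ → P ξ ∈ F.V ξ ^ q) : ∀ ξ, F'.Gen ξ → M.up P ξ ∈ F'.V ξ ^ q :=
  fun ξ hξ => map_mem_pow M.ι (M.ι_mem ξ) (hP _ (M.gen ξ hξ))

theorem exists_child {F : Fan} (hF : F.Good) {n m : ℕ} {W : Fin n → F.Ray → ℝ}
    {X : Fin (m + 1) → F.Ray → ℝ} {e : Fin (m + 1) → Fin n → F.Ray → ℝ}
    (hX : ∀ c, F.Node W (X c) (e c)) {P : F.Ξ → F.Cn → ℝ} {q b γ : ℕ}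
    (hP : ∀ ξ, F.Gen ξ → P ξ ∈ F.V ξ ^ q) (hγ : γ < b) (hb : b ≤ n)
    (hV : ∀ c, F.Van W P q (X c) (e c) b) :
    ∃ (F' : Fan) (M : Map F' F m) (Y : F'.Ray → ℝ) (e' : Fin n → F'.Ray → ℝ), F'.Good ∧
      F'.Node (fun l => M.pull (W l)) Y e' ∧
      F'.Van (fun l => M.pull (W l)) (M.up (F.lev W X P γ b))
        (q + tri (m + 1) + (m + 1) * (b - 1 - γ)) Y e' (γ + 1) ∧
      ∀ ξ, F'.Gen ξ → GExt (F.V (M.pr ξ)) (F.φ (M.pr ξ)) F.d (F'.V ξ) (F'.φ ξ) M.ι (F'.cl Y ξ) m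
        (∏ j, (Polynomial.X + C (-F.cl (X j) (M.pr ξ)))) 1 := by
  obtain ⟨F1, M1, Y1, s, top, h1, hB⟩ := exists_bun hF fun j => (hX j).conv
  obtain ⟨F', R, e', w', h', hR, hN, hz, -⟩ := exists_node h1 W (fun j => (hX j).conv) hB.weak
    (fun _ => Finset.univ) (fun _ => Finset.univ_nonempty) (fun l j => e j l)
    fun l j _ => ⟨(hX j).nn l, (hX j).cor l⟩
  have hW := hB.weak.refine hR
  refine ⟨F', R.comp M1 (Nat.add_zero m), R.pull Y1, e', h', ?_, ?_, fun ξ hξ => hW.gext h'.bal hξ⟩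
  · simpa only [Map.comp_pull] using hN
  · refine van_child h'.bal hP hγ hb hV hW fun l σ h => hz l σ (Finset.mem_univ _) ?_
    simpa only [Map.comp_pull] using h

theorem exists_children {F : Fan} (hF : F.Good) {n m : ℕ} {W : Fin n → F.Ray → ℝ}
    {X : Fin (m + 1) → F.Ray → ℝ} {e : Fin (m + 1) → Fin n → F.Ray → ℝ}
    (hX : ∀ c, F.Node W (X c) (e c)) {P : F.Ξ → F.Cn → ℝ} {q b γ : ℕ}
    (hP : ∀ ξ, F.Gen ξ → P ξ ∈ F.V ξ ^ q) (hγ : γ < b) (hb : b ≤ n)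
    (hV : ∀ c, F.Van W P q (X c) (e c) b) (k : ℕ) :
    ∃ (F' : Fan) (M : Map F' F (k * m)) (Y : Fin k → F'.Ray → ℝ)
      (e' : Fin k → Fin n → F'.Ray → ℝ), F'.Good ∧
      (∀ c, F'.Node (fun l => M.pull (W l)) (Y c) (e' c)) ∧
      (∀ c, F'.Van (fun l => M.pull (W l)) (M.up (F.lev W X P γ b))
        (q + tri (m + 1) + (m + 1) * (b - 1 - γ)) (Y c) (e' c) (γ + 1)) ∧
      ∀ ξ, F'.Gen ξ → MG (F.V (M.pr ξ)) (F.φ (M.pr ξ)) F.d (F'.V ξ) (F'.φ ξ) M.ι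
        (fun c => F'.cl (Y c) ξ) m (∏ j, (Polynomial.X + C (-F.cl (X j) (M.pr ξ)))) 1 := by
  induction k with
  | zero =>
    refine ⟨F, (Map.id F).comp (Map.id F) (by simp), Fin.elim0, Fin.elim0, hF, fun c => c.elim0,
      fun c => c.elim0, fun ξ _ => ?_⟩
    exact MG.zero _ _ _ _ _ fun _ => rfl
  | succ k ih =>
    obtain ⟨F1, M1, Y, e1, h1, hN, hV1, hM⟩ := ih
    obtain ⟨F2, M2, Z, e2, h2, hN2, hV2, hG⟩ := exists_child h1 (fun c => M1.node (hX c))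
      (M1.up_mem hP) hγ hb fun c => M1.van (hV c)
    refine ⟨F2, M2.comp M1 (by ring), Fin.cons Z fun c => M2.pull (Y c),
      Fin.cons e2 fun c l => M2.pull (e1 c l), h2, fun c => ?_, fun c => ?_, fun ξ hξ => ?_⟩
    · simp only [Map.comp_pull]
      refine Fin.cases ?_ (fun c => ?_) c
      · exact hN2
      · exact M2.node (hN c)
    · simp only [Map.comp_pull]
      refine Fin.cases ?_ (fun c => ?_) c
      · rw [← M1.up_lev] at hV2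
        exact hV2
      · exact M2.van (hV1 c)
    · have hξ1 := M2.gen ξ hξ
      have hQ : Wt (F.V (M1.pr (M2.pr ξ))) (m + 1)
          (∏ j, (Polynomial.X + C (-F.cl (X j) (M1.pr (M2.pr ξ))))) := by
        simpa using wt_prod (Fan.one_mem_V _) Finset.univ
          (fun j => -F.cl (X j) (M1.pr (M2.pr ξ))) fun j _ => neg_mem (Fan.cl_mem _ _)
      have h3 := hG ξ hξ
      have h4 : (∏ j, (Polynomial.X + C (-F1.cl (M1.pull (X j)) (M2.pr ξ)))) =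
          (∏ j, (Polynomial.X + C (-F.cl (X j) (M1.pr (M2.pr ξ))))).map
            (M1.ι : (F.Cn → ℝ) →+* (F1.Cn → ℝ)) := by
        simp [Polynomial.map_prod, Map.cl_pull]
      rw [h4, M1.dim] at h3
      have h5 := MG.succ (Fan.one_mem_V _) hQ (M1.ι_mem _) (fun c => Fan.cl_mem _ _)
        (hM _ hξ1) h3 (ι'' := (M2.comp M1 (by ring : k * m + m = (k + 1) * m)).ι) fun _ => rfl
      rw [one_mul] at h5
      have h6 : (fun c => F2.cl ((Fin.cons Z fun c => M2.pull (Y c) : Fin (k + 1) → _) c) ξ) =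
          Fin.cons (F2.cl Z ξ) fun b => M2.ι (F1.cl (Y b) (M2.pr ξ)) := by
        funext c
        refine Fin.cases rfl (fun c => ?_) c
        exact M2.cl_pull _ _
      rw [h6]
      exact h5

end G94
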