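import Pool.Agent.P.MP_740b33_co.Sep

/-! Package D2: functions of the greedy basis have degree `n - e`. -/

namespace G94

open H40M Polynomial

namespace Comp

open _root_.G94.Sep

variable {n : ℕ}

/-- Separators as finite sets. -/
def FS (M : Matroid (Fin n)) (T : Finset (Fin n)) : Prop :=
  rkFun M T + rkFun M Tᶜ = rkFun M Finset.univ

lemma sep_iff (M : Matroid (Fin n)) (T : Finset (Fin n)) : IsSep M ↑T ↔ FS M T := by
  rw [FS, ← Nat.cast_inj (R := ℕ∞), Nat.cast_add, coe_rkFun, coe_rkFun, coe_rkFun,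
    Finset.coe_compl, Finset.coe_univ, Matroid.eRk_univ_eq]
  rfl

lemma FS.compl {M : Matroid (Fin n)} {T : Finset (Fin n)} (h : FS M T) : FS M Tᶜ := by
  rw [FS, compl_compl, add_comm]; exact h

lemma FS.inter {M : Matroid (Fin n)} {S T : Finset (Fin n)} (hS : FS M S) (hT : FS M T) :
    FS M (S ∩ T) := by
  have h1 := rk_add M hT S
  have h2 := rk_add M hS (S ∩ T)ᶜ
  have e1 : (S ∩ T)ᶜ ∩ S = S ∩ Tᶜ := by ext a; simp; tauto
  have e2 : (S ∩ T)ᶜ ∩ Sᶜ = Sᶜ := by ext a; simp
  rw [e1, e2] at h2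
  unfold FS at *
  omega

lemma FS.univ (M : Matroid (Fin n)) : FS M Finset.univ := by
  rw [FS, Finset.compl_univ, (isRk_rkFun M).empty, add_zero]

open Classical in
/-- The components. -/
noncomputable def blocks (M : Matroid (Fin n)) : Finset (Finset (Fin n)) :=
  Finset.univ.filter fun S => Minimal (fun T : Finset (Fin n) => T.Nonempty ∧ FS M T) S

lemma mem_blocks {M : Matroid (Fin n)} {S : Finset (Fin n)} :
    S ∈ blocks M ↔ Minimal (fun T : Finset (Fin n) => T.Nonempty ∧ FS M T) S := by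
  simp [blocks]

lemma comps_eq (M : Matroid (Fin n)) : comps M = (blocks M).card := by
  classical
  have e : {S | Minimal (fun T : Set (Fin n) => T.Nonempty ∧ IsSep M T) S} =
      (fun T : Finset (Fin n) => (T : Set (Fin n))) '' ↑(blocks M) := by
    ext S
    obtain ⟨T, rfl⟩ : ∃ T : Finset (Fin n), S = ↑T := ⟨S.toFinset, by simp⟩
    rw [Finset.coe_injective.mem_set_image, Finset.mem_coe, mem_blocks, Set.mem_ofPred_eq]
    constructor
    · intro h
      exact ⟨⟨Finset.coe_nonempty.1 h.1.1, (sep_iff M T).1 h.1.2⟩, fun U hU hUT =>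
        Finset.coe_subset.1 (h.2 ⟨Finset.coe_nonempty.2 hU.1, (sep_iff M U).2 hU.2⟩
          (Finset.coe_subset.2 hUT))⟩
    · intro h
      refine ⟨⟨Finset.coe_nonempty.2 h.1.1, (sep_iff M T).2 h.1.2⟩, fun U hU hUT => ?_⟩
      obtain ⟨U, rfl⟩ : ∃ T : Finset (Fin n), U = ↑T := ⟨U.toFinset, by simp⟩
      exact Finset.coe_subset.2 (h.2 ⟨Finset.coe_nonempty.1 hU.1, (sep_iff M U).1 hU.2⟩
        (Finset.coe_subset.1 hUT))
  rw [comps, e, Set.ncard_image_of_injective _ Finset.coe_injective, Set.ncard_coe_finset]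

lemma blocks_cover (M : Matroid (Fin n)) (x : Fin n) : ∃ T ∈ blocks M, x ∈ T := by
  obtain ⟨T, -, hT⟩ := exists_minimal_le_of_wellFoundedLT
    (fun T : Finset (Fin n) => x ∈ T ∧ FS M T) Finset.univ ⟨Finset.mem_univ _, FS.univ M⟩
  refine ⟨T, mem_blocks.2 ⟨⟨⟨x, hT.1.1⟩, hT.1.2⟩, fun S hS hST => ?_⟩, hT.1.1⟩
  by_cases hx : x ∈ S
  · exact hT.2 ⟨hx, hS.2⟩ hST
  · obtain ⟨y, hy⟩ := hS.1
    have h1 := hT.2 (y := T ∩ Sᶜ) ⟨Finset.mem_inter.2 ⟨hT.1.1, Finset.mem_compl.2 hx⟩,
      hT.1.2.inter hS.2.compl⟩ Finset.inter_subset_left (hST hy)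
    exact absurd hy (Finset.mem_compl.1 (Finset.mem_inter.1 h1).2)

lemma blocks_sum (M : Matroid (Fin n)) : ∑ T ∈ blocks M, (T.card - 1) + comps M ≤ n := by
  have hd : (↑(blocks M) : Set (Finset (Fin n))).PairwiseDisjoint id := fun S hS T hT hST => by
    have hS' := mem_blocks.1 hS
    have hT' := mem_blocks.1 hT
    by_contra hc
    have h1 : (S ∩ T).Nonempty ∧ FS M (S ∩ T) :=
      ⟨Finset.not_disjoint_iff_nonempty_inter.1 hc, hS'.1.2.inter hT'.1.2⟩
    exact hST (le_antisymm ((hS'.2 h1 Finset.inter_subset_left).trans Finset.inter_subset_right)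
      ((hT'.2 h1 Finset.inter_subset_right).trans Finset.inter_subset_left))
  have h1 := Finset.card_biUnion hd
  have h2 := Finset.card_le_univ ((blocks M).biUnion id)
  rw [Fintype.card_fin, h1] at h2
  refine le_trans (le_of_eq ?_) h2
  rw [comps_eq, Finset.card_eq_sum_ones (blocks M), ← Finset.sum_add_distrib]
  refine Finset.sum_congr rfl fun T hT => ?_
  have := (mem_blocks.1 hT).1.1.card_pos
  change _ = T.card
  omega

lemma fun_mem {t : Fin n → ℝ} (ht : Function.Injective t) (B : Finset (Finset (Fin n)))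
    (η : Equiv.Perm (Fin n) → ℝ) (hη : ∀ w w', (∀ T ∈ B, Same T w w') → η w = η w') :
    η ∈ permV t ^ (∑ T ∈ B, (T.card - 1)) := by
  classical
  set c : Equiv.Perm (Fin n) → ℝ := fun w =>
    ((Finset.univ.filter fun w' => ∀ T ∈ B, Same T w' w).card : ℝ) with hc
  have hc0 : ∀ w, c w ≠ 0 := fun w => by
    simp only [hc]
    exact Nat.cast_ne_zero.2 (Finset.card_ne_zero_of_mem (a := w)
      (Finset.mem_filter.2 ⟨Finset.mem_univ _, fun _ _ => Same.refl _ _⟩))
  have hc1 : ∀ w w', (∀ T ∈ B, Same T w w') → c w = c w' := fun w w' h1 => by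
    simp only [hc]
    congr 2
    ext u
    simp only [Finset.mem_filter, Finset.mem_univ, true_and]
    exact ⟨fun h T hT => (h T hT).trans (h1 T hT), fun h T hT => (h T hT).trans (h1 T hT).symm⟩
  have e : η = ∑ w0, (η w0 / c w0) •
      ∏ T ∈ B, fun w => if Same T w0 w then (1 : ℝ) else 0 := by
    funext w
    rw [Finset.sum_apply]
    have h1 : ∀ w0, ((η w0 / c w0) • ∏ T ∈ B, fun w => if Same T w0 w then (1 : ℝ) else 0) w =
        if ∀ T ∈ B, Same T w0 w then η w / c w else 0 := by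
      intro w0
      rw [Pi.smul_apply, Finset.prod_apply, smul_eq_mul, Finset.prod_boole]
      by_cases h1 : ∀ T ∈ B, Same T w0 w
      · rw [if_pos h1, if_pos h1, hη _ _ h1, hc1 _ _ h1, mul_one]
      · rw [if_neg h1, if_neg h1, mul_zero]
    simp only [h1]
    rw [← Finset.sum_filter, Finset.sum_const, nsmul_eq_mul]
    have h2 := hc0 w
    change η w = c w * (η w / c w)
    field_simp
  rw [e]
  exact Submodule.sum_mem _ fun w0 _ => Submodule.smul_mem _ _
    (prod_mem_pow _ _ _ fun T _ => ind_mem ht w0 T)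

lemma greedy_eq (M : Matroid (Fin n)) {w w' : Equiv.Perm (Fin n)}
    (h : ∀ T ∈ blocks M, Same T w w') : greedy (rkFun M) w = greedy (rkFun M) w' := by
  ext e
  obtain ⟨T, hT, he⟩ := blocks_cover M e
  have h1 := rk_add M (mem_blocks.1 hT).1.2
  have he' : e ∉ Tᶜ := by simpa using he
  rw [greedy_iff h1 he he', greedy_iff h1 he he', bef_inter (h T hT) he]

lemma last_mem {N : ℕ} (t : Fin (N + 1) → ℝ) :
    (fun w : Equiv.Perm (Fin (N + 1)) => t (w (Fin.last N))) ∈ permV t := by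
  have e : (fun w : Equiv.Perm (Fin (N + 1)) => t (w (Fin.last N))) =
      lov t fun A => if A = Finset.univ then 1 else 0 := by
    funext w
    have h0 : ∀ e, bef w e ≠ Finset.univ := fun e h =>
      not_mem_bef_self w e (h ▸ Finset.mem_univ e)
    rw [lov, Finset.sum_eq_single (w (Fin.last N))]
    · rw [if_neg (h0 _), if_pos, sub_zero, mul_one]
      ext a
      simp only [mem_insert_bef, Equiv.symm_apply_apply, Fin.le_last, Finset.mem_univ]
    · intro e _ he
      rw [if_neg (h0 _), if_neg, sub_zero, mul_zero]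
      intro h
      have h1 := mem_insert_bef.1 (h ▸ Finset.mem_univ (w (Fin.last N)))
      rw [Equiv.symm_apply_apply, Fin.last_le_iff, Equiv.symm_apply_eq] at h1
      exact he h1
    · simp
  rw [e]
  exact lov_mem _ _

end Comp

theorem comps_le {n : ℕ} (M : Matroid (Fin n)) : comps M ≤ n :=
  le_trans (Nat.le_add_left _ _) (Comp.blocks_sum M)

theorem comps_pos {N : ℕ} (M : Matroid (Fin (N + 1))) : 1 ≤ comps M := by
  obtain ⟨T, hT, -⟩ := Comp.blocks_cover M 0
  rw [Comp.comps_eq]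
  exact Finset.card_pos.2 ⟨T, hT⟩

theorem comp_zero {n : ℕ} (M : Matroid (Fin n)) {t : Fin n → ℝ} (ht : Function.Injective t)
    {k : ℕ} (hk : k + 1 < comps M) {ζ : Equiv.Perm (Fin n) → ℝ} (hζ : ζ ∈ permV t ^ k)
    (Φ : Finset (Fin n) → ℝ) :
    ∑ w, ζ w * Φ (greedy (rkFun M) w) / ∏ S ∈ inis w, xs t S w = 0 := by
  have h1 := Comp.fun_mem ht (Comp.blocks M) (fun w => Φ (greedy (rkFun M) w))
    fun w w' h => by rw [Comp.greedy_eq M h]
  have h2 := perm_bal_aux ht _ (face0 n) (by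
    have a1 := Comp.blocks_sum M
    change _ < n - 1 - (∅ : Finset (Finset (Fin n))).card
    rw [Finset.card_empty]
    omega) _ (mul_mem_pow hζ h1)
  rw [faceφ_apply] at h2
  simpa [face0] using h2

theorem last_zero {N : ℕ} (M : Matroid (Fin (N + 1))) {t : Fin (N + 1) → ℝ}
    (ht : Function.Injective t) {m : ℕ} (hm : m + 1 < comps M) (Φ : Finset (Fin (N + 1)) → ℝ) :
    ∑ w : Equiv.Perm (Fin (N + 1)), t (w (Fin.last N)) ^ m * Φ (greedy (rkFun M) w) /
      ∏ S ∈ inis w, xs t S w = 0 :=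
  comp_zero M ht hm (pow_mem_pow (Comp.last_mem t) m) Φ

theorem last_shift {N : ℕ} (M : Matroid (Fin (N + 1))) {t : Fin (N + 1) → ℝ}
    (ht : Function.Injective t) {m : ℕ} (hm : m < comps M) (c : ℝ)
    (Φ : Finset (Fin (N + 1)) → ℝ) :
    ∑ w : Equiv.Perm (Fin (N + 1)), (t (w (Fin.last N)) + c) ^ m * Φ (greedy (rkFun M) w) /
        ∏ S ∈ inis w, xs t S w =
      ∑ w : Equiv.Perm (Fin (N + 1)), t (w (Fin.last N)) ^ m * Φ (greedy (rkFun M) w) /
        ∏ S ∈ inis w, xs t S w := by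
  simp only [add_pow, Finset.sum_mul, Finset.sum_div]
  rw [Finset.sum_comm, Finset.sum_range_succ, Finset.sum_eq_zero, zero_add]
  · simp
  · intro k hk
    have h := last_zero M ht (m := k) (by have := Finset.mem_range.1 hk; omega) Φ
    calc _ = c ^ (m - k) * (m.choose k : ℝ) * ∑ w : Equiv.Perm (Fin (N + 1)),
          t (w (Fin.last N)) ^ k * Φ (greedy (rkFun M) w) / ∏ S ∈ inis w, xs t S w := by
          rw [Finset.mul_sum]
          exact Finset.sum_congr rfl fun w _ => by ring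
      _ = 0 := by rw [h, mul_zero]

end G94
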