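import Pool.Agent.P.MP_740b33_co.Final

/-! The positivity statement on a fan, for loopless matroids, cut by convex functions. -/

namespace G94

open H40M Polynomial

/-- The localisation of a Schubert class at the greedy basis. -/
noncomputable def hdet {n r : ℕ} (ρ : Finset (Fin n) → ℕ) (γ : Fin r → ℕ) (t : Fin n → ℝ)
    (u : Equiv.Perm (Fin n)) : ℝ :=
  (-1) ^ tri r * Matrix.det (Matrix.of fun b c : Fin r =>
    push r (∏ e ∈ greedy ρ u, (X + C (t e))) (tailP t (γ b) * X ^ (c : ℕ)))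

namespace CoreE

lemma det_push_mem {R : Type} [CommRing R] [Algebra ℝ R] [Nontrivial R] {V : Submodule ℝ R}
    (h1 : (1 : R) ∈ V) {m N : ℕ} {Q : R[X]} (hQ : Wt V (N + 1) Q) (u : Fin m → R[X])
    (k : Fin m → ℕ) (hu : ∀ b, u b ∈ extV V ^ k b) {q e : ℕ} {g : R} (hg : g ∈ V ^ q)
    (he : q + ∑ b, k b + tri m = e + m * N) :
    g * Matrix.det (Matrix.of fun b c : Fin m => push (N + 1) Q (u b * X ^ (c : ℕ))) ∈ V ^ e := by
  rw [Matrix.det_apply, Finset.mul_sum]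
  refine sum_mem fun σ _ => ?_
  rw [Units.smul_def, mul_smul_comm]
  refine zsmul_mem ?_ _
  have hm : ∀ i : Fin m, u (σ i) * X ^ (i : ℕ) ∈ extV V ^ (k (σ i) + i) := fun i =>
    mul_mem_pow (hu _) (pow_mem_pow X_mem_extV _)
  by_cases h : ∀ i : Fin m, N ≤ k (σ i) + i
  · refine mul_mem_pow' hg (prod_mem_pow Finset.univ _ (fun i => k (σ i) + i + 1 - (N + 1))
      fun i _ => push_mem h1 (Nat.succ_pos N) hQ (hm i)) ?_
    have h2 : ∑ i : Fin m, (k (σ i) + i + 1 - (N + 1) + N) = ∑ i : Fin m, (k (σ i) + i) :=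
      Finset.sum_congr rfl fun i _ => by have := h i; omega
    rw [Finset.sum_add_distrib, Finset.sum_add_distrib, Equiv.sum_comp σ k] at h2
    simp only [Finset.sum_const, Finset.card_univ, Fintype.card_fin, smul_eq_mul] at h2
    rw [tri] at he
    omega
  · push Not at h
    obtain ⟨i, hi⟩ := h
    rw [Finset.prod_eq_zero (Finset.mem_univ i), mul_zero]
    · exact zero_mem _
    · exact push_eq_zero hQ (hm i) (by omega)

lemma hdet_eq {Ω : Type} {n r : ℕ} {ρ : Finset (Fin n) → ℕ} (hρ : IsRk ρ)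
    (hr : ρ Finset.univ = r) (γ : Fin r → ℕ) (t : Fin n → Ω → ℝ) (w : Ω → Equiv.Perm (Fin n)) :
    (fun ω => hdet ρ γ (fun i => t i ω) (w ω)) =
      ((-1 : ℝ) ^ tri r) • Matrix.det (Matrix.of fun b c : Fin r =>
        push r (fQ t (fun ω => greedy ρ (w ω)) r)
          ((∏ l ∈ seg n (γ b) n, (X + C (t l))) * X ^ (c : ℕ))) := by
  have hB : ∀ ω, (greedy ρ (w ω)).card = r := fun ω => (hρ.card_greedy (w ω)).trans hr
  funext σ
  rw [Pi.smul_apply, smul_eq_mul, hdet]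
  congr 1
  have h4 := (Pi.evalRingHom (fun _ : Ω => ℝ) σ).map_det (Matrix.of fun b c : Fin r =>
    push r (fQ t (fun ω => greedy ρ (w ω)) r)
      ((∏ l ∈ seg n (γ b) n, (X + C (t l))) * X ^ (c : ℕ)))
  rw [Pi.evalRingHom_apply] at h4
  rw [h4]
  congr 1
  ext b c
  rw [RingHom.mapMatrix_apply, Matrix.map_apply, Matrix.of_apply, Matrix.of_apply,
    map_push _ _ (PermF.fQ_monic t hB), fQ_map _ hB, tailP_seg]
  simp [Polynomial.map_prod]

lemma prod_mem {R : Type} [CommRing R] [Algebra ℝ R] {V : Submodule ℝ R} (U : Multiset R)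
    (h : ∀ a ∈ U, a ∈ V) : U.prod ∈ V ^ U.card := by
  induction U using Multiset.induction_on with
  | empty => exact one_mem_pow_zero
  | cons a U ih =>
    rw [Multiset.prod_cons, Multiset.card_cons]
    exact mul_mem_pow' (mem_pow_one (h a (Multiset.mem_cons_self _ _)))
      (ih fun b hb => h b (Multiset.mem_cons_of_mem hb)) (add_comm _ _)

lemma mem_VP {F : Fan} {N : ℕ} {W : Fin (N + 1) → F.Ray → ℝ}
    {w : F.Cn → Equiv.Perm (Fin (N + 1))} (hW : F.Ord W w) {ρ : Finset (Fin (N + 1)) → ℕ}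
    (hρ : IsRk ρ) {r : ℕ} (hr : ρ Finset.univ = r + 1) (γ : Fin (r + 1) → ℕ)
    (E : Multiset (F.Ray → ℝ))
    (hd : E.card + ∑ b, (N - γ b) + tri (r + 1) = F.d + (r + 1) * r) :
    (fun ξ => (E.map fun g => F.cl g ξ).prod *
      fun σ => hdet ρ γ (fun i => F.cl (W i) ξ σ) (w σ)) ∈ F.VP ^ F.d := by
  have : Nonempty (F.Ξ × F.Cn) := ⟨(0, Classical.arbitrary _)⟩
  set V := F.VP.comap (HCut.cur F.Ξ F.Cn).toLinearMap with hV
  have h1 : (1 : F.Ξ × F.Cn → ℝ) ∈ V := Fan.one_mem_VP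
  have hc : ∀ g, (fun ω : F.Ξ × F.Cn => F.cl g ω.1 ω.2) ∈ V := fun g => Fan.cl_mem_VP g
  have hQ := wt_greedy (t := fun i (ω : F.Ξ × F.Cn) => F.cl (W i) ω.1 ω.2)
    (w := fun ω => w ω.2) h1 (fun f => by
      have e : HCut.cur F.Ξ F.Cn (lovF (fun i ω => F.cl (W i) ω.1 ω.2)
          (fun ω => w ω.2) f) = F.cl (Fan.lovR W f) :=
        funext fun ξ => (Fan.cl_lovR hW f ξ).symm
      rw [hV, Submodule.mem_comap, AlgHom.toLinearMap_apply, e]
      exact Fan.cl_mem_VP _) hρ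
  rw [hr] at hQ
  have h2 := det_push_mem h1 hQ
    (fun b => ∏ l ∈ seg (N + 1) (γ b) (N + 1), (X + C fun ω : F.Ξ × F.Cn => F.cl (W l) ω.1 ω.2))
    (fun b => N - γ b)
    (fun b => by
      have := (wt_prod h1 (seg (N + 1) (γ b) (N + 1))
        (fun l (ω : F.Ξ × F.Cn) => F.cl (W l) ω.1 ω.2) fun l _ => hc _).mem
      rwa [card_seg le_rfl] at this)
    (prod_mem (E.map fun g (ω : F.Ξ × F.Cn) => F.cl g ω.1 ω.2) fun a ha => by
      obtain ⟨g, -, rfl⟩ := Multiset.mem_map.1 ha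
      exact hc g)
    (by rw [Multiset.card_map]; exact hd)
  have h3 := Submodule.smul_mem _ ((-1 : ℝ) ^ tri (r + 1)) h2
  rw [← mul_smul_comm, ← hdet_eq hρ hr] at h3
  have h4 := map_mem_pow (V' := F.VP) (HCut.cur F.Ξ F.Cn) (fun v hv => hv) h3
  convert h4 using 1
  funext ξ σ
  change _ = (E.map fun g (ω : F.Ξ × F.Cn) => F.cl g ω.1 ω.2).prod (ξ, σ) * _
  rw [Pi.mul_apply, Pi.multiset_prod_apply, Pi.multiset_prod_apply, Multiset.map_map,
    Multiset.map_map]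
  rfl

end CoreE

theorem coreE {F : Fan} (hF : F.Good) {N : ℕ} {W : Fin (N + 1) → F.Ray → ℝ}
    {w : F.Cn → Equiv.Perm (Fin (N + 1))} (hW : F.Base W w) {ρ : Finset (Fin (N + 1)) → ℕ}
    (hρ : IsRk ρ) {r : ℕ} (hr : ρ Finset.univ = r + 1) (hl : ∀ e, ρ {e} = 1)
    (γ : Fin (r + 1) → ℕ) (hγ : Antitone γ) (hγN : ∀ a, γ a < N + 1)
    (E : Multiset (F.Ray → ℝ)) (hE : ∀ g ∈ E, F.Conv g)
    (hd : E.card + ∑ b, (N - γ b) + tri (r + 1) = F.d + (r + 1) * r) {ξ : F.Ξ} (hξ : F.Gen ξ) :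
    0 ≤ F.φ ξ ((E.map fun g => F.cl g ξ).prod *
      fun σ => hdet ρ γ (fun i => F.cl (W i) ξ σ) (w σ)) := by
  have hrN : r ≤ N := by have := rk_le hρ; omega
  obtain ⟨F', M, Y, e, s, w', hF', hN, hV, hs, ho, hM⟩ := exists_parents hF hW hρ hr hl (r + 1)
  have hQ : ∀ ξ, Wt (F.V ξ) (r + 1) (F.mQ ρ W w ξ) := fun ξ => hr ▸ Fan.wt_mQ hW.ord hρ ξ
  set P : F.Ξ → F.Cn → ℝ := fun ξ => (E.map fun g => F.cl g ξ).prod with hPdef
  have hP : ∀ ξ, P ξ ∈ F.V ξ ^ E.card := fun ξ => by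
    have := CoreE.prod_mem _ (map_cl_mem ξ E)
    rwa [Multiset.card_map] at this
  have hP' : ∀ ξ, M.up P ξ ∈ F'.V ξ ^ E.card := fun ξ => map_mem_pow M.ι (M.ι_mem ξ) (hP _)
  obtain ⟨ξ', hξ', key⟩ := hankel (r + 1) F' hF' (fun l => M.pull (W l))
    (∏ b, F'.kap ρ (s b) (w' b)) ((r + 1) * (N - r)) (F.d + (r + 1) * r)
    (hcut_prod hρ hr s w' hs ho)
    (by rw [M.dim, add_assoc, ← mul_add, Nat.add_sub_of_le hrN]) Y e hN 1 (M.up P) 0 E.card 0
    (E.map M.pull) (by simp)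
    (fun g' hg' => by
      obtain ⟨g, hg, rfl⟩ := Multiset.mem_map.1 hg'
      exact M.conv (hE g hg))
    (by simp) (N + 1) le_rfl
    (fun c ξ hξ l hl j hj h hh h0 => by
      have := hV c ξ hξ l hl (E.card + j) (by omega) _ (mul_mem_pow (hP' ξ) hh)
        fun σ hσ => by rw [Pi.mul_apply, h0 σ hσ, mul_zero]
      rw [← this]
      congr 1
      rw [Pi.one_apply]
      ring)
    (fun ξ hξ => by
      obtain ⟨c, -, h1⟩ := hM ξ hξ
      obtain ⟨A, g1, g2, g3, g4, g5, g6⟩ := level_step (p := 0) (A := fun q => F.V (M.pr ξ) ^ q)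
        (Fan.one_mem_V _) (hQ _) (M.ι_mem ξ) (fun c => Fan.cl_mem _ _) h1
        ⟨fun _ => le_rfl, fun _ _ _ h => absurd h (Nat.not_lt_zero _)⟩
        fun j _ q x hx => mul_mem_pow' ((hQ _).2.2 j) hx (add_comm _ _)
      have g7 : ∀ l, Mlt (fun q => F.V (M.pr ξ) ^ q) 1 (F.cl (W l) (M.pr ξ)) := fun l q x hx =>
        mul_mem_pow' (mem_pow_one (Fan.cl_mem _ _)) hx (add_comm _ _)
      refine ⟨one_mem_pow_zero, hP' ξ, fun j _ => ?_, A, g1, g2 _ _ (hP _), fun l => ?_, ?_,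
        fun l => ?_, g6⟩
      · have e2 : M.up P ξ = ((E.map M.pull).map fun g => F'.cl g ξ).prod := by
          rw [M.up_apply, hPdef, map_multiset_prod]
          simp only [Multiset.map_map, Function.comp_def, Map.cl_pull]
        rw [e2, Pi.one_apply, one_mul, sub_self]
        exact Orth.zero j
      · rw [M.cl_pull]; exact g3 _ (g7 l)
      · simpa using g4
      · rw [M.cl_pull]; exact g5 _ (g7 l))
    γ hγ hγN (by simp only [Nat.add_sub_cancel]; omega)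
  refine le_of_le_of_eq ?_ (Fan.indep hF.bal (CoreE.mem_VP hW.ord hρ hr γ E hd) (M.gen ξ' hξ') hξ)
  obtain ⟨c, hc, h1⟩ := hM ξ' hξ'
  set t : Fin (N + 1) → F.Cn → ℝ := fun l => F.cl (W l) (M.pr ξ') with ht
  set u : Fin (r + 1) → (F.Cn → ℝ)[X] := fun b => ∏ l ∈ seg (N + 1) (γ b) (N + 1), (X + C (t l))
    with hu
  have hdd := h1.det_det u (fun b => N - γ b)
    (fun b => by
      have := (wt_prod (Fan.one_mem_V (M.pr ξ')) (seg (N + 1) (γ b) (N + 1)) t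
        fun l _ => Fan.cl_mem _ _).mem
      rwa [card_seg le_rfl] at this)
    (hP (M.pr ξ')) hd
  have he1 : (Matrix.of fun c b : Fin (r + 1) => aevalTower M.ι (F'.cl (Y c) ξ') (u b)) =
      Matrix.of fun c b : Fin (r + 1) => ∏ l ∈ seg (N + 1) (γ b) (N + 1),
        (F'.cl (Y c) ξ' + F'.cl (M.pull (W l)) ξ') := by
    ext1 c b
    simp [hu, ht, map_prod, Map.cl_pull]
  rw [cutφ_apply, he1] at hdd
  simp only [Pi.one_apply, mul_one, zero_add, M.up_apply] at key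
  rw [hdd, mul_left_comm] at key
  have h5 : (0 : ℝ) < c * (r + 1).factorial :=
    mul_pos hc (by exact_mod_cast Nat.factorial_pos _)
  rw [CoreE.hdet_eq hρ hr γ t w, mul_smul_comm, map_smul, smul_eq_mul]
  rw [Fan.mQ, hr] at key
  exact le_of_mul_le_mul_left (by rwa [mul_zero]) h5

end G94
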