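import Pool.Agent.P.MP_740b33_co.Desc

/-! Package A3: cuts of a Lefschetz system by globally nef classes. -/

namespace G94

open H40M Polynomial

variable {R : Type} [CommRing R] [Algebra ℝ R]

theorem hri_all (S : Sys R) (h : ∀ i, (∀ D j, S.step i D j → S.HRi j) →
    ∃ l0, S.Nef i l0 ∧ HRu S.V (S.φ i) (S.d i) l0) (i : S.I) : S.HRi i := by
  generalize hn : S.d i = n
  induction n using Nat.strong_induction_on generalizing i with
  | _ n ih =>
    have h1 : ∀ D j, S.step i D j → S.HRi j := fun D j hs => by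
      have := S.step_d hs
      exact ih (S.d j) (by omega) j rfl
    obtain ⟨l0, h2, h3⟩ := h i h1
    exact S.hri_of_step i h1 h2 h3

theorem cutSys_eff (S : Sys R) {u : R} {p : ℕ} (hu : u ∈ S.V ^ p) (i : (cutSys S u p).I) {a : R}
    (h : S.Eff i.1 a) : (cutSys S u p).Eff i a := by
  induction h with
  | @step D j hs =>
    by_cases hj : p ≤ S.d j
    · exact Sys.Eff.step (S := cutSys S u p) (j := ⟨j, hj⟩) hs
    · refine Sys.Eff.null (S := cutSys S u p) (S.step_mem hs) fun k hk => ?_
      have h1 := S.step_d hs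
      change k < S.d i.1 - p at hk
      omega
  | @null a ha hO =>
    refine Sys.Eff.null (S := cutSys S u p) ha fun k hk ζ hζ => ?_
    change k < S.d i.1 - p at hk
    change S.φ i.1 (u * (a * ζ)) = 0
    rw [mul_left_comm]
    exact hO (p + k) (by omega) _ (mul_mem_pow hu hζ)
  | add _ _ h1 h2 => exact h1.add h2
  | smul hc _ h => exact h.smul hc

lemma Cut.desc_proj (S : Sys R) {u : R} {p : ℕ} {i j : (cutSys S u p).I}
    (h : (cutSys S u p).Desc i j) : S.Desc i.1 j.1 := by
  induction h with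
  | refl => exact Sys.Desc.refl _
  | tail _ h ih =>
    obtain ⟨D, h⟩ := h
    exact ih.trans (Sys.Desc.single (D := D) h)

lemma Cut.amp (S : Sys R) {u : R} {p : ℕ} (hu : u ∈ S.V ^ p) (i : (cutSys S u p).I) {l : R}
    (h : S.Amp i.1 l) : (cutSys S u p).Amp i l := by
  intro j hj v hv
  obtain ⟨ε, hε, h1⟩ := h j.1 (Cut.desc_proj S hj) v hv
  exact ⟨ε, hε, cutSys_eff S hu j h1⟩

theorem cutSys_good (S : Sys R) {u : R} {p : ℕ} (hu : u ∈ S.V ^ p) {N : ℕ} {Q : R[X]}
    (i : (cutSys S u p).I) (h : S.Good N i.1 Q) : (cutSys S u p).Good N i Q := by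
  induction N generalizing i Q with
  | zero => exact h
  | succ N ih =>
    intro j hj
    obtain ⟨a, Q', ha, hQ, hQ'⟩ := h j.1 (Cut.desc_proj S hj)
    exact ⟨a, Q', cutSys_eff S hu j ha, hQ, ih j hQ'⟩

theorem cutSys_lef (S : Sys R) {l u : R} {p : ℕ} (h : S.Lef l) (hu : u ∈ S.V ^ p)
    (hH : ∀ i, p ≤ S.d i → HRu S.V (cutφ (S.φ i) u) (S.d i - p) l) : (cutSys S u p).Lef l :=
  ⟨fun i => Cut.amp S hu i (h.1 i.1), hri_all _ fun i _ =>
    ⟨l, (Cut.amp S hu i (h.1 i.1)).nef, hH i.1 i.2⟩⟩

lemma Cut.prod_mem (S : Sys R) (i : S.I) {U : Multiset R} (hU : ∀ a ∈ U, GN S a) :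
    U.prod ∈ S.V ^ U.card := multiset_prod_mem_pow U fun a ha => (hU a ha i).mem

lemma Cut.gn_rep (S : Sys R) {U : Multiset R} {D : R} (hU : ∀ a ∈ U, GN S a) (hD : GN S D)
    (a : ℕ) : ∀ b ∈ U + Multiset.replicate a D, GN S b := by
  intro b hb
  rcases Multiset.mem_add.1 hb with hb | hb
  · exact hU b hb
  · rw [Multiset.eq_of_mem_replicate hb]; exact hD

/-- The mixed relation with one further ample class, from hard Lefschetz along a segment. -/
lemma Cut.mix {V : Submodule ℝ R} {φ : R →ₗ[ℝ] ℝ} (h1 : (1 : R) ∈ V) (hfg : V.FG) {l D : R}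
    (hl : l ∈ V) (hD : D ∈ V) {k m : ℕ} {s : ℝ} (hs : 0 < s)
    (hL : ∀ c t : ℝ, 0 < c → 0 ≤ t → ∀ j e, 2 * j + e = 2 * k + m →
      HLat V φ j (e + 1) ((c • l + t • D) * l ^ e))
    (h0 : HRat V φ k (m + 1) (l ^ (m + 1)) l) : HRat V φ k (m + 1) ((D + s • l) * l ^ m) l := by
  have hpos : ∀ t : Set.Icc (0 : ℝ) 1, 0 < 1 - (t : ℝ) + t * s := by
    rintro ⟨t, h2, h3⟩
    rcases h2.eq_or_lt with rfl | h4
    · simp
    · have := mul_pos h4 hs
      dsimp only
      linarith
  have hcont : ∀ x : R, Continuous fun t : Set.Icc (0 : ℝ) 1 =>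
      φ (((1 - (t : ℝ) + t * s) • l + (t : ℝ) • D) * x) := by
    intro x
    have : (fun t : Set.Icc (0 : ℝ) 1 => φ (((1 - (t : ℝ) + t * s) • l + (t : ℝ) • D) * x)) =
        fun t : Set.Icc (0 : ℝ) 1 => (1 - (t : ℝ) + t * s) * φ (l * x) + (t : ℝ) * φ (D * x) := by
      funext t
      rw [add_mul, smul_mul_assoc, smul_mul_assoc, map_add, map_smul, map_smul, smul_eq_mul,
        smul_eq_mul]
    rw [this]
    fun_prop
  have key := hrat_path (T := Set.Icc (0 : ℝ) 1) h1 hfg (k := k) (m := m + 1) φ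
    (fun t => ((1 - (t : ℝ) + t * s) • l + (t : ℝ) • D) * l ^ m) (fun _ => l)
    (fun t => mul_mem_pow' (mem_pow_one (add_mem (Submodule.smul_mem _ _ hl)
      (Submodule.smul_mem _ _ hD))) (pow_mem_pow hl m) (by omega))
    (fun _ => hl)
    (fun x y => by simpa only [mul_assoc] using hcont (l ^ m * (x * y)))
    (fun x y => by simpa only [mul_assoc] using hcont (l ^ m * (l * (l * (x * y)))))
    (fun t => hL _ _ (hpos t) t.2.1 k m rfl)
    (fun t j hj => by
      have := hL _ _ (hpos t) t.2.1 j (m + 2) (by omega)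
      rwa [pow_succ, pow_succ, ← mul_assoc, ← mul_assoc] at this)
    ⟨0, le_rfl, zero_le_one⟩ ⟨1, zero_le_one, le_rfl⟩
    (by simpa [pow_succ'] using h0)
  simpa [add_comm] using key

lemma Cut.all (S : Sys R) {l : R} (h : S.Lef l) (n : ℕ) (i : S.I) (hn : S.d i = n)
    (U : Multiset R) (hU : ∀ a ∈ U, GN S a) (hi : U.card ≤ S.d i) :
    (cutSys S U.prod U.card).HRi ⟨i, hi⟩ := by
  induction n using Nat.strong_induction_on generalizing i U with
  | _ n ih =>
    have hstep : ∀ (U : Multiset R) (_ : ∀ a ∈ U, GN S a) (hi : U.card ≤ S.d i) D j,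
        (cutSys S U.prod U.card).step ⟨i, hi⟩ D j → (cutSys S U.prod U.card).HRi j := by
      rintro U hU hi D ⟨j, hj⟩ hs
      have := S.step_d (show S.step i D j from hs)
      exact ih (S.d j) (by omega) j rfl U hU hj
    have hHL : ∀ (U : Multiset R) (_ : ∀ a ∈ U, GN S a) (k : ℕ) (L : Multiset R),
        2 * k + L.card + U.card = S.d i → (∀ a ∈ L, S.Amp i a) →
        HLat S.V (cutφ (S.φ i) U.prod) k L.card L.prod := by
      intro U hU k L hd hL
      have hi : U.card ≤ S.d i := by omega
      exact (cutSys S U.prod U.card).hl_of_step ⟨i, hi⟩ (hstep U hU hi) k L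
        (by change _ = S.d i - U.card; omega)
        fun a ha => Cut.amp S (Cut.prod_mem S i hU) ⟨i, hi⟩ (hL a ha)
    have hHR : ∀ (k : ℕ) (U : Multiset R) (_ : ∀ a ∈ U, GN S a) (m : ℕ),
        2 * k + m + U.card = S.d i → HRat S.V (cutφ (S.φ i) U.prod) k m (l ^ m) l := by
      intro k
      induction k using Nat.strong_induction_on with
      | _ k ihk =>
        intro U
        induction U using Multiset.induction_on with
        | empty =>
          intro _ m hd
          rw [Multiset.prod_zero, cutφ_one]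
          exact (h.2 i).hru (h.1 i) k m (by simpa using hd)
        | cons D U ihU =>
          intro hU m hd
          have hD : GN S D := hU D (Multiset.mem_cons_self _ _)
          have hU' : ∀ a ∈ U, GN S a := fun a ha => hU a (Multiset.mem_cons_of_mem ha)
          rw [Multiset.card_cons] at hd
          rw [Multiset.prod_cons, mul_comm, ← cutφ_cutφ]
          refine descent S.one_mem S.fg (h.1 i).mem (hD i).mem (d := 2 * k + m + 1) rfl
            (fun a j e hje => ?_) (fun a j e hj hje => ?_) fun s hs => ?_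
          · have := hHL _ (Cut.gn_rep S hU' hD a) j (Multiset.replicate e l)
              (by simp only [Multiset.card_add, Multiset.card_replicate]; omega)
              fun b hb => (Multiset.eq_of_mem_replicate hb).symm ▸ h.1 i
            simpa only [Multiset.card_replicate, Multiset.prod_replicate, Multiset.prod_add,
              cutφ_cutφ] using this
          · have := ihk j hj _ (Cut.gn_rep S hU' hD a) e
              (by simp only [Multiset.card_add, Multiset.card_replicate]; omega)
            simpa only [Multiset.prod_replicate, Multiset.prod_add, cutφ_cutφ] using this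
          · refine Cut.mix S.one_mem S.fg (h.1 i).mem (hD i).mem hs (fun c t hc ht j e hje => ?_)
              (ihU hU' (m + 1) (by omega))
            have := hHL U hU' j ((c • l + t • D) ::ₘ Multiset.replicate e l)
              (by simp only [Multiset.card_cons, Multiset.card_replicate]; omega) (by
                intro b hb
                rcases Multiset.mem_cons.1 hb with rfl | hb
                · exact ((h.1 i).smul hc).add_nef (Sys.Nef.smul ht fun j _ => hD j)
                · exact (Multiset.eq_of_mem_replicate hb).symm ▸ h.1 i)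
            simpa only [Multiset.card_cons, Multiset.card_replicate, Multiset.prod_cons,
              Multiset.prod_replicate] using this
    refine (cutSys S U.prod U.card).hri_of_step ⟨i, hi⟩ (hstep U hU hi)
      (Cut.amp S (Cut.prod_mem S i hU) ⟨i, hi⟩ (h.1 i)).nef fun k m hkm => hHR k U hU m ?_
    change _ = S.d i - U.card at hkm
    omega

theorem fam_of_lef (S : Sys R) {l : R} (h : S.Lef l) (i : S.I) :
    Fam S.V (S.φ i) (S.d i) l {a | GN S a} := by
  intro U hU e he
  have hi : U.card ≤ S.d i := by omega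
  have := (Cut.all S h _ i rfl U hU hi).hru
    (Cut.amp S (Cut.prod_mem S i hU) ⟨i, hi⟩ (h.1 i))
  obtain rfl : e = S.d i - U.card := by omega
  exact this

theorem cut_push [Nontrivial R] (S : Sys R) {l : R} (h : S.Lef l) {N p : ℕ} {Q : R[X]}
    (hQ : ∀ i, S.Good (N + 1) i Q) (L : Multiset R) (hL : ∀ a ∈ L, GN S a) (hc : L.card = p + N)
    (hdvd : Q ∣ X * (L.map fun a => X + C a).prod) :
    (cutSys S (push (N + 1) Q (L.map fun a => X + C a).prod) p).Lef l := by
  have hT : (extSys S).Lef (C l + X) :=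
    ⟨fun x => by simpa using ExtS.amp x (h.1 x.i) one_pos, fun x => ExtS.hri h _ x rfl⟩
  have hGN : ∀ b ∈ L.map fun a => X + C a, GN (extSys S) b := by
    intro b hb x
    obtain ⟨a, ha, rfl⟩ := Multiset.mem_map.1 hb
    exact (ExtS.eff_X x).add (ExtS.eff_C x (hL a ha x.i))
  rcases isEmpty_or_nonempty S.I with hI | ⟨⟨i0⟩⟩
  · exact ⟨fun i => (hI.false i.1).elim, fun i => (hI.false i.1).elim⟩
  have hmem : (L.map fun a => X + C a).prod ∈ extV S.V ^ (p + N) := by
    have := Cut.prod_mem (extSys S) (⟨i0, N, Q, hQ i0⟩ : ExtI S) hGN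
    rwa [Multiset.card_map, hc] at this
  have hu : push (N + 1) Q (L.map fun a => X + C a).prod ∈ S.V ^ p := by
    have := push_mem S.one_mem (by omega) (hQ i0).wt hmem
    rwa [show p + N + 1 - (N + 1) = p by omega] at this
  refine cutSys_lef S h hu fun i hp => ?_
  have hF := fam_of_lef (extSys S) hT (⟨i, N, Q, hQ i⟩ : ExtI S) _ hGN (S.d i - p) (by
    change _ = S.d i + N
    rw [Multiset.card_map, hc]; omega)
  obtain ⟨q, hq⟩ := hdvd
  refine (hru_transfer (V0 := S.V) (V := extV S.V) (Polynomial.CAlgHom : R →ₐ[ℝ] R[X]) S.one_mem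
    (extSys S).one_mem (Ideal.span {X}) (fun η hη => ?_) (fun v hv => ⟨C v, C_mem_extV hv, ?_⟩)
    (fun v' hv' => ?_) one_pos (fun η _ => ?_) (h.1 i).mem
    (add_mem (C_mem_extV (h.1 i).mem) X_mem_extV) ?_).2 hF
  · obtain ⟨r, rfl⟩ := Ideal.mem_span_singleton'.1 hη
    change S.φ i (push (N + 1) Q ((L.map fun a => X + C a).prod * (r * X))) = 0
    rw [show (L.map fun a => X + C a).prod * (r * X) =
      X * (L.map fun a => X + C a).prod * r by ring, hq, mul_assoc,
      push_self_mul _ (hQ i).wt.1, map_zero]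
  · simp
  · obtain ⟨a, ha, c, rfl⟩ := mem_extV.1 hv'
    refine ⟨a, ha, ?_⟩
    have : C a + c • (X : R[X]) - (Polynomial.CAlgHom : R →ₐ[ℝ] R[X]) a = c • X := by simp
    rw [this]
    exact Submodule.smul_of_tower_mem _ c (Ideal.mem_span_singleton_self _)
  · change S.φ i (push (N + 1) Q ((L.map fun a => X + C a).prod * C η)) = _
    rw [mul_comm, push_C_mul, one_mul, cutφ_apply, mul_comm]
  · simp

end G94
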