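import Pool.Agent.H40M.Final
import Pool.Agent.H40M.Exists

/-! Definitions for the proof of Graham positivity of `C(M)`: cuts, fans, graded extensions. -/

namespace G94

open H40M Polynomial

section Alg

variable {R R' : Type} [CommRing R] [Algebra ℝ R] [CommRing R'] [Algebra ℝ R']

/-- The functional cut by `u`. -/
def cutφ (φ : R →ₗ[ℝ] ℝ) (u : R) : R →ₗ[ℝ] ℝ := φ ∘ₗ LinearMap.mulLeft ℝ u

@[simp] lemma cutφ_apply (φ : R →ₗ[ℝ] ℝ) (u η : R) : cutφ φ u η = φ (u * η) := rfl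

lemma cutφ_one (φ : R →ₗ[ℝ] ℝ) : cutφ φ 1 = φ := by ext η; simp

lemma cutφ_cutφ (φ : R →ₗ[ℝ] ℝ) (u u' : R) : cutφ (cutφ φ u) u' = cutφ φ (u * u') := by
  ext η; simp [mul_assoc]

/-- The system cut by a class `u` of degree `p`. -/
def cutSys (S : Sys R) (u : R) (p : ℕ) : Sys R where
  V := S.V
  one_mem := S.one_mem
  fg := S.fg
  I := {i : S.I // p ≤ S.d i}
  d i := S.d i.1 - p
  φ i := cutφ (S.φ i.1) u
  step i D j := S.step i.1 D j.1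
  step_mem h := S.step_mem h
  step_d := by
    rintro ⟨i, hi⟩ D ⟨j, hj⟩ h
    have := S.step_d h
    dsimp only at this ⊢
    omega
  step_φ h η := by
    rw [cutφ_apply, cutφ_apply, S.step_φ h, mul_left_comm]

/-- Globally nef: effective at every index. -/
def GN (S : Sys R) (a : R) : Prop := ∀ i, S.Eff i a

/-- All cuts by products of elements of `N` satisfy Hodge-Riemann for `l`. -/
def Fam (V : Submodule ℝ R) (φ : R →ₗ[ℝ] ℝ) (d : ℕ) (l : R) (N : Set R) : Prop :=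
  ∀ U : Multiset R, (∀ a ∈ U, a ∈ N) → ∀ e, e + U.card = d → HRu V (cutφ φ U.prod) e l

/-- `x`, of degree `q`, is numerically zero in dimension `d`. -/
def Nul (V : Submodule ℝ R) (φ : R →ₗ[ℝ] ℝ) (d q : ℕ) (x : R) : Prop :=
  ∀ s, q + s = d → Orth V φ s x

/-- In top degree `(V', φ')` behaves as the projective bundle with relation `Q` over `(V, φ)`. -/
structure GExt (V : Submodule ℝ R) (φ : R →ₗ[ℝ] ℝ) (d : ℕ) (V' : Submodule ℝ R')
    (φ' : R' →ₗ[ℝ] ℝ) (ι : R →ₐ[ℝ] R') (Y : R') (N : ℕ) (Q : R[X]) (c : ℝ) : Prop where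
  g1 : ∀ i j, i + j = d + N → ∀ ζ ∈ V' ^ j, ∃ P ∈ extV V ^ j, ∀ f ∈ extV V ^ i,
    φ' (aevalTower ι Y f * ζ) = φ (push (N + 1) Q (f * P))
  g2 : ∀ f ∈ extV V ^ (d + N), φ' (aevalTower ι Y f) = c * φ (push (N + 1) Q f)

/-- Degree one part of a polynomial ring in several variables. -/
noncomputable def mvV (V : Submodule ℝ R) (m : ℕ) : Submodule ℝ (MvPolynomial (Fin m) R) :=
  V.map (IsScalarTower.toAlgHom ℝ R (MvPolynomial (Fin m) R)).toLinearMap ⊔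
    Submodule.span ℝ (Set.range MvPolynomial.X)

/-- The `m`-fold version of `GExt`. -/
structure MG (V : Submodule ℝ R) (φ : R →ₗ[ℝ] ℝ) (d : ℕ) (V' : Submodule ℝ R')
    (φ' : R' →ₗ[ℝ] ℝ) (ι : R →ₐ[ℝ] R') {m : ℕ} (Y : Fin m → R') (N : ℕ) (Q : R[X]) (c : ℝ) :
    Prop where
  g1 : ∀ i j, i + j = d + m * N → ∀ ζ ∈ V' ^ j, ∃ P ∈ mvV V m ^ j, ∀ f ∈ mvV V m ^ i,
    φ' (MvPolynomial.aevalTower ι Y f * ζ) = φ (tens (fun _ => push (N + 1) Q) (f * P))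
  g2 : ∀ f ∈ mvV V m ^ (d + m * N),
    φ' (MvPolynomial.aevalTower ι Y f) = c * φ (tens (fun _ => push (N + 1) Q) f)

/-- A graded family of classes orthogonal to all degrees below `p`. -/
structure PF (V : Submodule ℝ R) (φ : R →ₗ[ℝ] ℝ) (d p : ℕ) (A : ℕ → Submodule ℝ R) : Prop where
  le : ∀ q, A q ≤ V ^ q
  orth : ∀ q j, q + j = d → j < p → ∀ x ∈ A q, Orth V φ j x

/-- `u` multiplies the family `A` into itself, raising the degree by `i`. -/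
def Mlt (A : ℕ → Submodule ℝ R) (i : ℕ) (u : R) : Prop := ∀ q, ∀ x ∈ A q, u * x ∈ A (q + i)

/-- The Vandermonde determinant of a family of classes. -/
noncomputable def vd {m : ℕ} (Y : Fin m → R) : R :=
  Matrix.det (Matrix.of fun b c : Fin m => Y b ^ (c : ℕ))

/-- `0 + 1 + ... + (m - 1)`. -/
def tri (m : ℕ) : ℕ := ∑ a : Fin m, (a : ℕ)

/-- The indices strictly between `a` and `b`. -/
def seg (n a b : ℕ) : Finset (Fin n) := Finset.univ.filter fun l => a < (l : ℕ) ∧ (l : ℕ) < b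

end Alg

section PermFun

variable {n : ℕ} {Ω : Type}

/-- The piecewise linear function of a set function, for data depending on a point. -/
noncomputable def lovF (t : Fin n → Ω → ℝ) (w : Ω → Equiv.Perm (Fin n))
    (f : Finset (Fin n) → ℝ) : Ω → ℝ := fun ω => lov (fun i => t i ω) f (w ω)

/-- The polynomial whose value at `ω` is the product of `X + t b ω` over `b ∈ B ω`. -/
noncomputable def fQ (t : Fin n → Ω → ℝ) (B : Ω → Finset (Fin n)) (N : ℕ) : (Ω → ℝ)[X] :=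
  ∑ j ∈ Finset.range (N + 1), monomial j fun ω => (∏ b ∈ B ω, (X + C (t b ω))).coeff j

end PermFun

/-- Simplicial fan data: rays with vectors, maximal cones with dual coordinates, and weights. -/
structure Fan where
  Ξ : Type
  [ag : AddCommGroup Ξ]
  [md : Module ℝ Ξ]
  Ray : Type
  [fr : Fintype Ray]
  [dr : DecidableEq Ray]
  Cn : Type
  [fc : Fintype Cn]
  [dc : DecidableEq Cn]
  [ne : Nonempty Cn]
  d : ℕ
  v : Ray → Ξ
  rays : Cn → Finset Ray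
  x : Cn → Ray → Ξ →ₗ[ℝ] ℝ
  μ : Cn → ℝ
  card_rays : ∀ σ, (rays σ).card = d
  x_out : ∀ σ ρ, ρ ∉ rays σ → x σ ρ = 0
  x_v : ∀ σ ρ ρ', ρ' ∈ rays σ → x σ ρ (v ρ') = if ρ = ρ' then 1 else 0
  sum_x : ∀ σ ξ, ∑ ρ, x σ ρ ξ • v ρ = ξ
  μ_pos : ∀ σ, 0 < μ σ

attribute [instance] Fan.ag Fan.md Fan.fr Fan.dr Fan.fc Fan.dc Fan.ne

namespace Fan

variable (F : Fan)

/-- Generic parameters. -/
def Gen (ξ : F.Ξ) : Prop := ∀ σ, ∀ ρ ∈ F.rays σ, F.x σ ρ ξ ≠ 0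

/-- The class of a piecewise linear function given by its values on the rays. -/
def cl (f : F.Ray → ℝ) (ξ : F.Ξ) : F.Cn → ℝ := fun σ => ∑ ρ, f ρ * F.x σ ρ ξ

/-- The class of a ray. -/
def xr (ρ : F.Ray) (ξ : F.Ξ) : F.Cn → ℝ := fun σ => F.x σ ρ ξ

/-- Degree one classes. -/
def V (ξ : F.Ξ) : Submodule ℝ (F.Cn → ℝ) :=
  Submodule.span ℝ (insert 1 (Set.range fun ρ => F.xr ρ ξ))

/-- Degree one classes as functions of the parameter. -/
def VP : Submodule ℝ (F.Ξ → F.Cn → ℝ) := Submodule.span ℝ (insert 1 (Set.range F.xr))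

/-- The localisation weight of a cone. -/
noncomputable def wt (ξ : F.Ξ) (σ : F.Cn) : ℝ := F.μ σ / ∏ ρ ∈ F.rays σ, F.x σ ρ ξ

/-- The localisation functional. -/
noncomputable def φ (ξ : F.Ξ) : (F.Cn → ℝ) →ₗ[ℝ] ℝ where
  toFun η := ∑ σ, F.wt ξ σ * η σ
  map_add' a b := by simp [mul_add, Finset.sum_add_distrib]
  map_smul' c a := by simp [Finset.mul_sum, mul_left_comm]

/-- Faces. -/
def Face : Type := {τ : Finset F.Ray // ∃ σ, τ ⊆ F.rays σ}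

/-- The empty face. -/
def face0 : F.Face := ⟨∅, Classical.arbitrary _, Finset.empty_subset _⟩

/-- The system of a fan. -/
noncomputable def sys (ξ : F.Ξ) : Sys (F.Cn → ℝ) where
  V := F.V ξ
  one_mem := Submodule.subset_span (Set.mem_insert _ _)
  fg := Submodule.fg_span ((Set.finite_range _).insert _)
  I := F.Face
  d τ := F.d - τ.1.card
  φ τ := cutφ (F.φ ξ) (∏ ρ ∈ τ.1, F.xr ρ ξ)
  step τ D τ' := ∃ ρ, ρ ∉ τ.1 ∧ τ'.1 = insert ρ τ.1 ∧ D = F.xr ρ ξ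
  step_mem := by
    rintro τ D τ' ⟨ρ, -, -, rfl⟩
    exact Submodule.subset_span (Set.mem_insert_of_mem _ ⟨ρ, rfl⟩)
  step_d := by
    rintro τ D ⟨τ', σ, hσ⟩ ⟨ρ, h1, h2, -⟩
    have h3 := Finset.card_le_card hσ
    dsimp only at h2 ⊢
    rw [F.card_rays, h2, Finset.card_insert_of_notMem h1] at h3
    rw [h2, Finset.card_insert_of_notMem h1]
    omega
  step_φ := by
    rintro τ D τ' ⟨ρ, h1, h2, rfl⟩ η
    rw [cutφ_apply, cutφ_apply, h2, Finset.prod_insert h1]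
    congr 1
    ring

/-- Balancing: the functional vanishes below top degree. -/
def Bal : Prop := ∀ ξ, F.Gen ξ → ∀ j < F.d, ∀ η ∈ F.V ξ ^ j, F.φ ξ η = 0

/-- Convex piecewise linear functions. -/
def Conv (f : F.Ray → ℝ) : Prop := ∀ σ ρ, F.cl f (F.v ρ) σ ≤ f ρ

/-- Strictly convex piecewise linear functions, positive on all rays. -/
def SConv (l : F.Ray → ℝ) : Prop :=
  (∀ σ ρ, ρ ∉ F.rays σ → F.cl l (F.v ρ) σ < l ρ) ∧ ∀ ρ, 0 < l ρ

/-- Balanced projective Lefschetz fans. -/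
structure Good : Prop where
  bal : F.Bal
  amp : ∃ l, F.SConv l
  hr : ∀ ξ, F.Gen ξ → ∀ τ, (F.sys ξ).HRi τ

/-- Non-negative on every ray that lies in a cone. -/
def NN (g : F.Ray → ℝ) : Prop := ∀ σ, ∀ ρ ∈ F.rays σ, 0 ≤ g ρ

/-- Vanishing on the rays of a cone. -/
def Z (g : F.Ray → ℝ) (σ : F.Cn) : Prop := ∀ ρ ∈ F.rays σ, g ρ = 0

/-- The sign is constant on each cone. -/
def SignDef (g : F.Ray → ℝ) : Prop :=
  ∀ σ, (∀ ρ ∈ F.rays σ, 0 ≤ g ρ) ∨ ∀ ρ ∈ F.rays σ, g ρ ≤ 0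

/-- On the cone `σ` the functions `W` increase along the order `w σ`. -/
def Ord {n : ℕ} (W : Fin n → F.Ray → ℝ) (w : F.Cn → Equiv.Perm (Fin n)) : Prop :=
  ∀ σ, ∀ ρ ∈ F.rays σ, Monotone fun k => W (w σ k) ρ

/-- A linear function restricted to the rays. -/
def lin (m : F.Ξ →ₗ[ℝ] ℝ) : F.Ray → ℝ := fun ρ => m (F.v ρ)

end Fan

/-- Push-forward of functions on cones. -/
noncomputable def pushF (F' F : Fan) (pr : F'.Ξ →ₗ[ℝ] F.Ξ) (par : F'.Cn → F.Cn) (ξ : F'.Ξ) :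
    (F'.Cn → ℝ) →ₗ[ℝ] (F.Cn → ℝ) where
  toFun η σ := (∑ σ' ∈ Finset.univ.filter fun σ' => par σ' = σ, F'.wt ξ σ' * η σ') / F.wt (pr ξ) σ
  map_add' a b := by funext σ; simp [mul_add, Finset.sum_add_distrib, add_div]
  map_smul' c a := by funext σ; simp [Finset.mul_sum, mul_left_comm, mul_div_assoc, Finset.sum_div]

/-- A morphism of fans of relative dimension `f`. -/
structure Map (F' F : Fan) (f : ℕ) where
  pr : F'.Ξ →ₗ[ℝ] F.Ξ
  par : F'.Cn → F.Cn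
  a : F'.Ray → F.Ray → ℝ
  surj : Function.Surjective pr
  a_nonneg : ∀ ρ' ρ, 0 ≤ a ρ' ρ
  a_out : ∀ σ', ∀ ρ' ∈ F'.rays σ', ∀ ρ, ρ ∉ F.rays (par σ') → a ρ' ρ = 0
  pr_v : ∀ ρ', pr (F'.v ρ') = ∑ ρ, a ρ' ρ • F.v ρ
  gen : ∀ ξ, F'.Gen ξ → F.Gen (pr ξ)
  dim : F'.d = F.d + f
  push_mem : ∀ ξ, F'.Gen ξ → ∀ j, ∀ η ∈ F'.V ξ ^ j,
    pushF F' F pr par ξ η ∈ F.V (pr ξ) ^ (j - f) ∧ (j < f → pushF F' F pr par ξ η = 0)

namespace Map

variable {F' F : Fan} {f : ℕ} (M : Map F' F f)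

/-- Pull-back of piecewise linear functions. -/
def pull (g : F.Ray → ℝ) : F'.Ray → ℝ := fun ρ' => ∑ ρ, M.a ρ' ρ * g ρ

/-- Pull-back of functions on cones. -/
def ι : (F.Cn → ℝ) →ₐ[ℝ] (F'.Cn → ℝ) where
  toFun g := fun σ => g (M.par σ)
  map_one' := rfl
  map_mul' _ _ := rfl
  map_zero' := rfl
  map_add' _ _ := rfl
  commutes' _ := rfl

/-- Pull-back of families of functions on cones. -/
def up (K : F.Ξ → F.Cn → ℝ) : F'.Ξ → F'.Cn → ℝ := fun ξ σ => K (M.pr ξ) (M.par σ)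

/-- Push-forward along the morphism. -/
noncomputable def push (ξ : F'.Ξ) : (F'.Cn → ℝ) →ₗ[ℝ] (F.Cn → ℝ) := pushF F' F M.pr M.par ξ

end Map

/-- A refinement: push-forward is normalised and polynomial in the parameter. -/
structure IsRef {F' F : Fan} (M : Map F' F 0) : Prop where
  one : ∀ ξ, F'.Gen ξ → M.push ξ 1 = 1
  unif : ∀ j, ∀ η ∈ F'.VP ^ j, ∃ G ∈ F.VP ^ j, ∀ ξ, F'.Gen ξ → M.push ξ (η ξ) = G (M.pr ξ)

/-- A refinement of a split projective bundle with roots `b`, hyperplane class `Y` and fibre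
coordinates `s`. -/
structure IsBunW {F' F : Fan} {N : ℕ} (M : Map F' F N) (b : Fin (N + 1) → F.Ray → ℝ)
    (Y : F'.Ray → ℝ) (s : Fin (N + 1) → F'.Ξ →ₗ[ℝ] ℝ) (top : F'.Cn → Fin (N + 1)) : Prop where
  s0 : s 0 = 0
  le : ∀ j ρ, M.pull (b j) ρ + F'.lin (s j) ρ ≤ Y ρ
  eq : ∀ σ, ∀ ρ ∈ F'.rays σ, Y ρ = M.pull (b (top σ)) ρ + F'.lin (s (top σ)) ρ
  fresh : ∀ ξ (c : Fin (N + 1) → ℝ), c 0 = 0 → ∃ ξ', M.pr ξ' = ξ ∧ ∀ j, s j ξ' = c j
  inj : ∀ ξ, F'.Gen ξ → ∀ σ, Function.Injective fun j => F.cl (b j) (M.pr ξ) σ + s j ξ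
  one : ∀ ξ, F'.Gen ξ → M.push ξ (F'.cl Y ξ ^ N) = 1

/-- A split projective bundle. -/
structure IsBun {F' F : Fan} {N : ℕ} (M : Map F' F N) (b : Fin (N + 1) → F.Ray → ℝ)
    (Y : F'.Ray → ℝ) (s : Fin (N + 1) → F'.Ξ →ₗ[ℝ] ℝ) (top : F'.Cn → Fin (N + 1)) : Prop where
  weak : IsBunW M b Y s top
  gen_of : ∀ ξ, F.Gen (M.pr ξ) →
    (∀ σ, Function.Injective fun j => F.cl (b j) (M.pr ξ) σ + s j ξ) → F'.Gen ξ

namespace Fan

variable (F : Fan)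

/-- The functional cut by `K` belongs to a Lefschetz system in which convex functions are nef. -/
def CutOK (K : F.Ξ → F.Cn → ℝ) (p : ℕ) : Prop :=
  ∀ ξ, F.Gen ξ → K ξ ∈ F.V ξ ^ p ∧ (p ≤ F.d → ∃ (S : Sys (F.Cn → ℝ)) (i : S.I) (l : F.Cn → ℝ),
    S.Lef l ∧ S.V = F.V ξ ∧ S.φ i = cutφ (F.φ ξ) (K ξ) ∧ S.d i + p = F.d ∧
    (∀ g, F.Conv g → GN S (F.cl g ξ)) ∧ ∀ g, F.NN g → S.Eff i (F.cl g ξ))

/-- `CutOK` on every good fan over `F`. -/
def HCut (K : F.Ξ → F.Cn → ℝ) (p : ℕ) : Prop :=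
  ∀ (F' : Fan) (f : ℕ) (M : Map F' F f), F'.Good → F'.CutOK (M.up K) p

/-- The Bergman class of `ρ` in the linear coordinates `s` ordered by `w`. -/
noncomputable def kap {n : ℕ} (ρ : Finset (Fin n) → ℕ) (s : Fin n → F.Ξ →ₗ[ℝ] ℝ)
    (w : F.Cn → Equiv.Perm (Fin n)) : F.Ξ → F.Cn → ℝ :=
  fun ξ σ => ∏ c ∈ (greedy ρ (w σ))ᶜ, s c ξ

/-- The relation of the tautological bundle of `ρ` for the functions `W` ordered by `w`. -/
noncomputable def mQ {n : ℕ} (ρ : Finset (Fin n) → ℕ) (W : Fin n → F.Ray → ℝ)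
    (w : F.Cn → Equiv.Perm (Fin n)) (ξ : F.Ξ) : (F.Cn → ℝ)[X] :=
  fQ (fun i => F.cl (W i) ξ) (fun σ => greedy ρ (w σ)) (ρ Finset.univ)

/-- A node: a convex function `Y` with corrections `e l` making `Y + W l` convex. -/
structure Node {n : ℕ} (W : Fin n → F.Ray → ℝ) (Y : F.Ray → ℝ) (e : Fin n → F.Ray → ℝ) :
    Prop where
  conv : F.Conv Y
  nn : ∀ l, F.NN (e l)
  cor : ∀ l, F.Conv (Y + W l - e l)

/-- The corrections are killed by `P` times the factors `Y + W l'` with `l < l' < b`. -/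
def Van {n : ℕ} (W : Fin n → F.Ray → ℝ) (P : F.Ξ → F.Cn → ℝ) (q : ℕ) (Y : F.Ray → ℝ)
    (e : Fin n → F.Ray → ℝ) (b : ℕ) : Prop :=
  ∀ ξ, F.Gen ξ → ∀ l : Fin n, (l : ℕ) < b → ∀ j, q + (b - 1 - l) + j = F.d →
    ∀ h ∈ F.V ξ ^ j, (∀ σ, F.Z (e l) σ → h σ = 0) →
      F.φ ξ (P ξ * (∏ l' ∈ seg n l b, (F.cl Y ξ + F.cl (W l') ξ)) * h) = 0

/-- The standing assumptions on the ordered family `W`. -/
structure Base {n : ℕ} (W : Fin n → F.Ray → ℝ) (w : F.Cn → Equiv.Perm (Fin n)) : Prop where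
  ord : F.Ord W w
  neg : ∀ j, F.Conv (-W j)
  sub : ∀ i l, i ≤ l → F.Conv (W l - W i)
  inj : ∀ ξ, F.Gen ξ → ∀ σ, Function.Injective fun i => F.cl (W i) ξ σ

end Fan

end G94
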