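import Pool.Agent.P.MP_740b33_co.Dual

/-! Package A2: descent of Hodge-Riemann to the cut by a nef class. -/

namespace G94

open H40M Polynomial

namespace Desc

open Filter Topology

section Pencil

variable {E : Type} [AddCommGroup E] [Module ℝ E]

/-- Chains for a pencil of two forms. -/
def Ch (B C : LinearMap.BilinForm ℝ E) : ℕ → E → Prop
  | 0, x => ∀ y, B x y = 0
  | s + 1, x => ∃ x', (∀ y, C x y = B x' y) ∧ Ch B C s x'

lemma resolvent (ν : Module.End ℝ E) (f : E →ₗ[ℝ] ℝ) (v : E) (g : ℝ[X]) :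
    ∃ z : ℝ → E, Continuous (fun s => f (z s)) ∧
      ∀ s, ν (z s) + s • z s = aeval ν g v - g.eval (-s) • v := by
  induction g using Polynomial.induction_on with
  | C a => exact ⟨fun _ => 0, by simpa using continuous_const, fun s => by simp⟩
  | add p q hp hq =>
    obtain ⟨z, h1, h2⟩ := hp
    obtain ⟨z', h3, h4⟩ := hq
    refine ⟨fun s => z s + z' s, by simp only [map_add]; exact h1.add h3, fun s => ?_⟩
    rw [map_add, map_add, eval_add, LinearMap.add_apply, smul_add, add_smul, add_add_add_comm,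
      h2, h4]
    abel
  | monomial n a h =>
    obtain ⟨z, h1, h2⟩ := h
    refine ⟨fun s => aeval ν (C a * X ^ n) v - s • z s, ?_, fun s => ?_⟩
    · simp only [map_sub, map_smul, smul_eq_mul]
      exact continuous_const.sub (continuous_id.mul h1)
    · have e1 : aeval ν (C a * X ^ (n + 1)) v = ν (aeval ν (C a * X ^ n) v) := by
        rw [show C a * X ^ (n + 1) = X * (C a * X ^ n) by ring, map_mul, aeval_X]
        rfl
      have e2 : (C a * X ^ (n + 1)).eval (-s) = -s * (C a * X ^ n).eval (-s) := by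
        simp only [eval_mul, eval_C, eval_pow, eval_X]
        ring
      have e3 : ν (z s) = aeval ν (C a * X ^ n) v - (C a * X ^ n).eval (-s) • v - s • z s :=
        eq_sub_of_add_eq (h2 s)
      rw [e1, e2, map_sub, map_smul, e3]
      module

lemma exists_nu [FiniteDimensional ℝ E] (B C : E →ₗ[ℝ] Module.Dual ℝ E) (hB : ∀ x y, B x y = B y x)
    (hC : ∀ x y, C x y = C y x) (hk : ∀ x, (∀ y, B x y = 0) → ∀ y, C x y = 0) :
    ∃ ν : Module.End ℝ E, ∀ x y, B (ν x) y = C x y := by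
  have h1 : LinearMap.range B = (LinearMap.ker B).dualAnnihilator := by
    apply Submodule.eq_of_le_of_finrank_eq
    · rintro _ ⟨x, rfl⟩
      rw [Submodule.mem_dualAnnihilator]
      intro w hw
      rw [hB, LinearMap.mem_ker.1 hw]
      rfl
    · have a1 := LinearMap.finrank_range_add_finrank_ker B
      have a2 := Subspace.finrank_add_finrank_dualAnnihilator_eq (LinearMap.ker B)
      omega
  have h2 : ∀ x, C x ∈ LinearMap.range B := fun x => by
    rw [h1, Submodule.mem_dualAnnihilator]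
    intro w hw
    rw [hC]
    exact hk w (fun y => by rw [LinearMap.mem_ker.1 hw]; rfl) x
  obtain ⟨π, hπ⟩ := Module.projective_lifting_property B.rangeRestrict
    (C.codRestrict _ h2) B.surjective_rangeRestrict
  refine ⟨π, fun x y => ?_⟩
  have h3 : B (π x) = C x := congrArg Subtype.val (LinearMap.congr_fun hπ x)
  rw [h3]

lemma pencil [FiniteDimensional ℝ E] (B C : LinearMap.BilinForm ℝ E) (hB : ∀ x y, B x y = B y x)
    (hC : ∀ x y, C x y = C y x) (hk : ∀ x, (∀ y, B x y = 0) → ∀ y, C x y = 0) (e : E)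
    (H : ∀ s x x', Ch B C s x' → (∀ y, C x y = B x' y) → B e x' = 0) :
    ∃ ξ : ℝ → E, (∀ᶠ s in 𝓝[>] (0 : ℝ), ∀ y, C (ξ s) y + s * B (ξ s) y = s * B e y) ∧
      Tendsto (fun s => s * B e (ξ s)) (𝓝[>] 0) (𝓝 0) := by
  obtain ⟨ν, hν⟩ := exists_nu B C hB hC hk
  have s1 : ∀ x y, B (ν x) y = B x (ν y) := fun x y => by rw [hν, hC, ← hν, hB]
  have s2 : ∀ (q : ℕ) x y, B ((ν ^ q) x) y = B x ((ν ^ q) y) := by
    intro q
    induction q with
    | zero => intro x y; rfl
    | succ q ih =>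
      intro x y
      have e1 : (ν ^ (q + 1)) x = (ν ^ q) (ν x) := by rw [pow_succ]; rfl
      have e2 : (ν ^ (q + 1)) y = ν ((ν ^ q) y) := by rw [pow_succ']; rfl
      rw [e1, e2, ih, s1]
  have s3 : ∀ (q : ℕ) x, (ν ^ q) x = 0 → Ch B C q x := by
    intro q
    induction q with
    | zero =>
      intro x hx y
      rw [show x = 0 from hx]
      simp
    | succ q ih =>
      intro x hx
      refine ⟨ν x, fun y => (hν x y).symm, ih _ ?_⟩
      rwa [pow_succ] at hx
  obtain ⟨g, hg, hg0⟩ := exists_eq_pow_rootMultiplicity_mul_and_not_dvd ν.charpoly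
    ν.charpoly_monic.ne_zero 0
  generalize rootMultiplicity 0 ν.charpoly = q at hg
  rw [C_0, sub_zero] at hg hg0
  have hg1 : g.eval 0 ≠ 0 := by rwa [X_dvd_iff, coeff_zero_eq_eval_zero] at hg0
  obtain ⟨a, b, hab⟩ : IsCoprime (X ^ q) g :=
    ((irreducible_X.coprime_iff_not_dvd).2 hg0).pow_left
  have z0 : aeval ν (X ^ q * g) = 0 := hg ▸ ν.aeval_self_charpoly
  have z1 : ∀ y, (ν ^ q) (aeval ν (b * g) y) = 0 := fun y => by
    have : aeval ν (X ^ q * (b * g)) = 0 := by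
      rw [show X ^ q * (b * g) = b * (X ^ q * g) by ring, map_mul, z0, mul_zero]
    rw [map_mul, map_pow, aeval_X] at this
    exact LinearMap.congr_fun this y
  have z2 : ∀ y, aeval ν g ((ν ^ q) (aeval ν a y)) = 0 := fun y => by
    have : aeval ν (g * (X ^ q * a)) = 0 := by
      rw [show g * (X ^ q * a) = a * (X ^ q * g) by ring, map_mul, z0, mul_zero]
    rw [map_mul, map_mul, map_pow, aeval_X] at this
    exact LinearMap.congr_fun this y
  have z3 : ∀ y, y = aeval ν (b * g) y + (ν ^ q) (aeval ν a y) := fun y => by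
    have : aeval ν (b * g + X ^ q * a) = 1 := by
      rw [show b * g + X ^ q * a = a * X ^ q + b * g by ring, hab, map_one]
    rw [map_add, map_mul _ (X ^ q), map_pow, aeval_X] at this
    exact (LinearMap.congr_fun this y).symm
  have z4 : ∀ x, (ν ^ q) x = 0 → (ν ^ q) (ν x) = 0 := fun x hx => by
    have : (ν ^ q) (ν x) = ν ((ν ^ q) x) := by
      change (ν ^ q * ν) x = (ν * ν ^ q) x
      rw [← pow_succ, ← pow_succ']
    rw [this, hx, map_zero]
  obtain ⟨g0, hg0'⟩ : ∃ g0, g0 = aeval ν (b * g) e := ⟨_, rfl⟩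
  obtain ⟨g1, hg1'⟩ : ∃ g1, g1 = (ν ^ q) (aeval ν a e) := ⟨_, rfl⟩
  have e1 : e = g0 + g1 := by rw [hg0', hg1']; exact z3 e
  have k0 : ∀ y, C g0 y = 0 := fun y => by
    have a1 := H q (aeval ν (b * g) y) _ (s3 q _ (z4 _ (z1 y))) fun w => (hν _ w).symm
    have a2 : B g1 (ν (aeval ν (b * g) y)) = 0 := by rw [hg1', s2, z4 _ (z1 y), map_zero]
    have a3 : B (ν g0) ((ν ^ q) (aeval ν a y)) = 0 := by
      rw [← s2, z4 _ (hg0' ▸ z1 e), map_zero, LinearMap.zero_apply]
    rw [e1, map_add, LinearMap.add_apply, a2, add_zero, ← s1] at a1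
    rw [← hν, z3 y, map_add, a1, a3, add_zero]
  obtain ⟨z, c1, c2⟩ := resolvent ν (B e) g1 g
  have c3 : Continuous fun s : ℝ => g.eval (-s) := g.continuous.comp continuous_neg
  refine ⟨fun s => g0 - (s / g.eval (-s)) • z s, ?_, ?_⟩
  · have c4 : ∀ᶠ s in 𝓝 (0 : ℝ), g.eval (-s) ≠ 0 :=
      c3.continuousAt.eventually_ne (by simpa using hg1)
    filter_upwards [c4.filter_mono nhdsWithin_le_nhds] with s hs y
    have a1 := congrArg (fun x => B x y) (c2 s)
    rw [hg1', z2, ← hg1'] at a1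
    simp only [map_add, map_sub, map_smul, LinearMap.add_apply, LinearMap.sub_apply,
      LinearMap.smul_apply, smul_eq_mul, hν, map_zero, LinearMap.zero_apply] at a1
    have a2 : B e y = B g0 y + B g1 y := by rw [e1, map_add, LinearMap.add_apply]
    simp only [map_sub, map_smul, LinearMap.sub_apply, LinearMap.smul_apply, smul_eq_mul, k0, a2]
    have a3 : B g1 y = -(C (z s) y + s * B (z s) y) / g.eval (-s) := by
      rw [a1]
      field_simp
      ring
    rw [a3]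
    ring
  · have c5 : ContinuousAt (fun s : ℝ => s * (B e g0 - s / g.eval (-s) * B e (z s))) 0 :=
      continuousAt_id.mul (continuousAt_const.sub ((continuousAt_id.div c3.continuousAt
        (by simpa using hg1)).mul c1.continuousAt))
    have c6 := c5.tendsto.mono_left (nhdsWithin_le_nhds (s := Set.Ioi 0))
    simpa only [map_sub, map_smul, smul_eq_mul, zero_mul] using c6

end Pencil

variable {R : Type} [CommRing R] [Algebra ℝ R] {V : Submodule ℝ R} {φ : R →ₗ[ℝ] ℝ} {l D : R}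

/-- Hard Lefschetz for all cuts and Hodge-Riemann in low degree. -/
structure Hyp (V : Submodule ℝ R) (φ : R →ₗ[ℝ] ℝ) (l D : R) (d k : ℕ) : Prop where
  hl : ∀ a j e, 2 * j + e + a = d → HLat V (cutφ φ (D ^ a)) j e (l ^ e)
  hr : ∀ a j e, j < k → 2 * j + e + a = d → HRat V (cutφ φ (D ^ a)) j e (l ^ e) l

lemma Hyp.cut {d k : ℕ} (h : Hyp V φ l D (d + 1) k) : Hyp V (cutφ φ D) l D d k :=
  ⟨fun a j e he => by
    rw [cutφ_cutφ, ← pow_succ']
    exact h.hl (a + 1) j e (by omega),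
  fun a j e hj he => by
    rw [cutφ_cutφ, ← pow_succ']
    exact h.hr (a + 1) j e hj (by omega)⟩

lemma Hyp.hl0 {d k j e : ℕ} (h : Hyp V φ l D d k) (he : 2 * j + e = d) : HLat V φ j e (l ^ e) := by
  have := h.hl 0 j e he
  rwa [pow_zero, cutφ_one] at this

lemma Hyp.hl1 {d k j e : ℕ} (h : Hyp V φ l D d k) (he : 2 * j + e + 1 = d) :
    HLat V (cutφ φ D) j e (l ^ e) := by
  have := h.hl 1 j e he
  rwa [pow_one] at this

lemma Hyp.rel (h1 : (1 : R) ∈ V) (hfg : V.FG) (hl : l ∈ V) (hD : D ∈ V) {d k j p : ℕ}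
    (h : Hyp V φ l D d k) (hj : j < k) (hd : 2 * j + p + 1 = d) {x u : R} (hx : x ∈ V ^ j)
    (hDx : Orth V (cutφ φ D) (j + p) x) (hu : u ∈ V ^ (j + p))
    (h2 : Orth V φ j (l ^ (p + 1) * x - D * u)) :
    ∃ z ∈ lowV V j, Orth V φ (j + (p + 1)) (x - D * z) := by
  refine claim1 h1 hfg hl hD ?_ (fun i hi => h.hl1 (by omega)) (fun i hi => ?_) hx ?_ ⟨u, hu, h2⟩
  · have := h.hr 0 j (p + 1) hj hd
    rwa [pow_zero, cutφ_one] at this
  · have := h.hr 2 i (p + 1) (by omega) (by omega)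
    rwa [pow_two] at this
  · refine (orthLT_succ h1).2 fun ζ hζ => ?_
    rw [mul_assoc]
    exact hDx ζ hζ

/-- Chains in degree `j`. -/
def Gn (V : Submodule ℝ R) (φ : R →ₗ[ℝ] ℝ) (l D : R) (j p : ℕ) : ℕ → R → Prop
  | 0, x => Orth V φ (j + (p + 1)) x
  | s + 1, x => ∃ x' ∈ V ^ j, Orth V φ j (l ^ (p + 1) * x' - D * l ^ p * x) ∧ Gn V φ l D j p s x'

lemma chain (h1 : (1 : R) ∈ V) (hfg : V.FG) (hl : l ∈ V) (hD : D ∈ V) {k : ℕ} (j : ℕ) :
    ∀ (φ : R →ₗ[ℝ] ℝ) (p : ℕ), j < k → Hyp V φ l D (2 * j + p + 1) k → ∀ (s : ℕ) (z u : R),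
      z ∈ V ^ j → u ∈ V ^ (j + p) → Gn V φ l D j p s z → Orth V φ j (l ^ (p + 1) * z - D * u) →
      ∃ y ∈ lowV V j, Orth V φ (j + (p + 1)) (z - D * y) ∧
        ∀ i, i + 1 = j → Gn V (cutφ φ D) l D i (p + 1) s y := by
  induction j using Nat.strong_induction_on with
  | _ j ihj =>
  intro φ p hj h s
  induction s with
  | zero =>
    intro z u _ _ h2 _
    exact ⟨0, zero_mem _, by rw [mul_zero, sub_zero]; exact h2, fun i _ => Orth.zero _⟩
  | succ s ihs =>
    rintro z u hz hu ⟨z', hz', h2, h3⟩ h4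
    obtain ⟨y', hy', h5, h6⟩ := ihs z' (l ^ p * z) hz'
      (mul_mem_pow' (pow_mem_pow hl p) hz (add_comm _ _)) h3 (by rwa [← mul_assoc])
    have h7 : Orth V (cutφ φ D) (j + p) (z - l * y') := by
      refine h.hl1 rfl _ (sub_mem hz (mul_lowV hl hy')) fun ζ hζ => ?_
      have a1 := h2 ζ hζ
      have a2 := h5 (l ^ (p + 1) * ζ) (mul_mem_pow' (pow_mem_pow hl _) hζ (add_comm _ _))
      rw [cutφ_apply, show D * (l ^ p * (z - l * y') * ζ) = (z' - D * y') * (l ^ (p + 1) * ζ) -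
        (l ^ (p + 1) * z' - D * l ^ p * z) * ζ by ring, map_sub, a1, a2, sub_zero]
    rcases j with _ | i
    · rw [(Submodule.mem_bot ℝ).1 hy', mul_zero, sub_zero] at h7
      obtain ⟨v, hv, h8⟩ := h.rel h1 hfg hl hD hj rfl hz h7 hu h4
      exact ⟨v, hv, h8, fun i hi => absurd hi (by omega)⟩
    · have hy'' : y' ∈ V ^ i := hy'
      have b1 : ∀ ζ ∈ V ^ i, φ (D * ((z - l * y') * (l ^ (p + 1) * ζ))) = 0 := fun ζ hζ =>
        h7 (l ^ (p + 1) * ζ) (mul_mem_pow' (pow_mem_pow hl _) hζ (by omega))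
      obtain ⟨w, hw, h8, -⟩ := ihj i (Nat.lt_succ_self i) (cutφ φ D) (p + 1) (by omega)
        (Hyp.cut (by rwa [show 2 * i + (p + 1) + 1 + 1 = 2 * (i + 1) + p + 1 by ring])) s y' u hy''
        (by rwa [show i + (p + 1) = i + 1 + p by ring]) (h6 i rfl) fun ζ hζ => by
          have a2 := h4 (D * ζ) (mul_mem_pow' (mem_pow_one hD) hζ (by omega))
          rw [cutφ_apply, show D * ((l ^ (p + 1 + 1) * y' - D * u) * ζ) =
            (l ^ (p + 1) * z - D * u) * (D * ζ) - D * ((z - l * y') * (l ^ (p + 1) * ζ)) by ring,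
            map_sub, a2, b1 ζ hζ, sub_zero]
      have hlw := mul_lowV hl hw
      obtain ⟨v, hv, h9⟩ := h.rel h1 hfg hl hD hj rfl (x := z - D * (l * w))
        (u := u - l ^ (p + 1) * (l * w))
        (sub_mem hz (mul_mem_pow' (mem_pow_one hD) hlw (by omega)))
        (fun ζ hζ => by
          have a1 := h7 ζ hζ
          have a2 := h8 (l * ζ) (mul_mem_pow' (mem_pow_one hl) hζ (by omega))
          rw [show (z - D * (l * w)) * ζ = (z - l * y') * ζ + (y' - D * w) * (l * ζ) by ring,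
            map_add, a1, a2, add_zero])
        (sub_mem hu (mul_mem_pow' (pow_mem_pow hl _) hlw (by omega)))
        (by rwa [show l ^ (p + 1) * (z - D * (l * w)) - D * (u - l ^ (p + 1) * (l * w)) =
          l ^ (p + 1) * z - D * u by ring])
      rw [show z - D * (l * w) - D * v = z - D * (v + l * w) by ring] at h9
      refine ⟨v + l * w, add_mem hv hlw, h9, fun i' hi' => ?_⟩
      obtain rfl : i' = i := by omega
      refine ⟨y', hy'', fun ζ hζ => ?_, h6 i' rfl⟩
      have a2 := h9 (D * (l ^ (p + 1) * ζ)) (mul_mem_pow' (mem_pow_one hD)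
        (mul_mem_pow (pow_mem_pow hl _) hζ) (by omega))
      rw [cutφ_apply, show D * ((l ^ (p + 1 + 1) * y' - D * l ^ (p + 1) * (v + l * w)) * ζ) =
        (z - D * (v + l * w)) * (D * (l ^ (p + 1) * ζ)) -
          D * ((z - l * y') * (l ^ (p + 1) * ζ)) by ring, map_sub, a2, b1 ζ hζ, sub_zero]

lemma gn_of_ch {d k j p : ℕ} (h : Hyp V φ l D d k) (hd : 2 * j + p + 1 = d) (s : ℕ) :
    ∀ x : (V ^ j : Submodule ℝ R),
      Ch (form 1 φ (l ^ (p + 1)) (V ^ j)) (form 1 φ (D * l ^ p) (V ^ j)) s x →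
      Gn V φ l D j p s x := by
  induction s with
  | zero =>
    intro x hx
    refine h.hl0 (e := p + 1) hd x x.2 fun ζ hζ => ?_
    simpa only [form_apply, one_mul] using hx ⟨ζ, hζ⟩
  | succ s ih =>
    rintro x ⟨x', h2, h3⟩
    refine ⟨x', x'.2, fun ζ hζ => ?_, ih x' h3⟩
    have := h2 ⟨ζ, hζ⟩
    simp only [form_apply, one_mul] at this
    rw [sub_mul, map_sub, this, sub_self]

end Desc

variable {R : Type} [CommRing R] [Algebra ℝ R] {V : Submodule ℝ R} {φ : R →ₗ[ℝ] ℝ}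

open Filter Topology Desc in
theorem descent (h1 : (1 : R) ∈ V) (hfg : V.FG) {l D : R} (hl : l ∈ V) (hD : D ∈ V) {d k m : ℕ}
    (hd : 2 * k + m + 1 = d)
    (hHL : ∀ a j e, 2 * j + e + a = d → HLat V (cutφ φ (D ^ a)) j e (l ^ e))
    (hHR : ∀ a j e, j < k → 2 * j + e + a = d → HRat V (cutφ φ (D ^ a)) j e (l ^ e) l)
    (hmix : ∀ s : ℝ, 0 < s → HRat V φ k (m + 1) ((D + s • l) * l ^ m) l) :
    HRat V (cutφ φ D) k m (l ^ m) l := by
  have h : Hyp V φ l D d k := ⟨hHL, hHR⟩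
  refine hrat_of_nonneg h1 hfg (pow_mem_pow hl m) hl (h.hl1 hd) (fun j hj => ?_) fun η hη hp => ?_
  · rw [← pow_succ, ← pow_succ]
    exact h.hl1 (by omega)
  have lim : ∀ (T : ℝ → ℝ), Tendsto T (𝓝[>] 0) (𝓝 0) → (∀ᶠ s in 𝓝[>] (0 : ℝ),
      0 ≤ (-1) ^ k * (φ (D * (l ^ m * η * η)) + s * φ (l ^ (m + 1) * η * η) - T s)) →
      0 ≤ (-1) ^ k * cutφ φ D (l ^ m * η * η) := by
    intro T hT hev
    have t1 : Tendsto (fun s : ℝ => s) (𝓝[>] 0) (𝓝 0) := tendsto_id.mono_left nhdsWithin_le_nhds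
    have t2 := (((t1.mul_const (φ (l ^ (m + 1) * η * η))).const_add
      (φ (D * (l ^ m * η * η)))).sub hT).const_mul ((-1 : ℝ) ^ k)
    rw [zero_mul, add_zero, sub_zero] at t2
    exact ge_of_tendsto t2 hev
  have ex : ∀ (s : ℝ) (x : R), φ ((D + s • l) * x) = φ (D * x) + s * φ (l * x) := fun s x => by
    rw [add_mul, map_add, smul_mul_assoc, map_smul, smul_eq_mul]
  rcases k with _ | j
  · refine lim (fun _ => 0) tendsto_const_nhds ?_
    filter_upwards [self_mem_nhdsWithin] with s hs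
    have a1 := (hmix s hs η hη (orthLT_zero _)).1
    rwa [show (D + s • l) * l ^ m * η * η = (D + s • l) * (l ^ m * η * η) by ring, ex,
      show l * (l ^ m * η * η) = l ^ (m + 1) * η * η by ring, ← sub_zero (_ + _)] at a1
  have : FiniteDimensional ℝ (V ^ j : Submodule ℝ R) := Module.Finite.iff_fg.2 (fg_pow hfg j)
  have hd' : 2 * j + (m + 2) + 1 = d := by omega
  have hη' : l ^ (m + 2) * η ∈ V ^ (j + (m + 2 + 1)) :=
    mul_mem_pow' (pow_mem_pow hl _) hη (by omega)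
  obtain ⟨e, he, he'⟩ := dual (U1 := V ^ j) (U2 := V ^ j) (fg_pow hfg j) φ (l ^ (m + 2 + 1))
    (l ^ (m + 2) * η) fun ζ hζ h0 => by
      rw [mul_comm]
      exact h.hl0 (e := m + 2 + 1) hd' ζ hζ h0 _ hη'
  have he2 : ∀ ζ ∈ V ^ j, φ (l ^ (m + 2 + 1) * e * ζ) = φ (l ^ (m + 2) * η * ζ) := fun ζ hζ => by
    have := he' ζ hζ
    rw [sub_mul, map_sub] at this
    linarith
  obtain ⟨ξ, x1, x2⟩ := pencil (form 1 φ (l ^ (m + 2 + 1)) (V ^ j))
    (form 1 φ (D * l ^ (m + 2)) (V ^ j)) (form_symm _ _ _ _) (form_symm _ _ _ _)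
    (fun x hx y => by
      have a1 := gn_of_ch h hd' 0 x hx (D * l ^ (m + 2) * y)
        (mul_mem_pow' (mul_mem_pow (mem_pow_one hD) (pow_mem_pow hl _)) y.2 (by omega))
      rw [form_apply, one_mul, ← a1]
      congr 1
      ring) ⟨e, he⟩
    (fun s x x' h2 h3 => by
      obtain ⟨y, hy, a1, -⟩ := chain h1 hfg hl hD j φ (m + 2) (Nat.lt_succ_self j) (hd' ▸ h) s x'
        (l ^ (m + 2) * x) x'.2 (mul_mem_pow' (pow_mem_pow hl _) x.2 (add_comm _ _))
        (gn_of_ch h hd' s x' h2) fun ζ hζ => by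
          have := h3 ⟨ζ, hζ⟩
          simp only [form_apply, one_mul] at this
          rw [← mul_assoc, sub_mul, map_sub, this, sub_self]
      have a2 := a1 _ hη'
      have a3 := hp j (Nat.lt_succ_self j) _ (mul_lowV hl hy)
      rw [form_apply, one_mul, he2 _ x'.2, show l ^ (m + 2) * η * x' =
        (x' - D * y) * (l ^ (m + 2) * η) + D * (l ^ m * l * η * (l * y)) by ring, map_add, a2,
        zero_add]
      exact a3)
  refine lim _ x2 ?_
  filter_upwards [self_mem_nhdsWithin, x1] with s hs hs'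
  simp only [form_apply, one_mul] at hs' ⊢
  have hx := (ξ s).2
  generalize (ξ s : R) = x at hs' hx
  have b1 : ∀ ζ ∈ V ^ j, φ ((D + s • l) * l ^ m * l * (η - l * x) * ζ) = 0 := fun ζ hζ => by
    have a1 := hs' ⟨ζ, hζ⟩
    have a2 : φ (D * (l ^ m * l * η * ζ)) = 0 := hp j (Nat.lt_succ_self j) ζ hζ
    rw [he2 ζ hζ] at a1
    rw [show (D + s • l) * l ^ m * l * (η - l * x) * ζ = (D + s • l) * (l ^ m * l * η * ζ) -
      (D + s • l) * (l ^ (m + 2) * x * ζ) by ring, map_sub, ex, ex, a2,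
      show l * (l ^ m * l * η * ζ) = l ^ (m + 2) * η * ζ by ring,
      show D * (l ^ (m + 2) * x * ζ) = D * l ^ (m + 2) * x * ζ by ring,
      show l * (l ^ (m + 2) * x * ζ) = l ^ (m + 2 + 1) * x * ζ by ring]
    linarith
  have b2 := (hmix s hs (η - l * x) (sub_mem hη (mul_mem_pow' (mem_pow_one hl) hx (by omega)))
    ((orthLT_succ h1).2 b1)).1
  have a2 : φ (D * (l ^ m * l * η * x)) = 0 := hp j (Nat.lt_succ_self j) x hx
  rwa [show (D + s • l) * l ^ m * (η - l * x) * (η - l * x) = (D + s • l) * (l ^ m * η * η) -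
      (D + s • l) * (l ^ m * l * η * x) - (D + s • l) * l ^ m * l * (η - l * x) * x by ring,
    map_sub, map_sub, b1 x hx, sub_zero, ex, ex, a2, zero_add,
    show l * (l ^ m * η * η) = l ^ (m + 1) * η * η by ring,
    show l * (l ^ m * l * η * x) = l ^ (m + 2) * η * x by ring, ← he2 x hx] at b2

end G94
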