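import Pool.Agent.P.MP_740b33_co.Defs

/-! Package A1: duality, Hodge-Riemann on the kernel of a class, transfer lemmas. -/

namespace G94

open H40M Polynomial

variable {R : Type} [CommRing R] [Algebra ℝ R] {V : Submodule ℝ R} {φ : R →ₗ[ℝ] ℝ}

theorem dual {U1 U2 : Submodule ℝ R} (h1 : U1.FG) (φ : R →ₗ[ℝ] ℝ) (ω x : R)
    (h : ∀ ζ ∈ U2, (∀ y ∈ U1, φ (ω * ζ * y) = 0) → φ (x * ζ) = 0) :
    ∃ y ∈ U1, ∀ ζ ∈ U2, φ ((x - ω * y) * ζ) = 0 := by
  have : FiniteDimensional ℝ U1 := Module.Finite.iff_fg.2 h1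
  let T : U2 →ₗ[ℝ] Module.Dual ℝ U1 :=
    LinearMap.mk₂ ℝ (fun (ζ : U2) (y : U1) => φ (ω * ζ * y))
      (fun a b y => by simp [mul_add, add_mul])
      (fun c a y => by simp)
      (fun a y y' => by simp [mul_add])
      (fun c a y => by simp)
  let f : Module.Dual ℝ U2 := (φ ∘ₗ LinearMap.mulLeft ℝ x) ∘ₗ U2.subtype
  have hf : f ∈ LinearMap.range T.dualMap := by
    rw [LinearMap.range_dualMap_eq_dualAnnihilator_ker, Submodule.mem_dualAnnihilator]
    intro ζ hζ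
    refine h ζ ζ.2 fun y hy => ?_
    exact LinearMap.congr_fun (LinearMap.mem_ker.1 hζ) ⟨y, hy⟩
  obtain ⟨g, hg⟩ := hf
  obtain ⟨y, rfl⟩ := (Module.evalEquiv ℝ U1).surjective g
  refine ⟨y, y.2, fun ζ hζ => ?_⟩
  have h2 : φ (ω * ζ * y) = φ (x * ζ) := LinearMap.congr_fun hg ⟨ζ, hζ⟩
  rw [show (x - ω * y) * ζ = x * ζ - ω * ζ * y by ring, map_sub, h2, sub_self]

theorem claim2 (h1 : (1 : R) ∈ V) (hfg : V.FG) {l D x : R} (hl : l ∈ V) (hD : D ∈ V) {j m : ℕ}
    (hR : HRat V φ j m (l ^ m) l)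
    (hL : ∀ i, i + 1 = j → HLat V (cutφ φ D) i (m + 1) (l ^ (m + 1)))
    (hR2 : ∀ i, i + 1 = j → HRat V (cutφ φ (D * D)) i m (l ^ m) l)
    (hx : x ∈ V ^ j) (hDx : OrthLT V φ (j + m) (D * x))
    (hp : ∀ ζ ∈ lowV V j, Orth V φ (j + m) (D * ζ) → φ (l ^ (m + 1) * x * ζ) = 0) :
    0 ≤ (-1) ^ j * φ (l ^ m * x * x) ∧
      (φ (l ^ m * x * x) = 0 → ∃ z ∈ lowV V j, Orth V φ (j + m) (x - D * z)) := by
  rcases j with _ | i
  · obtain ⟨h2, h3⟩ := hR x hx (orthLT_zero _)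
    refine ⟨h2, fun h4 => ⟨0, zero_mem _, ?_⟩⟩
    rw [mul_zero, sub_zero]
    exact h3 h4
  · obtain ⟨z, hz, hz'⟩ := dual (U1 := V ^ i) (U2 := V ^ i) (fg_pow hfg i) φ (D * l ^ (m + 1))
      (l ^ (m + 1) * x) (fun ζ hζ h0 => by
        refine hp ζ hζ fun w hw => ?_
        have h2 := hL i rfl ζ hζ (fun y hy => by
          rw [cutφ_apply, ← h0 y hy]
          congr 1; ring) w (by rwa [show i + (m + 1) = i + 1 + m by omega])
        rw [cutφ_apply] at h2
        rw [← h2]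
        congr 1; ring)
    have hDz : D * z ∈ V ^ (i + 1) := mul_mem_pow' (mem_pow_one hD) hz (by omega)
    obtain ⟨h2, h3⟩ := hR (x - D * z) (sub_mem hx hDz) ((orthLT_succ h1).2 fun ζ hζ => by
      rw [← hz' ζ hζ]
      congr 1; ring)
    obtain ⟨h4, -⟩ := hR2 i rfl z hz (fun i' hi' ζ hζ => by
      have h5 := hz' (D * ζ)
        (mem_pow_of_le h1 (by omega) (mul_mem_pow (mem_pow_one hD) hζ))
      have h6 := hDx (m + 1 + i') (by omega) (l ^ (m + 1) * ζ)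
        (mul_mem_pow (pow_mem_pow hl _) hζ)
      rw [show (l ^ (m + 1) * x - D * l ^ (m + 1) * z) * (D * ζ) =
        D * x * (l ^ (m + 1) * ζ) - D * D * (l ^ m * l * z * ζ) by ring, map_sub, h6] at h5
      rw [cutφ_apply]
      linarith)
    rw [cutφ_apply] at h4
    have h5 := hDx (m + i) (by omega) (l ^ m * z) (mul_mem_pow (pow_mem_pow hl _) hz)
    have h6 : φ (l ^ m * (x - D * z) * (x - D * z)) =
        φ (l ^ m * x * x) + φ (D * D * (l ^ m * z * z)) := by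
      rw [show l ^ m * (x - D * z) * (x - D * z) = l ^ m * x * x + D * D * (l ^ m * z * z) -
        D * x * (l ^ m * z) - D * x * (l ^ m * z) by ring, map_sub, map_sub, map_add, h5]
      ring
    rw [h6] at h2 h3
    rw [pow_succ] at h2 ⊢
    refine ⟨by linarith, fun h7 => ⟨z, hz, h3 ?_⟩⟩
    rw [h7, zero_add] at h2 ⊢
    have h8 : (-1 : ℝ) ^ i * φ (D * D * (l ^ m * z * z)) = 0 := by linarith
    exact (mul_eq_zero.1 h8).resolve_left (by simp)

theorem claim1 (h1 : (1 : R) ∈ V) (hfg : V.FG) {l D x : R} (hl : l ∈ V) (hD : D ∈ V) {j m : ℕ}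
    (hR : HRat V φ j m (l ^ m) l)
    (hL : ∀ i, i + 1 = j → HLat V (cutφ φ D) i (m + 1) (l ^ (m + 1)))
    (hR2 : ∀ i, i + 1 = j → HRat V (cutφ φ (D * D)) i m (l ^ m) l)
    (hx : x ∈ V ^ j) (hDx : OrthLT V φ (j + m) (D * x))
    (hu : ∃ u ∈ lowV V (j + m), Orth V φ j (l ^ m * x - D * u)) :
    ∃ z ∈ lowV V j, Orth V φ (j + m) (x - D * z) := by
  obtain ⟨u, hu, hu'⟩ := hu
  refine (claim2 h1 hfg hl hD hR hL hR2 hx hDx fun ζ hζ h0 => ?_).2 ?_
  · have h2 := hu' (l * ζ) (mul_lowV hl hζ)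
    have h3 := h0 (l * u) (mul_lowV hl hu)
    rw [show (l ^ m * x - D * u) * (l * ζ) = l ^ (m + 1) * x * ζ - D * ζ * (l * u) by ring,
      map_sub, h3, sub_zero] at h2
    exact h2
  · have h2 := hu' x hx
    have h3 := (orthLT_iff h1).1 hDx u hu
    rw [show (l ^ m * x - D * u) * x = l ^ m * x * x - D * x * u by ring, map_sub, h3,
      sub_zero] at h2
    exact h2

theorem hrat_of_nonneg (h1 : (1 : R) ∈ V) (hfg : V.FG) {k m : ℕ} {ω l : R} (hω : ω ∈ V ^ m)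
    (hl : l ∈ V) (hL : HLat V φ k m ω) (hlow : HLlow V φ k m (ω * l * l))
    (h : ∀ η ∈ V ^ k, OrthLT V φ k (ω * l * η) → 0 ≤ (-1) ^ k * φ (ω * η * η)) :
    HRat V φ k m ω l := by
  intro η hη hp
  refine ⟨h η hη hp, fun h0 => hL η hη fun x hx => ?_⟩
  obtain ⟨y, hy, hy'⟩ := dual (U1 := lowV V k) (U2 := lowV V k) (fg_lowV hfg k) φ (ω * l * l)
    (ω * l * x) (fun ζ hζ h2 => by
      rcases k with _ | i
      · rw [(Submodule.mem_bot ℝ).1 hζ, mul_zero, map_zero]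
      · have h3 := hlow i rfl ζ hζ h2 (ω * l * x)
          (mul_mem_pow' (mul_mem_pow hω (mem_pow_one hl)) hx (by omega))
        rwa [mul_comm] at h3)
  have hp' := (orthLT_iff h1).1 hp
  have hx' : x - l * y ∈ V ^ k := sub_mem hx (mul_lowV hl hy)
  have key : ∀ c : ℝ, 0 ≤ (-1) ^ k * φ (ω * (x - l * y) * (x - l * y)) +
      c * (2 * ((-1) ^ k * φ (ω * η * (x - l * y)))) := by
    intro c
    have h2 := h (x - l * y + c • η) (add_mem hx' (Submodule.smul_mem _ _ hη))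
      ((orthLT_iff h1).2 fun ζ hζ => by
        rw [show ω * l * (x - l * y + c • η) * ζ =
          (ω * l * x - ω * l * l * y) * ζ + c • (ω * l * η * ζ) by
            simp only [Algebra.smul_def]; ring, map_add, map_smul, hy' ζ hζ, hp' ζ hζ]
        simp)
    rw [show ω * (x - l * y + c • η) * (x - l * y + c • η) =
      ω * (x - l * y) * (x - l * y) + c • (ω * η * (x - l * y)) + c • (ω * η * (x - l * y)) +
        c • c • (ω * η * η) by simp only [Algebra.smul_def]; ring] at h2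
    simp only [map_add, map_smul, h0, smul_eq_mul] at h2
    linarith
  have h3 : 2 * ((-1) ^ k * φ (ω * η * (x - l * y))) = 0 := by
    generalize 2 * ((-1) ^ k * φ (ω * η * (x - l * y))) = b at key
    generalize (-1) ^ k * φ (ω * (x - l * y) * (x - l * y)) = a at key
    by_contra hb
    have h4 := key (-(a + 1) / b)
    rw [div_mul_cancel₀ _ hb] at h4
    linarith
  have h4 : φ (ω * η * (x - l * y)) = 0 :=
    (mul_eq_zero.1 ((mul_eq_zero.1 h3).resolve_left two_ne_zero)).resolve_left (by simp)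
  rw [show ω * η * (x - l * y) = ω * η * x - ω * l * η * y by ring, map_sub, hp' y hy,
    sub_zero] at h4
  exact h4

namespace Dual

variable {R0 : Type} [CommRing R0] [Algebra ℝ R0] {V0 : Submodule ℝ R0}

lemma rel_mul (ι : R0 →ₐ[ℝ] R) (I : Ideal R) {a b : R0} {a' b' : R} (ha : a' - ι a ∈ I)
    (hb : b' - ι b ∈ I) : a' * b' - ι (a * b) ∈ I := by
  rw [show a' * b' - ι (a * b) = b' * (a' - ι a) + ι a * (b' - ι b) by rw [map_mul]; ring]
  exact add_mem (I.mul_mem_left _ ha) (I.mul_mem_left _ hb)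

lemma rel_pow (ι : R0 →ₐ[ℝ] R) (I : Ideal R) {a : R0} {a' : R} (ha : a' - ι a ∈ I) (m : ℕ) :
    a' ^ m - ι (a ^ m) ∈ I := by
  induction m with
  | zero => simp
  | succ m ih => rw [pow_succ, pow_succ]; exact rel_mul ι I ih ha

lemma rel_up (ι : R0 →ₐ[ℝ] R) (I : Ideal R) (hV : ∀ v ∈ V0, ∃ v' ∈ V, v' - ι v ∈ I) {k : ℕ}
    {a : R0} (ha : a ∈ V0 ^ k) : ∃ a' ∈ V ^ k, a' - ι a ∈ I := by
  induction k generalizing a with
  | zero =>
    obtain ⟨c, rfl⟩ := mem_pow_zero_iff.1 ha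
    exact ⟨algebraMap ℝ R c, mem_pow_zero_iff.2 ⟨c, rfl⟩, by simp⟩
  | succ k ih =>
    refine pow_succ_induction (P := fun a => ∃ a' ∈ V ^ (k + 1), a' - ι a ∈ I) ?_ ?_ ha
    · intro v hv b hb
      obtain ⟨v', h2, h3⟩ := hV v hv
      obtain ⟨b', h4, h5⟩ := ih hb
      exact ⟨v' * b', mul_mem_pow' (mem_pow_one h2) h4 (by omega), rel_mul ι I h3 h5⟩
    · rintro a b ⟨a', h2, h3⟩ ⟨b', h4, h5⟩
      refine ⟨a' + b', add_mem h2 h4, ?_⟩
      rw [map_add, show a' + b' - (ι a + ι b) = a' - ι a + (b' - ι b) by ring]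
      exact add_mem h3 h5

lemma rel_down (ι : R0 →ₐ[ℝ] R) (I : Ideal R) (hV' : ∀ v' ∈ V, ∃ v ∈ V0, v' - ι v ∈ I) {k : ℕ}
    {a' : R} (ha : a' ∈ V ^ k) : ∃ a ∈ V0 ^ k, a' - ι a ∈ I := by
  induction k generalizing a' with
  | zero =>
    obtain ⟨c, rfl⟩ := mem_pow_zero_iff.1 ha
    exact ⟨algebraMap ℝ R0 c, mem_pow_zero_iff.2 ⟨c, rfl⟩, by simp⟩
  | succ k ih =>
    refine pow_succ_induction (P := fun a' => ∃ a ∈ V0 ^ (k + 1), a' - ι a ∈ I) ?_ ?_ ha
    · intro v' hv b' hb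
      obtain ⟨v, h2, h3⟩ := hV' v' hv
      obtain ⟨b, h4, h5⟩ := ih hb
      exact ⟨v * b, mul_mem_pow' (mem_pow_one h2) h4 (by omega), rel_mul ι I h3 h5⟩
    · rintro a' b' ⟨a, h2, h3⟩ ⟨b, h4, h5⟩
      refine ⟨a + b, add_mem h2 h4, ?_⟩
      rw [map_add, show a' + b' - (ι a + ι b) = a' - ι a + (b' - ι b) by ring]
      exact add_mem h3 h5

lemma wt_step [Nontrivial R] {N : ℕ} {Q : R[X]} {a : R} (ha : a ∈ V) (h : Wt V N Q) :
    Wt V (N + 1) ((X + C a) * Q) := by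
  obtain ⟨h1, h2, h3⟩ := h
  refine ⟨(monic_X_add_C a).mul h1, ?_, fun j => ?_⟩
  · rw [(monic_X_add_C a).natDegree_mul h1, natDegree_X_add_C, h2, add_comm]
  · rw [add_mul, coeff_add, coeff_C_mul]
    refine add_mem ?_ ?_
    · rcases j with _ | j
      · simp
      · rw [coeff_X_mul]
        simpa using h3 j
    · by_cases hj : j ≤ N
      · exact mul_mem_pow' (mem_pow_one ha) (h3 j) (by omega)
      · rw [coeff_eq_zero_of_natDegree_lt (by omega), mul_zero]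
        exact zero_mem _

lemma div_mem [Nontrivial R] {N k : ℕ} {Q η : R[X]} (hQ : Wt V N Q)
    (hη : η ∈ extV V ^ k) : η /ₘ Q ∈ extV V ^ (k - N) := by
  have hd : Q.degree = N := by rw [degree_eq_natDegree hQ.1.ne_zero, hQ.2.1]
  suffices H : ∀ m : ℕ, m ≤ k + 1 → ∀ η ∈ extV V ^ k, (∀ j, m ≤ j → η.coeff j = 0) →
      η /ₘ Q ∈ extV V ^ (k - N) from
    H (k + 1) le_rfl η hη fun j hj => (mem_extV_pow.1 hη j).2 hj
  intro m
  induction m with
  | zero =>
    intro _ η _ h0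
    obtain rfl : η = 0 := Polynomial.ext fun j => h0 j (Nat.zero_le _)
    rw [zero_divByMonic]; exact zero_mem _
  | succ m ih =>
    intro hm η hη h0
    by_cases hN : m < N
    · rw [(divByMonic_eq_zero_iff hQ.1).2]
      · exact zero_mem _
      · rw [hd, degree_lt_iff_coeff_zero]
        exact fun j hj => h0 j (by omega)
    · have hmem0 : C (η.coeff m) * X ^ (m - N) ∈ extV V ^ (k - N) := by
        refine C_mul_X_pow_mem (by omega) ?_
        rw [show k - N - (m - N) = k - m by omega]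
        exact (mem_extV_pow.1 hη m).1 (by omega)
      have hmem : C (η.coeff m) * X ^ (m - N) * Q ∈ extV V ^ k :=
        mul_mem_pow' (i := k - N) hmem0 hQ.mem (by omega)
      have hdiv : η /ₘ Q = (η - C (η.coeff m) * X ^ (m - N) * Q) /ₘ Q +
          C (η.coeff m) * X ^ (m - N) := by
        refine (div_modByMonic_unique _ ((η - C (η.coeff m) * X ^ (m - N) * Q) %ₘ Q) hQ.1
          ⟨?_, degree_modByMonic_lt _ hQ.1⟩).1
        rw [mul_add, ← add_assoc, modByMonic_add_div]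
        ring
      rw [hdiv]
      refine add_mem (ih (by omega) _ (sub_mem hη hmem) fun j hj => ?_) hmem0
      obtain ⟨i, rfl⟩ : ∃ i, j = i + (m - N) := ⟨j - (m - N), by omega⟩
      rw [coeff_sub, mul_assoc, coeff_C_mul, coeff_X_pow_mul]
      rcases hj.eq_or_lt with hj | hj
      · have hi : i = Q.natDegree := by rw [hQ.2.1]; omega
        rw [← hj, hi, hQ.1.coeff_natDegree, mul_one, sub_self]
      · rw [h0 _ hj, coeff_eq_zero_of_natDegree_lt (p := Q) (by rw [hQ.2.1]; omega), mul_zero,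
          sub_zero]

end Dual

theorem hru_transfer {R0 : Type} [CommRing R0] [Algebra ℝ R0] {V0 : Submodule ℝ R0}
    {φ0 : R0 →ₗ[ℝ] ℝ} {d : ℕ} (ι : R0 →ₐ[ℝ] R) (h0 : (1 : R0) ∈ V0) (h1 : (1 : R) ∈ V)
    (I : Ideal R) (hI : ∀ η ∈ I, φ η = 0) (hV : ∀ v ∈ V0, ∃ v' ∈ V, v' - ι v ∈ I)
    (hV' : ∀ v' ∈ V, ∃ v ∈ V0, v' - ι v ∈ I) {c : ℝ} (hc : 0 < c)
    (hφ : ∀ η ∈ V0 ^ d, φ (ι η) = c * φ0 η) {l0 : R0} {l : R} (hl0 : l0 ∈ V0) (hl1 : l ∈ V)
    (hl : l - ι l0 ∈ I) : HRu V0 φ0 d l0 ↔ HRu V φ d l := by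
  have hval : ∀ {i : ℕ} {a : R0} {a' : R}, i ≤ d → a ∈ V0 ^ i → a' - ι a ∈ I →
      φ a' = c * φ0 a := by
    intro i a a' hi ha hr
    have h2 := hI _ hr
    rw [map_sub, hφ a (mem_pow_of_le h0 hi ha)] at h2
    linarith
  have horth : ∀ {i j : ℕ} {a : R0} {a' : R}, i + j ≤ d → a ∈ V0 ^ i → a' - ι a ∈ I →
      (Orth V0 φ0 j a ↔ Orth V φ j a') := by
    intro i j a a' hij ha hr
    constructor
    · intro h ζ' hζ'
      obtain ⟨ζ, hζ, hr'⟩ := Dual.rel_down ι I hV' hζ'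
      rw [hval hij (mul_mem_pow ha hζ) (Dual.rel_mul ι I hr hr'), h ζ hζ, mul_zero]
    · intro h ζ hζ
      obtain ⟨ζ', hζ', hr'⟩ := Dual.rel_up ι I hV hζ
      have h2 := h ζ' hζ'
      rw [hval hij (mul_mem_pow ha hζ) (Dual.rel_mul ι I hr hr')] at h2
      exact (mul_eq_zero.1 h2).resolve_left hc.ne'
  have key : ∀ {k m : ℕ} {η : R0} {η' : R}, 2 * k + m = d → η ∈ V0 ^ k → η' - ι η ∈ I →
      ((OrthLT V0 φ0 k (l0 ^ m * l0 * η) →
        0 ≤ (-1) ^ k * φ0 (l0 ^ m * η * η) ∧ (φ0 (l0 ^ m * η * η) = 0 → Orth V0 φ0 (k + m) η)) ↔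
      (OrthLT V φ k (l ^ m * l * η') →
        0 ≤ (-1) ^ k * φ (l ^ m * η' * η') ∧ (φ (l ^ m * η' * η') = 0 → Orth V φ (k + m) η'))) := by
    intro k m η η' hkm hη hr
    have hm := Dual.rel_pow ι I hl m
    have e1 : OrthLT V0 φ0 k (l0 ^ m * l0 * η) ↔ OrthLT V φ k (l ^ m * l * η') := by
      refine forall₂_congr fun j hj => horth (i := m + 1 + k) (by omega)
        (mul_mem_pow (mul_mem_pow (pow_mem_pow hl0 m) (mem_pow_one hl0)) hη)
        (Dual.rel_mul ι I (Dual.rel_mul ι I hm hl) hr)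
    have e2 : φ (l ^ m * η' * η') = c * φ0 (l0 ^ m * η * η) :=
      hval (i := m + k + k) (by omega) (mul_mem_pow (mul_mem_pow (pow_mem_pow hl0 m) hη) hη)
        (Dual.rel_mul ι I (Dual.rel_mul ι I hm hr) hr)
    have e3 : Orth V0 φ0 (k + m) η ↔ Orth V φ (k + m) η' := horth (by omega) hη hr
    rw [e1, e2, e3, mul_left_comm, mul_nonneg_iff_of_pos_left hc, mul_eq_zero,
      or_iff_right hc.ne']
  constructor
  · intro h k m hkm η' hη'
    obtain ⟨η, hη, hr⟩ := Dual.rel_down ι I hV' hη'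
    exact (key hkm hη hr).1 (h k m hkm η hη)
  · intro h k m hkm η hη
    obtain ⟨η', hη', hr⟩ := Dual.rel_up ι I hV hη
    exact (key hkm hη hr).2 (h k m hkm η' hη')

/-- Constants may be dropped from the factors of a top degree product. -/
theorem shift {d : ℕ} (h1 : (1 : R) ∈ V) (hB : ∀ j < d, ∀ η ∈ V ^ j, φ η = 0) {κ : Type}
    (s : Finset κ) (a : κ → R) (c : κ → ℝ) (ha : ∀ i ∈ s, a i ∈ V) {q : ℕ} {P : R}
    (hP : P ∈ V ^ q) (hd : q + s.card = d) :
    φ (P * ∏ i ∈ s, (a i + algebraMap ℝ R (c i))) = φ (P * ∏ i ∈ s, a i) := by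
  classical
  induction s using Finset.induction_on generalizing q P with
  | empty => simp
  | insert i s hi ih =>
    rw [Finset.card_insert_of_notMem hi] at hd
    have ha' : ∀ x ∈ s, a x ∈ V := fun x hx => ha x (Finset.mem_insert_of_mem hx)
    have h2 := ih ha' (q := q + 1) (P := P * a i)
      (mul_mem_pow hP (mem_pow_one (ha i (Finset.mem_insert_self _ _)))) (by omega)
    have h3 : ∏ x ∈ s, (a x + algebraMap ℝ R (c x)) ∈ V ^ s.card := by
      have := prod_mem_pow (V := V) s (fun x => a x + algebraMap ℝ R (c x)) (fun _ => 1)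
        fun x hx => add_mem (mem_pow_one (ha' x hx)) (algebraMap_mem_pow h1 _ _)
      simpa using this
    have h4 := hB (q + s.card) (by omega) _ (mul_mem_pow hP h3)
    rw [Finset.prod_insert hi, Finset.prod_insert hi, ← mul_assoc P (a i), ← h2,
      show P * ((a i + algebraMap ℝ R (c i)) * ∏ x ∈ s, (a x + algebraMap ℝ R (c x))) =
        P * a i * ∏ x ∈ s, (a x + algebraMap ℝ R (c x)) +
          c i • (P * ∏ x ∈ s, (a x + algebraMap ℝ R (c x))) by
        rw [Algebra.smul_def]; ring, map_add, map_smul, h4, smul_zero, add_zero]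

theorem wt_prod [Nontrivial R] (h1 : (1 : R) ∈ V) {κ : Type} (s : Finset κ) (a : κ → R)
    (ha : ∀ i ∈ s, a i ∈ V) : Wt V s.card (∏ i ∈ s, (X + C (a i))) := by
  classical
  induction s using Finset.induction_on with
  | empty =>
    rw [Finset.prod_empty, Finset.card_empty]
    refine ⟨monic_one, natDegree_one, fun j => ?_⟩
    rw [coeff_one]
    split_ifs
    · exact one_mem_pow h1 _
    · exact zero_mem _
  | insert i s hi ih =>
    rw [Finset.prod_insert hi, Finset.card_insert_of_notMem hi]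
    exact Dual.wt_step (ha i (Finset.mem_insert_self _ _))
      (ih fun x hx => ha x (Finset.mem_insert_of_mem hx))

theorem wt_of_mul [Nontrivial R] (h1 : (1 : R) ∈ V) {N M : ℕ} {Q Q' : R[X]} (hQ : Wt V N Q)
    (hm : Q'.Monic) (h : Wt V (N + M) (Q * Q')) : Wt V M Q' := by
  have h2 : Q'.natDegree = M := by
    have := h.2.1
    rw [hQ.1.natDegree_mul hm, hQ.2.1] at this
    omega
  have h3 := Dual.div_mem hQ h.mem
  rw [mul_divByMonic_cancel_left _ hQ.1, Nat.add_sub_cancel_left] at h3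
  refine ⟨hm, h2, fun j => ?_⟩
  by_cases hj : j ≤ M
  · exact (mem_extV_pow.1 h3 j).1 hj
  · rw [(mem_extV_pow.1 h3 j).2 (by omega)]
    exact zero_mem _

theorem div_mem_extV_pow [Nontrivial R] {N k : ℕ} {Q η : R[X]} (hQ : Wt V N Q)
    (hη : η ∈ extV V ^ k) : η /ₘ Q ∈ extV V ^ (k - N) ∧ (k < N → η /ₘ Q = 0) := by
  refine ⟨Dual.div_mem hQ hη, fun hk => ?_⟩
  have hd : Q.degree = N := by rw [degree_eq_natDegree hQ.1.ne_zero, hQ.2.1]
  rw [divByMonic_eq_zero_iff hQ.1, hd, degree_lt_iff_coeff_zero]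
  exact fun j hj => (mem_extV_pow.1 hη j).2 (by omega)

end G94
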