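import Pool.Agent.P.MP_740b33_co.StmtW
import Pool.Agent.P.MP_740b33_co.Defs

/-! Package D1: existence of the expansion of `C_m(M)` and the formula for its coefficients. -/

namespace G94

open H40M Polynomial

namespace ExtW

/-- The variable of the last entry of an ordering. -/
noncomputable def lastT {n : ℕ} (w : Equiv.Perm (Fin n)) : Ex.TR n :=
  ∏ k ∈ Finset.univ.filter (fun k : Fin n => (k : ℕ) + 1 = n), MvPolynomial.X (w k)

lemma rename_lastT (r : ℕ) {n : ℕ} (w : Equiv.Perm (Fin n)) :
    MvPolynomial.rename Sum.inr (lastT w) = lastVar r w := by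
  simp only [lastT, lastVar, map_prod, MvPolynomial.rename_X]
  refine Finset.prod_equiv w ?_ ?_
  · intro k
    simp only [Finset.mem_filter, Finset.mem_univ, true_and, Equiv.symm_apply_apply]
  · intro k _
    rfl

lemma idn_lastT {n : ℕ} (a b : Fin n) (w : Equiv.Perm (Fin n)) :
    Ex.idn a b (lastT (Equiv.swap a b * w)) = Ex.idn a b (lastT w) := by
  simp only [lastT, map_prod, Equiv.Perm.mul_apply, Ex.idn_X_swap]

lemma ev_lastVar (r : ℕ) {N : ℕ} (t : Fin (N + 1) → ℝ) (w : Equiv.Perm (Fin (N + 1))) :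
    Xtr.ev r t (lastVar r w) = MvPolynomial.C (t (w (Fin.last N))) := by
  have h : Finset.univ.filter (fun k : Fin (N + 1) => (k : ℕ) + 1 = N + 1) = {Fin.last N} := by
    ext k
    simp only [Finset.mem_filter, Finset.mem_univ, true_and, Finset.mem_singleton, Fin.ext_iff,
      Fin.val_last]
    omega
  rw [← rename_lastT, lastT, h, Finset.prod_singleton, MvPolynomial.rename_X, Xtr.ev_inr]

end ExtW

open Ex Finset ExtW in
theorem exists_expW {n r : ℕ} (m : ℕ) (M : Matroid (Fin n)) (hr : M.eRank = r) :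
    ∃ d, IsExpW r m M d := by
  classical
  obtain ⟨e, he, hφ⟩ := exists_coef n
  have hcard : ∀ w, ((lexBasis M w)ᶜ).card + r = n := by
    intro w
    have := card_compl_add_card (lexBasis M w)
    rwa [card_lexBasis M hr, Fintype.card_fin] at this
  let ι : TR n →+* KR r n := (algebraMap (PR r n) (KR r n)).comp
    (MvPolynomial.rename (R := ℤ) (Sum.inr : Fin n → Fin r ⊕ Fin n) : TR n →+* PR r n)
  have hιa : ∀ a, ι a = algebraMap (PR r n) (KR r n) (MvPolynomial.rename Sum.inr a) :=
    fun _ => rfl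
  have hι : Function.Injective ι :=
    (IsFractionRing.injective (PR r n) (KR r n)).comp
      (MvPolynomial.rename_injective _ Sum.inr_injective)
  have hp : ∀ μ : Fin r → ℕ, ∃ p, ∑ w, ι (lastT w ^ m * ∏ c : Fin r,
      e (μ c) (gp (lexBasis M w)ᶜ * Polynomial.X ^ (c.rev : ℕ))) / ι (den w) = ι p := by
    intro μ
    refine exists_poly ι hι _ ?_
    intro a b w _ hadj
    rw [map_mul, map_mul, map_pow, map_pow, idn_lastT, map_prod, map_prod]
    congr 1
    refine prod_congr rfl fun c _ => hφ (idn a b : TR n →+* TR n) _ _ _ ?_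
    rw [Polynomial.map_mul, Polynomial.map_mul, gp_map]
    · have h1 := hcard w
      have h2 := hcard (Equiv.swap a b * w)
      omega
    · intro x ha hb
      rw [mem_compl, mem_compl, mem_lexBasis_swap M hadj ha hb]
  choose p hp using hp
  have hz : ∀ μ : Fin r → ℕ, ∃ z : (Fin r → ℕ) → ℤ, (∀ c, μ c < n) →
      Matrix.det (Matrix.of fun i c : Fin r => fpow n i (μ c)) = ∑ lam ∈ box r n, (z lam : PR r n) *
        Matrix.det (Matrix.of fun i j : Fin r => fpow n i (lam j + (r - 1 - j))) := by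
    intro μ
    by_cases h : ∀ c, μ c < n
    · obtain ⟨z, hz⟩ := det_span (fun i m => fpow n i m) μ h
      exact ⟨z, fun _ => hz⟩
    · exact ⟨0, fun h' => absurd h' h⟩
  choose z hz using hz
  refine ⟨fun lam => ∑ μ ∈ Fintype.piFinset (fun _ : Fin r => range n), p μ * (z μ lam : TR n), ?_⟩
  set V : PR r n := ∏ i : Fin r, ∏ j ∈ Ioi i,
    (MvPolynomial.X (Sum.inl i) - MvPolynomial.X (Sum.inl j)) with hV
  have hV0 : algebraMap (PR r n) (KR r n) V ≠ 0 := by
    rw [map_ne_zero_iff _ (IsFractionRing.injective (PR r n) (KR r n)), hV, prod_ne_zero_iff]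
    intro i _
    rw [prod_ne_zero_iff]
    intro j hj
    rw [sub_ne_zero]
    intro h
    exact (mem_Ioi.1 hj).ne (Sum.inl_injective (MvPolynomial.X_injective h))
  have hden : ∀ w, algebraMap (PR r n) (KR r n) (denom r w) = ι (den w) := by
    intro w
    rw [hιa]
    simp only [denom, den, map_prod, map_sub, MvPolynomial.rename_X]
  have hlast : ∀ w, algebraMap (PR r n) (KR r n) (lastVar r w) = ι (lastT w) := by
    intro w
    rw [hιa, rename_lastT]
  have h1 : chowW r m M = ∑ μ ∈ Fintype.piFinset (fun _ : Fin r => range n), ι (p μ) *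
      (algebraMap (PR r n) (KR r n) (Matrix.det (Matrix.of fun i c : Fin r => fpow n i (μ c))) /
        algebraMap (PR r n) (KR r n) V) := by
    simp only [← hp, sum_mul]
    rw [sum_comm, chowW]
    refine sum_congr rfl fun w _ => ?_
    have h2 := congrArg (algebraMap (PR r n) (KR r n)) (alt_expand e he _ (hcard w))
    rw [map_mul, ← hV, map_sum, ← eq_div_iff hV0] at h2
    rw [map_mul, map_pow, hlast, h2, hden, sum_div, mul_sum, sum_div]
    refine sum_congr rfl fun μ _ => ?_
    rw [map_mul, ← hιa, map_mul ι, map_pow ι]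
    ring
  rw [IsExpW, h1]
  simp only [← hιa, map_sum, sum_mul]
  rw [sum_comm]
  refine sum_congr rfl fun μ hμ => ?_
  rw [hz μ (fun c => mem_range.1 (Fintype.mem_piFinset.1 hμ c)), map_sum, sum_div, mul_sum]
  refine sum_congr rfl fun lam _ => ?_
  rw [dschur, ← hV, map_mul, map_mul, map_intCast, map_intCast]
  ring

open Xtr ExtW in
theorem extractW {N r m : ℕ} (M : Matroid (Fin (N + 1))) (hr : M.eRank = r)
    {d : (Fin r → ℕ) → MvPolynomial (Fin (N + 1)) ℤ} (hd : IsExpW r m M d) {lam : Fin r → ℕ}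
    (hlam : lam ∈ box r (N + 1)) {t : Fin (N + 1) → ℝ} (ht : Function.Injective t) :
    MvPolynomial.aeval t (d lam) = (-1) ^ (∑ a : Fin r, (a : ℕ)) *
      ∑ w : Equiv.Perm (Fin (N + 1)), t (w (Fin.last N)) ^ m *
        Matrix.det (Matrix.of fun a c : Fin r =>
          push r (∏ b ∈ greedy (rkFun M) w, (X + C (t b)))
            (tailP t (lam a + (r - 1 - a)) * X ^ (c : ℕ))) / ∏ S ∈ inis w, xs t S w := by
  have hcard : ∀ w, (greedy (rkFun M) w).card = r := fun w => by
    rw [(isRk_rkFun M).card_greedy, rkFun_univ M hr]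
  have hrn : r ≤ N + 1 := by
    have := Finset.card_le_univ (greedy (rkFun M) 1)
    rwa [hcard, Fintype.card_fin] at this
  have hδ : ∀ w, ∏ S ∈ inis w, xs t S w ≠ 0 := fun w =>
    Finset.prod_ne_zero_iff.2 fun S hS => xs_ne_zero ht hS
  have hD : ∀ w : Equiv.Perm (Fin (N + 1)), denom r w ≠ 0 := by
    intro w h0
    have := aeval_denom r (fun _ => 0) t w
    rw [h0, map_zero] at this
    exact hδ w this.symm
  have hV : (∏ i : Fin r, ∏ j ∈ Finset.Ioi i,
      (MvPolynomial.X (Sum.inl i) - MvPolynomial.X (Sum.inl j)) : PR r (N + 1)) ≠ 0 := by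
    refine Finset.prod_ne_zero_iff.2 fun i _ => Finset.prod_ne_zero_iff.2 fun j hj => ?_
    rw [sub_ne_zero]
    intro h
    have := Sum.inl_injective (MvPolynomial.X_injective h)
    exact (Finset.mem_Ioi.1 hj).ne this
  have h1 := clear _ _ _ _ _ _ hD hV hd
  have h2 := congrArg
    (fun p => tens (fun a : Fin r => push (sh lam a + 1) (pS t (fS (N + 1) (sh lam a + 1))))
      (ev r t p)) h1
  simp only [map_sum] at h2
  have hL : ∀ w : Equiv.Perm (Fin (N + 1)),
      tens (fun a : Fin r => push (sh lam a + 1) (pS t (fS (N + 1) (sh lam a + 1))))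
        (ev r t ((∏ w' ∈ Finset.univ.erase w, denom r w') *
          ((lastVar r w ^ m * ∏ j ∈ (lexBasis M w)ᶜ, ∏ i : Fin r,
            (MvPolynomial.X (Sum.inr j) + MvPolynomial.X (Sum.inl i))) *
          ∏ i : Fin r, ∏ j ∈ Finset.Ioi i,
            (MvPolynomial.X (Sum.inl i) - MvPolynomial.X (Sum.inl j))))) =
      (∏ w, ∏ S ∈ inis w, xs t S w) * ((-1) ^ (∑ a : Fin r, (a : ℕ)) *
        (t (w (Fin.last N)) ^ m *
          Matrix.det (Matrix.of fun a c : Fin r => push r (∏ b ∈ greedy (rkFun M) w, (X + C (t b)))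
          (tailP t (lam a + (r - 1 - a)) * X ^ (c : ℕ))) / ∏ S ∈ inis w, xs t S w)) := by
    intro w
    rw [mul_assoc (lastVar r w ^ m), map_mul, map_mul (ev r t) (lastVar r w ^ m), ev_num,
      map_pow (ev r t), ev_lastVar, ← map_pow, map_prod]
    simp only [ev_denom]
    rw [← map_prod, tens_C_mul, tens_C_mul, tens_C_mul, tens_det, lexBasis_eq]
    have h3 : (Matrix.of fun a c : Fin r => push (sh lam a + 1) (pS t (fS (N + 1) (sh lam a + 1)))
        (pS t (greedy (rkFun M) w)ᶜ * X ^ (c : ℕ))) =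
        Matrix.of fun a c : Fin r => push r (∏ b ∈ greedy (rkFun M) w, (X + C (t b)))
          (tailP t (lam a + (r - 1 - a)) * X ^ (c : ℕ)) := by
      ext1 a c
      have ha := a.2
      rw [Matrix.of_apply, Matrix.of_apply,
        push_move t (sh_lt hrn hlam a) (by rw [hcard]; omega), hcard]
      rfl
    rw [h3, ← Finset.mul_prod_erase _ _ (Finset.mem_univ w)]
    have := hδ w
    field_simp
  have hR : ∀ mu ∈ box r (N + 1),
      tens (fun a : Fin r => push (sh lam a + 1) (pS t (fS (N + 1) (sh lam a + 1))))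
        (ev r t ((∏ w : Equiv.Perm (Fin (N + 1)), denom r w) * (MvPolynomial.rename Sum.inr (d mu) *
          Matrix.det (Matrix.of fun i j : Fin r => fpow (N + 1) i (mu j + (r - 1 - j)))))) =
      (∏ w, ∏ S ∈ inis w, xs t S w) *
        (if lam = mu then MvPolynomial.aeval t (d mu) else 0) := by
    intro mu hmu
    rw [map_mul (ev r t), map_mul (ev r t), ev_det, ev_rename, map_prod (ev r t)]
    simp only [ev_denom]
    rw [← map_prod, tens_C_mul, tens_C_mul, tens_det]
    simp only [push_entry t (sh_lt hrn hlam _)]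
    rw [det_ind (sh_anti hlam) (sh_anti hmu)]
    simp only [sh_inj, mul_ite, mul_one, mul_zero]
  rw [Finset.sum_congr rfl fun w _ => hL w, Finset.sum_congr rfl hR, ← Finset.mul_sum,
    ← Finset.mul_sum, ← Finset.mul_sum, Finset.sum_ite_eq, if_pos hlam] at h2
  exact (mul_left_cancel₀ (Finset.prod_ne_zero_iff.2 fun w _ => hδ w) h2).symm

end G94
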