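import Pool.Agent.P.MP_740b33_co.Cut

/-! Package B1: classes of piecewise linear functions, convexity, the system of a fan. -/

namespace G94

open H40M Polynomial

namespace Fan

variable {F : Fan}

lemma cl_add (f g : F.Ray → ℝ) (ξ : F.Ξ) : F.cl (f + g) ξ = F.cl f ξ + F.cl g ξ := by
  funext σ; simp [cl, add_mul, Finset.sum_add_distrib]

lemma cl_smul (c : ℝ) (f : F.Ray → ℝ) (ξ : F.Ξ) : F.cl (c • f) ξ = c • F.cl f ξ := by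
  funext σ; simp [cl, Finset.mul_sum, mul_assoc]

lemma cl_neg (f : F.Ray → ℝ) (ξ : F.Ξ) : F.cl (-f) ξ = -F.cl f ξ := by
  funext σ; simp [cl]

lemma cl_sub (f g : F.Ray → ℝ) (ξ : F.Ξ) : F.cl (f - g) ξ = F.cl f ξ - F.cl g ξ := by
  funext σ; simp [cl, sub_mul, Finset.sum_sub_distrib]

lemma cl_zero (ξ : F.Ξ) : F.cl 0 ξ = 0 := by
  funext σ; simp [cl]

lemma cl_sum {κ : Type} (s : Finset κ) (f : κ → F.Ray → ℝ) (ξ : F.Ξ) :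
    F.cl (∑ i ∈ s, f i) ξ = ∑ i ∈ s, F.cl (f i) ξ := by
  classical
  induction s using Finset.induction_on with
  | empty => simpa using cl_zero ξ
  | insert a s ha ih => rw [Finset.sum_insert ha, Finset.sum_insert ha, cl_add, ih]

lemma cl_eq_sum (f : F.Ray → ℝ) (ξ : F.Ξ) : F.cl f ξ = ∑ ρ, f ρ • F.xr ρ ξ := by
  funext σ; simp [cl, xr, Finset.sum_apply]

lemma one_mem_V (ξ : F.Ξ) : (1 : F.Cn → ℝ) ∈ F.V ξ := (F.sys ξ).one_mem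

lemma fg_V (ξ : F.Ξ) : (F.V ξ).FG := (F.sys ξ).fg

lemma xr_mem (ρ : F.Ray) (ξ : F.Ξ) : F.xr ρ ξ ∈ F.V ξ :=
  Submodule.subset_span (Set.mem_insert_of_mem _ ⟨ρ, rfl⟩)

lemma cl_mem (f : F.Ray → ℝ) (ξ : F.Ξ) : F.cl f ξ ∈ F.V ξ := by
  rw [cl_eq_sum]
  exact sum_mem fun ρ _ => Submodule.smul_mem _ _ (xr_mem ρ ξ)

lemma one_mem_VP : (1 : F.Ξ → F.Cn → ℝ) ∈ F.VP := Submodule.subset_span (Set.mem_insert _ _)

lemma cl_mem_VP (f : F.Ray → ℝ) : F.cl f ∈ F.VP := by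
  have h : F.cl f = ∑ ρ, f ρ • F.xr ρ := by
    funext ξ σ; simp [cl, xr, Finset.sum_apply]
  rw [h]
  exact sum_mem fun ρ _ => Submodule.smul_mem _ _
    (Submodule.subset_span (Set.mem_insert_of_mem _ ⟨ρ, rfl⟩))

lemma cl_lin (m : F.Ξ →ₗ[ℝ] ℝ) (ξ : F.Ξ) : F.cl (F.lin m) ξ = algebraMap ℝ _ (m ξ) := by
  funext σ
  conv_rhs => rw [← F.sum_x σ ξ]
  simp [cl, lin, mul_comm]

lemma cl_congr {f g : F.Ray → ℝ} {σ : F.Cn} (h : ∀ ρ ∈ F.rays σ, f ρ = g ρ) (ξ : F.Ξ) :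
    F.cl f ξ σ = F.cl g ξ σ := by
  refine Finset.sum_congr rfl fun ρ _ => ?_
  by_cases hρ : ρ ∈ F.rays σ
  · rw [h ρ hρ]
  · simp [F.x_out σ ρ hρ]

lemma Z.cl {g : F.Ray → ℝ} {σ : F.Cn} (h : F.Z g σ) (ξ : F.Ξ) : F.cl g ξ σ = 0 :=
  (cl_congr (g := 0) h ξ).trans (congrFun (cl_zero ξ) σ)

lemma cl_ray (f : F.Ray → ℝ) {σ : F.Cn} {ρ : F.Ray} (h : ρ ∈ F.rays σ) :
    F.cl f (F.v ρ) σ = f ρ := by
  simp [cl, F.x_v σ _ ρ h]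

lemma mem_V {ξ : F.Ξ} {η : F.Cn → ℝ} :
    η ∈ F.V ξ ↔ ∃ (c : ℝ) (f : F.Ray → ℝ), η = algebraMap ℝ _ c + F.cl f ξ := by
  rw [V, Submodule.mem_span_insert]
  constructor
  · rintro ⟨c, z, hz, rfl⟩
    obtain ⟨f, rfl⟩ := (Submodule.mem_span_range_iff_exists_fun ℝ).1 hz
    exact ⟨c, f, by rw [cl_eq_sum, Algebra.algebraMap_eq_smul_one]⟩
  · rintro ⟨c, f, rfl⟩
    exact ⟨c, F.cl f ξ, (Submodule.mem_span_range_iff_exists_fun ℝ).2 ⟨f, (cl_eq_sum f ξ).symm⟩,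
      by rw [Algebra.algebraMap_eq_smul_one]⟩

lemma wt_ne_zero {ξ : F.Ξ} (h : F.Gen ξ) (σ : F.Cn) : F.wt ξ σ ≠ 0 :=
  div_ne_zero (F.μ_pos σ).ne' (Finset.prod_ne_zero_iff.2 (h σ))

lemma φ_apply (ξ : F.Ξ) (η : F.Cn → ℝ) : F.φ ξ η = ∑ σ, F.wt ξ σ * η σ := rfl

lemma Conv.add {f g : F.Ray → ℝ} (hf : F.Conv f) (hg : F.Conv g) : F.Conv (f + g) :=
  fun σ ρ => by rw [cl_add]; exact add_le_add (hf σ ρ) (hg σ ρ)

lemma Conv.smul {f : F.Ray → ℝ} (hf : F.Conv f) {c : ℝ} (hc : 0 ≤ c) : F.Conv (c • f) :=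
  fun σ ρ => by rw [cl_smul]; exact mul_le_mul_of_nonneg_left (hf σ ρ) hc

lemma conv_zero : F.Conv 0 := fun σ ρ => by rw [cl_zero]; exact le_rfl

lemma conv_lin (m : F.Ξ →ₗ[ℝ] ℝ) : F.Conv (F.lin m) := fun σ ρ => by rw [cl_lin]; exact le_rfl

lemma conv_neg_lin (m : F.Ξ →ₗ[ℝ] ℝ) : F.Conv (-F.lin m) := conv_lin (-m)

lemma conv_sum {κ : Type} (s : Finset κ) {f : κ → F.Ray → ℝ} (h : ∀ i ∈ s, F.Conv (f i)) :
    F.Conv (∑ i ∈ s, f i) :=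
  Finset.sum_induction f F.Conv (fun _ _ => Conv.add) conv_zero h

/-- A maximum of convex functions, attained by one of them on each cone, is convex. -/
lemma conv_max {κ : Type} {f : κ → F.Ray → ℝ} {g : F.Ray → ℝ} (top : F.Cn → κ)
    (hf : ∀ σ, F.Conv (f (top σ))) (hle : ∀ σ ρ, f (top σ) ρ ≤ g ρ)
    (heq : ∀ σ, ∀ ρ ∈ F.rays σ, g ρ = f (top σ) ρ) : F.Conv g :=
  fun σ ρ => ((cl_congr (heq σ) _).trans_le (hf σ σ ρ)).trans (hle σ ρ)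

lemma SConv.conv {l : F.Ray → ℝ} (h : F.SConv l) : F.Conv l := fun σ ρ => by
  by_cases hρ : ρ ∈ F.rays σ
  · exact (cl_ray l hρ).le
  · exact (h.1 σ ρ hρ).le

/-- A large multiple of a strictly convex function dominates any function. -/
lemma SConv.dom {l : F.Ray → ℝ} (h : F.SConv l) (f : F.Ray → ℝ) :
    ∃ K : ℝ, 0 < K ∧ ∀ K', K ≤ K' → F.SConv (K' • l + f) := by
  have key : ∀ a b : ℝ, 0 < a → ∀ᶠ K : ℝ in Filter.atTop, b < K * a := fun a b ha =>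
    (Filter.tendsto_id.atTop_mul_const ha).eventually_gt_atTop b
  have h1 : ∀ᶠ K : ℝ in Filter.atTop, ∀ σ ρ, ρ ∉ F.rays σ →
      F.cl (K • l + f) (F.v ρ) σ < (K • l + f) ρ := by
    refine Filter.eventually_all.2 fun σ => Filter.eventually_all.2 fun ρ => ?_
    by_cases hρ : ρ ∈ F.rays σ
    · exact Filter.Eventually.of_forall fun K h' => absurd hρ h'
    · filter_upwards [key _ (F.cl f (F.v ρ) σ - f ρ) (sub_pos.2 (h.1 σ ρ hρ))] with K hK _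
      rw [cl_add, cl_smul]
      simp only [Pi.add_apply, Pi.smul_apply, smul_eq_mul]
      linarith
  have h2 : ∀ᶠ K : ℝ in Filter.atTop, ∀ ρ, 0 < (K • l + f) ρ := by
    refine Filter.eventually_all.2 fun ρ => ?_
    filter_upwards [key _ (-f ρ) (h.2 ρ)] with K hK
    simp only [Pi.add_apply, Pi.smul_apply, smul_eq_mul]
    linarith
  obtain ⟨K, hK⟩ := Filter.eventually_atTop.1 (h1.and h2)
  exact ⟨max K 1, lt_max_of_lt_right one_pos, fun K' hK' => hK K' ((le_max_left _ _).trans hK')⟩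

lemma sys_φ0 (ξ : F.Ξ) : (F.sys ξ).φ F.face0 = F.φ ξ := by
  change cutφ (F.φ ξ) (∏ ρ ∈ (∅ : Finset F.Ray), F.xr ρ ξ) = _
  rw [Finset.prod_empty, cutφ_one]

lemma sys_d0 (ξ : F.Ξ) : (F.sys ξ).d F.face0 = F.d := rfl

lemma eff_nn (ξ : F.Ξ) (τ : F.Face) {g : F.Ray → ℝ} (hg : F.NN g) (h0 : ∀ ρ ∈ τ.1, g ρ = 0) :
    (F.sys ξ).Eff τ (F.cl g ξ) := by
  rw [cl_eq_sum]
  refine Sys.Eff.sum _ _ fun ρ _ => ?_
  by_cases h1 : ρ ∈ τ.1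
  · rw [h0 ρ h1, zero_smul]
    exact Sys.Eff.zero _
  by_cases h2 : ∃ σ, insert ρ τ.1 ⊆ F.rays σ
  · obtain ⟨σ, hσ⟩ := h2
    exact Sys.Eff.smul (hg σ ρ (hσ (Finset.mem_insert_self _ _)))
      (Sys.Eff.step (j := ⟨insert ρ τ.1, σ, hσ⟩) ⟨ρ, h1, rfl, rfl⟩)
  refine Sys.Eff.null (Submodule.smul_mem _ _ (xr_mem ρ ξ)) fun j _ ζ _ => ?_
  have h3 : ∏ ρ' ∈ insert ρ τ.1, F.xr ρ' ξ = 0 := by
    funext σ
    obtain ⟨ρ', h4, h5⟩ := Finset.not_subset.1 fun h => h2 ⟨σ, h⟩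
    rw [Finset.prod_apply]
    exact Finset.prod_eq_zero h4 (by simp [xr, F.x_out σ ρ' h5])
  change F.φ ξ ((∏ ρ' ∈ τ.1, F.xr ρ' ξ) * (g ρ • F.xr ρ ξ * ζ)) = 0
  rw [Finset.prod_insert h1] at h3
  rw [smul_mul_assoc, mul_smul_comm, ← mul_assoc, mul_comm _ (F.xr ρ ξ), h3, zero_mul, smul_zero,
    map_zero]

lemma eff_const (hB : F.Bal) {ξ : F.Ξ} (hξ : F.Gen ξ) (c : ℝ) :
    GN (F.sys ξ) (algebraMap ℝ _ c) := by
  intro τ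
  have hc : algebraMap ℝ (F.Cn → ℝ) c ∈ F.V ξ ^ 0 := mem_pow_zero_iff.2 ⟨c, rfl⟩
  refine Sys.Eff.null (mem_V.2 ⟨c, 0, by rw [cl_zero, add_zero]⟩) fun j hj ζ hζ => ?_
  have h1 : ∏ ρ ∈ τ.1, F.xr ρ ξ ∈ F.V ξ ^ (∑ _ρ ∈ τ.1, 1) :=
    prod_mem_pow _ _ _ fun ρ _ => mem_pow_one (xr_mem ρ ξ)
  rw [Finset.sum_const, smul_eq_mul, mul_one] at h1
  change j < F.d - τ.1.card at hj
  exact hB ξ hξ (τ.1.card + (0 + j)) (by omega) _ (mul_mem_pow h1 (mul_mem_pow hc hζ))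

lemma gn_conv (hB : F.Bal) {ξ : F.Ξ} (hξ : F.Gen ξ) {f : F.Ray → ℝ} (hf : F.Conv f) :
    GN (F.sys ξ) (F.cl f ξ) := by
  intro τ
  obtain ⟨σ, hσ⟩ := τ.2
  let m : F.Ξ →ₗ[ℝ] ℝ := ∑ ρ, f ρ • F.x σ ρ
  have hm : ∀ ρ, F.lin m ρ = F.cl f (F.v ρ) σ := fun ρ => by
    simp [m, lin, cl, LinearMap.sum_apply]
  have h1 : F.cl f ξ = F.cl (f - F.lin m) ξ + algebraMap ℝ _ (m ξ) := by
    rw [cl_sub, cl_lin, sub_add_cancel]
  rw [h1]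
  refine (eff_nn ξ τ (fun _ ρ _ => ?_) fun ρ hρ => ?_).add (eff_const hB hξ _ τ)
  · rw [Pi.sub_apply, hm]
    exact sub_nonneg.2 (hf σ ρ)
  · rw [Pi.sub_apply, hm, cl_ray f (hσ hρ), sub_self]

lemma amp_sconv (hB : F.Bal) {ξ : F.Ξ} (hξ : F.Gen ξ) {l : F.Ray → ℝ} (hl : F.SConv l)
    (τ : F.Face) : (F.sys ξ).Amp τ (F.cl l ξ) := by
  intro τ' _ v hv
  obtain ⟨c, f, rfl⟩ := mem_V.1 hv
  obtain ⟨K, hK, h⟩ := hl.dom f
  refine ⟨K⁻¹, inv_pos.2 hK, ?_⟩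
  have h1 : F.cl l ξ + K⁻¹ • (algebraMap ℝ _ c + F.cl f ξ) =
      K⁻¹ • (F.cl (K • l + f) ξ + algebraMap ℝ _ c) := by
    rw [cl_add, cl_smul, smul_add, smul_add, smul_add, smul_smul, inv_mul_cancel₀ hK.ne', one_smul]
    ring
  rw [h1]
  exact ((gn_conv hB hξ (h K le_rfl).conv τ').add (eff_const hB hξ c τ')).smul (inv_pos.2 hK).le

lemma Good.lef (hF : F.Good) {ξ : F.Ξ} (hξ : F.Gen ξ) {l : F.Ray → ℝ} (hl : F.SConv l) :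
    (F.sys ξ).Lef (F.cl l ξ) := ⟨amp_sconv hF.bal hξ hl, hF.hr ξ hξ⟩

lemma Good.top_pos (hF : F.Good) {ξ : F.Ξ} (hξ : F.Gen ξ) {l : F.Ray → ℝ} (hl : F.SConv l) :
    0 < F.φ ξ (F.cl l ξ ^ F.d) := by
  have h := (hF.hr ξ hξ F.face0).hru (amp_sconv hF.bal hξ hl F.face0) 0 F.d (by simp [sys_d0]) 1
    one_mem_pow_zero (orthLT_zero _)
  rw [sys_φ0, mul_one, mul_one, pow_zero, one_mul] at h
  refine h.1.lt_of_ne fun h0 => ?_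
  obtain ⟨σ⟩ := F.ne
  have h1 : ∏ ρ ∈ F.rays σ, F.xr ρ ξ ∈ F.V ξ ^ (∑ _ρ ∈ F.rays σ, 1) :=
    prod_mem_pow _ _ _ fun ρ _ => mem_pow_one (xr_mem ρ ξ)
  rw [Finset.sum_const, smul_eq_mul, mul_one, F.card_rays, ← zero_add F.d] at h1
  have h2 := h.2 h0.symm _ h1
  have h3 : ∀ σ', F.wt ξ σ' * (∏ ρ ∈ F.rays σ, F.xr ρ ξ) σ' =
      if F.rays σ = F.rays σ' then F.μ σ' else 0 := by
    intro σ'
    rw [Finset.prod_apply]
    split_ifs with h4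
    · rw [h4]
      exact div_mul_cancel₀ _ (Finset.prod_ne_zero_iff.2 (hξ σ'))
    · obtain ⟨ρ, h5, h6⟩ := Finset.not_subset.1 fun h5 : F.rays σ ⊆ F.rays σ' =>
        h4 (Finset.eq_of_subset_of_card_le h5 (by rw [F.card_rays, F.card_rays]))
      rw [Finset.prod_eq_zero h5 (by simp [xr, F.x_out σ' ρ h6]), mul_zero]
  rw [one_mul, φ_apply, Finset.sum_congr rfl fun σ' _ => h3 σ'] at h2
  refine absurd h2 (Finset.sum_pos' (fun σ' _ => ?_) ⟨σ, Finset.mem_univ _, ?_⟩).ne'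
  · split_ifs
    exacts [(F.μ_pos _).le, le_rfl]
  · rw [if_pos rfl]
    exact F.μ_pos σ

lemma Good.cutOK_one (hF : F.Good) : F.CutOK 1 0 := by
  intro ξ hξ
  obtain ⟨l, hl⟩ := hF.amp
  refine ⟨one_mem_pow_zero, fun _ => ⟨F.sys ξ, F.face0, F.cl l ξ, hF.lef hξ hl, rfl, ?_, rfl,
    fun g hg => gn_conv hF.bal hξ hg, fun g hg => eff_nn ξ _ hg fun ρ hρ => ?_⟩⟩
  · rw [sys_φ0]
    exact (cutφ_one _).symm
  · exact absurd hρ (Finset.notMem_empty ρ)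

end Fan

/-- The fan of a point. -/
def point : Fan where
  Ξ := Unit
  Ray := Empty
  Cn := Unit
  d := 0
  v := fun ρ => ρ.elim
  rays := fun _ => ∅
  x := fun _ ρ => ρ.elim
  μ := fun _ => 1
  card_rays := fun _ => rfl
  x_out := fun _ ρ => ρ.elim
  x_v := fun _ ρ => ρ.elim
  sum_x := fun _ _ => rfl
  μ_pos := fun _ => one_pos

lemma point_φ (ξ : point.Ξ) : point.φ ξ 1 = 1 := by
  rw [Fan.φ_apply]
  change ∑ _σ : Unit, (1 : ℝ) / (∏ ρ ∈ (∅ : Finset Empty), point.x () ρ ξ) * 1 = 1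
  simp

lemma point_good : point.Good := by
  refine ⟨fun ξ _ j hj => absurd hj (Nat.not_lt_zero j), ⟨fun ρ => ρ.elim, fun _ ρ => ρ.elim,
    fun ρ => ρ.elim⟩, fun ξ _ τ k L l hk _ _ η hη _ => ?_⟩
  have hτ : τ = point.face0 := Subtype.ext (Finset.eq_empty_of_forall_notMem fun ρ => ρ.elim)
  subst hτ
  have hd : 2 * k + L.card = 0 := hk
  obtain rfl : k = 0 := by omega
  obtain rfl : L = 0 := Multiset.card_eq_zero.1 (by omega)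
  obtain ⟨c, rfl⟩ := mem_pow_zero_iff.1 hη
  rw [Fan.sys_φ0, Multiset.prod_zero, one_mul, ← map_mul, Algebra.algebraMap_eq_smul_one, map_smul,
    point_φ, smul_eq_mul, mul_one, pow_zero, one_mul]
  refine ⟨mul_self_nonneg c, fun h => ?_⟩
  rw [mul_self_eq_zero.1 h, map_zero]
  exact Orth.zero _

end G94
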