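import Pool.Agent.P.MP_740b33_co.MapB

/-! Package B3: dependence on the parameter. -/

namespace G94

open H40M Polynomial Filter Topology

lemma FanP_ne (a b : ℝ) (hb : b ≠ 0) : ∀ᶠ s in 𝓝[≠] (0 : ℝ), a + s * b ≠ 0 := by
  by_cases ha : a = 0
  · filter_upwards [self_mem_nhdsWithin] with s hs
    rw [ha, zero_add]
    exact mul_ne_zero hs hb
  · have h : Continuous fun s : ℝ => a + s * b := by fun_prop
    exact (h.continuousAt.eventually_ne (by simpa using ha)).filter_mono nhdsWithin_le_nhds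

lemma FanP_avoid {E κ : Type} [AddCommGroup E] [Module ℝ E] (s : Finset κ) (f : κ → E →ₗ[ℝ] ℝ)
    (h : ∀ i ∈ s, ∃ v, f i v ≠ 0) : ∃ v, ∀ i ∈ s, f i v ≠ 0 := by
  classical
  induction s using Finset.induction_on with
  | empty => exact ⟨0, by simp⟩
  | insert a s _ ih =>
    obtain ⟨v, hv⟩ := ih fun i hi => h i (Finset.mem_insert_of_mem hi)
    obtain ⟨w, hw⟩ := h a (Finset.mem_insert_self _ _)
    have h1 : ∀ᶠ t in 𝓝[≠] (0 : ℝ), ∀ i ∈ s, f i (v + t • w) ≠ 0 := by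
      rw [eventually_all_finset]
      intro i hi
      have hc : Continuous fun t : ℝ => f i v + t * f i w := by fun_prop
      have := (hc.continuousAt (x := 0)).eventually_ne (y := 0) (by simpa using hv i hi)
      filter_upwards [this.filter_mono nhdsWithin_le_nhds] with t ht
      simpa using ht
    obtain ⟨t, h2, h3⟩ := (h1.and (FanP_ne (f a v) (f a w) hw)).exists
    refine ⟨v + t • w, fun i hi => ?_⟩
    rcases Finset.mem_insert.1 hi with rfl | hi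
    · simpa using h3
    · exact h2 i hi

namespace Fan

variable {F : Fan}

theorem exists_gen (F : Fan) : ∃ ξ, F.Gen ξ := by
  classical
  obtain ⟨v, hv⟩ := FanP_avoid (Finset.univ.filter fun q : F.Cn × F.Ray => q.2 ∈ F.rays q.1)
    (fun q => F.x q.1 q.2) fun q hq => ⟨F.v q.2, by
      rw [F.x_v _ _ _ (Finset.mem_filter.1 hq).2]; simp⟩
  exact ⟨v, fun σ ρ h => hv (σ, ρ) (Finset.mem_filter.2 ⟨Finset.mem_univ _, h⟩)⟩

theorem gen_line (ξ0 : F.Ξ) {ξ1 : F.Ξ} (h : F.Gen ξ1) :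
    ∀ᶠ s in 𝓝[≠] (0 : ℝ), F.Gen (ξ0 + s • ξ1) := by
  unfold Gen
  rw [eventually_all]
  intro σ
  rw [eventually_all_finset]
  intro ρ hρ
  filter_upwards [FanP_ne (F.x σ ρ ξ0) _ (h σ ρ hρ)] with s hs
  simpa using hs

lemma eval_mem {j : ℕ} {η : F.Ξ → F.Cn → ℝ} (h : η ∈ F.VP ^ j) (ξ : F.Ξ) : η ξ ∈ F.V ξ ^ j := by
  refine map_mem_pow (Pi.evalAlgHom ℝ (fun _ : F.Ξ => F.Cn → ℝ) ξ) (fun v hv => ?_) h
  induction hv using Submodule.span_induction with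
  | mem x hx =>
    rcases hx with rfl | ⟨ρ, rfl⟩
    · exact one_mem_V ξ
    · exact xr_mem ρ ξ
  | zero => exact zero_mem _
  | add x y _ _ hx hy => exact add_mem hx hy
  | smul c x _ hx => exact Submodule.smul_mem _ c hx

lemma exists_lift {j : ℕ} {ξ : F.Ξ} {η : F.Cn → ℝ} (h : η ∈ F.V ξ ^ j) :
    ∃ η' ∈ F.VP ^ j, η' ξ = η := by
  refine exists_map_of_mem_pow (Pi.evalAlgHom ℝ (fun _ : F.Ξ => F.Cn → ℝ) ξ) (fun v hv => ?_) h
  induction hv using Submodule.span_induction with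
  | mem x hx =>
    rcases hx with rfl | ⟨ρ, rfl⟩
    · exact ⟨1, one_mem_VP, rfl⟩
    · exact ⟨F.xr ρ, Submodule.subset_span (Set.mem_insert_of_mem _ ⟨ρ, rfl⟩), rfl⟩
  | zero => exact ⟨0, zero_mem _, rfl⟩
  | add x y _ _ hx hy =>
    obtain ⟨a, ha, rfl⟩ := hx
    obtain ⟨b, hb, rfl⟩ := hy
    exact ⟨a + b, add_mem ha hb, rfl⟩
  | smul c x _ hx =>
    obtain ⟨a, ha, rfl⟩ := hx
    exact ⟨c • a, Submodule.smul_mem _ c ha, rfl⟩

lemma cont_line {j : ℕ} {η : F.Ξ → F.Cn → ℝ} (h : η ∈ F.VP ^ j) (ξ0 ξ1 : F.Ξ) (σ : F.Cn) :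
    Continuous fun s : ℝ => η (ξ0 + s • ξ1) σ := by
  induction j generalizing η with
  | zero =>
    obtain ⟨c, rfl⟩ := mem_pow_zero_iff.1 h
    exact continuous_const
  | succ j ih =>
    refine pow_succ_induction (P := fun η => Continuous fun s : ℝ => η (ξ0 + s • ξ1) σ) ?_ ?_ h
    · intro v hv a ha
      refine Continuous.mul ?_ (ih ha)
      induction hv using Submodule.span_induction with
      | mem x hx =>
        rcases hx with rfl | ⟨ρ, rfl⟩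
        · exact continuous_const
        · simp only [xr, map_add, map_smul, smul_eq_mul]
          fun_prop
      | zero => exact continuous_const
      | add x y _ _ hx hy => exact hx.add hy
      | smul c x _ hx => exact hx.const_smul c
    · intro a b ha hb
      exact ha.add hb

lemma FanP_prod_zero {τ : Finset F.Ray} {σ : F.Cn} (h : ¬ τ ⊆ F.rays σ) (ξ : F.Ξ) :
    (∏ ρ ∈ τ, F.xr ρ ξ) σ = 0 := by
  obtain ⟨ρ, h1, h2⟩ := Finset.not_subset.1 h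
  rw [Finset.prod_apply]
  exact Finset.prod_eq_zero h1 (by simp [xr, F.x_out σ ρ h2])

lemma FanP_top {τ : Finset F.Ray} (h : τ.card = F.d) {ξ : F.Ξ} (hξ : F.Gen ξ) :
    F.φ ξ (∏ ρ ∈ τ, F.xr ρ ξ) = ∑ σ, if τ ⊆ F.rays σ then F.μ σ else 0 := by
  rw [φ_apply]
  refine Finset.sum_congr rfl fun σ _ => ?_
  split_ifs with h1
  · have h2 : τ = F.rays σ := Finset.eq_of_subset_of_card_le h1 (by rw [F.card_rays, h])
    rw [h2, Finset.prod_apply]
    exact div_mul_cancel₀ _ (Finset.prod_ne_zero_iff.2 (hξ σ))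
  · rw [FanP_prod_zero h1, mul_zero]

lemma FanP_low (hB : F.Bal) {τ : Finset F.Ray} {k : ℕ} (h : τ.card + k < F.d)
    {η : F.Ξ → F.Cn → ℝ} (hη : η ∈ F.VP ^ k) {ξ : F.Ξ} (hξ : F.Gen ξ) :
    F.φ ξ ((∏ ρ ∈ τ, F.xr ρ ξ) * η ξ) = 0 := by
  refine hB ξ hξ _ h _ (mul_mem_pow ?_ (eval_mem hη ξ))
  simpa using prod_mem_pow τ (fun ρ => F.xr ρ ξ) (fun _ => 1)
    fun ρ _ => mem_pow_one (xr_mem ρ ξ)

lemma FanP_rel (hB : F.Bal) {τ : Finset F.Ray} {k : ℕ} (h : τ.card + k < F.d)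
    {η : F.Ξ → F.Cn → ℝ} (hη : η ∈ F.VP ^ k) {ξ : F.Ξ} (hξ : F.Gen ξ) (m : F.Ξ →ₗ[ℝ] ℝ) :
    ∑ ρ', m (F.v ρ') * F.φ ξ ((∏ ρ ∈ τ, F.xr ρ ξ) * (F.xr ρ' ξ * η ξ)) = 0 := by
  have h1 : F.φ ξ ((∏ ρ ∈ τ, F.xr ρ ξ) * (F.cl (F.lin m) ξ * η ξ)) = 0 := by
    rw [cl_lin, ← Algebra.smul_def, mul_smul_comm, map_smul, FanP_low hB h hη hξ, smul_zero]
  rw [cl_eq_sum, Finset.sum_mul, Finset.mul_sum, map_sum] at h1
  refine Eq.trans (Finset.sum_congr rfl fun ρ' _ => ?_) h1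
  rw [smul_mul_assoc, mul_smul_comm, map_smul, smul_eq_mul]
  rfl

lemma FanP_indep (hB : F.Bal) {ξ ξ' : F.Ξ} (hξ : F.Gen ξ) (hξ' : F.Gen ξ') (k : ℕ) :
    ∀ τ : Finset F.Ray, τ.card + k = F.d → ∀ η ∈ F.VP ^ k,
      F.φ ξ ((∏ ρ ∈ τ, F.xr ρ ξ) * η ξ) = F.φ ξ' ((∏ ρ ∈ τ, F.xr ρ ξ') * η ξ') := by
  induction k with
  | zero =>
    intro τ hτ η hη
    obtain ⟨c, rfl⟩ := mem_pow_zero_iff.1 hη
    have e : ∀ ζ : F.Ξ, (∏ ρ ∈ τ, F.xr ρ ζ) * (algebraMap ℝ (F.Ξ → F.Cn → ℝ) c) ζ =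
        c • ∏ ρ ∈ τ, F.xr ρ ζ := fun ζ => by
      funext σ; simp [mul_comm]
    rw [e, e, map_smul, map_smul, FanP_top hτ hξ, FanP_top hτ hξ']
  | succ k ih =>
    intro τ hτ η hη
    refine pow_succ_induction (P := fun η => F.φ ξ ((∏ ρ ∈ τ, F.xr ρ ξ) * η ξ) =
      F.φ ξ' ((∏ ρ ∈ τ, F.xr ρ ξ') * η ξ')) ?_ ?_ hη
    · intro v hv a ha
      have hlt : τ.card + k < F.d := by omega
      have hnew : ∀ ρ', ρ' ∉ τ → F.φ ξ ((∏ ρ ∈ τ, F.xr ρ ξ) * (F.xr ρ' ξ * a ξ)) =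
          F.φ ξ' ((∏ ρ ∈ τ, F.xr ρ ξ') * (F.xr ρ' ξ' * a ξ')) := fun ρ' h' => by
        have := ih (insert ρ' τ) (by rw [Finset.card_insert_of_notMem h']; omega) a ha
        rw [Finset.prod_insert h', Finset.prod_insert h'] at this
        convert this using 2 <;> ring
      induction hv using Submodule.span_induction with
      | mem x hx =>
        rcases hx with rfl | ⟨ρ0, rfl⟩
        · rw [one_mul, FanP_low hB hlt ha hξ, FanP_low hB hlt ha hξ']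
        · by_cases h0 : ρ0 ∈ τ
          swap
          · exact hnew ρ0 h0
          by_cases hf : ∃ σ, τ ⊆ F.rays σ
          · obtain ⟨σ, hσ⟩ := hf
            have h1 := FanP_rel hB hlt ha hξ (F.x σ ρ0)
            have h2 := FanP_rel hB hlt ha hξ' (F.x σ ρ0)
            have h3 := sub_eq_zero.2 (h1.trans h2.symm)
            rw [← Finset.sum_sub_distrib, Finset.sum_eq_single ρ0] at h3
            · rw [F.x_v σ ρ0 ρ0 (hσ h0), if_pos rfl, one_mul, one_mul] at h3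
              exact sub_eq_zero.1 h3
            · intro ρ' _ hne
              by_cases h' : ρ' ∈ τ
              · rw [F.x_v σ ρ0 ρ' (hσ h'), if_neg (Ne.symm hne)]
                simp
              · rw [hnew ρ' h', sub_self]
            · simp
          · have e : ∀ ζ : F.Ξ, ∏ ρ ∈ τ, F.xr ρ ζ = 0 := fun ζ =>
              funext fun σ => FanP_prod_zero (fun h => hf ⟨σ, h⟩) ζ
            simp [e]
      | zero => simp
      | add x y _ _ hx hy =>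
        simp only [add_mul, Pi.add_apply, mul_add, map_add]
        rw [hx, hy]
      | smul c x _ hx =>
        simp only [smul_mul_assoc, Pi.smul_apply, mul_smul_comm, map_smul]
        rw [hx]
    · intro a b ha hb
      simp only [Pi.add_apply, mul_add, map_add]
      rw [ha, hb]

/-- Top degree numbers do not depend on the generic parameter. -/
theorem indep (hB : F.Bal) {η : F.Ξ → F.Cn → ℝ} (h : η ∈ F.VP ^ F.d) {ξ ξ' : F.Ξ}
    (hξ : F.Gen ξ) (hξ' : F.Gen ξ') : F.φ ξ (η ξ) = F.φ ξ' (η ξ') := by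
  simpa using FanP_indep hB hξ hξ' F.d ∅ (by simp) η h

end Fan

/-- A class that vanishes cone by cone at a parameter generic for the coarse fan is zero. -/
theorem zero_of_vanish {F' F : Fan} {R : Map F' F 0} (hR : IsRef R) (hB : F.Bal) {ξ0 : F.Ξ}
    (h0 : F.Gen ξ0) {i j : ℕ} (hij : i + j = F.d) {A : F.Ξ → F.Cn → ℝ} (hA : A ∈ F.VP ^ i)
    {η : F'.Ξ → F'.Cn → ℝ} (hη : η ∈ F'.VP ^ j)
    (h : ∀ σ, A ξ0 σ = 0 ∨ ∃ (m : F.Ξ →ₗ[ℝ] ℝ) (k : ℕ), ∃ η1 ∈ F'.VP ^ k, m ξ0 = 0 ∧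
      ∀ ξ σ', R.par σ' = σ → η ξ σ' = m (R.pr ξ) * η1 ξ σ')
    {ξ : F'.Ξ} (hξ : F'.Gen ξ) : F'.φ ξ (R.up A ξ * η ξ) = 0 := by
  obtain ⟨G, hG, hGe⟩ := hR.unif j η hη
  have h1 := Fan.indep hB (mul_mem_pow' hA hG hij) (R.gen ξ hξ) h0
  rw [Map.up_apply, R.φ_ι_mul hξ, hGe ξ hξ]
  refine h1.trans ?_
  rw [Fan.φ_apply]
  refine Finset.sum_eq_zero fun σ _ => mul_eq_zero_of_right _ ?_
  rcases h σ with h2 | ⟨m, k, η1, h2, h3, h4⟩
  · exact mul_eq_zero_of_left h2 _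
  refine mul_eq_zero_of_right _ ?_
  obtain ⟨G1, hG1, hG1e⟩ := hR.unif k η1 h2
  obtain ⟨ζ, rfl⟩ := R.surj ξ0
  have c1 := Fan.cont_line hG (R.pr ζ) (R.pr ξ) σ
  have c2 : Continuous fun s : ℝ => m (R.pr ζ + s • R.pr ξ) * G1 (R.pr ζ + s • R.pr ξ) σ := by
    refine Continuous.mul ?_ (Fan.cont_line hG1 (R.pr ζ) (R.pr ξ) σ)
    simp only [map_add, map_smul, smul_eq_mul]
    fun_prop
  have e : (fun s : ℝ => G (R.pr ζ + s • R.pr ξ) σ) =ᶠ[𝓝[≠] (0 : ℝ)]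
      fun s : ℝ => m (R.pr ζ + s • R.pr ξ) * G1 (R.pr ζ + s • R.pr ξ) σ := by
    filter_upwards [Fan.gen_line ζ hξ] with s hs
    rw [← map_smul, ← map_add, ← hGe _ hs, ← hG1e _ hs]
    have h5 := R.push_eq_zero_at (ζ + s • ξ) (σ := σ)
      (η := η (ζ + s • ξ) - m (R.pr (ζ + s • ξ)) • η1 (ζ + s • ξ))
      fun σ' h' => by simp only [Pi.sub_apply, Pi.smul_apply, smul_eq_mul, h4 _ σ' h', sub_self]
    rw [map_sub, map_smul] at h5
    exact sub_eq_zero.1 h5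
  have h6 := tendsto_nhds_unique_of_eventuallyEq
    ((c1.tendsto 0).mono_left nhdsWithin_le_nhds) ((c2.tendsto 0).mono_left nhdsWithin_le_nhds) e
  simpa [h3] using h6

end G94
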