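import Pool.Agent.P.MP_740b33_co.Defs

/-! Package C10: the coefficients are homogeneous polynomials in consecutive differences. -/

namespace G94

open H40M Polynomial

namespace Poly

lemma push_taylor {N : ℕ} (h1 : 1 ≤ N) {Q : ℝ[X]} (hQ : Q.Monic) (hN : Q.natDegree = N) (s : ℝ)
    (η : ℝ[X]) : push N (taylor s Q) (taylor s η) = push N Q η := by
  have hr := degree_mod_lt hQ hN η
  have hm : (taylor s Q).Monic := by
    rw [Monic, leadingCoeff_taylor]; exact hQ
  have hd : (taylor s Q).natDegree = N := by rw [natDegree_taylor, hN]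
  rw [push_of_eq hm hd (r := taylor s (η %ₘ Q)) (q := taylor s (η /ₘ Q))
    (by rw [← taylor_mul, ← map_add, modByMonic_add_div]) (by rwa [degree_taylor]), push_apply]
  have hr' : (η %ₘ Q).natDegree ≤ N - 1 := by
    by_cases h0 : η %ₘ Q = 0
    · rw [h0]; simp
    · have := (natDegree_lt_iff_degree_lt h0).2 hr
      omega
  rcases hr'.eq_or_lt with h | h
  · rw [← h, coeff_taylor_natDegree, coeff_natDegree]
  · rw [coeff_eq_zero_of_natDegree_lt h,
      coeff_eq_zero_of_natDegree_lt (by rwa [natDegree_taylor])]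

variable {n : ℕ}

lemma taylor_prod (t : Fin n → ℝ) (s : ℝ) (B : Finset (Fin n)) :
    taylor s (∏ b ∈ B, (X + C (t b))) = ∏ b ∈ B, (X + C (t b + s)) := by
  rw [taylor_apply, Polynomial.prod_comp]
  refine Finset.prod_congr rfl fun b _ => ?_
  simp only [add_comp, X_comp, C_comp, map_add]
  ring

lemma prod_monic (t : Fin n → ℝ) (B : Finset (Fin n)) : (∏ b ∈ B, (X + C (t b))).Monic :=
  monic_prod_of_monic _ _ fun _ _ => monic_X_add_C _

lemma prod_natDegree (t : Fin n → ℝ) (B : Finset (Fin n)) :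
    (∏ b ∈ B, (X + C (t b))).natDegree = B.card := by
  rw [natDegree_prod_of_monic _ _ fun b _ => monic_X_add_C _]
  simp

lemma det_shift (t : Fin n → ℝ) (s : ℝ) (B : Finset (Fin n)) {r : ℕ} (hB : B.card = r)
    (γ : Fin r → ℕ) :
    Matrix.det (Matrix.of fun a c : Fin r =>
        push r (∏ b ∈ B, (X + C (t b + s))) (tailP (fun b => t b + s) (γ a) * X ^ (c : ℕ))) =
      Matrix.det (Matrix.of fun a c : Fin r =>
        push r (∏ b ∈ B, (X + C (t b))) (tailP t (γ a) * X ^ (c : ℕ))) := by
  have hU := Matrix.det_matrixOfPolynomials (fun c : Fin r => (X - C s) ^ (c : ℕ))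
    (fun c => by rw [(monic_X_sub_C s).natDegree_pow, natDegree_X_sub_C, mul_one])
    (fun c => (monic_X_sub_C s).pow _)
  have e : (Matrix.of fun a c : Fin r =>
        push r (∏ b ∈ B, (X + C (t b + s))) (tailP (fun b => t b + s) (γ a) * X ^ (c : ℕ))) =
      (Matrix.of fun a c : Fin r =>
        push r (∏ b ∈ B, (X + C (t b))) (tailP t (γ a) * X ^ (c : ℕ))) *
      Matrix.of fun i j : Fin r => ((X - C s) ^ (j : ℕ)).coeff i := by
    ext a c
    have ha := a.2
    have h1 : tailP (fun b => t b + s) (γ a) * X ^ (c : ℕ) =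
        taylor s (tailP t (γ a) * (X - C s) ^ (c : ℕ)) := by
      rw [taylor_mul, taylor_pow, map_sub, taylor_X, taylor_C, add_sub_cancel_right, tailP, tailP,
        taylor_prod]
    have h2 : ((X - C s) ^ (c : ℕ)).natDegree < r := by
      rw [(monic_X_sub_C s).natDegree_pow, natDegree_X_sub_C, mul_one]
      exact c.2
    rw [Matrix.of_apply, h1, ← taylor_prod, push_taylor (by omega) (prod_monic t B)
      ((prod_natDegree t B).trans hB), Matrix.mul_apply]
    conv_lhs => rw [as_sum_range_C_mul_X_pow' _ h2, Finset.mul_sum, map_sum, Finset.sum_range]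
    refine Finset.sum_congr rfl fun i _ => ?_
    rw [Matrix.of_apply, Matrix.of_apply, mul_left_comm, push_C_mul, mul_comm]
  rw [e, Matrix.det_mul, hU, mul_one]

lemma prod_xs_shift (t : Fin n → ℝ) (s : ℝ) (w : Equiv.Perm (Fin n)) :
    ∏ S ∈ inis w, xs (fun b => t b + s) S w = ∏ S ∈ inis w, xs t S w := by
  rw [← aeval_denom 0 Fin.elim0, ← aeval_denom 0 Fin.elim0]
  simp only [denom, map_prod, map_sub, MvPolynomial.aeval_X, Sum.elim_inr, add_sub_add_right_eq_sub]

lemma prod_comp_scale (t : Fin n → ℝ) (s : ℝ) (B : Finset (Fin n)) :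
    (∏ b ∈ B, (X + C ((s • t) b))).comp (C s * X) = C (s ^ B.card) * ∏ b ∈ B, (X + C (t b)) := by
  rw [Polynomial.prod_comp, map_pow, ← Finset.prod_const, ← Finset.prod_mul_distrib]
  refine Finset.prod_congr rfl fun b _ => ?_
  simp [mul_add]

lemma tailP_comp_scale (t : Fin n → ℝ) (s : ℝ) (γ : ℕ) :
    (tailP (s • t) γ).comp (C s * X) = C (s ^ (n - 1 - γ)) * tailP t γ := by
  have h := tailP_natDegree t γ
  rw [tailP, prod_natDegree] at h
  rw [tailP, prod_comp_scale, h, tailP]

lemma det_scale (t : Fin n → ℝ) (s : ℝ) (B : Finset (Fin n)) {r : ℕ} (hB : B.card = r)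
    (γ : Fin r → ℕ) :
    s ^ (r * (r - 1)) * Matrix.det (Matrix.of fun a c : Fin r =>
        push r (∏ b ∈ B, (X + C ((s • t) b))) (tailP (s • t) (γ a) * X ^ (c : ℕ))) =
      s ^ (∑ a, (n - 1 - γ a) + ∑ a : Fin r, (a : ℕ)) * Matrix.det (Matrix.of fun a c : Fin r =>
        push r (∏ b ∈ B, (X + C (t b))) (tailP t (γ a) * X ^ (c : ℕ))) := by
  have e : (Matrix.of fun a c : Fin r => s ^ (r - 1) * (Matrix.of fun a c : Fin r =>
        push r (∏ b ∈ B, (X + C ((s • t) b))) (tailP (s • t) (γ a) * X ^ (c : ℕ))) a c) =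
      Matrix.of fun a c : Fin r => s ^ (n - 1 - γ a) * (Matrix.of fun a c : Fin r =>
        s ^ (c : ℕ) * (Matrix.of fun a c : Fin r =>
          push r (∏ b ∈ B, (X + C (t b))) (tailP t (γ a) * X ^ (c : ℕ))) a c) a c := by
    ext a c
    simp only [Matrix.of_apply]
    rw [← push_scale (prod_monic (s • t) B) ((prod_natDegree _ B).trans hB) (prod_monic t B)
      ((prod_natDegree _ B).trans hB) (by rw [prod_comp_scale, hB]), mul_comp, tailP_comp_scale,
      pow_comp, X_comp, mul_pow, ← map_pow, mul_assoc, push_C_mul, mul_left_comm, push_C_mul]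
  have h := congrArg Matrix.det e
  rw [Matrix.det_mul_column, Matrix.det_mul_column, Matrix.det_mul_row,
    Finset.prod_pow_eq_pow_sum, Finset.prod_pow_eq_pow_sum, Finset.prod_pow_eq_pow_sum,
    Finset.sum_const, Finset.card_univ, Fintype.card_fin, smul_eq_mul, ← mul_assoc,
    ← pow_add] at h
  exact h

lemma ext_inj {p q : MvPolynomial (Fin n) ℤ}
    (h : ∀ t : Fin n → ℝ, Function.Injective t → MvPolynomial.aeval t p = MvPolynomial.aeval t q) :
    p = q := by
  have e : ∀ (t : Fin n → ℝ) (p : MvPolynomial (Fin n) ℤ), MvPolynomial.aeval t p =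
      MvPolynomial.eval t (MvPolynomial.map (algebraMap ℤ ℝ) p) := fun t p => by
    rw [MvPolynomial.eval_map, MvPolynomial.aeval_def]
  refine MvPolynomial.map_injective (algebraMap ℤ ℝ) (algebraMap ℤ ℝ).injective_int ?_
  refine MvPolynomial.funext_set (fun i : Fin n => Set.Ioo ((i : ℕ) : ℝ) (((i : ℕ) : ℝ) + 1))
    (fun i => Set.Ioo_infinite (lt_add_one _)) fun t ht => ?_
  rw [← e, ← e]
  refine h t fun i j hij => ?_
  have hi := ht i (Set.mem_univ i)
  have hj := ht j (Set.mem_univ j)
  have a1 : ((i : ℕ) : ℝ) < ((j : ℕ) : ℝ) + 1 := hi.1.trans (hij ▸ hj.2)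
  have a2 : ((j : ℕ) : ℝ) < ((i : ℕ) : ℝ) + 1 := hj.1.trans (hij ▸ hi.2)
  have a3 : (i : ℕ) < j + 1 := by exact_mod_cast a1
  have a4 : (j : ℕ) < i + 1 := by exact_mod_cast a2
  exact Fin.ext (by omega)

lemma aeval_aeval {σ τ A : Type} [CommRing A] [Algebra ℤ A] (f : τ → A) (g : σ → MvPolynomial τ ℤ)
    (p : MvPolynomial σ ℤ) :
    MvPolynomial.aeval f (MvPolynomial.aeval g p) =
      MvPolynomial.aeval (fun i => MvPolynomial.aeval f (g i)) p := by
  rw [← AlgHom.comp_apply, MvPolynomial.comp_aeval]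

lemma coeff_double {σ : Type} [Fintype σ] (p : MvPolynomial σ ℤ) (a : σ →₀ ℕ) :
    MvPolynomial.coeff a (MvPolynomial.aeval
      (fun i => (MvPolynomial.C 2 * MvPolynomial.X i : MvPolynomial σ ℤ)) p) =
      2 ^ (∑ i, a i) * MvPolynomial.coeff a p := by
  classical
  induction p using MvPolynomial.induction_on' with
  | add p q hp hq => simp only [map_add, MvPolynomial.coeff_add, hp, hq, mul_add]
  | monomial u c =>
    have h : MvPolynomial.aeval
        (fun i => (MvPolynomial.C 2 * MvPolynomial.X i : MvPolynomial σ ℤ))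
        (MvPolynomial.monomial u c) = MvPolynomial.monomial u (2 ^ (∑ i, u i) * c) := by
      rw [MvPolynomial.aeval_monomial, MvPolynomial.monomial_eq,
        Finsupp.prod_fintype _ _ (by simp), Finsupp.prod_fintype _ _ (by simp)]
      simp only [mul_pow, Finset.prod_mul_distrib, Finset.prod_pow_eq_pow_sum, map_mul, map_pow,
        MvPolynomial.algebraMap_eq]
      ring
    rw [h, MvPolynomial.coeff_monomial, MvPolynomial.coeff_monomial]
    split_ifs with hu
    · rw [hu]
    · rw [mul_zero]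

/-- The sum of the first `i` variables. -/
noncomputable def ps (N : ℕ) (i : Fin (N + 1)) : MvPolynomial (Fin N) ℤ :=
  ∑ k ∈ Finset.univ.filter (fun k : Fin N => (k : ℕ) < i), MvPolynomial.X k

lemma ps_zero (N : ℕ) : ps N 0 = 0 := by simp [ps]

lemma ps_succ {N : ℕ} (j : Fin N) : ps N j.succ = ps N j.castSucc + MvPolynomial.X j := by
  have h : Finset.univ.filter (fun k : Fin N => (k : ℕ) < (j.succ : Fin (N + 1))) =
      insert j (Finset.univ.filter (fun k : Fin N => (k : ℕ) < (j.castSucc : Fin (N + 1)))) := by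
    ext k
    simp only [Finset.mem_filter, Finset.mem_univ, true_and, Finset.mem_insert, Fin.val_succ,
      Fin.val_castSucc, Fin.ext_iff]
    omega
  rw [ps, h, Finset.sum_insert (by simp), add_comm, ps]

lemma diff_ps {N : ℕ} (i : Fin (N + 1)) :
    MvPolynomial.aeval (fun i : Fin N => (MvPolynomial.X i.succ -
      MvPolynomial.X i.castSucc : MvPolynomial (Fin (N + 1)) ℤ)) (ps N i) =
      MvPolynomial.X i - MvPolynomial.X 0 := by
  induction i using Fin.induction with
  | zero => rw [ps_zero, map_zero, sub_self]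
  | succ j ih => rw [ps_succ, map_add, ih, MvPolynomial.aeval_X]; ring

lemma double_ps {N : ℕ} (i : Fin (N + 1)) :
    MvPolynomial.aeval (fun k : Fin N =>
      (MvPolynomial.C 2 * MvPolynomial.X k : MvPolynomial (Fin N) ℤ)) (ps N i) =
      MvPolynomial.C 2 * ps N i := by
  simp only [ps, map_sum, MvPolynomial.aeval_X, Finset.mul_sum]

end Poly

open G94.Poly in
theorem exists_diff {N r : ℕ} (M : Matroid (Fin (N + 1))) (hr : M.eRank = r)
    {d : (Fin r → ℕ) → MvPolynomial (Fin (N + 1)) ℤ} (hd : IsExpansion r M d) {lam : Fin r → ℕ}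
    (hlam : lam ∈ box r (N + 1)) :
    ∃ P : MvPolynomial (Fin N) ℤ,
      d lam = MvPolynomial.aeval (fun i : Fin N => (MvPolynomial.X i.succ -
        MvPolynomial.X i.castSucc : MvPolynomial (Fin (N + 1)) ℤ)) P ∧
      ∀ a ∈ P.support, ∑ i, a i + ∑ b, lam b + N = r * (N + 1 - r) := by
  have hρ := isRk_rkFun M
  have hu := rkFun_univ M hr
  have hB : ∀ w, (greedy (rkFun M) w).card = r := fun w => (hρ.card_greedy w).trans hu
  have hrn : r ≤ N + 1 := by
    have := Finset.card_le_univ (greedy (rkFun M) 1)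
    rwa [hB, Fintype.card_fin] at this
  have hb : ∀ a, lam a ≤ N + 1 - r := fun a =>
    Nat.lt_succ_iff.1 (Finset.mem_range.1 (Fintype.mem_piFinset.1 (Finset.mem_filter.1 hlam).1 a))
  have hshift : ∀ t : Fin (N + 1) → ℝ, Function.Injective t → ∀ s : ℝ,
      MvPolynomial.aeval (fun b => t b + s) (d lam) = MvPolynomial.aeval t (d lam) := by
    intro t ht s
    rw [extract M hr hd hlam ht, extract M hr hd hlam (t := fun b => t b + s)
      fun i j hij => ht (add_right_cancel hij)]
    congr 1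
    refine Finset.sum_congr rfl fun w _ => ?_
    rw [prod_xs_shift, det_shift t s _ (hB w)]
  have hsum : ∑ a : Fin r, (N + 1 - 1 - (lam a + (r - 1 - a))) + ∑ a : Fin r, (a : ℕ) + ∑ b, lam b
      = r * (N + 1 - r) + r * (r - 1) := by
    have h1 : ∑ a : Fin r, ((N + 1 - 1 - (lam a + (r - 1 - a))) + lam a + (r - 1 - a)) =
        ∑ _a : Fin r, N :=
      Finset.sum_congr rfl fun a _ => by
        have := hb a
        have := a.2
        omega
    have h2 : ∑ a : Fin r, (r - 1 - (a : ℕ)) = ∑ a : Fin r, (a : ℕ) := by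
      rw [← Equiv.sum_comp Fin.revPerm]
      refine Finset.sum_congr rfl fun a _ => ?_
      have := a.2
      simp only [Fin.revPerm_apply, Fin.val_rev]
      omega
    rw [Finset.sum_add_distrib, Finset.sum_add_distrib, h2] at h1
    simp only [Finset.sum_const, Finset.card_univ, Fintype.card_fin, smul_eq_mul] at h1
    have h3 : r * N = r * (N + 1 - r) + r * (r - 1) := by
      rcases Nat.eq_zero_or_pos r with h | h
      · simp [h]
      · rw [← mul_add]; congr 1; omega
    omega
  have hscale : ∀ t : Fin (N + 1) → ℝ, Function.Injective t → ∀ s : ℝ, s ≠ 0 →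
      s ^ (∑ b, lam b + N) * MvPolynomial.aeval (s • t) (d lam) =
        s ^ (r * (N + 1 - r)) * MvPolynomial.aeval t (d lam) := by
    intro t ht s hs
    rw [extract M hr hd hlam ht, extract M hr hd hlam (t := s • t)
      fun i j hij => ht (mul_left_cancel₀ hs hij), mul_left_comm, mul_left_comm (s ^ _)]
    congr 1
    rw [Finset.mul_sum, Finset.mul_sum]
    refine Finset.sum_congr rfl fun w _ => ?_
    have h := det_scale t s _ (hB w) (fun a => lam a + (r - 1 - a))
    have h2 := congrArg (fun z => s ^ (∑ b, lam b) * z) h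
    simp only [← mul_assoc, ← pow_add] at h2
    rw [add_comm (∑ b, lam b) (_ + _), hsum, pow_add, pow_add, mul_assoc, mul_assoc,
      mul_left_comm, mul_left_comm (s ^ (r * (N + 1 - r)))] at h2
    have h3 := mul_left_cancel₀ (pow_ne_zero _ hs) h2
    rw [prod_xs_scale, Nat.add_sub_cancel, ← mul_div_assoc, ← mul_div_assoc, ← h3, pow_add,
      mul_comm (s ^ _) (s ^ N), mul_assoc, mul_div_mul_left _ _ (pow_ne_zero _ hs)]
  have e1 : MvPolynomial.aeval (fun i : Fin (N + 1) =>
      (MvPolynomial.X i - MvPolynomial.X 0 : MvPolynomial (Fin (N + 1)) ℤ)) (d lam) = d lam := by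
    refine ext_inj fun t ht => ?_
    rw [aeval_aeval, ← hshift t ht (-t 0)]
    simp only [map_sub, MvPolynomial.aeval_X, ← sub_eq_add_neg]
  have e2 : MvPolynomial.C (2 ^ (∑ b, lam b + N)) * MvPolynomial.aeval (fun i : Fin (N + 1) =>
      (MvPolynomial.C 2 * MvPolynomial.X i : MvPolynomial (Fin (N + 1)) ℤ)) (d lam) =
      MvPolynomial.C (2 ^ (r * (N + 1 - r))) * d lam := by
    refine ext_inj fun t ht => ?_
    have h := hscale t ht 2 two_ne_zero
    rw [map_mul, map_mul, aeval_aeval]
    simp only [map_mul, MvPolynomial.aeval_X, map_pow, map_ofNat]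
    exact h
  refine ⟨MvPolynomial.aeval (ps N) (d lam), ?_, fun a ha => ?_⟩
  · rw [aeval_aeval]
    simp only [diff_ps]
    exact e1.symm
  · have h := congrArg (MvPolynomial.aeval (ps N)) e2
    have h1 : MvPolynomial.aeval (ps N) (MvPolynomial.aeval (fun i : Fin (N + 1) =>
        (MvPolynomial.C 2 * MvPolynomial.X i : MvPolynomial (Fin (N + 1)) ℤ)) (d lam)) =
        MvPolynomial.aeval (fun k : Fin N =>
          (MvPolynomial.C 2 * MvPolynomial.X k : MvPolynomial (Fin N) ℤ))
          (MvPolynomial.aeval (ps N) (d lam)) := by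
      rw [aeval_aeval, aeval_aeval]
      simp only [double_ps, map_mul, MvPolynomial.aeval_X, MvPolynomial.aeval_C,
        MvPolynomial.algebraMap_eq]
    rw [map_mul, map_mul, h1, MvPolynomial.aeval_C, MvPolynomial.aeval_C,
      MvPolynomial.algebraMap_eq] at h
    have h2 := congrArg (MvPolynomial.coeff a) h
    rw [MvPolynomial.coeff_C_mul, MvPolynomial.coeff_C_mul, coeff_double, ← mul_assoc,
      ← pow_add] at h2
    have h3 := mul_right_cancel₀ (MvPolynomial.mem_support_iff.1 ha) h2
    have h4 := pow_right_injective₀ (show (0 : ℤ) < 2 by norm_num) (by norm_num) h3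
    omega

end G94
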