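import Pool.Agent.H40M.Stmt

/-! Connected components of a matroid. -/

namespace G94

/-- `S` is a separator of `M`. -/
def IsSep {n : ℕ} (M : Matroid (Fin n)) (S : Set (Fin n)) : Prop :=
  M.eRk S + M.eRk Sᶜ = M.eRank

/-- The number of connected components: the minimal non-empty separators. -/
noncomputable def comps {n : ℕ} (M : Matroid (Fin n)) : ℕ :=
  {S | Minimal (fun T : Set (Fin n) => T.Nonempty ∧ IsSep M T) S}.ncard

/-- The difference `t_i - t_{i+1}` of consecutive variables. -/
noncomputable def adj (n : ℕ) (i : Fin (n - 1)) : MvPolynomial (Fin n) ℤ :=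
  MvPolynomial.X ⟨i, by omega⟩ - MvPolynomial.X ⟨i + 1, by omega⟩

/-- The exponent `r(n-r) - (n-e) - |lam|`, with `e` the number of connected components. -/
noncomputable def expo {n : ℕ} (r : ℕ) (M : Matroid (Fin n)) (lam : Fin r → ℕ) : ℤ :=
  (r : ℤ) * ((n : ℤ) - r) - ((n : ℤ) - comps M) - ∑ a, (lam a : ℤ)

end G94
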