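import Pool.Agent.P.MP_740b33_co.Defs
import Pool.Agent.P.MP_740b33_co.Stmt

/-! Package C11: disconnected matroids. -/

namespace G94

open H40M Polynomial

namespace Sep

variable {n : ℕ}

/-- Two orderings agree on `T`. -/
def Same (T : Finset (Fin n)) (w0 w : Equiv.Perm (Fin n)) : Prop :=
  ∀ a ∈ T, ∀ b ∈ T, (w0.symm a < w0.symm b ↔ w.symm a < w.symm b)

lemma Same.refl (T : Finset (Fin n)) (w : Equiv.Perm (Fin n)) : Same T w w :=
  fun _ _ _ _ => Iff.rfl

lemma Same.symm {T : Finset (Fin n)} {w0 w : Equiv.Perm (Fin n)} (h : Same T w0 w) :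
    Same T w w0 := fun a ha b hb => (h a ha b hb).symm

lemma Same.trans {T : Finset (Fin n)} {w0 w w' : Equiv.Perm (Fin n)} (h : Same T w0 w)
    (h' : Same T w w') : Same T w0 w' := fun a ha b hb => (h a ha b hb).trans (h' a ha b hb)

lemma one_mem (t : Fin n → ℝ) : (1 : Equiv.Perm (Fin n) → ℝ) ∈ permV t :=
  Submodule.subset_span (Set.mem_insert _ _)

lemma lt_mem {t : Fin n → ℝ} (ht : Function.Injective t) {a b : Fin n} (hab : a ≠ b) :
    (fun w : Equiv.Perm (Fin n) => if w.symm a < w.symm b then (1 : ℝ) else 0) ∈ permV t := by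
  have h : t b - t a ≠ 0 := sub_ne_zero.2 fun h => hab (ht h).symm
  have e : (fun w : Equiv.Perm (Fin n) => if w.symm a < w.symm b then (1 : ℝ) else 0)
      = (t b - t a)⁻¹ • yy t a b := by
    funext w
    rw [Pi.smul_apply, yy_apply t hab, smul_eq_mul]
    split_ifs
    · rw [inv_mul_cancel₀ h]
    · rw [mul_zero]
  rw [e]
  exact Submodule.smul_mem _ _ (lov_mem _ _)

lemma same_insert {s : Finset (Fin n)} {a p : Fin n} {w0 w : Equiv.Perm (Fin n)} (ha : a ∉ s)
    (hmax : ∀ x ∈ s, w0.symm x ≤ w0.symm a) (hp : p ∈ s)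
    (hpm : ∀ x ∈ s, w0.symm x ≤ w0.symm p) :
    Same (insert a s) w0 w ↔ w.symm p < w.symm a ∧ Same s w0 w := by
  have hlt : ∀ x ∈ s, w0.symm x < w0.symm a := fun x hx =>
    lt_of_le_of_ne (hmax x hx) fun h => ha (w0.symm.injective h ▸ hx)
  constructor
  · intro h
    exact ⟨(h p (Finset.mem_insert_of_mem hp) a (Finset.mem_insert_self _ _)).1 (hlt p hp),
      fun x hx y hy => h x (Finset.mem_insert_of_mem hx) y (Finset.mem_insert_of_mem hy)⟩
  · rintro ⟨h1, h2⟩
    have h3 : ∀ x ∈ s, w.symm x < w.symm a := fun x hx => by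
      refine lt_of_le_of_lt (not_lt.1 fun h4 => ?_) h1
      exact absurd ((h2 p hp x hx).2 h4) (not_lt.2 (hpm x hx))
    intro x hx y hy
    rcases Finset.mem_insert.1 hx with rfl | hx' <;> rcases Finset.mem_insert.1 hy with rfl | hy'
    · simp
    · exact iff_of_false (not_lt.2 (hlt y hy').le) (not_lt.2 (h3 y hy').le)
    · exact iff_of_true (hlt x hx') (h3 x hx')
    · exact h2 x hx' y hy'

open Classical in
lemma ind_mem {t : Fin n → ℝ} (ht : Function.Injective t) (w0 : Equiv.Perm (Fin n))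
    (T : Finset (Fin n)) :
    (fun w => if Same T w0 w then (1 : ℝ) else 0) ∈ permV t ^ (T.card - 1) := by
  induction T using Finset.induction_on_max_value w0.symm with
  | empty =>
    have e : (fun w => if Same (∅ : Finset (Fin n)) w0 w then (1 : ℝ) else 0) = 1 := by
      funext w
      rw [if_pos (show Same ∅ w0 w from fun a ha => absurd ha (Finset.notMem_empty _))]
      rfl
    rw [e]
    exact one_mem_pow (one_mem t) _
  | insert a s ha hmax ih =>
    rcases s.eq_empty_or_nonempty with rfl | hs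
    · have e : (fun w => if Same (insert a (∅ : Finset (Fin n))) w0 w then (1 : ℝ) else 0) = 1 := by
        funext w
        rw [if_pos]
        · rfl
        · intro x hx y hy
          have h1 : x = a := by simpa using hx
          have h2 : y = a := by simpa using hy
          subst h1 h2
          simp
      rw [e]
      exact one_mem_pow (one_mem t) _
    · obtain ⟨p, hp, hpm⟩ := Finset.exists_max_image s w0.symm hs
      have hpa : p ≠ a := fun h => ha (h ▸ hp)
      have e : (fun w => if Same (insert a s) w0 w then (1 : ℝ) else 0) =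
          (fun w : Equiv.Perm (Fin n) => if w.symm p < w.symm a then (1 : ℝ) else 0) *
            fun w => if Same s w0 w then (1 : ℝ) else 0 := by
        funext w
        rw [Pi.mul_apply]
        simp only [same_insert ha hmax hp hpm]
        by_cases h1 : w.symm p < w.symm a <;> by_cases h2 : Same s w0 w <;> simp [h1, h2]
      rw [e]
      refine mul_mem_pow' (mem_pow_one (lt_mem ht hpa)) ih ?_
      have := hs.card_pos
      rw [Finset.card_insert_of_notMem ha]
      omega

/-- A function of the two induced orders has degree `n - 2`. -/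
lemma fun_mem {t : Fin n → ℝ} (ht : Function.Injective t) (T : Finset (Fin n))
    (η : Equiv.Perm (Fin n) → ℝ) (hη : ∀ w w', Same T w w' → Same Tᶜ w w' → η w = η w') :
    η ∈ permV t ^ (T.card - 1 + (Tᶜ.card - 1)) := by
  classical
  set c : Equiv.Perm (Fin n) → ℝ := fun w =>
    ((Finset.univ.filter fun w' => Same T w' w ∧ Same Tᶜ w' w).card : ℝ) with hc
  have hc0 : ∀ w, c w ≠ 0 := fun w => by
    simp only [hc]
    exact Nat.cast_ne_zero.2 (Finset.card_ne_zero_of_mem (a := w)
      (Finset.mem_filter.2 ⟨Finset.mem_univ _, Same.refl _ _, Same.refl _ _⟩))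
  have hc1 : ∀ w w', Same T w w' → Same Tᶜ w w' → c w = c w' := fun w w' h1 h2 => by
    simp only [hc]
    congr 2
    ext u
    simp only [Finset.mem_filter, Finset.mem_univ, true_and]
    exact ⟨fun h => ⟨h.1.trans h1, h.2.trans h2⟩, fun h => ⟨h.1.trans h1.symm, h.2.trans h2.symm⟩⟩
  have e : η = ∑ w0, (η w0 / c w0) • ((fun w => if Same T w0 w then (1 : ℝ) else 0) *
      fun w => if Same Tᶜ w0 w then (1 : ℝ) else 0) := by
    funext w
    rw [Finset.sum_apply]
    have h1 : ∀ w0, ((η w0 / c w0) • ((fun w => if Same T w0 w then (1 : ℝ) else 0) *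
        fun w => if Same Tᶜ w0 w then (1 : ℝ) else 0)) w =
        if Same T w0 w ∧ Same Tᶜ w0 w then η w / c w else 0 := by
      intro w0
      rw [Pi.smul_apply, Pi.mul_apply, smul_eq_mul]
      by_cases h1 : Same T w0 w
      · by_cases h2 : Same Tᶜ w0 w
        · rw [if_pos h1, if_pos h2, if_pos ⟨h1, h2⟩, hη _ _ h1 h2, hc1 _ _ h1 h2]
          simp
        · simp [h2]
      · simp [h1]
    simp only [h1]
    rw [← Finset.sum_filter, Finset.sum_const, nsmul_eq_mul]
    have h2 := hc0 w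
    change η w = c w * (η w / c w)
    field_simp
  rw [e]
  exact Submodule.sum_mem _ fun w0 _ => Submodule.smul_mem _ _
    (mul_mem_pow (ind_mem ht w0 T) (ind_mem ht w0 Tᶜ))

lemma sum_zero {t : Fin n → ℝ} (ht : Function.Injective t) {T : Finset (Fin n)}
    (h0 : T.Nonempty) (h1 : Tᶜ.Nonempty) (η : Equiv.Perm (Fin n) → ℝ)
    (hη : ∀ w w', Same T w w' → Same Tᶜ w w' → η w = η w') :
    ∑ w, η w / ∏ S ∈ inis w, xs t S w = 0 := by
  have h2 := perm_bal_aux ht _ (face0 n) (by
    have a1 := h0.card_pos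
    have a2 := h1.card_pos
    have a3 := Finset.card_add_card_compl T
    rw [Fintype.card_fin] at a3
    change _ < n - 1 - (∅ : Finset (Finset (Fin n))).card
    rw [Finset.card_empty]
    omega) η (fun_mem ht T η hη)
  rw [faceφ_apply] at h2
  simpa [face0] using h2

lemma rk_sub (M : Matroid (Fin n)) (A B : Finset (Fin n)) :
    rkFun M (A ∩ B) + rkFun M (A ∪ B) ≤ rkFun M A + rkFun M B := by
  rw [← Nat.cast_le (α := ℕ∞), Nat.cast_add, Nat.cast_add, coe_rkFun, coe_rkFun, coe_rkFun,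
    coe_rkFun, Finset.coe_inter, Finset.coe_union]
  exact M.eRk_inter_add_eRk_union_le _ _

lemma rk_add (M : Matroid (Fin n)) {T : Finset (Fin n)}
    (hT : rkFun M T + rkFun M Tᶜ = rkFun M Finset.univ) (A : Finset (Fin n)) :
    rkFun M A = rkFun M (A ∩ T) + rkFun M (A ∩ Tᶜ) := by
  have h1 := rk_sub M (A ∩ T) (A ∩ Tᶜ)
  have h2 := rk_sub M A T
  have h3 := rk_sub M (A ∪ T) Tᶜ
  have e1 : A ∩ T ∪ A ∩ Tᶜ = A := by
    rw [← Finset.inter_union_distrib_left, Finset.union_compl, Finset.inter_univ]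
  have e2 : (A ∪ T) ∩ Tᶜ = A ∩ Tᶜ := by
    rw [Finset.union_inter_distrib_right, Finset.inter_compl, Finset.union_empty]
  have e3 : A ∪ T ∪ Tᶜ = Finset.univ := by
    rw [Finset.union_assoc, Finset.union_compl, Finset.union_eq_right.2 (Finset.subset_univ A)]
  rw [e1] at h1
  rw [e2, e3] at h3
  omega

lemma greedy_iff {ρ : Finset (Fin n) → ℕ} {T U : Finset (Fin n)}
    (h : ∀ A, ρ A = ρ (A ∩ T) + ρ (A ∩ U)) {e : Fin n} (hT : e ∈ T) (hU : e ∉ U)
    (w : Equiv.Perm (Fin n)) :
    e ∈ greedy ρ w ↔ ρ (bef w e ∩ T) < ρ (insert e (bef w e ∩ T)) := by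
  rw [mem_greedy, h (bef w e), h (insert e (bef w e)), Finset.insert_inter_of_mem hT,
    Finset.insert_inter_of_notMem hU]
  omega

lemma bef_inter {T : Finset (Fin n)} {w w' : Equiv.Perm (Fin n)} (h : Same T w w') {e : Fin n}
    (he : e ∈ T) : bef w e ∩ T = bef w' e ∩ T := by
  ext a
  simp only [Finset.mem_inter, mem_bef]
  exact ⟨fun k => ⟨(h a k.2 e he).1 k.1, k.2⟩, fun k => ⟨(h a k.2 e he).2 k.1, k.2⟩⟩

lemma greedy_eq {ρ : Finset (Fin n) → ℕ} {T : Finset (Fin n)}
    (h : ∀ A, ρ A = ρ (A ∩ T) + ρ (A ∩ Tᶜ)) {w w' : Equiv.Perm (Fin n)} (h1 : Same T w w')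
    (h2 : Same Tᶜ w w') : greedy ρ w = greedy ρ w' := by
  ext e
  by_cases he : e ∈ T
  · have he' : e ∉ Tᶜ := by simpa using he
    rw [greedy_iff h he he', greedy_iff h he he', bef_inter h1 he]
  · have he' : e ∈ Tᶜ := Finset.mem_compl.2 he
    have h' : ∀ A, ρ A = ρ (A ∩ Tᶜ) + ρ (A ∩ T) := fun A => (h A).trans (add_comm _ _)
    rw [greedy_iff h' he' he, greedy_iff h' he' he, bef_inter h2 he']

end Sep

theorem sep_zero {n r : ℕ} (M : Matroid (Fin n)) (hr : M.eRank = r)
    {d : (Fin r → ℕ) → MvPolynomial (Fin n) ℤ} (hd : IsExpansion r M d) {lam : Fin r → ℕ}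
    (hlam : lam ∈ box r n) {S : Set (Fin n)} (hS : IsSep M S) (h0 : S.Nonempty)
    (h1 : S ≠ Set.univ) : d lam = 0 := by
  classical
  obtain ⟨T, rfl⟩ : ∃ T : Finset (Fin n), S = ↑T := ⟨S.toFinset, by simp⟩
  have hT : rkFun M T + rkFun M Tᶜ = rkFun M Finset.univ := by
    rw [← Nat.cast_inj (R := ℕ∞), Nat.cast_add, coe_rkFun, coe_rkFun, coe_rkFun, Finset.coe_compl,
      Finset.coe_univ, Matroid.eRk_univ_eq]
    exact hS
  have hT0 : T.Nonempty := Finset.coe_nonempty.1 h0
  have hT1 : Tᶜ.Nonempty := by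
    rw [Finset.nonempty_iff_ne_empty]
    intro h
    exact h1 (by rw [Finset.compl_eq_empty_iff] at h; simp [h])
  have key : ∀ t : Fin n → ℝ, Function.Injective t → MvPolynomial.aeval t (d lam) = 0 := by
    intro t ht
    rw [extract M hr hd hlam ht, Sep.sum_zero ht hT0 hT1, mul_zero]
    intro w w' a1 a2
    rw [Sep.greedy_eq (Sep.rk_add M hT) a1 a2]
  have hc := const_of_scale (d lam) fun t ht s hs => by
    rw [key t ht, key (s • t) (fun i j hij => ht (mul_left_cancel₀ hs hij))]
  have ht : Function.Injective fun i : Fin n => ((i : ℕ) : ℝ) := fun i j hij =>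
    Fin.ext (Nat.cast_injective (R := ℝ) hij)
  have h2 := key _ ht
  rw [hc, MvPolynomial.aeval_C] at h2
  have h3 : MvPolynomial.constantCoeff (d lam) = 0 := by simpa using h2
  rw [hc, h3, map_zero]

theorem comps_eq_one {N : ℕ} (M : Matroid (Fin (N + 1)))
    (h : ∀ S : Set (Fin (N + 1)), IsSep M S → S.Nonempty → S = Set.univ) : comps M = 1 := by
  have hu : IsSep M Set.univ := by
    rw [IsSep, Set.compl_univ, Matroid.eRk_empty, add_zero, Matroid.eRk_univ_eq]
  have e : {S | Minimal (fun T : Set (Fin (N + 1)) => T.Nonempty ∧ IsSep M T) S} = {Set.univ} := by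
    ext S
    rw [Set.mem_ofPred_eq, Set.mem_singleton_iff]
    constructor
    · intro hS
      exact h S hS.1.2 hS.1.1
    · rintro rfl
      exact ⟨⟨Set.univ_nonempty, hu⟩, fun T hT _ => (h T hT.2 hT.1).ge⟩
  rw [comps, e, Set.ncard_singleton]

theorem loopless_of_conn {N : ℕ} (M : Matroid (Fin (N + 2))) (hE : M.E = Set.univ)
    (h : ∀ S : Set (Fin (N + 2)), IsSep M S → S.Nonempty → S = Set.univ) (e : Fin (N + 2)) :
    rkFun M {e} = 1 := by
  have hρ := isRk_rkFun M
  have h1 := hρ.unit ∅ e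
  rw [hρ.empty] at h1
  by_contra h2
  have h3 : rkFun M {e} = 0 := by
    have : rkFun M {e} ≤ 0 + 1 := h1
    omega
  have h4 : M.eRk {e} = 0 := by
    have := coe_rkFun M {e}
    rw [h3, Finset.coe_singleton] at this
    exact this.symm
  have h5 : IsSep M {e} := by
    refine le_antisymm ?_ ?_
    · rw [h4, zero_add]
      exact M.eRk_le_eRank _
    · rw [← Matroid.eRk_univ_eq, ← Set.union_compl_self {e}]
      exact M.eRk_union_le_eRk_add_eRk _ _
  have h6 := h _ h5 (Set.singleton_nonempty e)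
  obtain ⟨x, hx⟩ := exists_ne e
  exact hx (Set.mem_singleton_iff.1 (h6 ▸ Set.mem_univ x))

end G94
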