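import Pool.Agent.P.MP_740b33_co.Hankel
import Pool.Agent.P.MP_740b33_co.Poly
import Pool.Agent.P.MP_740b33_co.Sep

/-! The sign of every coefficient. -/

namespace G94

open H40M Polynomial

lemma tailP_seg {n : ℕ} (t : Fin n → ℝ) (g : ℕ) : tailP t g = ∏ l ∈ seg n g n, (X + C (t l)) := by
  unfold tailP seg
  congr 1
  ext l
  simp

theorem core {N r : ℕ} {ρ : Finset (Fin (N + 1)) → ℕ} (hρ : IsRk ρ) (hr : ρ Finset.univ = r + 1)
    (hl : ∀ e, ρ {e} = 1) (γ : Fin (r + 1) → ℕ) (hγ : Antitone γ) (hγN : ∀ a, γ a < N + 1)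
    (a : Fin N →₀ ℕ) (hd : ∑ b, (N - γ b) + tri (r + 1) = ∑ i, a i + N + (r + 1) * r)
    (P : MvPolynomial (Fin N) ℝ) (hP : ∀ a' ∈ P.support, ∑ i, a' i = ∑ i, a i)
    (hH : ∀ t : Fin (N + 1) → ℝ, Function.Injective t → ∑ u : Equiv.Perm (Fin (N + 1)),
      ((-1) ^ tri (r + 1) * Matrix.det (Matrix.of fun b c : Fin (r + 1) =>
        push (r + 1) (∏ e ∈ greedy ρ u, (X + C (t e))) (tailP t (γ b) * X ^ (c : ℕ)))) /
        ∏ S ∈ inis u, xs t S u = MvPolynomial.eval (fun i => t i.succ - t i.castSucc) P) :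
    0 ≤ P.coeff a := by
  have hrN : r ≤ N := by have := rk_le hρ; omega
  obtain ⟨F, W, w, hF, hW, hdF, hval⟩ := exists_base N a
  obtain ⟨F', M, Y, e, s, w', hF', hN, hV, hs, ho, hM⟩ := exists_parents hF hW hρ hr hl (r + 1)
  have hQ : ∀ ξ, Wt (F.V ξ) (r + 1) (F.mQ ρ W w ξ) := fun ξ => hr ▸ Fan.wt_mQ hW.ord hρ ξ
  obtain ⟨ξ, hξ, key⟩ := hankel (r + 1) F' hF' (fun l => M.pull (W l))
    (∏ b, F'.kap ρ (s b) (w' b)) ((r + 1) * (N - r)) (F.d + (r + 1) * r)
    (hcut_prod hρ hr s w' hs ho)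
    (by rw [M.dim, add_assoc, ← mul_add, Nat.add_sub_of_le hrN]) Y e hN 1 1 0 0 0 0 (by simp)
    (by simp) rfl (N + 1) le_rfl hV
    (fun ξ hξ => by
      obtain ⟨c, -, h1⟩ := hM ξ hξ
      obtain ⟨A, g1, g2, g3, g4, g5, g6⟩ := level_step (p := 0) (A := fun q => F.V (M.pr ξ) ^ q)
        (Fan.one_mem_V _) (hQ _) (M.ι_mem ξ) (fun c => Fan.cl_mem _ _) h1
        ⟨fun _ => le_rfl, fun _ _ _ h => absurd h (Nat.not_lt_zero _)⟩
        fun j _ q x hx => mul_mem_pow' ((hQ _).2.2 j) hx (add_comm _ _)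
      have g7 : ∀ l, Mlt (fun q => F.V (M.pr ξ) ^ q) 1 (F.cl (W l) (M.pr ξ)) := fun l q x hx =>
        mul_mem_pow' (mem_pow_one (Fan.cl_mem _ _)) hx (add_comm _ _)
      refine ⟨one_mem_pow_zero, one_mem_pow_zero, fun j _ => ?_, A, g1, ?_, fun l => ?_, ?_,
        fun l => ?_, g6⟩
      · simpa using Orth.zero j
      · simpa using g2 0 1 one_mem_pow_zero
      · rw [M.cl_pull]; exact g3 _ (g7 l)
      · simpa using g4
      · rw [M.cl_pull]; exact g5 _ (g7 l))
    γ hγ hγN (by simp only [Nat.add_sub_cancel]; omega)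
  obtain ⟨c, hc, h1⟩ := hM ξ hξ
  obtain ⟨c0, hc0, h2⟩ := hval _ (M.gen ξ hξ)
  have h3 := h2 P _ hP hH
  set t : Fin (N + 1) → F.Cn → ℝ := fun l => F.cl (W l) (M.pr ξ) with ht
  set u : Fin (r + 1) → (F.Cn → ℝ)[X] := fun b => ∏ l ∈ seg (N + 1) (γ b) (N + 1), (X + C (t l))
    with hu
  have hdd := h1.det_det u (fun b => N - γ b)
    (fun b => by
      have := (wt_prod (Fan.one_mem_V (M.pr ξ)) (seg (N + 1) (γ b) (N + 1)) t
        fun l _ => Fan.cl_mem _ _).mem
      rwa [card_seg le_rfl] at this)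
    (one_mem_pow_zero (V := F.V (M.pr ξ))) (by omega)
  have he1 : (Matrix.of fun c b : Fin (r + 1) => aevalTower M.ι (F'.cl (Y c) ξ) (u b)) =
      Matrix.of fun c b : Fin (r + 1) => ∏ l ∈ seg (N + 1) (γ b) (N + 1),
        (F'.cl (Y c) ξ + F'.cl (M.pull (W l)) ξ) := by
    ext1 c b
    simp [hu, ht, map_prod, Map.cl_pull]
  have he2 : (fun σ => (-1) ^ tri (r + 1) * Matrix.det (Matrix.of fun b c : Fin (r + 1) =>
      push (r + 1) (∏ e ∈ greedy ρ (w σ), (X + C (t e σ)))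
        (tailP (fun i => t i σ) (γ b) * X ^ (c : ℕ)))) =
      ((-1 : ℝ) ^ tri (r + 1)) • Matrix.det (Matrix.of fun b c : Fin (r + 1) =>
        push (r + 1) (F.mQ ρ W w (M.pr ξ)) (u b * X ^ (c : ℕ))) := by
    funext σ
    rw [Pi.smul_apply, smul_eq_mul]
    congr 1
    have h4 := (Pi.evalRingHom (fun _ : F.Cn => ℝ) σ).map_det (Matrix.of fun b c : Fin (r + 1) =>
      push (r + 1) (F.mQ ρ W w (M.pr ξ)) (u b * X ^ (c : ℕ)))
    rw [Pi.evalRingHom_apply] at h4
    rw [h4]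
    congr 1
    ext b c
    rw [RingHom.mapMatrix_apply, Matrix.map_apply, Matrix.of_apply, Matrix.of_apply,
      map_push _ _ (hQ _).1, Fan.mQ, fQ_map _ fun σ => hρ.card_greedy (w σ), tailP_seg]
    simp [hu, ht, Polynomial.map_prod]
  rw [he2, map_smul, smul_eq_mul] at h3
  rw [cutφ_apply, he1, map_one, one_mul, one_mul] at hdd
  simp only [Pi.one_apply, one_mul, zero_add] at key
  rw [hdd, mul_left_comm, h3] at key
  have h5 : (0 : ℝ) < c * (r + 1).factorial * c0 :=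
    mul_pos (mul_pos hc (by exact_mod_cast Nat.factorial_pos _)) hc0
  rw [← mul_assoc] at key
  exact le_of_mul_le_mul_left (by rwa [mul_zero]) h5

theorem coeff_nonneg {N r : ℕ} (M : Matroid (Fin (N + 1))) (hr : M.eRank = r)
    (hl : ∀ e, rkFun M {e} = 1) {d : (Fin r → ℕ) → MvPolynomial (Fin (N + 1)) ℤ}
    (hd : IsExpansion r M d) {lam : Fin r → ℕ} (hlam : lam ∈ box r (N + 1))
    {P : MvPolynomial (Fin N) ℤ}
    (h1 : d lam = MvPolynomial.aeval (fun i : Fin N => (MvPolynomial.X i.succ -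
      MvPolynomial.X i.castSucc : MvPolynomial (Fin (N + 1)) ℤ)) P)
    (h2 : ∀ a ∈ P.support, ∑ i, a i + ∑ b, lam b + N = r * (N + 1 - r)) (a : Fin N →₀ ℕ) :
    0 ≤ P.coeff a := by
  by_cases ha : a ∈ P.support
  swap
  · exact (MvPolynomial.notMem_support_iff.1 ha).ge
  have hρ := isRk_rkFun M
  have hu := rkFun_univ M hr
  have hrn := rk_le hρ
  obtain ⟨r, rfl⟩ : ∃ r', r = r' + 1 := by
    have h3 := hρ.le {0} Finset.univ
    rw [hl, Finset.eq_univ_of_forall (s := Finset.univ ∪ {0}) (by simp), hu] at h3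
    exact ⟨r - 1, by omega⟩
  have hsum : ∑ b, (N - Xtr.sh lam b) + tri (r + 1) = ∑ i, a i + N + (r + 1) * r := by
    have h3 : ∑ b : Fin (r + 1), (N - Xtr.sh lam b + lam b + (r - b)) = ∑ _b : Fin (r + 1), N :=
      Finset.sum_congr rfl fun b _ => by
        have := Xtr.sh_lt (hu ▸ hrn) hlam b
        simp only [Xtr.sh, Nat.add_sub_cancel] at this ⊢
        omega
    have h4 : ∑ b : Fin (r + 1), (r - (b : ℕ)) = tri (r + 1) := by
      rw [tri, ← Equiv.sum_comp Fin.revPerm]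
      refine Finset.sum_congr rfl fun b _ => ?_
      have := b.2
      simp only [Fin.revPerm_apply, Fin.val_rev]
      omega
    rw [Finset.sum_add_distrib, Finset.sum_add_distrib, h4] at h3
    simp only [Finset.sum_const, Finset.card_univ, Fintype.card_fin, smul_eq_mul] at h3
    have h5 := h2 a ha
    have h6 : (r + 1) * N = (r + 1) * (N + 1 - (r + 1)) + (r + 1) * r := by
      rw [← mul_add]; congr 1; omega
    omega
  have key := core hρ hu hl (Xtr.sh lam) (Xtr.sh_anti hlam).antitone (Xtr.sh_lt (hu ▸ hrn) hlam) a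
    hsum (P.map (algebraMap ℤ ℝ))
    (fun a' ha' => by
      have h3 := h2 a' (MvPolynomial.support_map_subset _ _ ha')
      have h4 := h2 a ha
      omega)
    (fun t ht => by
      have h3 := extract M hr hd hlam ht
      rw [Finset.mul_sum] at h3
      simp only [mul_div_assoc]
      refine h3.symm.trans ?_
      rw [h1, MvPolynomial.eval_map, ← MvPolynomial.aeval_def, ← AlgHom.comp_apply,
        MvPolynomial.comp_aeval]
      simp)
  rw [MvPolynomial.coeff_map, eq_intCast] at key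
  exact_mod_cast key

lemma exists_nat {σ : Type} (P : MvPolynomial σ ℤ) (h : ∀ a, 0 ≤ P.coeff a) :
    ∃ Q : MvPolynomial σ ℕ, Q.map (Nat.castRingHom ℤ) = P := by
  classical
  refine ⟨∑ a ∈ P.support, MvPolynomial.monomial a (P.coeff a).toNat, ?_⟩
  conv_rhs => rw [P.as_sum]
  rw [map_sum]
  refine Finset.sum_congr rfl fun a _ => ?_
  rw [MvPolynomial.map_monomial, Nat.coe_castRingHom, Int.toNat_of_nonneg (h a)]

lemma eval₂_neg {σ A : Type} [Fintype σ] [CommRing A] (Q : MvPolynomial σ ℕ) {k : ℕ}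
    (h : ∀ a ∈ Q.support, ∑ i, a i = k) (y : σ → A) :
    MvPolynomial.eval₂ (Nat.castRingHom A) (fun i => -y i) Q =
      (-1) ^ k * MvPolynomial.eval₂ (Nat.castRingHom A) y Q := by
  rw [MvPolynomial.eval₂_eq', MvPolynomial.eval₂_eq', Finset.mul_sum]
  refine Finset.sum_congr rfl fun a ha => ?_
  rw [← h a ha, ← Finset.prod_pow_eq_pow_sum, mul_left_comm, ← Finset.prod_mul_distrib]
  congr 1
  exact Finset.prod_congr rfl fun i _ => neg_pow _ _

lemma of_const {n r : ℕ} (M : Matroid (Fin n)) (hr : M.eRank = r)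
    {d : (Fin r → ℕ) → MvPolynomial (Fin n) ℤ} (hd : IsExpansion r M d) {lam : Fin r → ℕ}
    (hlam : lam ∈ box r n) (h : ∑ a, lam a + (n - 1) = r * (n - r)) (h0 : expo r M lam = 0) :
    ∃ P : MvPolynomial (Fin (n - 1)) ℕ, ((expo r M lam).negOnePow : ℤ) • d lam =
      MvPolynomial.eval₂ (Nat.castRingHom _) (adj n) P ∧
        ∀ a ∈ P.support, ((∑ i, a i : ℕ) : ℤ) = expo r M lam := by
  obtain ⟨m, hm⟩ := degree_zero_nonneg M hr hd hlam h
  refine ⟨MvPolynomial.C m, by simp [h0, hm], fun a ha => ?_⟩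
  have h1 : a = 0 := by
    by_contra h1
    exact MvPolynomial.mem_support_iff.1 ha (by rw [MvPolynomial.coeff_C, if_neg (Ne.symm h1)])
  simp [h1, h0]

theorem graham {n r : ℕ} (M : Matroid (Fin n)) (hE : M.E = Set.univ) (hr : M.eRank = r)
    {d : (Fin r → ℕ) → MvPolynomial (Fin n) ℤ} (hd : IsExpansion r M d) {lam : Fin r → ℕ}
    (hlam : lam ∈ box r n) :
    ∃ P : MvPolynomial (Fin (n - 1)) ℕ, ((expo r M lam).negOnePow : ℤ) • d lam =
      MvPolynomial.eval₂ (Nat.castRingHom _) (adj n) P ∧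
        ∀ a ∈ P.support, ((∑ i, a i : ℕ) : ℤ) = expo r M lam := by
  by_cases h : ∀ S : Set (Fin n), IsSep M S → S.Nonempty → S = Set.univ
  swap
  · push Not at h
    obtain ⟨S, h1, h2, h3⟩ := h
    exact ⟨0, by simp [sep_zero M hr hd hlam h1 h2 h3], by simp⟩
  have hrn : r ≤ n := rkFun_univ M hr ▸ rk_le (isRk_rkFun M)
  have hb : ∀ a, lam a ≤ n - r := fun a => Nat.lt_succ_iff.1
    (Finset.mem_range.1 (Fintype.mem_piFinset.1 (Finset.mem_filter.1 hlam).1 a))
  rcases n with _ | N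
  · obtain rfl : r = 0 := by omega
    have hc : comps M = 0 := by
      rw [comps, Set.ncard_eq_zero (Set.toFinite _)]
      refine Set.eq_empty_of_forall_notMem fun S hS => ?_
      obtain ⟨x, -⟩ := hS.1.1
      exact x.elim0
    exact of_const M hr hd hlam (by simp) (by simp [expo, hc])
  have hc := comps_eq_one M h
  rcases N with _ | N
  · have h1 : ∑ a, lam a = 0 := Finset.sum_eq_zero fun a _ => by
      have := hb a
      have := a.2
      omega
    have h2 : r = 0 ∨ r = 1 := by omega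
    refine of_const M hr hd hlam ?_ ?_
    · rw [h1]
      rcases h2 with rfl | rfl <;> simp
    · rw [expo, ← Nat.cast_sum, h1, hc]
      rcases h2 with rfl | rfl <;> simp
  obtain ⟨P, h1, h2⟩ := exists_diff M hr hd hlam
  obtain ⟨Q, rfl⟩ := exists_nat P
    (coeff_nonneg M hr (loopless_of_conn M hE h) hd hlam h1 h2)
  have hs : (Q.map (Nat.castRingHom ℤ)).support = Q.support :=
    MvPolynomial.support_map_of_injective _ Nat.cast_injective
  have h3 : ∀ a ∈ Q.support, ((∑ i, a i : ℕ) : ℤ) = expo r M lam := fun a ha => by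
    have h4 := h2 a (hs ▸ ha)
    rw [expo, ← Nat.cast_sum, hc]
    zify [hrn] at h4 ⊢
    linarith
  refine ⟨Q, ?_, h3⟩
  by_cases hQ : Q = 0
  · simp [h1, hQ]
  obtain ⟨a, ha⟩ := MvPolynomial.support_nonempty.2 hQ
  have h5 := eval₂_neg Q (k := ∑ i, a i)
    (fun a' ha' => by exact_mod_cast (h3 a' ha').trans (h3 a ha).symm)
    (fun i : Fin (N + 1) => (MvPolynomial.X i.succ - MvPolynomial.X i.castSucc :
      MvPolynomial (Fin (N + 1 + 1)) ℤ))
  simp only [neg_sub] at h5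
  rw [← h3 a ha, Int.coe_negOnePow_natCast, h1, MvPolynomial.aeval_def, MvPolynomial.eval₂_map,
    zsmul_eq_mul]
  push_cast
  refine Eq.trans ?_ h5.symm
  congr 2

end G94
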