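import Pool.Agent.P.MP_740b33_co.Poly
import Pool.Agent.P.MP_740b33_co.ExtW
import Pool.Agent.P.MP_740b33_co.Comp

/-! Package D3: the coefficients of `C_m(M)` are homogeneous polynomials in differences. -/

namespace G94

open H40M Polynomial

theorem zero_of_lt {N r m : ℕ} (M : Matroid (Fin (N + 1))) (hr : M.eRank = r)
    (hm : m + 1 < comps M) {d : (Fin r → ℕ) → MvPolynomial (Fin (N + 1)) ℤ}
    (hd : IsExpW r m M d) {lam : Fin r → ℕ} (hlam : lam ∈ box r (N + 1)) : d lam = 0 := by
  refine Poly.ext_inj fun t ht => ?_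
  rw [extractW M hr hd hlam ht, last_zero M ht hm fun B =>
    Matrix.det (Matrix.of fun a c : Fin r => push r (∏ b ∈ B, (X + C (t b)))
      (tailP t (lam a + (r - 1 - a)) * X ^ (c : ℕ))), mul_zero, map_zero]

open G94.Poly in
theorem exists_diffW {N r m : ℕ} (M : Matroid (Fin (N + 1))) (hr : M.eRank = r)
    (hm : m < comps M) {d : (Fin r → ℕ) → MvPolynomial (Fin (N + 1)) ℤ}
    (hd : IsExpW r m M d) {lam : Fin r → ℕ} (hlam : lam ∈ box r (N + 1)) :
    ∃ P : MvPolynomial (Fin N) ℤ,
      d lam = MvPolynomial.aeval (fun i : Fin N => (MvPolynomial.X i.succ -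
        MvPolynomial.X i.castSucc : MvPolynomial (Fin (N + 1)) ℤ)) P ∧
      ∀ a ∈ P.support, ∑ i, a i + ∑ b, lam b + N = r * (N + 1 - r) + m := by
  have hρ := isRk_rkFun M
  have hu := rkFun_univ M hr
  have hB : ∀ w, (greedy (rkFun M) w).card = r := fun w => (hρ.card_greedy w).trans hu
  have hrn : r ≤ N + 1 := by
    have := Finset.card_le_univ (greedy (rkFun M) 1)
    rwa [hB, Fintype.card_fin] at this
  have hb : ∀ a, lam a ≤ N + 1 - r := fun a =>
    Nat.lt_succ_iff.1 (Finset.mem_range.1 (Fintype.mem_piFinset.1 (Finset.mem_filter.1 hlam).1 a))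
  have hshift : ∀ t : Fin (N + 1) → ℝ, Function.Injective t → ∀ s : ℝ,
      MvPolynomial.aeval (fun b => t b + s) (d lam) = MvPolynomial.aeval t (d lam) := by
    intro t ht s
    rw [extractW M hr hd hlam ht, extractW M hr hd hlam (t := fun b => t b + s)
      fun i j hij => ht (add_right_cancel hij), ← last_shift M ht hm s fun B =>
        Matrix.det (Matrix.of fun a c : Fin r => push r (∏ b ∈ B, (X + C (t b)))
          (tailP t (lam a + (r - 1 - a)) * X ^ (c : ℕ)))]
    congr 1
    refine Finset.sum_congr rfl fun w _ => ?_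
    rw [prod_xs_shift, det_shift t s _ (hB w)]
  have hsum : ∑ a : Fin r, (N + 1 - 1 - (lam a + (r - 1 - a))) + ∑ a : Fin r, (a : ℕ) + ∑ b, lam b
      = r * (N + 1 - r) + r * (r - 1) := by
    have h1 : ∑ a : Fin r, ((N + 1 - 1 - (lam a + (r - 1 - a))) + lam a + (r - 1 - a)) =
        ∑ _a : Fin r, N :=
      Finset.sum_congr rfl fun a _ => by
        have := hb a
        have := a.2
        omega
    have h2 : ∑ a : Fin r, (r - 1 - (a : ℕ)) = ∑ a : Fin r, (a : ℕ) := by
      rw [← Equiv.sum_comp Fin.revPerm]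
      refine Finset.sum_congr rfl fun a _ => ?_
      have := a.2
      simp only [Fin.revPerm_apply, Fin.val_rev]
      omega
    rw [Finset.sum_add_distrib, Finset.sum_add_distrib, h2] at h1
    simp only [Finset.sum_const, Finset.card_univ, Fintype.card_fin, smul_eq_mul] at h1
    have h3 : r * N = r * (N + 1 - r) + r * (r - 1) := by
      rcases Nat.eq_zero_or_pos r with h | h
      · simp [h]
      · rw [← mul_add]; congr 1; omega
    omega
  have hscale : ∀ t : Fin (N + 1) → ℝ, Function.Injective t → ∀ s : ℝ, s ≠ 0 →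
      s ^ (∑ b, lam b + N) * MvPolynomial.aeval (s • t) (d lam) =
        s ^ (r * (N + 1 - r) + m) * MvPolynomial.aeval t (d lam) := by
    intro t ht s hs
    rw [extractW M hr hd hlam ht, extractW M hr hd hlam (t := s • t)
      fun i j hij => ht (mul_left_cancel₀ hs hij), mul_left_comm, mul_left_comm (s ^ _)]
    congr 1
    rw [Finset.mul_sum, Finset.mul_sum]
    refine Finset.sum_congr rfl fun w _ => ?_
    have h := det_scale t s _ (hB w) (fun a => lam a + (r - 1 - a))
    have h2 := congrArg (fun z => s ^ (∑ b, lam b) * z) h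
    simp only [← mul_assoc, ← pow_add] at h2
    rw [add_comm (∑ b, lam b) (_ + _), hsum, pow_add, pow_add, mul_assoc, mul_assoc,
      mul_left_comm, mul_left_comm (s ^ (r * (N + 1 - r)))] at h2
    have h3 := mul_left_cancel₀ (pow_ne_zero _ hs) h2
    rw [prod_xs_scale, Nat.add_sub_cancel, ← mul_div_assoc, ← mul_div_assoc, Pi.smul_apply,
      smul_eq_mul, mul_pow, pow_add, mul_comm (s ^ (∑ b, lam b)) (s ^ N), mul_assoc (s ^ N),
      mul_div_mul_left _ _ (pow_ne_zero _ hs), mul_left_comm, h3, pow_add]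
    congr 1
    ring
  have e1 : MvPolynomial.aeval (fun i : Fin (N + 1) =>
      (MvPolynomial.X i - MvPolynomial.X 0 : MvPolynomial (Fin (N + 1)) ℤ)) (d lam) = d lam := by
    refine ext_inj fun t ht => ?_
    rw [aeval_aeval, ← hshift t ht (-t 0)]
    simp only [map_sub, MvPolynomial.aeval_X, ← sub_eq_add_neg]
  have e2 : MvPolynomial.C (2 ^ (∑ b, lam b + N)) * MvPolynomial.aeval (fun i : Fin (N + 1) =>
      (MvPolynomial.C 2 * MvPolynomial.X i : MvPolynomial (Fin (N + 1)) ℤ)) (d lam) =
      MvPolynomial.C (2 ^ (r * (N + 1 - r) + m)) * d lam := by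
    refine ext_inj fun t ht => ?_
    have h := hscale t ht 2 two_ne_zero
    rw [map_mul, map_mul, aeval_aeval]
    simp only [map_mul, MvPolynomial.aeval_X, map_pow, map_ofNat]
    exact h
  refine ⟨MvPolynomial.aeval (ps N) (d lam), ?_, fun a ha => ?_⟩
  · rw [aeval_aeval]
    simp only [diff_ps]
    exact e1.symm
  · have h := congrArg (MvPolynomial.aeval (ps N)) e2
    have h1 : MvPolynomial.aeval (ps N) (MvPolynomial.aeval (fun i : Fin (N + 1) =>
        (MvPolynomial.C 2 * MvPolynomial.X i : MvPolynomial (Fin (N + 1)) ℤ)) (d lam)) =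
        MvPolynomial.aeval (fun k : Fin N =>
          (MvPolynomial.C 2 * MvPolynomial.X k : MvPolynomial (Fin N) ℤ))
          (MvPolynomial.aeval (ps N) (d lam)) := by
      rw [aeval_aeval, aeval_aeval]
      simp only [double_ps, map_mul, MvPolynomial.aeval_X, MvPolynomial.aeval_C,
        MvPolynomial.algebraMap_eq]
    rw [map_mul, map_mul, h1, MvPolynomial.aeval_C, MvPolynomial.aeval_C,
      MvPolynomial.algebraMap_eq] at h
    have h2 := congrArg (MvPolynomial.coeff a) h
    rw [MvPolynomial.coeff_C_mul, MvPolynomial.coeff_C_mul, coeff_double, ← mul_assoc,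
      ← pow_add] at h2
    have h3 := mul_right_cancel₀ (MvPolynomial.mem_support_iff.1 ha) h2
    have h4 := pow_right_injective₀ (show (0 : ℤ) < 2 by norm_num) (by norm_num) h3
    omega

end G94
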