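import Pool.Agent.P.MP_740b33_co.Loop
import Pool.Agent.P.MP_740b33_co.PolyW

/-! The sign of every coefficient of `C_m(M)`. -/

namespace G94

open H40M Polynomial

lemma exists_last {F : Fan} {N : ℕ} {W : Fin (N + 1) → F.Ray → ℝ}
    {w : F.Cn → Equiv.Perm (Fin (N + 1))} (hW : F.Base W w) :
    ∃ g, F.Conv g ∧ ∀ ξ σ, F.cl g ξ σ = F.cl (W (w σ (Fin.last N))) ξ σ - F.cl (W 0) ξ σ := by
  have h : ∀ σ, ∀ ρ ∈ F.rays σ, Finset.univ.sup' Finset.univ_nonempty (fun i => W i ρ) - W 0 ρ =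
      (W (w σ (Fin.last N)) - W 0) ρ := fun σ ρ hρ => by
    rw [Pi.sub_apply, sub_left_inj]
    refine le_antisymm (Finset.sup'_le _ _ fun i _ => ?_)
      (Finset.le_sup' (fun i => W i ρ) (Finset.mem_univ _))
    simpa using hW.ord σ ρ hρ (Fin.le_last ((w σ).symm i))
  refine ⟨fun ρ => Finset.univ.sup' Finset.univ_nonempty (fun i => W i ρ) - W 0 ρ,
    Fan.conv_max (f := fun l => W l - W 0) (fun σ => w σ (Fin.last N))
      (fun σ => hW.sub _ _ (Fin.zero_le _)) (fun σ ρ => ?_) h, fun ξ σ => ?_⟩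
  · exact sub_le_sub_right (Finset.le_sup' (fun i => W i ρ) (Finset.mem_univ _)) _
  · rw [Fan.cl_congr (h σ), Fan.cl_sub, Pi.sub_apply]

lemma deg_sum {N r : ℕ} (hrn : r ≤ N + 1) {lam : Fin r → ℕ} (hlam : lam ∈ box r (N + 1)) :
    ∑ b, (N + 1 - 1 - Xtr.sh lam b) + tri r + ∑ b, lam b = r * (N + 1 - r) + r * (r - 1) := by
  have h1 : ∑ a : Fin r, (N + 1 - 1 - Xtr.sh lam a + lam a + (r - 1 - a)) = ∑ _a : Fin r, N :=
    Finset.sum_congr rfl fun a _ => by
      have := Xtr.sh_lt hrn hlam a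
      simp only [Xtr.sh] at this ⊢
      omega
  have h2 : ∑ a : Fin r, (r - 1 - (a : ℕ)) = tri r := by
    rw [tri, ← Equiv.sum_comp Fin.revPerm]
    refine Finset.sum_congr rfl fun a _ => ?_
    have := a.2
    simp only [Fin.revPerm_apply, Fin.val_rev]
    omega
  rw [Finset.sum_add_distrib, Finset.sum_add_distrib, h2] at h1
  simp only [Finset.sum_const, Finset.card_univ, Fintype.card_fin, smul_eq_mul] at h1
  have h3 : r * N = r * (N + 1 - r) + r * (r - 1) := by
    rcases Nat.eq_zero_or_pos r with h | h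
    · simp [h]
    · rw [← mul_add]; congr 1; omega
  omega

theorem coeff_nonnegW {N r m : ℕ} (M : Matroid (Fin (N + 1))) (hr : M.eRank = r)
    (hm : m < comps M) {d : (Fin r → ℕ) → MvPolynomial (Fin (N + 1)) ℤ}
    (hd : IsExpW r m M d) {lam : Fin r → ℕ} (hlam : lam ∈ box r (N + 1))
    {P : MvPolynomial (Fin N) ℤ}
    (h1 : d lam = MvPolynomial.aeval (fun i : Fin N => (MvPolynomial.X i.succ -
      MvPolynomial.X i.castSucc : MvPolynomial (Fin (N + 1)) ℤ)) P)
    (h2 : ∀ a ∈ P.support, ∑ i, a i + ∑ b, lam b + N = r * (N + 1 - r) + m) (a : Fin N →₀ ℕ) :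
    0 ≤ P.coeff a := by
  by_cases ha : a ∈ P.support
  swap
  · exact (MvPolynomial.notMem_support_iff.1 ha).ge
  have hρ := isRk_rkFun M
  have hu := rkFun_univ M hr
  have hrn : r ≤ N + 1 := hu ▸ rk_le hρ
  obtain ⟨F, W, w, hF, hW, hdF, hval⟩ := exists_base N a
  obtain ⟨g, hg, hcl⟩ := exists_last hW
  obtain ⟨ξ, hξ⟩ := F.exists_gen
  have key := posAll (N + 1) hF hW hρ hu (Xtr.sh lam) (Xtr.sh_anti hlam).antitone
    (Xtr.sh_lt hrn hlam) (Multiset.replicate m g)
    (fun g' hg' => Multiset.eq_of_mem_replicate hg' ▸ hg)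
    (by
      have h3 := deg_sum hrn hlam
      have h4 := h2 a ha
      rw [Multiset.card_replicate]
      omega) hξ
  obtain ⟨c, hc, h3⟩ := hval ξ hξ
  have h4 := h3 (P.map (algebraMap ℤ ℝ))
    (fun t u => (t (u (Fin.last N)) - t 0) ^ m * hdet (rkFun M) (Xtr.sh lam) t u)
    (fun a' ha' => by
      have h3 := h2 a' (MvPolynomial.support_map_subset _ _ ha')
      have h4 := h2 a ha
      omega)
    (fun t ht => by
      have h5 := extractW M hr hd hlam ht
      have h6 := last_shift M ht hm (-t 0) fun B => (-1) ^ tri r * Matrix.det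
        (Matrix.of fun b c : Fin r => push r (∏ e ∈ B, (X + C (t e)))
          (tailP t (Xtr.sh lam b) * X ^ (c : ℕ)))
      simp only [← sub_eq_add_neg] at h6
      refine h6.trans (Eq.trans ?_ (h5.symm.trans ?_))
      · rw [Finset.mul_sum]
        refine Finset.sum_congr rfl fun u _ => ?_
        rw [mul_left_comm, mul_div_assoc]
        rfl
      · rw [h1, MvPolynomial.eval_map, ← MvPolynomial.aeval_def, ← AlgHom.comp_apply,
          MvPolynomial.comp_aeval]
        simp)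
  have h5 : ((Multiset.replicate m g).map fun g => F.cl g ξ).prod *
      (fun σ => hdet (rkFun M) (Xtr.sh lam) (fun i => F.cl (W i) ξ σ) (w σ)) =
      fun σ => (F.cl (W (w σ (Fin.last N))) ξ σ - F.cl (W 0) ξ σ) ^ m *
        hdet (rkFun M) (Xtr.sh lam) (fun i => F.cl (W i) ξ σ) (w σ) := by
    funext σ
    rw [Multiset.map_replicate, Multiset.prod_replicate, Pi.mul_apply, Pi.pow_apply, hcl]
  rw [h5, h4, MvPolynomial.coeff_map, eq_intCast] at key
  exact_mod_cast (mul_nonneg_iff_of_pos_left hc).1 key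

theorem grahamW {n r m : ℕ} (M : Matroid (Fin n)) (hE : M.E = Set.univ) (hr : M.eRank = r)
    (hm : m ≤ comps M - 1) {d : (Fin r → ℕ) → MvPolynomial (Fin n) ℤ} (hd : IsExpW r m M d)
    {lam : Fin r → ℕ} (hlam : lam ∈ box r n) :
    ∃ P : MvPolynomial (Fin (n - 1)) ℕ, ((expo r M lam).negOnePow : ℤ) • d lam =
      MvPolynomial.eval₂ (Nat.castRingHom _) (adj n) P ∧
        ∀ a ∈ P.support, ((∑ i, a i : ℕ) : ℤ) = expo r M lam := by
  rcases n with _ | N
  · have h0 := comps_le M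
    obtain rfl : m = 0 := by omega
    refine graham M hE hr ?_ hlam
    simpa only [IsExpW, IsExpansion, chowW, chow, pow_zero, one_mul] using hd
  have hc := comps_pos M
  by_cases h : m + 1 < comps M
  · exact ⟨0, by simp [zero_of_lt M hr h hd hlam], by simp⟩
  have hrn : r ≤ N + 1 := rkFun_univ M hr ▸ rk_le (isRk_rkFun M)
  obtain ⟨P, h1, h2⟩ := exists_diffW M hr (by omega) hd hlam
  obtain ⟨Q, rfl⟩ := exists_nat P (coeff_nonnegW M hr (by omega) hd hlam h1 h2)
  have hs : (Q.map (Nat.castRingHom ℤ)).support = Q.support :=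
    MvPolynomial.support_map_of_injective _ Nat.cast_injective
  have h3 : ∀ a ∈ Q.support, ((∑ i, a i : ℕ) : ℤ) = expo r M lam := fun a ha => by
    have h4 := h2 a (hs ▸ ha)
    rw [expo, ← Nat.cast_sum, show comps M = m + 1 by omega]
    zify [hrn] at h4 ⊢
    linarith
  refine ⟨Q, ?_, h3⟩
  by_cases hQ : Q = 0
  · simp [h1, hQ]
  obtain ⟨a, ha⟩ := MvPolynomial.support_nonempty.2 hQ
  have h5 := eval₂_neg Q (k := ∑ i, a i)
    (fun a' ha' => by exact_mod_cast (h3 a' ha').trans (h3 a ha).symm)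
    (fun i : Fin N => (MvPolynomial.X i.succ - MvPolynomial.X i.castSucc :
      MvPolynomial (Fin (N + 1)) ℤ))
  simp only [neg_sub] at h5
  rw [← h3 a ha, Int.coe_negOnePow_natCast, h1, MvPolynomial.aeval_def, MvPolynomial.eval₂_map,
    zsmul_eq_mul]
  push_cast
  refine Eq.trans ?_ h5.symm
  congr 2

end G94
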