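import Pool.Agent.P.MP_740b33_co.PermF

/-! Package C2: cuts by Bergman classes are Lefschetz. -/

namespace G94

open H40M Polynomial

namespace HCut

lemma card_compl {n : ℕ} {ρ : Finset (Fin n) → ℕ} (hρ : IsRk ρ) (w : Equiv.Perm (Fin n)) :
    (greedy ρ w)ᶜ.card = n - ρ Finset.univ := by
  rw [Finset.card_compl, Fintype.card_fin, hρ.card_greedy]

lemma prod_mem {n : ℕ} {Ω : Type} [Nonempty Ω] {V : Submodule ℝ (Ω → ℝ)} (h1 : (1 : Ω → ℝ) ∈ V)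
    {t : Fin n → Ω → ℝ} {w : Ω → Equiv.Perm (Fin n)} (hV : ∀ f, lovF t w f ∈ V)
    {ρ : Finset (Fin n) → ℕ} (hρ : IsRk ρ) :
    (fun ω => ∏ c ∈ (greedy ρ (w ω))ᶜ, t c ω) ∈ V ^ (n - ρ Finset.univ) := by
  have h := (wt_greedy_compl h1 hV hρ).2.2 0
  rw [Nat.sub_zero, coeff_zero_eq_eval_zero] at h
  convert h using 1
  funext ω
  rw [eval_fQ t (fun ω => card_compl hρ (w ω))]
  simp

/-- Currying as a morphism of algebras. -/
def cur (A B : Type) : (A × B → ℝ) →ₐ[ℝ] (A → B → ℝ) where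
  toFun g := fun a b => g (a, b)
  map_one' := rfl
  map_mul' _ _ := rfl
  map_zero' := rfl
  map_add' _ _ := rfl
  commutes' _ := rfl

lemma cl_lin_apply {F : Fan} (m : F.Ξ →ₗ[ℝ] ℝ) (ξ : F.Ξ) (σ : F.Cn) :
    F.cl (F.lin m) ξ σ = m ξ := congrFun (Fan.cl_lin m ξ) σ

lemma kap_mem_V {F : Fan} {n : ℕ} {ρ : Finset (Fin n) → ℕ} (hρ : IsRk ρ)
    {s : Fin n → F.Ξ →ₗ[ℝ] ℝ} {w : F.Cn → Equiv.Perm (Fin n)}
    (h : F.Ord (fun j => F.lin (s j)) w) (ξ : F.Ξ) :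
    F.kap ρ s w ξ ∈ F.V ξ ^ (n - ρ Finset.univ) := by
  have h1 := prod_mem (Fan.one_mem_V ξ) (fun f => Fan.cl_lovR h f ξ ▸ Fan.cl_mem _ ξ) hρ
  simp only [cl_lin_apply] at h1
  exact h1

lemma poly_ext {Ω : Type} {P Q : (Ω → ℝ)[X]}
    (h : ∀ ω, P.map (Pi.evalRingHom (fun _ => ℝ) ω) = Q.map (Pi.evalRingHom (fun _ => ℝ) ω)) :
    P = Q := by
  ext j ω
  have := congrArg (fun p => coeff p j) (h ω)
  simp only [coeff_map] at this
  exact this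

lemma push_val {N r : ℕ} (t : Fin (N + 1) → ℝ) (h0 : t 0 = 0) {B : Finset (Fin (N + 1))}
    (hB : B.card = r + 1) :
    push (r + 1) (∏ b ∈ B, (X + C (t b))) (∏ c ∈ Finset.univ.erase 0, (X + C (t c))) =
      ∏ c ∈ Bᶜ, t c := by
  have hm : ∀ A : Finset (Fin (N + 1)), (∏ b ∈ A, (X + C (t b))).Monic := fun A =>
    monic_prod_of_monic _ _ fun b _ => monic_X_add_C (t b)
  by_cases h : (0 : Fin (N + 1)) ∈ B
  · have e1 : Finset.univ.erase (0 : Fin (N + 1)) = B.erase 0 ∪ Bᶜ := by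
      ext c
      by_cases hc : c = 0
      · simp [hc, h]
      · simp [hc, em]
    have e2 : Disjoint (B.erase 0) Bᶜ :=
      Finset.disjoint_left.2 fun c h1 h2 => Finset.mem_compl.1 h2 (Finset.mem_of_mem_erase h1)
    have e3 : (∏ b ∈ B.erase 0, (X + C (t b))).natDegree = r := by
      rw [natDegree_prod_of_monic _ _ fun b _ => monic_X_add_C (t b)]
      simp [Finset.card_erase_of_mem h, hB]
    have e4 : (X + C (t 0) : ℝ[X]) = X - C 0 := by rw [h0]; simp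
    rw [e1, Finset.prod_union e2, ← Finset.prod_erase_mul B _ h, e4,
      push_monic_mul (hm _) e3 (monic_X_sub_C 0) (natDegree_X_sub_C 0) le_rfl, push_X_sub_C,
      eval_prod]
    simp
  · have e1 : Finset.univ.erase (0 : Fin (N + 1)) = B ∪ Bᶜ.erase 0 := by
      ext c
      by_cases hc : c = 0
      · simp [hc, h]
      · simp [hc, em]
    have e2 : Disjoint B (Bᶜ.erase 0) :=
      Finset.disjoint_left.2 fun c h1 h2 => Finset.mem_compl.1 (Finset.mem_of_mem_erase h2) h1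
    rw [e1, Finset.prod_union e2, push_self_mul _ (hm B),
      Finset.prod_eq_zero (Finset.mem_compl.2 h) h0]

/-- The invariant of the induction. -/
def Inv (F : Fan) (ξ : F.Ξ) {n : ℕ} (ρ : Finset (Fin n) → ℕ) (K : F.Cn → ℝ) (p : ℕ) : Prop :=
  K ∈ F.V ξ ^ p ∧ ∃ (S : Sys (F.Cn → ℝ)) (l : F.Cn → ℝ), S.Lef l ∧ S.V = F.V ξ ∧
    (∀ g, F.Conv g → GN S (F.cl g ξ)) ∧
    (∀ (s : Fin n → F.Ξ →ₗ[ℝ] ℝ) (w : F.Cn → Equiv.Perm (Fin n)),
      F.Ord (fun j => F.lin (s j)) w → ∀ i,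
        S.Good (ρ Finset.univ) i (F.mQ ρ (fun j => F.lin (s j)) w ξ)) ∧
    (p ≤ F.d → ∃ i : S.I, S.φ i = cutφ (F.φ ξ) K ∧ S.d i + p = F.d ∧
      ∀ g, F.NN g → S.Eff i (F.cl g ξ))

lemma inv_one {F : Fan} (hF : F.Good) {ξ : F.Ξ} (hξ : F.Gen ξ) {n : ℕ} {ρ : Finset (Fin n) → ℕ}
    (hρ : IsRk ρ) : Inv F ξ ρ 1 0 := by
  obtain ⟨l, hl⟩ := hF.amp
  refine ⟨one_mem_pow_zero, F.sys ξ, F.cl l ξ, hF.lef hξ hl, rfl,
    fun g hg => Fan.gn_conv hF.bal hξ hg, fun s w h i => Fan.good_mQ hF.bal hξ h hρ i,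
    fun _ => ⟨F.face0, by rw [Fan.sys_φ0, cutφ_one], rfl,
      fun g hg => Fan.eff_nn ξ _ hg fun ρ hρ => ?_⟩⟩
  exact absurd hρ (Finset.notMem_empty _)

lemma inv_step {F : Fan} {ξ : F.Ξ} {N : ℕ} {ρ : Finset (Fin (N + 1)) → ℕ} (hρ : IsRk ρ) {r : ℕ}
    (hr : ρ Finset.univ = r + 1) {K : F.Cn → ℝ} {p : ℕ} (hK : Inv F ξ ρ K p)
    {s : Fin (N + 1) → F.Ξ →ₗ[ℝ] ℝ} {w : F.Cn → Equiv.Perm (Fin (N + 1))} (h0 : s 0 = 0)
    (ho : F.Ord (fun j => F.lin (s j)) w) : Inv F ξ ρ (K * F.kap ρ s w ξ) (p + (N - r)) := by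
  obtain ⟨hK, S, l, h1, h2, h3, h4, h5⟩ := hK
  have hrN : r ≤ N := by
    have := Finset.card_le_univ (greedy ρ 1)
    rw [hρ.card_greedy, hr, Fintype.card_fin] at this
    omega
  have hk : F.kap ρ s w ξ ∈ F.V ξ ^ (N - r) := by
    have := kap_mem_V hρ ho ξ
    rwa [hr, Nat.add_sub_add_right] at this
  have hkS : F.kap ρ s w ξ ∈ S.V ^ (N - r) := h2 ▸ hk
  have hQ : ∀ i, S.Good (r + 1) i (F.mQ ρ (fun j => F.lin (s j)) w ξ) := hr ▸ h4 s w ho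
  have hmap : ∀ σ, (F.mQ ρ (fun j => F.lin (s j)) w ξ).map (Pi.evalRingHom (fun _ => ℝ) σ) =
      ∏ b ∈ greedy ρ (w σ), (X + C (s b ξ)) := by
    intro σ
    rw [Fan.mQ, fQ_map _ (fun σ => hρ.card_greedy (w σ))]
    simp only [cl_lin_apply]
  set L : Multiset (F.Cn → ℝ) :=
    (Finset.univ.erase (0 : Fin (N + 1))).val.map fun c => F.cl (F.lin (s c)) ξ with hL
  have hP : ∀ σ, ((L.map fun a => X + C a).prod).map (Pi.evalRingHom (fun _ => ℝ) σ) =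
      ∏ c ∈ Finset.univ.erase 0, (X + C (s c ξ)) := by
    intro σ
    rw [hL, Multiset.map_map, ← Finset.prod_eq_multiset_prod, Polynomial.map_prod]
    refine Finset.prod_congr rfl fun c _ => ?_
    simp [cl_lin_apply]
  have hz : s 0 ξ = 0 := by rw [h0]; rfl
  have hlef := cut_push S h1 (p := N - r) hQ L (fun a ha => ?_) ?_ ?_
  · have e : push (r + 1) (F.mQ ρ (fun j => F.lin (s j)) w ξ) (L.map fun a => X + C a).prod =
        F.kap ρ s w ξ := by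
      funext σ
      have := map_push (Pi.evalRingHom (fun _ => ℝ) σ) (r + 1) (Fan.wt_mQ ho hρ ξ).1
        (L.map fun a => X + C a).prod
      rw [hmap, hP, push_val (fun c => s c ξ) hz ((hρ.card_greedy _).trans hr)] at this
      exact this
    rw [e] at hlef
    refine ⟨mul_mem_pow hK hk, cutSys S (F.kap ρ s w ξ) (N - r), l, hlef, h2,
      fun g hg i => cutSys_eff S hkS i (h3 g hg i.1),
      fun s' w' h i => cutSys_good S hkS i (h4 s' w' h i.1), fun hp => ?_⟩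
    obtain ⟨i, a1, a2, a3⟩ := h5 (by omega)
    have hi : N - r ≤ S.d i := by omega
    refine ⟨⟨i, hi⟩, ?_, ?_, fun g hg => cutSys_eff S hkS ⟨i, hi⟩ (a3 g hg)⟩
    · change cutφ (S.φ i) _ = _
      rw [a1, cutφ_cutφ]
    · change S.d i - (N - r) + _ = _
      omega
  · obtain ⟨c, -, rfl⟩ := Multiset.mem_map.1 ha
    exact h3 _ (Fan.conv_lin _)
  · rw [hL, Multiset.card_map, Finset.card_val, Finset.card_erase_of_mem (Finset.mem_univ _),
      Finset.card_univ, Fintype.card_fin]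
    omega
  · refine ⟨fQ (fun i => F.cl (F.lin (s i)) ξ) (fun σ => (greedy ρ (w σ))ᶜ)
      (N + 1 - ρ Finset.univ), poly_ext fun σ => ?_⟩
    rw [Polynomial.map_mul, Polynomial.map_mul, hmap, hP, map_X,
      fQ_map _ (fun σ => card_compl hρ (w σ))]
    simp only [cl_lin_apply]
    rw [Finset.prod_mul_prod_compl, ← Finset.mul_prod_erase _ _ (Finset.mem_univ 0), hz]
    simp

lemma inv_prod {F : Fan} (hF : F.Good) {ξ : F.Ξ} (hξ : F.Gen ξ) {N : ℕ}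
    {ρ : Finset (Fin (N + 1)) → ℕ} (hρ : IsRk ρ) {r : ℕ} (hr : ρ Finset.univ = r + 1) {m : ℕ}
    (s : Fin m → Fin (N + 1) → F.Ξ →ₗ[ℝ] ℝ) (w : Fin m → F.Cn → Equiv.Perm (Fin (N + 1)))
    (h0 : ∀ b, s b 0 = 0) (ho : ∀ b, F.Ord (fun j => F.lin (s b j)) (w b)) :
    Inv F ξ ρ (∏ b, F.kap ρ (s b) (w b) ξ) (m * (N - r)) := by
  induction m with
  | zero => simpa using inv_one hF hξ hρ
  | succ m ih =>
    rw [Fin.prod_univ_castSucc, Nat.succ_mul]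
    exact inv_step hρ hr (ih _ _ (fun b => h0 _) fun b => ho _) (h0 _) (ho _)

end HCut

lemma Fan.kap_mem {F : Fan} {n : ℕ} {ρ : Finset (Fin n) → ℕ} (hρ : IsRk ρ)
    {s : Fin n → F.Ξ →ₗ[ℝ] ℝ} {w : F.Cn → Equiv.Perm (Fin n)}
    (h : F.Ord (fun j => F.lin (s j)) w) : F.kap ρ s w ∈ F.VP ^ (n - ρ Finset.univ) := by
  have : Nonempty (F.Ξ × F.Cn) := ⟨(0, Classical.arbitrary _)⟩
  have h1 := HCut.prod_mem (V := F.VP.comap (HCut.cur F.Ξ F.Cn).toLinearMap)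
    (t := fun i ω => F.cl (F.lin (s i)) ω.1 ω.2) (w := fun ω => w ω.2) Fan.one_mem_VP
    (fun f => by
      have e : HCut.cur F.Ξ F.Cn (lovF (fun i ω => F.cl (F.lin (s i)) ω.1 ω.2)
          (fun ω => w ω.2) f) = F.cl (Fan.lovR (fun j => F.lin (s j)) f) :=
        funext fun ξ => (Fan.cl_lovR h f ξ).symm
      rw [Submodule.mem_comap, AlgHom.toLinearMap_apply, e]
      exact Fan.cl_mem_VP _) hρ
  have h2 := Submodule.mem_map_of_mem (f := (HCut.cur F.Ξ F.Cn).toLinearMap) h1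
  rw [Submodule.map_pow] at h2
  have h3 := pow_le_pow_left' (Submodule.map_comap_le (HCut.cur F.Ξ F.Cn).toLinearMap F.VP) _ h2
  simp only [HCut.cl_lin_apply] at h3
  exact h3

theorem hcut_prod {F : Fan} {N : ℕ} {ρ : Finset (Fin (N + 1)) → ℕ} (hρ : IsRk ρ) {r : ℕ}
    (hr : ρ Finset.univ = r + 1) {m : ℕ} (s : Fin m → Fin (N + 1) → F.Ξ →ₗ[ℝ] ℝ)
    (w : Fin m → F.Cn → Equiv.Perm (Fin (N + 1))) (h0 : ∀ b, s b 0 = 0)
    (ho : ∀ b, F.Ord (fun j => F.lin (s b j)) (w b)) :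
    F.HCut (∏ b, F.kap ρ (s b) (w b)) (m * (N - r)) := by
  intro F' f M hF ξ hξ
  have h := HCut.inv_prod hF hξ hρ hr (fun b j => s b j ∘ₗ M.pr) (fun b σ => w b (M.par σ))
    (fun b => by rw [h0 b]; rfl) fun b => by
      have := M.ord (ho b)
      simpa only [Map.pull_lin] using this
  have e : M.up (∏ b, F.kap ρ (s b) (w b)) ξ =
      ∏ b, F'.kap ρ (fun j => s b j ∘ₗ M.pr) (fun σ => w b (M.par σ)) ξ := by
    funext σ
    simp only [Map.up, Finset.prod_apply]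
    rfl
  rw [e]
  obtain ⟨a1, S, l, a2, a3, a4, -, a5⟩ := h
  refine ⟨a1, fun hp => ?_⟩
  obtain ⟨i, b1, b2, b3⟩ := a5 hp
  exact ⟨S, i, l, a2, a3, b1, b2, a4, b3⟩

end G94
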