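import Pool.Agent.P.MP_740b33_co.Parent

/-! The recursion over the levels of the tower. -/

namespace G94

open H40M Polynomial

lemma tri_succ (m : ℕ) : tri (m + 1) = tri m + m := by
  unfold tri
  rw [Fin.sum_univ_castSucc]
  simp

lemma tri_add (m : ℕ) : tri (m + 1) + tri m = m * m := by
  induction m with
  | zero => simp [tri]
  | succ m ih => rw [tri_succ (m + 1), tri_succ m] at *; nlinarith

lemma seg_split {n a g b : ℕ} (h1 : a ≤ g) (h2 : g < b) {A : Type} [CommMonoid A]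
    (f : Fin n → A) : ∏ l ∈ seg n a b, f l = (∏ l ∈ seg n g b, f l) * ∏ l ∈ seg n a (g + 1), f l := by
  rw [← Finset.prod_union]
  · congr 1
    ext l
    simp only [seg, Finset.mem_union, Finset.mem_filter, Finset.mem_univ, true_and]
    omega
  · rw [Finset.disjoint_left]
    intro l
    simp only [seg, Finset.mem_filter, Finset.mem_univ, true_and]
    omega

lemma seg_self (n a : ℕ) : seg n a (a + 1) = ∅ := by
  ext l
  simp only [seg, Finset.mem_filter, Finset.mem_univ, true_and, Finset.notMem_empty, iff_false]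
  omega

section Alg

variable {R : Type} [CommRing R] [Algebra ℝ R] {V : Submodule ℝ R} {φ : R →ₗ[ℝ] ℝ}

lemma Mlt.mul {A : ℕ → Submodule ℝ R} {i j : ℕ} {u v : R} (hu : Mlt A i u) (hv : Mlt A j v) :
    Mlt A (j + i) (u * v) := fun q x hx => by
  rw [mul_assoc, ← add_assoc]; exact hu _ _ (hv q x hx)

lemma Mlt.prod {A : ℕ → Submodule ℝ R} {κ : Type} (s : Finset κ) {i : ℕ} {u : κ → R}
    (hu : ∀ k ∈ s, Mlt A i (u k)) : Mlt A (s.card * i) (∏ k ∈ s, u k) := by
  classical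
  induction s using Finset.induction_on with
  | empty => intro q x hx; simpa using hx
  | insert a s ha ih =>
    rw [Finset.prod_insert ha, Finset.card_insert_of_notMem ha, add_mul, one_mul]
    exact (hu a (Finset.mem_insert_self _ _)).mul
      (ih fun k hk => hu k (Finset.mem_insert_of_mem hk))

lemma Mlt.add {A : ℕ → Submodule ℝ R} {i : ℕ} {u v : R} (hu : Mlt A i u) (hv : Mlt A i v) :
    Mlt A i (u + v) := fun q x hx => by
  rw [add_mul]; exact add_mem (hu q x hx) (hv q x hx)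

lemma Nul.mul {d q i : ℕ} {x a : R} (h : Nul V φ d q x) (ha : a ∈ V ^ i) :
    Nul V φ d (q + i) (a * x) := fun s hs => (h (i + s) (by omega)).mul ha

lemma Nul.add {d q : ℕ} {x y : R} (h : Nul V φ d q x) (h' : Nul V φ d q y) :
    Nul V φ d q (x + y) := fun s hs => (h s hs).add (h' s hs)

end Alg

/-- The algebraic part of the state of the recursion. -/
structure St {R : Type} [CommRing R] [Algebra ℝ R] (V : Submodule ℝ R) (φ : R →ₗ[ℝ] ℝ)
    (d : ℕ) (K : R) (dK : ℕ) {n m : ℕ} (t : Fin n → R) (x : Fin m → R) (Θ P : R) (p q : ℕ)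
    (D E : Multiset R) : Prop where
  θ : Θ ∈ Submodule.span ℝ {a | a ∈ D} ^ p
  mem : P ∈ V ^ q
  nul : Nul V φ d q (P - Θ * E.prod)
  fam : ∃ A, PF V (cutφ φ K) dK (p + tri m) A ∧ P * vd x ∈ A (q + tri m) ∧
    (∀ l, Mlt A 1 (t l)) ∧ Mlt A 1 (D.sum + ∑ c, x c) ∧ (∀ l, Mlt A m (∏ c, (x c + t l))) ∧
    ∀ j ≤ m, Mlt A (m - j) ((∏ c, (X + C (-x c))).coeff j)

lemma St.step {R R' : Type} [CommRing R] [Algebra ℝ R] [Nontrivial R] [CommRing R'] [Algebra ℝ R']
    {V : Submodule ℝ R} {φ : R →ₗ[ℝ] ℝ} {V' : Submodule ℝ R'} {φ' : R' →ₗ[ℝ] ℝ}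
    (h1 : (1 : R) ∈ V) {d d' dK n m p q : ℕ} {K Θ P : R} {t : Fin n → R} {x : Fin (m + 1) → R}
    {D E : Multiset R} (h : St V φ d K dK t x Θ P p q D E) (hx : ∀ c, x c ∈ V)
    (ht : ∀ l, t l ∈ V) (s : Finset (Fin n)) (z : Fin (m + 1) → Fin n → R) (hz : ∀ c l, z c l ∈ V)
    (hn : Nul V φ d (q + (m + 1) * s.card)
      (P * (∏ c, ∏ l ∈ s, (x c + t l) - ∏ c, ∏ l ∈ s, z c l)))
    {ι : R →ₐ[ℝ] R'} {Y : Fin m → R'} {c : ℝ} (hι : ∀ v ∈ V, ι v ∈ V') (hY : ∀ b, Y b ∈ V')
    (hM : MG V (cutφ φ K) dK V' (cutφ φ' (ι K)) ι Y m (∏ c, (X + C (-x c))) c)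
    (hN : ∀ q y, Nul V φ d q y → Nul V' φ' d' q (ι y)) :
    St V' φ' d' (ι K) (dK + m * m) (fun l => ι (t l)) Y (ι (Θ * vd x))
      (ι (P * vd x * ∏ c, ∏ l ∈ s, (x c + t l))) (p + tri (m + 1))
      (q + tri (m + 1) + (m + 1) * s.card) ((D + Finset.univ.val.map x).map ι)
      ((E + ∑ c, s.val.map (z c)).map ι) := by
  obtain ⟨hθ, hP, hnul, A, hA, hPA, hT, hD, hXT, hQA⟩ := h
  have hpr : ∀ y : Fin (m + 1) → Fin n → R, (∀ c l, y c l ∈ V) →
      ∏ c, ∏ l ∈ s, y c l ∈ V ^ ((m + 1) * s.card) := fun y hy => by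
    have := prod_mem_pow (V := V) Finset.univ (fun c => ∏ l ∈ s, y c l) (fun _ => s.card)
      fun c _ => by simpa using prod_mem_pow s (y c) (fun _ => 1) fun l _ => mem_pow_one (hy c l)
    simpa using this
  have hv := vd_mem hx
  refine ⟨?_, ?_, ?_, ?_⟩
  · refine map_mem_pow ι (V := Submodule.span ℝ {a | a ∈ D + Finset.univ.val.map x}) ?_
      (mul_mem_pow (pow_le_pow_left' (Submodule.span_mono ?_) p hθ) (vd_mem fun c => ?_))
    · intro v hv
      refine Submodule.span_induction (fun a ha => ?_) (by simp) (fun a b _ _ ha hb => ?_)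
        (fun c a _ ha => ?_) hv
      · exact Submodule.subset_span (Multiset.mem_map_of_mem _ ha)
      · rw [map_add]; exact add_mem ha hb
      · rw [map_smul]; exact Submodule.smul_mem _ _ ha
    · exact fun a ha => Multiset.mem_add.2 (Or.inl ha)
    · exact Submodule.subset_span (Multiset.mem_add.2 (Or.inr
        (Multiset.mem_map_of_mem _ (Finset.mem_univ_val c))))
  · exact map_mem_pow ι hι (mul_mem_pow (mul_mem_pow hP hv)
      (hpr _ fun c l => add_mem (hx c) (ht l)))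
  · rw [← map_multiset_prod, ← map_mul, ← map_sub]
    refine hN _ _ ?_
    have h2 := hn.mul hv
    have h3 := hnul.mul (mul_mem_pow hv (hpr z hz))
    rw [← add_assoc] at h3
    rw [add_right_comm] at h2
    have h4 : (E + ∑ c, s.val.map (z c)).prod = E.prod * ∏ c, ∏ l ∈ s, z c l := by
      rw [Multiset.prod_add, Multiset.prod_sum]
      rfl
    convert h2.add h3 using 1
    rw [h4]; ring
  · have hQ : Wt V (m + 1) (∏ c, (X + C (-x c))) := by
      simpa using wt_prod h1 Finset.univ (fun c => -x c) fun c _ => neg_mem (hx c)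
    obtain ⟨A', g1, g2, g3, g4, g5, g6⟩ := level_step h1 hQ hι hY hM hA hQA
    refine ⟨A', g1, g2 _ _ ?_, fun l => g3 _ (hT l), ?_, fun l => g5 _ (hT l), g6⟩
    · have := Mlt.prod s (fun l _ => hXT l) _ _ hPA
      rwa [Finset.prod_comm, mul_comm s.card, mul_comm _ (P * vd x)] at this
    · refine Mlt.add ?_ g4
      rw [← map_multiset_sum, Multiset.sum_add]
      exact g3 _ hD

lemma map_cl_mem {F : Fan} (ξ : F.Ξ) (D : Multiset (F.Ray → ℝ)) :
    ∀ a ∈ D.map fun g => F.cl g ξ, a ∈ F.V ξ := by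
  intro a ha
  obtain ⟨g, -, rfl⟩ := Multiset.mem_map.1 ha
  exact Fan.cl_mem _ _

theorem hankel {n : ℕ} (m : ℕ) : ∀ (F : Fan) (_ : F.Good) (W : Fin n → F.Ray → ℝ)
    (K : F.Ξ → F.Cn → ℝ) (pK dK : ℕ) (_ : F.HCut K pK) (_ : dK + pK = F.d)
    (Y : Fin m → F.Ray → ℝ) (e : Fin m → Fin n → F.Ray → ℝ) (_ : ∀ c, F.Node W (Y c) (e c))
    (Θ P : F.Ξ → F.Cn → ℝ) (p q : ℕ) (D E : Multiset (F.Ray → ℝ)) (_ : ∀ g ∈ D, F.Conv g)
    (_ : ∀ g ∈ E, F.Conv g) (_ : E.card + p = q) (b : ℕ) (_ : b ≤ n)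
    (_ : ∀ c, F.Van W P q (Y c) (e c) b)
    (_ : ∀ ξ, F.Gen ξ → St (F.V ξ) (F.φ ξ) F.d (K ξ) dK (fun l => F.cl (W l) ξ)
      (fun c => F.cl (Y c) ξ) (Θ ξ) (P ξ) p q (D.map fun g => F.cl g ξ) (E.map fun g => F.cl g ξ))
    (α : Fin m → ℕ) (_ : Antitone α) (_ : ∀ a, α a < b)
    (_ : q + p + ∑ a, (b - 1 - α a) + tri m = dK),
    ∃ ξ, F.Gen ξ ∧ 0 ≤ (-1) ^ (p + tri m) * F.φ ξ (K ξ * (P ξ * Θ ξ *
      (Matrix.det (Matrix.of fun c a : Fin m =>
        ∏ l ∈ seg n (α a) b, (F.cl (Y c) ξ + F.cl (W l) ξ)) * vd fun c => F.cl (Y c) ξ))) := by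
  induction m with
  | zero =>
    intro F hF W K pK dK hK hdK Y e _ Θ P p q D E hD hE hq b _ _ hS α _ _ hd
    obtain ⟨ξ, hξ⟩ := F.exists_gen
    obtain ⟨hKm, h1⟩ := hK.cutOK hF ξ hξ
    obtain ⟨S, i, l, hl, hV, hφ, hdS, hC, -⟩ := h1 (by omega)
    obtain ⟨hθ, hP, hnul, A, hA, hPA, -, hDA, -, -⟩ := hS ξ hξ
    have ht : tri 0 = 0 := rfl
    have hv : (vd fun c : Fin 0 => F.cl (Y c) ξ) = 1 := Matrix.det_isEmpty
    simp only [ht, hv, add_zero, mul_one, Finset.univ_eq_empty, Finset.sum_empty] at hd hA hPA hDA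
    have hgn : ∀ U : Multiset (F.Ray → ℝ), (∀ g ∈ U, F.Conv g) →
        ∀ a ∈ U.map fun g => F.cl g ξ, GN S a := by
      intro U hU a ha
      obtain ⟨g, hg, rfl⟩ := Multiset.mem_map.1 ha
      exact hC g (hU g hg)
    set D' := D.map fun g => F.cl g ξ with hD'
    set E' := E.map fun g => F.cl g ξ with hE'
    have hDs : D'.sum ∈ F.V ξ := multiset_sum_mem _ (map_cl_mem ξ D)
    have hθ' : Θ ξ ∈ F.V ξ ^ p := by
      exact pow_le_pow_left' (Submodule.span_le.2 (map_cl_mem ξ D)) p hθ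
    have key := sign_nef S hl i E' D' (hgn E hE) (hgn D hD) (k := p)
      (by rw [hE', Multiset.card_map]; omega) hθ (by
        intro j hj ζ hζ
        rw [hV] at hζ
        have h2 := mem_pow_of_le (Fan.one_mem_V ξ) (show j ≤ p - 1 by omega) hζ
        have h3 := hA.orth (q + 1) (p - 1) (by omega) (by omega) _ (hDA q _ hPA) ζ h2
        have h4 := hnul (pK + 1 + (p - 1)) (by omega) _
          (mul_mem_pow (mul_mem_pow hKm (mem_pow_one hDs)) h2)
        rw [cutφ_apply] at h3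
        rw [hφ, cutφ_apply, show K ξ * (E'.prod * D'.sum * Θ ξ * ζ) =
          K ξ * (D'.sum * P ξ * ζ) - (P ξ - Θ ξ * E'.prod) * (K ξ * D'.sum * ζ) by ring,
          map_sub, h3, h4, sub_zero])
    refine ⟨ξ, hξ, ?_⟩
    have h5 := hnul (pK + p) (by omega) _ (mul_mem_pow hKm hθ')
    rw [hφ, cutφ_apply, show K ξ * (E'.prod * Θ ξ * Θ ξ) =
      K ξ * (P ξ * Θ ξ) - (P ξ - Θ ξ * E'.prod) * (K ξ * Θ ξ) by ring, map_sub, h5,
      sub_zero] at key
    simpa [ht, hv] using key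
  | succ m ih =>
    intro F hF W K pK dK hK hdK Y e hN Θ P p q D E hD hE hq b hb hV hS α hα hαb hd
    set γ := α 0 with hγ
    have hγb : γ < b := hαb 0
    have hαγ : ∀ a, α a ≤ γ := fun a => hα (Fin.zero_le a)
    have hcs : (seg n γ b).card = b - 1 - γ := card_seg hb
    obtain ⟨F', M, Y', e', hF', hN', hV', hM⟩ :=
      exists_children hF hN (fun ξ hξ => (hS ξ hξ).mem) hγb hb hV m
    have hM' : ∀ ξ, F'.Gen ξ → MG (F.V (M.pr ξ)) (cutφ (F.φ (M.pr ξ)) (K (M.pr ξ))) dK (F'.V ξ)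
        (cutφ (F'.φ ξ) (M.ι (K (M.pr ξ)))) M.ι (fun c => F'.cl (Y' c) ξ) m
        (∏ j, (X + C (-F.cl (Y j) (M.pr ξ)))) 1 := fun ξ hξ =>
      MG.cut (hdK ▸ hM ξ hξ) (hK.cutOK hF _ (M.gen ξ hξ)).1
    have hsum : ∑ a, (b - 1 - α a) =
        (m + 1) * (b - 1 - γ) + ∑ a : Fin m, (γ + 1 - 1 - α a.succ) := by
      have h1 : ∀ a, b - 1 - α a = (b - 1 - γ) + (γ + 1 - 1 - α a) := fun a => by
        have := hαγ a; omega
      rw [Finset.sum_congr rfl fun a _ => h1 a, Finset.sum_add_distrib, Fin.sum_univ_succ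
        fun a => γ + 1 - 1 - α a]
      simp [hγ]
    have htri := tri_add m
    obtain ⟨ξ, hξ, key⟩ := ih F' hF' (fun l => M.pull (W l)) (M.up K) pK (dK + m * m) (M.hcut hK)
      (by rw [M.dim]; omega) Y' e' hN' (M.up fun ξ => Θ ξ * vd fun c => F.cl (Y c) ξ)
      (M.up (F.lev W Y P γ b)) (p + tri (m + 1)) (q + tri (m + 1) + (m + 1) * (b - 1 - γ))
      ((D + Finset.univ.val.map Y).map M.pull)
      ((E + ∑ c, (seg n γ b).val.map fun l => Y c + W l - e c l).map M.pull)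
      (by
        intro g' hg'
        obtain ⟨g, hg, rfl⟩ := Multiset.mem_map.1 hg'
        rcases Multiset.mem_add.1 hg with hg | hg
        · exact M.conv (hD g hg)
        · obtain ⟨c, -, rfl⟩ := Multiset.mem_map.1 hg
          exact M.conv (hN c).conv)
      (by
        intro g' hg'
        obtain ⟨g, hg, rfl⟩ := Multiset.mem_map.1 hg'
        rcases Multiset.mem_add.1 hg with hg | hg
        · exact M.conv (hE g hg)
        · obtain ⟨c, -, hg⟩ := Multiset.mem_sum.1 hg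
          obtain ⟨l, -, rfl⟩ := Multiset.mem_map.1 hg
          exact M.conv ((hN c).cor l))
      (by
        rw [Multiset.card_map, Multiset.card_add, Multiset.card_sum]
        simp only [Multiset.card_map, Finset.card_val, hcs, Finset.sum_const, Finset.card_univ,
          Fintype.card_fin, smul_eq_mul]
        omega)
      (γ + 1) (by omega) hV'
      (fun ξ hξ => by
        have h1 := (hS _ (M.gen ξ hξ)).step (Fan.one_mem_V _) (fun c => Fan.cl_mem _ _)
          (fun l => Fan.cl_mem _ _) (seg n γ b)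
          (fun c l => F.cl (Y c + W l - e c l) (M.pr ξ)) (fun c l => Fan.cl_mem _ _)
          (hcs ▸ van_equiv hγb hb hV (M.gen ξ hξ)) (M.ι_mem ξ) (fun c => Fan.cl_mem _ _)
          (hM' ξ hξ) fun q y hy => M.nul hξ hy
        have e1 : (fun l => F'.cl (M.pull (W l)) ξ) = fun l => M.ι (F.cl (W l) (M.pr ξ)) :=
          funext fun l => M.cl_pull _ _
        have e2 : ∀ U : Multiset (F.Ray → ℝ), (U.map M.pull).map (fun g => F'.cl g ξ) =
            (U.map fun g => F.cl g (M.pr ξ)).map M.ι := fun U => by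
          simp only [Multiset.map_map, Function.comp_def, Map.cl_pull]
        have e3 : (∑ c, (seg n γ b).val.map fun l => Y c + W l - e c l).map
            (fun g => F.cl g (M.pr ξ)) =
            ∑ c, (seg n γ b).val.map fun l => F.cl (Y c + W l - e c l) (M.pr ξ) := by
          rw [← Multiset.coe_mapAddMonoidHom, map_sum]
          simp only [Multiset.coe_mapAddMonoidHom, Multiset.map_map, Function.comp_def]
        rw [hcs] at h1
        rw [e1, e2, e2, Multiset.map_add (fun g => F.cl g (M.pr ξ)),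
          Multiset.map_add (fun g => F.cl g (M.pr ξ)), e3, Multiset.map_map _ Y]
        exact h1)
      (fun a => α a.succ) (fun a a' h => hα (Fin.succ_le_succ_iff.2 h))
      (fun a => Nat.lt_succ_of_le (hαγ _)) (by omega)
    have hξ0 := M.gen ξ hξ
    refine ⟨M.pr ξ, hξ0, ?_⟩
    set t : Fin n → F.Cn → ℝ := fun l => F.cl (W l) (M.pr ξ) with ht
    set x : Fin (m + 1) → F.Cn → ℝ := fun c => F.cl (Y c) (M.pr ξ) with hx
    set u : Fin (m + 1) → (F.Cn → ℝ)[X] := fun a => ∏ l ∈ seg n (α a) (γ + 1), (X + C (t l))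
      with hu
    have hst := hS _ hξ0
    have hθ : Θ (M.pr ξ) * vd x ∈ F.V (M.pr ξ) ^ (p + tri (m + 1)) :=
      mul_mem_pow (pow_le_pow_left' (Submodule.span_le.2 (map_cl_mem _ D)) p hst.θ)
        (vd_mem fun c => Fan.cl_mem _ _)
    have hlev : F.lev W Y P γ b (M.pr ξ) ∈
        F.V (M.pr ξ) ^ (q + tri (m + 1) + (m + 1) * (b - 1 - γ)) := by
      refine mul_mem_pow (mul_mem_pow hst.mem (vd_mem fun c => Fan.cl_mem _ _)) ?_
      have := prod_mem_pow (V := F.V (M.pr ξ)) Finset.univ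
        (fun c => ∏ l ∈ seg n γ b, (x c + t l)) (fun _ => (seg n γ b).card)
        fun c _ => by
          simpa using prod_mem_pow (seg n γ b) (fun l => x c + t l) (fun _ => 1)
            fun l _ => mem_pow_one (add_mem (Fan.cl_mem _ _) (Fan.cl_mem _ _))
      simpa [hcs] using this
    have hdd := (hM' ξ hξ).det_det (fun a => u a.succ) (fun a => γ + 1 - 1 - α a.succ)
      (fun a => by
        rw [← card_seg (n := n) (by omega)]
        exact (wt_prod (Fan.one_mem_V _) _ t fun l _ => Fan.cl_mem _ _).mem)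
      (mul_mem_pow hlev hθ) (by omega)
    have hds := det_step x u (by simp [hu, hγ, seg_self])
    have he1 : (Matrix.of fun c a : Fin m => aevalTower M.ι (F'.cl (Y' c) ξ) (u a.succ)) =
        Matrix.of fun c a : Fin m => ∏ l ∈ seg n (α a.succ) (γ + 1),
          (F'.cl (Y' c) ξ + F'.cl (M.pull (W l)) ξ) := by
      ext1 c a
      simp [hu, ht, map_prod, Map.cl_pull]
    have he2 : Matrix.det (Matrix.of fun c a : Fin (m + 1) => ∏ l ∈ seg n (α a) b, (x c + t l)) =
        (∏ c, ∏ l ∈ seg n γ b, (x c + t l)) *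
          Matrix.det (Matrix.of fun c a : Fin (m + 1) => (u a).eval (x c)) := by
      rw [← Matrix.det_mul_column]
      congr 1
      ext1 c a
      simp [hu, eval_prod, seg_split (hαγ a) hγb]
    rw [cutφ_apply, cutφ_apply, he1, map_mul M.ι] at hdd
    simp only [Map.up_apply] at key
    rw [hdd] at key
    rw [he2, hds]
    set Δ := Matrix.det (Matrix.of fun a c : Fin m =>
      push (m + 1) (∏ b, (X + C (-x b))) (u a.succ * X ^ (c : ℕ))) with hΔ
    have h7 : K (M.pr ξ) * (P (M.pr ξ) * Θ (M.pr ξ) * ((∏ c, ∏ l ∈ seg n γ b, (x c + t l)) *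
        (vd x * ((-1) ^ tri m * Δ)) * vd x)) = ((-1 : ℝ) ^ tri m) •
          (K (M.pr ξ) * (F.lev W Y P γ b (M.pr ξ) * (Θ (M.pr ξ) * vd x) * Δ)) := by
      rw [Algebra.smul_def, Fan.lev]
      simp only [map_pow, map_neg, map_one]
      ring
    rw [h7, map_smul, smul_eq_mul]
    have h8 : (0 : ℝ) < m.factorial := by exact_mod_cast Nat.factorial_pos m
    refine le_of_mul_le_mul_left ?_ h8
    rw [mul_zero]
    refine key.trans_eq ?_
    rw [pow_add]
    ring

end G94
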