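import Mathlib

/-! Limits of primitive subspaces. -/

namespace G94.LimPrim

open Filter Topology Module

lemma exists_limit {M : Type} [NormedAddCommGroup M] [InnerProductSpace ℝ M]
    [FiniteDimensional ℝ M] (K : ℕ → Submodule ℝ M) (a : ℕ) (h : ∀ n, a ≤ finrank ℝ (K n)) :
    ∃ (L : Submodule ℝ M) (s : ℕ → ℕ), StrictMono s ∧ finrank ℝ L = a ∧ ∀ x ∈ L,
      ∃ u : ℕ → M, (∀ n, u n ∈ K (s n)) ∧ Tendsto u atTop (𝓝 x) := by
  let v : ℕ → Fin a → M := fun n i => (stdOrthonormalBasis ℝ (K n) (Fin.castLE (h n) i) : M)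
  have hv : ∀ n i j, inner ℝ (v n i) (v n j) = if i = j then (1 : ℝ) else 0 := by
    intro n i j
    have := orthonormal_iff_ite.1 (stdOrthonormalBasis ℝ (K n)).orthonormal
      (Fin.castLE (h n) i) (Fin.castLE (h n) j)
    simpa [v, Fin.castLE_inj] using this
  have hc : IsCompact (Set.univ.pi fun _ : Fin a => Metric.sphere (0 : M) 1) :=
    isCompact_univ_pi fun _ => isCompact_sphere 0 1
  obtain ⟨w, -, s, hs, hw⟩ := hc.tendsto_subseq (x := v) fun n i _ => by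
    have := (stdOrthonormalBasis ℝ (K n)).orthonormal.1 (Fin.castLE (h n) i)
    rw [mem_sphere_zero_iff_norm]
    exact this
  have hwi : ∀ i, Tendsto (fun n => v (s n) i) atTop (𝓝 (w i)) := fun i =>
    tendsto_pi_nhds.1 hw i
  have ho : Orthonormal ℝ w := by
    rw [orthonormal_iff_ite]
    intro i j
    have h1 : Tendsto (fun n => inner ℝ (v (s n) i) (v (s n) j)) atTop
        (𝓝 (inner ℝ (w i) (w j))) := (hwi i).inner (hwi j)
    simp only [hv] at h1
    exact tendsto_nhds_unique h1 tendsto_const_nhds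
  refine ⟨Submodule.span ℝ (Set.range w), s, hs, ?_, fun x hx => ?_⟩
  · rw [finrank_span_eq_card ho.linearIndependent, Fintype.card_fin]
  · obtain ⟨c, rfl⟩ := (Submodule.mem_span_range_iff_exists_fun ℝ).1 hx
    refine ⟨fun n => ∑ i, c i • v (s n) i, fun n => Submodule.sum_mem _ fun i _ =>
      Submodule.smul_mem _ _ (Subtype.coe_prop _), tendsto_finsetSum _ fun i _ =>
      (hwi i).const_smul _⟩

lemma aux {M U : Type} [NormedAddCommGroup M] [InnerProductSpace ℝ M] [FiniteDimensional ℝ M]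
    [AddCommGroup U] [Module ℝ U] [FiniteDimensional ℝ U]
    (B0 B1 : M →ₗ[ℝ] U →ₗ[ℝ] ℝ) (q0 q1 : M →ₗ[ℝ] M →ₗ[ℝ] ℝ) (N : Submodule ℝ U)
    (T : Submodule ℝ M) (lam : U →ₗ[ℝ] M)
    (h1 : ∀ δ : ℝ, 0 < δ → ∀ x, (∀ y, B0 x y + δ * B1 x y = 0) →
      x ∈ T ∧ 0 ≤ q0 x x + δ * q1 x x)
    (h2 : ∀ y ∈ N, ∀ x, B0 x y = 0 ∧ B1 x y = 0)
    (h3 : ∀ y, (∀ x, B0 x y = 0) → (∀ y', B0 (lam y) y' = 0) ∧ (lam y ∈ T → y ∈ N))
    (η : M) (hη : ∀ y, B0 η y = 0) :
    ∃ x y, (∀ x', B0 x' y = 0) ∧ η = x + lam y ∧ 0 ≤ q0 x x := by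
  let δ : ℕ → ℝ := fun n => 1 / ((n : ℝ) + 1)
  have hδ : ∀ n, 0 < δ n := fun n => Nat.one_div_pos_of_nat
  let K : ℕ → Submodule ℝ M := fun n => LinearMap.ker (B0 + δ n • B1)
  have hK : ∀ n, finrank ℝ M + finrank ℝ N - finrank ℝ U ≤ finrank ℝ (K n) := by
    intro n
    have a1 := LinearMap.finrank_range_add_finrank_ker (B0 + δ n • B1)
    have a2 : LinearMap.range (B0 + δ n • B1) ≤ N.dualAnnihilator := by
      rintro _ ⟨x, rfl⟩
      rw [Submodule.mem_dualAnnihilator]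
      intro y hy
      simp [(h2 y hy x).1, (h2 y hy x).2]
    have a3 := Nat.add_le_add_left (Submodule.finrank_mono a2) (finrank ℝ N)
    have a4 := a3.trans_eq (Subspace.finrank_add_finrank_dualAnnihilator_eq N)
    simp only [K]
    omega
  obtain ⟨L, s, hs, hL, hx⟩ := exists_limit K _ hK
  have hδ0 : Tendsto (fun n => δ (s n)) atTop (𝓝 0) :=
    tendsto_one_div_add_atTop_nhds_zero_nat.comp hs.tendsto_atTop
  have hq : ∀ q : M →ₗ[ℝ] M →ₗ[ℝ] ℝ, Continuous fun x => q x x := by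
    intro q
    have := (LinearMap.toContinuousLinearMap.toLinearMap ∘ₗ q).continuous_of_finiteDimensional
    exact this.clm_apply continuous_id
  have hLp : ∀ x ∈ L, x ∈ T ∧ (∀ y, B0 x y = 0) ∧ 0 ≤ q0 x x := by
    intro x hxL
    obtain ⟨u, hu, hux⟩ := hx x hxL
    have hu' : ∀ n y, B0 (u n) y + δ (s n) * B1 (u n) y = 0 := fun n y => by
      simpa using LinearMap.congr_fun (LinearMap.mem_ker.1 (hu n)) y
    refine ⟨T.closed_of_finiteDimensional.mem_of_tendsto hux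
      (Eventually.of_forall fun n => (h1 _ (hδ _) _ (hu' n)).1), fun y => ?_, ?_⟩
    · have b0 := ((B0.flip y).continuous_of_finiteDimensional.tendsto x).comp hux
      have b1 := ((B1.flip y).continuous_of_finiteDimensional.tendsto x).comp hux
      have b2 := b0.add (hδ0.mul b1)
      simp only [Function.comp_apply, LinearMap.flip_apply, hu', zero_mul, add_zero] at b2
      exact tendsto_nhds_unique b2 tendsto_const_nhds
    · have b2 := (((hq q0).tendsto x).comp hux).add (hδ0.mul (((hq q1).tendsto x).comp hux))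
      simp only [Function.comp_apply, zero_mul, add_zero] at b2
      exact ge_of_tendsto' b2 fun n => (h1 _ (hδ _) _ (hu' n)).2
  let Y : Submodule ℝ U := LinearMap.ker B0.flip
  have hY : ∀ y ∈ Y, ∀ x, B0 x y = 0 := fun y hy x => LinearMap.congr_fun (LinearMap.mem_ker.1 hy) x
  let θ : (L × Y) →ₗ[ℝ] M := L.subtype.coprod (lam ∘ₗ Y.subtype)
  have hθ : LinearMap.range θ ≤ LinearMap.ker B0 := by
    rintro _ ⟨⟨x, y⟩, rfl⟩
    rw [LinearMap.mem_ker]
    ext y'
    simp [θ, (hLp x x.2).2.1, (h3 y (hY y y.2)).1]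
  have c1 : finrank ℝ (LinearMap.ker θ) ≤ finrank ℝ N := by
    have hm : ∀ p : LinearMap.ker θ, (p.1.1 : M) = -lam p.1.2 := fun p =>
      eq_neg_of_add_eq_zero_left (LinearMap.mem_ker.1 p.2)
    let g : LinearMap.ker θ →ₗ[ℝ] N := LinearMap.codRestrict N
      (Y.subtype ∘ₗ LinearMap.snd ℝ L Y ∘ₗ (LinearMap.ker θ).subtype) fun p =>
        (h3 _ (hY _ p.1.2.2)).2 (by
          have := T.neg_mem (hLp _ p.1.1.2).1
          rwa [hm, neg_neg] at this)
    refine LinearMap.finrank_le_finrank_of_injective (f := g) ?_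
    rw [injective_iff_map_eq_zero]
    intro p hp
    have e1 : (p.1.2 : U) = 0 := congrArg Subtype.val hp
    have e2 := hm p
    rw [e1, map_zero, neg_zero] at e2
    exact Subtype.ext (Prod.ext (Subtype.ext e2) (Subtype.ext e1))
  have c2 := (LinearMap.finrank_range_add_finrank_ker θ).ge.trans (Nat.add_le_add_left c1 _)
  rw [finrank_prod, hL] at c2
  have c3 := LinearMap.finrank_range_add_finrank_ker B0
  have c4 := LinearMap.finrank_range_add_finrank_ker B0.flip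
  have c5 : finrank ℝ (LinearMap.range B0.flip) = finrank ℝ (LinearMap.range B0) := by
    have e : B0.flip = B0.dualMap ∘ₗ (evalEquiv ℝ U).toLinearMap := by
      ext y x; simp
    rw [e, LinearMap.range_comp_of_range_eq_top _ (LinearEquiv.range _),
      LinearMap.finrank_range_dualMap_eq_finrank_range]
  have c6 : LinearMap.range θ = LinearMap.ker B0 :=
    Submodule.eq_of_le_of_finrank_le hθ (by simp only [Y] at c2; omega)
  have c7 : η ∈ LinearMap.range θ := by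
    rw [c6, LinearMap.mem_ker]
    ext y
    exact hη y
  obtain ⟨⟨x, y⟩, rfl⟩ := c7
  exact ⟨x, y, hY y y.2, rfl, (hLp x x.2).2.2⟩

end G94.LimPrim

namespace G94

theorem lim_prim {M U : Type} [AddCommGroup M] [Module ℝ M] [FiniteDimensional ℝ M]
    [AddCommGroup U] [Module ℝ U] [FiniteDimensional ℝ U]
    (B0 B1 : M →ₗ[ℝ] U →ₗ[ℝ] ℝ) (q0 q1 : M →ₗ[ℝ] M →ₗ[ℝ] ℝ) (N : Submodule ℝ U)
    (T : Submodule ℝ M) (lam : U →ₗ[ℝ] M)
    (h1 : ∀ δ : ℝ, 0 < δ → ∀ x, (∀ y, B0 x y + δ * B1 x y = 0) →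
      x ∈ T ∧ 0 ≤ q0 x x + δ * q1 x x)
    (h2 : ∀ y ∈ N, ∀ x, B0 x y = 0 ∧ B1 x y = 0)
    (h3 : ∀ y, (∀ x, B0 x y = 0) → (∀ y', B0 (lam y) y' = 0) ∧ (lam y ∈ T → y ∈ N))
    (η : M) (hη : ∀ y, B0 η y = 0) :
    ∃ x y, (∀ x', B0 x' y = 0) ∧ η = x + lam y ∧ 0 ≤ q0 x x := by
  let e : EuclideanSpace ℝ (Fin (Module.finrank ℝ M)) ≃ₗ[ℝ] M :=
    LinearEquiv.ofFinrankEq _ _ (by simp)
  obtain ⟨x, y, a1, a2, a3⟩ := LimPrim.aux (B0 ∘ₗ e.toLinearMap) (B1 ∘ₗ e.toLinearMap)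
    (q0.compl₁₂ e.toLinearMap e.toLinearMap) (q1.compl₁₂ e.toLinearMap e.toLinearMap) N
    (T.comap e.toLinearMap) (e.symm.toLinearMap ∘ₗ lam)
    (fun δ hδ x hx => h1 δ hδ (e x) hx) (fun y hy x => h2 y hy (e x))
    (fun y hy => by
      have := h3 y fun x => by simpa using hy (e.symm x)
      simpa using this)
    (e.symm η) (by simpa using hη)
  refine ⟨e x, y, fun x' => by simpa using a1 (e.symm x'), ?_, a3⟩
  simpa using congrArg e a2

end G94
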