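import Pool.Agent.P.MP_740b33_co.CoreE

/-! Package D4: removing loops. -/

namespace G94

open H40M Polynomial

namespace Loop

variable {N : ℕ}

lemma val_sA (j : Fin (N + 1)) (l : Fin N) :
    (j.succAbove l : ℕ) = if (l : ℕ) < j then (l : ℕ) else l + 1 := by
  unfold Fin.succAbove
  by_cases h : (l : ℕ) < j
  · rw [if_pos h, if_pos (by rw [Fin.lt_def]; exact h)]; rfl
  · rw [if_neg h, if_neg (by rw [Fin.lt_def]; exact h)]; rfl

/-- The order induced on the complement of `j`. -/
noncomputable def del (j : Fin (N + 1)) (u : Equiv.Perm (Fin (N + 1))) : Equiv.Perm (Fin N) :=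
  Tuple.sort fun i => u.symm (j.succAbove i)

lemma del_mono (j : Fin (N + 1)) (u : Equiv.Perm (Fin (N + 1))) :
    StrictMono fun k => u.symm (j.succAbove (del j u k)) :=
  (Tuple.monotone_sort fun i => u.symm (j.succAbove i)).strictMono_of_injective
    ((u.symm.injective.comp Fin.succAbove_right_injective).comp (del j u).injective)

lemma del_lt (j : Fin (N + 1)) (u : Equiv.Perm (Fin (N + 1))) (a b : Fin N) :
    (del j u).symm a < (del j u).symm b ↔ u.symm (j.succAbove a) < u.symm (j.succAbove b) := by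
  rw [← (del_mono j u).lt_iff_lt]
  simp

lemma base {F : Fan} {W : Fin (N + 1) → F.Ray → ℝ} {w : F.Cn → Equiv.Perm (Fin (N + 1))}
    (h : F.Base W w) (j : Fin (N + 1)) :
    F.Base (fun i => W (j.succAbove i)) fun σ => del j (w σ) where
  ord σ ρ hρ a b hab := by
    simpa using h.ord σ ρ hρ ((del_mono j (w σ)).monotone hab)
  neg i := h.neg _
  sub i l hil := h.sub _ _ ((Fin.strictMono_succAbove j).monotone hil)
  inj ξ hξ σ := (h.inj ξ hξ σ).comp Fin.succAbove_right_injective

/-- The rank function of the deletion. -/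
def rd (j : Fin (N + 1)) (ρ : Finset (Fin (N + 1)) → ℕ) (A : Finset (Fin N)) : ℕ :=
  ρ (A.map j.succAboveEmb)

variable {j : Fin (N + 1)} {ρ : Finset (Fin (N + 1)) → ℕ}

lemma isRk_rd (h : IsRk ρ) (j : Fin (N + 1)) : IsRk (rd j ρ) where
  empty := h.empty
  mono A e := by rw [rd, rd, Finset.map_insert]; exact h.mono _ _
  unit A e := by rw [rd, rd, Finset.map_insert]; exact h.unit _ _
  submod A B e hAB := by
    rw [rd, rd, rd, rd, Finset.map_insert, Finset.map_insert]
    exact h.submod _ _ _ (Finset.map_subset_map.2 hAB)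

lemma rk_insert (h : IsRk ρ) (hj : ρ {j} = 0) (A : Finset (Fin (N + 1))) :
    ρ (insert j A) = ρ A := by
  have h1 := h.submod ∅ A j (Finset.empty_subset _)
  have h2 := h.mono A j
  rw [insert_empty_eq, hj, h.empty] at h1
  omega

lemma rk_eq (h : IsRk ρ) (hj : ρ {j} = 0) {A : Finset (Fin (N + 1))} {B : Finset (Fin N)}
    (hAB : ∀ x, j.succAbove x ∈ A ↔ x ∈ B) : ρ A = rd j ρ B := by
  rw [rd, ← rk_insert h hj A, ← rk_insert h hj (B.map _)]
  congr 1
  ext x
  rcases Fin.eq_self_or_eq_succAbove j x with rfl | ⟨y, rfl⟩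
  · simp
  · simp [hAB]

lemma greedy_del (h : IsRk ρ) (hj : ρ {j} = 0) (u : Equiv.Perm (Fin (N + 1))) :
    greedy ρ u = (greedy (rd j ρ) (del j u)).map j.succAboveEmb := by
  ext x
  rcases Fin.eq_self_or_eq_succAbove j x with rfl | ⟨y, rfl⟩
  · simp [greedy, rk_insert h hj]
  · have h1 : ∀ x, j.succAbove x ∈ bef u (j.succAbove y) ↔ x ∈ bef (del j u) y := fun x => by
      simp [bef, del_lt]
    have h2 : ∀ x, j.succAbove x ∈ insert (j.succAbove y) (bef u (j.succAbove y)) ↔
        x ∈ insert y (bef (del j u) y) := fun x => by simp [h1]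
    rw [show j.succAbove y = j.succAboveEmb y from rfl, Finset.mem_map']
    simp only [greedy, Finset.mem_filter, Finset.mem_univ, true_and]
    rw [← rk_eq h hj h1, ← rk_eq h hj h2]
    rfl

/-- The product of the factors with index at least `g`. -/
noncomputable def tq (t : Fin N → ℝ) (g : ℕ) : ℝ[X] :=
  ∏ l ∈ Finset.univ.filter (fun l : Fin N => g ≤ (l : ℕ)), (X + C (t l))

lemma tq_succ (t : Fin N → ℝ) (g : ℕ) : tq t (g + 1) = tailP t g := rfl

lemma tail_split (t : Fin (N + 1) → ℝ) (j g : Fin (N + 1)) :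
    tailP t g = C (if g < j then t j - t g else 0) * tq (fun l => t (j.succAbove l)) (g + 1) +
      tq (fun l => t (j.succAbove l)) g := by
  rw [tailP, Finset.prod_filter, Fin.prod_univ_succAbove _ j, ← Finset.prod_filter]
  by_cases h : g < j
  · have h' : (g : ℕ) < j := h
    have hg : (g : ℕ) < N := by omega
    have h1 : Finset.univ.filter (fun l : Fin N => (g : ℕ) < (j.succAbove l : ℕ)) =
        Finset.univ.filter (fun l : Fin N => (g : ℕ) + 1 ≤ (l : ℕ)) := by
      ext l
      simp only [Finset.mem_filter, Finset.mem_univ, true_and, val_sA]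
      split_ifs <;> omega
    have h2 : Finset.univ.filter (fun l : Fin N => (g : ℕ) ≤ (l : ℕ)) =
        insert ⟨g, hg⟩ (Finset.univ.filter fun l : Fin N => (g : ℕ) + 1 ≤ (l : ℕ)) := by
      ext l
      simp only [Finset.mem_filter, Finset.mem_univ, true_and, Finset.mem_insert, Fin.ext_iff]
      omega
    have h3 : j.succAbove ⟨g, hg⟩ = g := Fin.ext (by rw [val_sA, if_pos h'])
    rw [if_pos h', if_pos h, h1, tq, tq, h2, Finset.prod_insert (by simp), h3, map_sub]
    ring
  · have h' : ¬ (g : ℕ) < j := h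
    have h1 : Finset.univ.filter (fun l : Fin N => (g : ℕ) < (j.succAbove l : ℕ)) =
        Finset.univ.filter (fun l : Fin N => (g : ℕ) ≤ (l : ℕ)) := by
      ext l
      simp only [Finset.mem_filter, Finset.mem_univ, true_and, val_sA]
      split_ifs <;> omega
    rw [if_neg h', if_neg h, h1, tq, tq]
    simp

lemma det_expand {r : ℕ} (c : Fin r → ℝ) (A B : Matrix (Fin r) (Fin r) ℝ) :
    Matrix.det (Matrix.of fun b k => c b * A b k + B b k) = ∑ S : Finset (Fin r),
      (∏ b ∈ S, c b) * Matrix.det (Matrix.of fun b k => if b ∈ S then A b k else B b k) := by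
  have h := (Matrix.detRowAlternating (n := Fin r) (R := ℝ)).toMultilinearMap.map_add_univ
    (fun b => c b • A b) (fun b => B b)
  refine Eq.trans h (Finset.sum_congr rfl fun S _ => ?_)
  have h2 := Matrix.det_mul_column (fun b => if b ∈ S then c b else 1)
    (Matrix.of fun b k => if b ∈ S then A b k else B b k)
  rw [Finset.prod_ite_mem, Finset.univ_inter] at h2
  rw [← h2]
  change Matrix.det (S.piecewise (fun b => c b • A b) (fun b => B b)) = _
  congr 1
  ext b k
  by_cases hb : b ∈ S <;> simp [hb]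

/-- The terms of the expansion. -/
noncomputable def qdet {r : ℕ} (ρ : Finset (Fin N) → ℕ) (γ : Fin r → ℕ) (t : Fin N → ℝ)
    (u : Equiv.Perm (Fin N)) : ℝ :=
  (-1) ^ tri r * Matrix.det (Matrix.of fun b c : Fin r =>
    push r (∏ e ∈ greedy ρ u, (X + C (t e))) (tq t (γ b) * X ^ (c : ℕ)))

lemma qdet_zero {r : ℕ} (ρ : Finset (Fin N) → ℕ) {γ : Fin r → ℕ} {b : Fin r} (hb : γ b = 0)
    (t : Fin N → ℝ) (u : Equiv.Perm (Fin N)) : qdet ρ γ t u = 0 := by
  rw [qdet, Matrix.det_eq_zero_of_row_eq_zero b, mul_zero]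
  intro c
  rw [Matrix.of_apply, hb, tq, Finset.filter_true_of_mem fun _ _ => Nat.zero_le _,
    ← Finset.prod_mul_prod_compl (greedy ρ u), mul_assoc]
  exact push_self_mul _ (monic_prod_of_monic _ _ fun _ _ => monic_X_add_C _) _

lemma qdet_eq {r : ℕ} (ρ : Finset (Fin N) → ℕ) {γ : Fin r → ℕ} (hγ : ∀ b, γ b ≠ 0)
    (t : Fin N → ℝ) (u : Equiv.Perm (Fin N)) : qdet ρ γ t u = hdet ρ (fun b => γ b - 1) t u := by
  have h : ∀ b, tq t (γ b) = tailP t (γ b - 1) := fun b => by
    rw [← tq_succ, Nat.sub_add_cancel (Nat.pos_of_ne_zero (hγ b))]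
  simp only [qdet, hdet, h]

lemma hdet_expand (h : IsRk ρ) (hj : ρ {j} = 0) {r : ℕ} (γ : Fin r → Fin (N + 1))
    (t : Fin (N + 1) → ℝ) (u : Equiv.Perm (Fin (N + 1))) :
    hdet ρ (fun b => (γ b : ℕ)) t u = ∑ S : Finset (Fin r),
      (∏ b ∈ S, if γ b < j then t j - t (γ b) else 0) *
        qdet (rd j ρ) (fun b => if b ∈ S then γ b + 1 else γ b) (fun l => t (j.succAbove l))
          (del j u) := by
  simp only [hdet, qdet, tail_split t j, add_mul, map_add, mul_assoc, push_C_mul]
  rw [greedy_del h hj, Finset.prod_map, det_expand, Finset.mul_sum]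
  refine Finset.sum_congr rfl fun S _ => ?_
  rw [mul_left_comm]
  congr 3
  ext b k
  by_cases hb : b ∈ S <;> simp [hb]

end Loop

theorem posAll (n : ℕ) : ∀ {F : Fan} (_ : F.Good) {W : Fin n → F.Ray → ℝ}
    {w : F.Cn → Equiv.Perm (Fin n)} (_ : F.Base W w) {ρ : Finset (Fin n) → ℕ}
    (_ : IsRk ρ) {r : ℕ} (_ : ρ Finset.univ = r)
    (γ : Fin r → ℕ) (_ : Antitone γ) (_ : ∀ a, γ a < n)
    (E : Multiset (F.Ray → ℝ)) (_ : ∀ g ∈ E, F.Conv g)
    (_ : E.card + ∑ b, (n - 1 - γ b) + tri r = F.d + r * (r - 1)) {ξ : F.Ξ} (_ : F.Gen ξ),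
    0 ≤ F.φ ξ ((E.map fun g => F.cl g ξ).prod *
      fun σ => hdet ρ γ (fun i => F.cl (W i) ξ σ) (w σ)) := by
  have zero : ∀ {n : ℕ} {F : Fan} (_ : F.Good) (W : Fin n → F.Ray → ℝ)
      (w : F.Cn → Equiv.Perm (Fin n)) (ρ : Finset (Fin n) → ℕ) (γ : Fin 0 → ℕ)
      (E : Multiset (F.Ray → ℝ)) (_ : ∀ g ∈ E, F.Conv g)
      (_ : E.card + ∑ b, (n - 1 - γ b) + tri 0 = F.d + 0 * (0 - 1)) {ξ : F.Ξ} (_ : F.Gen ξ),
      0 ≤ F.φ ξ ((E.map fun g => F.cl g ξ).prod *
        fun σ => hdet ρ γ (fun i => F.cl (W i) ξ σ) (w σ)) := by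
    intro n F hF W w ρ γ E hE hd ξ hξ
    obtain ⟨l, hl⟩ := hF.amp
    have h := sign_base (F.sys ξ) (hF.lef hξ hl) F.face0 ⊤ Algebra.mem_top (p := 0) (Δ := 1)
      one_mem_pow_zero (fun g _ => orthLT_zero _) (E.map fun g => F.cl g ξ)
      (fun a ha j' _ => by
        obtain ⟨g, hg, rfl⟩ := Multiset.mem_map.1 ha
        exact Fan.gn_conv hF.bal hξ (hE g hg) j') (fun _ => Algebra.mem_top)
      (by simpa [tri, Fan.sys_d0] using hd)
    have e : (fun σ => hdet ρ γ (fun i => F.cl (W i) ξ σ) (w σ)) = 1 := by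
      funext σ; simp [hdet, tri]
    rw [e]
    simpa [Fan.sys_φ0] using h
  induction n with
  | zero =>
    intro F hF W w _ ρ _ r _ γ _ hγ E hE hd ξ hξ
    cases r with
    | zero => exact zero hF W w ρ γ E hE hd hξ
    | succ r => exact absurd (hγ 0) (Nat.not_lt_zero _)
  | succ N ih =>
    intro F hF W w hW ρ hρ r hr γ hγ hγN E hE hd ξ hξ
    cases r with
    | zero => exact zero hF W w ρ γ E hE hd hξ
    | succ r =>
    by_cases hl : ∀ e, ρ {e} = 1
    · exact coreE hF hW hρ hr hl γ hγ hγN E hE hd hξ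
    obtain ⟨j, hj⟩ := not_forall.1 hl
    replace hj : ρ {j} = 0 := by
      have := hρ.unit ∅ j
      rw [insert_empty_eq, hρ.empty] at this
      omega
    by_cases hi : Function.Injective γ
    swap
    · obtain ⟨a, b, h1, h2⟩ := Function.not_injective_iff.1 hi
      have e : (fun σ => hdet ρ γ (fun i => F.cl (W i) ξ σ) (w σ)) = 0 := by
        funext σ
        rw [hdet, Matrix.det_zero_of_row_eq h2 (by ext c; simp [h1]), mul_zero]
        rfl
      rw [e, mul_zero, map_zero]
    have hs := hγ.strictAnti_of_injective hi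
    have e : (fun σ => hdet ρ γ (fun i => F.cl (W i) ξ σ) (w σ)) = ∑ S : Finset (Fin (r + 1)),
        fun σ => (∏ b ∈ S, if (⟨γ b, hγN b⟩ : Fin (N + 1)) < j then
          F.cl (W j) ξ σ - F.cl (W ⟨γ b, hγN b⟩) ξ σ else 0) *
        Loop.qdet (Loop.rd j ρ) (fun b => if b ∈ S then γ b + 1 else γ b)
          (fun l => F.cl (W (j.succAbove l)) ξ σ) (Loop.del j (w σ)) := by
      funext σ
      rw [Finset.sum_apply]
      exact Loop.hdet_expand hρ hj (fun b => ⟨γ b, hγN b⟩) _ _
    rw [e, Finset.mul_sum, map_sum]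
    refine Finset.sum_nonneg fun S _ => ?_
    by_cases h1 : ∀ b ∈ S, (⟨γ b, hγN b⟩ : Fin (N + 1)) < j
    swap
    · obtain ⟨b, hb, h2⟩ : ∃ b ∈ S, ¬ (⟨γ b, hγN b⟩ : Fin (N + 1)) < j := by simpa using h1
      have h3 : ∀ σ, (∏ b ∈ S, if (⟨γ b, hγN b⟩ : Fin (N + 1)) < j then
          F.cl (W j) ξ σ - F.cl (W ⟨γ b, hγN b⟩) ξ σ else 0) = 0 := fun σ =>
        Finset.prod_eq_zero hb (if_neg h2)
      simp only [h3, zero_mul]
      exact ((congrArg _ (mul_zero _)).trans (map_zero _)).ge
    by_cases h2 : ∀ b, (if b ∈ S then γ b + 1 else γ b) ≠ 0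
    swap
    · obtain ⟨b, hb⟩ := not_forall.1 h2
      simp only [Loop.qdet_zero _ (γ := fun b => if b ∈ S then γ b + 1 else γ b) (not_not.1 hb),
        mul_zero]
      exact ((congrArg _ (mul_zero _)).trans (map_zero _)).ge
    have h3 : ∀ b ∈ S, γ b < N := fun b hb => by
      have h4 : γ b < j := h1 b hb
      omega
    have key := ih hF (Loop.base hW j) (Loop.isRk_rd hρ j)
      ((Loop.rk_eq hρ hj (A := Finset.univ) (by simp)).symm.trans hr)
      (fun b => (if b ∈ S then γ b + 1 else γ b) - 1)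
      (fun a b hab => by
        rcases hab.eq_or_lt with rfl | hab
        · exact le_rfl
        · have := hs hab
          dsimp only
          split_ifs <;> omega)
      (fun b => by
        have h4 := h2 b
        have h5 := hγN b
        have h6 := h3 b
        split_ifs at h4 ⊢ with hb
        · exact h6 hb
        · omega)
      (E + S.val.map fun b => W j - W ⟨γ b, hγN b⟩)
      (fun g hg => by
        rcases Multiset.mem_add.1 hg with hg | hg
        · exact hE g hg
        · obtain ⟨b, hb, rfl⟩ := Multiset.mem_map.1 hg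
          exact hW.sub _ _ (h1 b hb).le)
      (by
        have h4 : ∑ b, (N + 1 - 1 - γ b) = ∑ b, ((N - 1 - ((if b ∈ S then γ b + 1 else γ b) - 1)) +
            if b ∈ S then 1 else 0) := Finset.sum_congr rfl fun b _ => by
          have h4 := h2 b
          have h6 := h3 b
          split_ifs at h4 ⊢ with hb
          · have := h6 hb
            omega
          · omega
        rw [h4, Finset.sum_add_distrib, Finset.sum_ite_mem, Finset.univ_inter, Finset.sum_const,
          smul_eq_mul, mul_one] at hd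
        rw [Multiset.card_add, Multiset.card_map, ← hd]
        change E.card + S.card + _ + _ = _
        ring) hξ
    refine key.trans_eq (congrArg _ ?_)
    rw [Multiset.map_add, Multiset.prod_add, mul_assoc, Multiset.map_map]
    congr 1
    funext σ
    rw [Pi.mul_apply, Loop.qdet_eq _ h2]
    congr 1
    change (∏ b ∈ S, F.cl (W j - W ⟨γ b, hγN b⟩) ξ) σ = _
    rw [Finset.prod_apply]
    exact Finset.prod_congr rfl fun b hb => by rw [if_pos (h1 b hb), Fan.cl_sub]; rfl

end G94
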