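import Pool.Agent.P.MP_740b33_co.FanB

/-! Package B2: morphisms of fans. -/

namespace G94

open H40M Polynomial

namespace Map

variable {F'' F' F : Fan} {f f' : ℕ} (M : Map F' F f)

lemma ι_apply (g : F.Cn → ℝ) (σ : F'.Cn) : M.ι g σ = g (M.par σ) := rfl

lemma up_apply (K : F.Ξ → F.Cn → ℝ) (ξ : F'.Ξ) : M.up K ξ = M.ι (K (M.pr ξ)) := rfl

lemma up_mul (K L : F.Ξ → F.Cn → ℝ) : M.up (K * L) = M.up K * M.up L := rfl

lemma up_one : M.up 1 = 1 := rfl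

lemma pull_add (g h : F.Ray → ℝ) : M.pull (g + h) = M.pull g + M.pull h := by
  funext ρ; simp [pull, mul_add, Finset.sum_add_distrib]

lemma pull_sub (g h : F.Ray → ℝ) : M.pull (g - h) = M.pull g - M.pull h := by
  funext ρ; simp [pull, mul_sub, Finset.sum_sub_distrib]

lemma pull_neg (g : F.Ray → ℝ) : M.pull (-g) = -M.pull g := by
  funext ρ; simp [pull]

lemma pull_smul (c : ℝ) (g : F.Ray → ℝ) : M.pull (c • g) = c • M.pull g := by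
  funext ρ; simp [pull, Finset.mul_sum, mul_left_comm]

lemma pull_zero : M.pull 0 = 0 := by
  funext ρ; simp [pull]

lemma pull_mono {g h : F.Ray → ℝ} (hg : ∀ ρ, g ρ ≤ h ρ) (ρ : F'.Ray) : M.pull g ρ ≤ M.pull h ρ :=
  Finset.sum_le_sum fun ρ' _ => mul_le_mul_of_nonneg_left (hg ρ') (M.a_nonneg ρ ρ')

lemma pull_mono_on {g h : F.Ray → ℝ} {σ : F'.Cn} (hg : ∀ ρ ∈ F.rays (M.par σ), g ρ ≤ h ρ) :
    ∀ ρ ∈ F'.rays σ, M.pull g ρ ≤ M.pull h ρ := by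
  intro ρ hρ
  refine Finset.sum_le_sum fun ρ' _ => ?_
  by_cases h1 : ρ' ∈ F.rays (M.par σ)
  · exact mul_le_mul_of_nonneg_left (hg ρ' h1) (M.a_nonneg ρ ρ')
  · rw [M.a_out σ ρ hρ ρ' h1, zero_mul, zero_mul]

lemma pull_congr_on {g h : F.Ray → ℝ} {σ : F'.Cn} (hg : ∀ ρ ∈ F.rays (M.par σ), g ρ = h ρ) :
    ∀ ρ ∈ F'.rays σ, M.pull g ρ = M.pull h ρ := fun ρ hρ =>
  le_antisymm (M.pull_mono_on (fun ρ' h' => (hg ρ' h').le) ρ hρ)
    (M.pull_mono_on (fun ρ' h' => (hg ρ' h').ge) ρ hρ)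

lemma pull_lin (m : F.Ξ →ₗ[ℝ] ℝ) : M.pull (F.lin m) = F'.lin (m ∘ₗ M.pr) := by
  funext ρ
  simp [pull, Fan.lin, M.pr_v ρ]

lemma MapB_x_pr (σ : F'.Cn) (ρ : F.Ray) (ξ : F'.Ξ) :
    F.x (M.par σ) ρ (M.pr ξ) = ∑ ρ', M.a ρ' ρ * F'.x σ ρ' ξ := by
  conv_lhs => rw [← F'.sum_x σ ξ]
  rw [map_sum, map_sum]
  refine Finset.sum_congr rfl fun ρ' _ => ?_
  rw [map_smul, map_smul, smul_eq_mul, mul_comm]
  by_cases h1 : ρ' ∈ F'.rays σ
  · congr 1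
    rw [M.pr_v, map_sum]
    have h2 : ∀ ρ0, F.x (M.par σ) ρ (M.a ρ' ρ0 • F.v ρ0) = if ρ = ρ0 then M.a ρ' ρ0 else 0 := by
      intro ρ0
      rw [map_smul, smul_eq_mul]
      by_cases h3 : ρ0 ∈ F.rays (M.par σ)
      · rw [F.x_v _ _ _ h3, mul_ite, mul_one, mul_zero]
      · rw [M.a_out σ ρ' h1 ρ0 h3, zero_mul, ite_self]
    rw [Finset.sum_congr rfl fun ρ0 _ => h2 ρ0, Finset.sum_ite_eq, if_pos (Finset.mem_univ _)]
  · rw [F'.x_out σ ρ' h1, LinearMap.zero_apply, mul_zero, mul_zero]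

lemma cl_pull (g : F.Ray → ℝ) (ξ : F'.Ξ) : F'.cl (M.pull g) ξ = M.ι (F.cl g (M.pr ξ)) := by
  funext σ
  rw [ι_apply]
  simp only [Fan.cl, pull, M.MapB_x_pr, Finset.sum_mul, Finset.mul_sum]
  rw [Finset.sum_comm]
  exact Finset.sum_congr rfl fun ρ _ => Finset.sum_congr rfl fun ρ' _ => by ring

lemma ι_mem (ξ : F'.Ξ) : ∀ η ∈ F.V (M.pr ξ), M.ι η ∈ F'.V ξ := by
  intro η hη
  obtain ⟨c, g, rfl⟩ := Fan.mem_V.1 hη
  exact Fan.mem_V.2 ⟨c, M.pull g, by rw [map_add, AlgHom.commutes, cl_pull]⟩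

/-- Pull-back of families as an algebra map. -/
def MapB_upA : (F.Ξ → F.Cn → ℝ) →ₐ[ℝ] (F'.Ξ → F'.Cn → ℝ) where
  toFun := M.up
  map_one' := rfl
  map_mul' _ _ := rfl
  map_zero' := rfl
  map_add' _ _ := rfl
  commutes' _ := rfl

lemma up_mem_VP {j : ℕ} {K : F.Ξ → F.Cn → ℝ} (h : K ∈ F.VP ^ j) : M.up K ∈ F'.VP ^ j := by
  refine map_mem_pow M.MapB_upA (fun v hv => ?_) h
  induction hv using Submodule.span_induction with
  | mem y hy =>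
    rcases hy with rfl | ⟨ρ, rfl⟩
    · rw [map_one]
      exact Fan.one_mem_VP
    · have h1 : M.MapB_upA (F.xr ρ) = F'.cl fun ρ' => M.a ρ' ρ := by
        funext ξ σ
        exact M.MapB_x_pr σ ρ ξ
      rw [h1]
      exact Fan.cl_mem_VP _
  | zero => rw [map_zero]; exact zero_mem _
  | add y z _ _ hy hz => rw [map_add]; exact add_mem hy hz
  | smul c y _ hy => rw [map_smul]; exact Submodule.smul_mem _ _ hy

lemma MapB_push_apply (ξ : F'.Ξ) (η : F'.Cn → ℝ) (σ : F.Cn) :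
    M.push ξ η σ = (∑ σ' ∈ Finset.univ.filter fun σ' => M.par σ' = σ, F'.wt ξ σ' * η σ') /
      F.wt (M.pr ξ) σ := rfl

lemma push_ι_mul (ξ : F'.Ξ) (g : F.Cn → ℝ) (η : F'.Cn → ℝ) :
    M.push ξ (M.ι g * η) = g * M.push ξ η := by
  funext σ
  rw [Pi.mul_apply, MapB_push_apply, MapB_push_apply, ← mul_div_assoc, Finset.mul_sum]
  congr 1
  refine Finset.sum_congr rfl fun σ' h => ?_
  rw [Pi.mul_apply, ι_apply, (Finset.mem_filter.1 h).2]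
  ring

lemma φ_push {ξ : F'.Ξ} (hξ : F'.Gen ξ) (η : F'.Cn → ℝ) :
    F'.φ ξ η = F.φ (M.pr ξ) (M.push ξ η) := by
  rw [Fan.φ_apply, Fan.φ_apply, ← Finset.sum_fiberwise Finset.univ M.par]
  refine Finset.sum_congr rfl fun σ _ => ?_
  rw [MapB_push_apply, mul_div_cancel₀ _ (Fan.wt_ne_zero (M.gen ξ hξ) σ)]

lemma φ_ι_mul {ξ : F'.Ξ} (hξ : F'.Gen ξ) (g : F.Cn → ℝ) (η : F'.Cn → ℝ) :
    F'.φ ξ (M.ι g * η) = F.φ (M.pr ξ) (g * M.push ξ η) := by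
  rw [M.φ_push hξ, push_ι_mul]

lemma push_eq_zero_at (ξ : F'.Ξ) {η : F'.Cn → ℝ} {σ : F.Cn}
    (h : ∀ σ', M.par σ' = σ → η σ' = 0) : M.push ξ η σ = 0 := by
  rw [MapB_push_apply, Finset.sum_eq_zero fun σ' h' => by
    rw [h σ' (Finset.mem_filter.1 h').2, mul_zero], zero_div]

lemma MapB_push_mem {ξ : F'.Ξ} (hξ : F'.Gen ξ) {j : ℕ} {η : F'.Cn → ℝ} (hη : η ∈ F'.V ξ ^ j) :
    M.push ξ η ∈ F.V (M.pr ξ) ^ (j - f) := (M.push_mem ξ hξ j η hη).1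

lemma MapB_push_zero {ξ : F'.Ξ} (hξ : F'.Gen ξ) {j : ℕ} {η : F'.Cn → ℝ} (hη : η ∈ F'.V ξ ^ j)
    (hj : j < f) : M.push ξ η = 0 := (M.push_mem ξ hξ j η hη).2 hj

lemma bal (M : Map F' F f) (h : F.Bal) : F'.Bal := by
  intro ξ hξ j hj η hη
  rw [M.φ_push hξ]
  by_cases h1 : j < f
  · rw [M.MapB_push_zero hξ hη h1, map_zero]
  · have h2 := M.dim
    exact h _ (M.gen ξ hξ) (j - f) (by omega) _ (M.MapB_push_mem hξ hη)

lemma conv {g : F.Ray → ℝ} (h : F.Conv g) : F'.Conv (M.pull g) := by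
  intro σ ρ
  have h1 : F.cl g (∑ ρ0, M.a ρ ρ0 • F.v ρ0) (M.par σ) =
      ∑ ρ0, M.a ρ ρ0 * F.cl g (F.v ρ0) (M.par σ) := by
    simp only [Fan.cl, map_sum, map_smul, smul_eq_mul, Finset.mul_sum]
    rw [Finset.sum_comm]
    exact Finset.sum_congr rfl fun _ _ => Finset.sum_congr rfl fun _ _ => by ring
  rw [cl_pull, ι_apply, M.pr_v, h1]
  exact Finset.sum_le_sum fun ρ0 _ => mul_le_mul_of_nonneg_left (h _ ρ0) (M.a_nonneg ρ ρ0)

lemma nn {g : F.Ray → ℝ} (h : F.NN g) : F'.NN (M.pull g) := by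
  intro σ ρ hρ
  have h1 := M.pull_mono_on (g := 0) (h := g) (σ := σ) (h _) ρ hρ
  rwa [pull_zero] at h1

lemma z {g : F.Ray → ℝ} {σ : F'.Cn} (h : F.Z g (M.par σ)) : F'.Z (M.pull g) σ := by
  intro ρ hρ
  have h1 := M.pull_congr_on (g := g) (h := 0) (σ := σ) h ρ hρ
  rwa [pull_zero] at h1

lemma signDef {g : F.Ray → ℝ} (h : F.SignDef g) : F'.SignDef (M.pull g) := by
  intro σ
  refine (h (M.par σ)).imp (fun h1 ρ hρ => ?_) fun h1 ρ hρ => ?_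
  · have h2 := M.pull_mono_on (g := 0) (h := g) (σ := σ) h1 ρ hρ
    rwa [pull_zero] at h2
  · have h2 := M.pull_mono_on (g := g) (h := 0) (σ := σ) h1 ρ hρ
    rwa [pull_zero] at h2

lemma ord {n : ℕ} {W : Fin n → F.Ray → ℝ} {w : F.Cn → Equiv.Perm (Fin n)} (h : F.Ord W w) :
    F'.Ord (fun i => M.pull (W i)) (fun σ => w (M.par σ)) :=
  fun σ ρ hρ _ _ hk => M.pull_mono_on (σ := σ) (fun ρ' h' => h _ ρ' h' hk) ρ hρ

lemma base {n : ℕ} {W : Fin n → F.Ray → ℝ} {w : F.Cn → Equiv.Perm (Fin n)} (h : F.Base W w) :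
    F'.Base (fun i => M.pull (W i)) (fun σ => w (M.par σ)) := by
  refine ⟨M.ord h.ord, fun j => ?_, fun i l hil => ?_, fun ξ hξ σ => ?_⟩
  · rw [← pull_neg]
    exact M.conv (h.neg j)
  · rw [← pull_sub]
    exact M.conv (h.sub i l hil)
  · simp only [cl_pull, ι_apply]
    exact h.inj _ (M.gen ξ hξ) _

lemma node {n : ℕ} {W : Fin n → F.Ray → ℝ} {Y : F.Ray → ℝ} {e : Fin n → F.Ray → ℝ}
    (h : F.Node W Y e) : F'.Node (fun i => M.pull (W i)) (M.pull Y) (fun l => M.pull (e l)) := by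
  refine ⟨M.conv h.conv, fun l => M.nn (h.nn l), fun l => ?_⟩
  rw [← pull_add, ← pull_sub]
  exact M.conv (h.cor l)

lemma van {n : ℕ} {W : Fin n → F.Ray → ℝ} {P : F.Ξ → F.Cn → ℝ} {q : ℕ} {Y : F.Ray → ℝ}
    {e : Fin n → F.Ray → ℝ} {b : ℕ} (h : F.Van W P q Y e b) :
    F'.Van (fun i => M.pull (W i)) (M.up P) q (M.pull Y) (fun l => M.pull (e l)) b := by
  intro ξ hξ l hl j hj η hη h0
  have h1 : M.up P ξ * ∏ l' ∈ seg n l b, (F'.cl (M.pull Y) ξ + F'.cl (M.pull (W l')) ξ) =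
      M.ι (P (M.pr ξ) * ∏ l' ∈ seg n l b, (F.cl Y (M.pr ξ) + F.cl (W l') (M.pr ξ))) := by
    simp only [map_mul, map_prod, map_add, cl_pull, up_apply]
  rw [h1, M.φ_ι_mul hξ]
  by_cases h2 : j < f
  · rw [M.MapB_push_zero hξ hη h2, mul_zero, map_zero]
  · have h3 := M.dim
    exact h _ (M.gen ξ hξ) l hl (j - f) (by omega) _ (M.MapB_push_mem hξ hη) fun σ hσ =>
      M.push_eq_zero_at ξ fun σ' h' => h0 σ' (M.z (h' ▸ hσ))

lemma nul {ξ : F'.Ξ} (hξ : F'.Gen ξ) {q : ℕ} {x : F.Cn → ℝ}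
    (h : Nul (F.V (M.pr ξ)) (F.φ (M.pr ξ)) F.d q x) : Nul (F'.V ξ) (F'.φ ξ) F'.d q (M.ι x) := by
  intro s hs η hη
  rw [M.φ_ι_mul hξ]
  by_cases h2 : s < f
  · rw [M.MapB_push_zero hξ hη h2, mul_zero, map_zero]
  · have h3 := M.dim
    exact h (s - f) (by omega) _ (M.MapB_push_mem hξ hη)

lemma pushF_comp (M' : Map F'' F' f') {ξ : F''.Ξ} (hξ : F''.Gen ξ) (η : F''.Cn → ℝ) :
    pushF F'' F (M.pr ∘ₗ M'.pr) (fun σ => M.par (M'.par σ)) ξ η =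
      M.push (M'.pr ξ) (M'.push ξ η) := by
  funext σ
  rw [MapB_push_apply]
  change (∑ σ'' ∈ Finset.univ.filter fun σ'' => M.par (M'.par σ'') = σ, F''.wt ξ σ'' * η σ'') /
    F.wt (M.pr (M'.pr ξ)) σ = _
  congr 1
  rw [← Finset.sum_fiberwise_of_maps_to (t := Finset.univ.filter fun σ' => M.par σ' = σ)
    (g := M'.par) fun σ'' h => by simpa using h]
  refine Finset.sum_congr rfl fun σ' h => ?_
  rw [MapB_push_apply, mul_div_cancel₀ _ (Fan.wt_ne_zero (M'.gen ξ hξ) σ')]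
  refine Finset.sum_congr ?_ fun _ _ => rfl
  ext σ''
  simp only [Finset.mem_filter, Finset.mem_univ, true_and] at h ⊢
  exact ⟨fun h1 => h1.2, fun h1 => ⟨h1 ▸ h, h1⟩⟩

/-- The composite of two morphisms. -/
def comp (M' : Map F'' F' f') (M : Map F' F f) {g : ℕ} (h : f + f' = g) : Map F'' F g where
  pr := M.pr ∘ₗ M'.pr
  par := fun σ => M.par (M'.par σ)
  a := fun ρ'' ρ => ∑ ρ', M'.a ρ'' ρ' * M.a ρ' ρ
  surj := M.surj.comp M'.surj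
  a_nonneg := fun ρ'' ρ =>
    Finset.sum_nonneg fun ρ' _ => mul_nonneg (M'.a_nonneg ρ'' ρ') (M.a_nonneg ρ' ρ)
  a_out := by
    intro σ ρ'' h1 ρ h2
    refine Finset.sum_eq_zero fun ρ' _ => ?_
    by_cases h3 : ρ' ∈ F'.rays (M'.par σ)
    · rw [M.a_out _ ρ' h3 ρ h2, mul_zero]
    · rw [M'.a_out σ ρ'' h1 ρ' h3, zero_mul]
  pr_v := by
    intro ρ''
    simp only [LinearMap.comp_apply, M'.pr_v, map_sum, map_smul, M.pr_v, Finset.smul_sum,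
      Finset.sum_smul, smul_smul]
    exact Finset.sum_comm
  gen := fun ξ hξ => M.gen _ (M'.gen ξ hξ)
  dim := by rw [M'.dim, M.dim, ← h, add_assoc]
  push_mem := by
    intro ξ hξ j η hη
    rw [M.pushF_comp M' hξ]
    have h1 := M'.MapB_push_mem hξ hη
    refine ⟨?_, fun hj => ?_⟩
    · rw [show j - g = j - f' - f by omega]
      exact M.MapB_push_mem (M'.gen ξ hξ) h1
    · by_cases h2 : j < f'
      · rw [M'.MapB_push_zero hξ hη h2, map_zero]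
      · exact M.MapB_push_zero (M'.gen ξ hξ) h1 (by omega)

lemma comp_pull (M' : Map F'' F' f') (M : Map F' F f) {g : ℕ} (h : f + f' = g)
    (u : F.Ray → ℝ) : (M'.comp M h).pull u = M'.pull (M.pull u) := by
  funext ρ''
  simp only [pull, comp, Finset.sum_mul, Finset.mul_sum, mul_assoc]
  exact Finset.sum_comm

lemma comp_push (M' : Map F'' F' f') (M : Map F' F f) {g : ℕ} (h : f + f' = g) {ξ : F''.Ξ}
    (hξ : F''.Gen ξ) (η : F''.Cn → ℝ) :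
    (M'.comp M h).push ξ η = M.push (M'.pr ξ) (M'.push ξ η) := M.pushF_comp M' hξ η

lemma MapB_pushF_id {ξ : F.Ξ} (hξ : F.Gen ξ) (η : F.Cn → ℝ) :
    pushF F F LinearMap.id (fun σ => σ) ξ η = η := by
  funext σ
  change (∑ σ' ∈ Finset.univ.filter fun σ' => σ' = σ, F.wt ξ σ' * η σ') / F.wt ξ σ = _
  rw [Finset.filter_eq', if_pos (Finset.mem_univ _), Finset.sum_singleton,
    mul_div_cancel_left₀ _ (Fan.wt_ne_zero hξ σ)]

/-- The identity morphism. -/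
def id (F : Fan) : Map F F 0 where
  pr := LinearMap.id
  par := fun σ => σ
  a := fun ρ' ρ => if ρ' = ρ then 1 else 0
  surj := Function.surjective_id
  a_nonneg := by
    intro ρ' ρ
    split_ifs
    exacts [zero_le_one, le_rfl]
  a_out := by
    intro σ ρ' h1 ρ h2
    refine if_neg fun h3 => h2 ?_
    rwa [← h3]
  pr_v := by
    intro ρ'
    simp
  gen := fun _ hξ => hξ
  dim := rfl
  push_mem := by
    intro ξ hξ j η hη
    rw [MapB_pushF_id hξ]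
    exact ⟨hη, fun hj => absurd hj (Nat.not_lt_zero j)⟩

lemma id_pull (u : F.Ray → ℝ) : (id F).pull u = u := by
  funext ρ
  simp [pull, id]

lemma id_push {ξ : F.Ξ} (hξ : F.Gen ξ) (η : F.Cn → ℝ) : (id F).push ξ η = η :=
  MapB_pushF_id hξ η

lemma hcut {K : F.Ξ → F.Cn → ℝ} {p : ℕ} (h : F.HCut K p) : F'.HCut (M.up K) p :=
  fun F'' _ M' hF => h F'' _ (M'.comp M rfl) hF

end Map

lemma Fan.HCut.cutOK {F : Fan} {K : F.Ξ → F.Cn → ℝ} {p : ℕ} (h : F.HCut K p) (hF : F.Good) :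
    F.CutOK K p := h F 0 (Map.id F) hF

lemma isRef_id (F : Fan) : IsRef (Map.id F) :=
  ⟨fun _ hξ => Map.id_push hξ 1, fun _ η hη => ⟨η, hη, fun ξ hξ => Map.id_push hξ (η ξ)⟩⟩

lemma IsRef.comp {F'' F' F : Fan} {M' : Map F'' F' 0} {M : Map F' F 0} (h' : IsRef M')
    (h : IsRef M) : IsRef (M'.comp M rfl) := by
  refine ⟨fun ξ hξ => ?_, fun j η hη => ?_⟩
  · rw [Map.comp_push M' M rfl hξ, h'.one ξ hξ, h.one _ (M'.gen ξ hξ)]
  · obtain ⟨G', h1, h2⟩ := h'.unif j η hη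
    obtain ⟨G, h3, h4⟩ := h.unif j G' h1
    refine ⟨G, h3, fun ξ hξ => ?_⟩
    rw [Map.comp_push M' M rfl hξ, h2 ξ hξ, h4 _ (M'.gen ξ hξ)]
    rfl

lemma IsBunW.conv {F' F : Fan} {N : ℕ} {M : Map F' F N} {b : Fin (N + 1) → F.Ray → ℝ}
    {Y : F'.Ray → ℝ} {s : Fin (N + 1) → F'.Ξ →ₗ[ℝ] ℝ} {top : F'.Cn → Fin (N + 1)}
    (h : IsBunW M b Y s top) (hb : ∀ j, F.Conv (b j)) : F'.Conv Y :=
  Fan.conv_max (f := fun j => M.pull (b j) + F'.lin (s j)) top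
    (fun _ => (M.conv (hb _)).add (Fan.conv_lin _)) (fun _ _ => h.le _ _) h.eq

lemma IsBunW.cl_top {F' F : Fan} {N : ℕ} {M : Map F' F N} {b : Fin (N + 1) → F.Ray → ℝ}
    {Y : F'.Ray → ℝ} {s : Fin (N + 1) → F'.Ξ →ₗ[ℝ] ℝ} {top : F'.Cn → Fin (N + 1)}
    (h : IsBunW M b Y s top) (ξ : F'.Ξ) (σ : F'.Cn) :
    F'.cl Y ξ σ = F.cl (b (top σ)) (M.pr ξ) (M.par σ) + s (top σ) ξ := by
  rw [Fan.cl_congr (g := M.pull (b (top σ)) + F'.lin (s (top σ))) (h.eq σ) ξ, Fan.cl_add,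
    M.cl_pull, Fan.cl_lin]
  rfl

lemma IsBunW.refine {F'' F' F : Fan} {N : ℕ} {M : Map F' F N} {b : Fin (N + 1) → F.Ray → ℝ}
    {Y : F'.Ray → ℝ} {s : Fin (N + 1) → F'.Ξ →ₗ[ℝ] ℝ} {top : F'.Cn → Fin (N + 1)}
    (h : IsBunW M b Y s top) {R : Map F'' F' 0} (hR : IsRef R) :
    IsBunW (R.comp M (Nat.add_zero N)) b (R.pull Y) (fun j => s j ∘ₗ R.pr)
      (fun σ => top (R.par σ)) := by
  have key : ∀ j ρ, (R.comp M (Nat.add_zero N)).pull (b j) ρ + F''.lin (s j ∘ₗ R.pr) ρ =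
      R.pull (M.pull (b j) + F'.lin (s j)) ρ := fun j ρ => by
    rw [Map.comp_pull, ← Map.pull_lin, Map.pull_add, Pi.add_apply]
  refine ⟨?_, fun j ρ => ?_, fun σ ρ hρ => ?_, fun ξ c hc => ?_, fun ξ hξ σ => ?_, fun ξ hξ => ?_⟩
  · rw [h.s0, LinearMap.zero_comp]
  · rw [key]
    exact R.pull_mono (h.le j) ρ
  · rw [key]
    exact R.pull_congr_on (h.eq _) ρ hρ
  · obtain ⟨ξ', h1, h2⟩ := h.fresh ξ c hc
    obtain ⟨ξ'', rfl⟩ := R.surj ξ'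
    exact ⟨ξ'', h1, h2⟩
  · exact h.inj (R.pr ξ) (R.gen ξ hξ) σ
  · rw [Map.comp_push R M _ hξ, R.cl_pull, ← map_pow, ← mul_one (R.ι _), R.push_ι_mul,
      hR.one ξ hξ, mul_one, h.one _ (R.gen ξ hξ)]

end G94
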