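import Pool.Agent.H40M.Final
import Pool.Agent.H40M.Exists

/-! Non-negativity of the degree zero double Schur coefficients of `C(M)`, every matroid. -/

theorem G94.oldSchubertNonneg :
    ∀ (n r : ℕ) (M : Matroid (Fin n)), M.E = Set.univ → M.eRank = r →
      (∃ d, H40M.IsExpansion r M d) ∧
      ∀ d, H40M.IsExpansion r M d → ∀ lam ∈ H40M.box r n,
        ∑ a, lam a + (n - 1) = r * (n - r) → ∃ m : ℕ, d lam = MvPolynomial.C (m : ℤ) :=
  fun _ _ M _ hr => ⟨H40M.exists_expansion M hr, fun _ hd _ hlam hdeg =>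
    H40M.degree_zero_nonneg M hr hd hlam hdeg⟩
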