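import Pool.Agent.P.MP_740b33_co.FanP

/-! The two operations on fans: split projective bundles and subdivisions of an edge. -/

namespace G94

open H40M Polynomial

namespace Fan

variable (F : Fan)

/-- The linear function that agrees with `f` on the cone `σ`. -/
def loc (f : F.Ray → ℝ) (σ : F.Cn) : F.Ξ →ₗ[ℝ] ℝ := ∑ ρ, f ρ • F.x σ ρ

lemma loc_apply (f : F.Ray → ℝ) (σ : F.Cn) (ξ : F.Ξ) : F.loc f σ ξ = F.cl f ξ σ := by
  simp [loc, cl, LinearMap.sum_apply]

section Bun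

variable {N : ℕ} (b : Fin (N + 1) → F.Ray → ℝ)

/-- The fibre coordinates. -/
def bunS (N : ℕ) (j : Fin (N + 1)) : (F.Ξ × (Fin N → ℝ)) →ₗ[ℝ] ℝ :=
  Fin.cases 0 (fun i => LinearMap.proj i ∘ₗ LinearMap.snd ℝ F.Ξ (Fin N → ℝ)) j

/-- The roots on a cone. -/
def bunL (σ : F.Cn) (j : Fin (N + 1)) : (F.Ξ × (Fin N → ℝ)) →ₗ[ℝ] ℝ :=
  F.loc (b j) σ ∘ₗ LinearMap.fst ℝ F.Ξ (Fin N → ℝ) + F.bunS N j

/-- The ray vectors. -/
def bunV : F.Ray ⊕ Fin (N + 1) → F.Ξ × (Fin N → ℝ)
  | Sum.inl ρ => (F.v ρ, fun i => b 0 ρ - b i.succ ρ)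
  | Sum.inr j => (0, fun i => (if j = 0 then 1 else 0) - if j = i.succ then 1 else 0)

/-- The coordinates. -/
def bunX (σ : F.Cn × Fin (N + 1)) : F.Ray ⊕ Fin (N + 1) → (F.Ξ × (Fin N → ℝ)) →ₗ[ℝ] ℝ
  | Sum.inl ρ => F.x σ.1 ρ ∘ₗ LinearMap.fst ℝ F.Ξ (Fin N → ℝ)
  | Sum.inr j => F.bunL b σ.1 σ.2 - F.bunL b σ.1 j

lemma bunL_inl (σ : F.Cn) (j : Fin (N + 1)) {ρ : F.Ray} (h : ρ ∈ F.rays σ) :
    F.bunL b σ j (F.bunV b (Sum.inl ρ)) = b 0 ρ := by
  refine Fin.cases ?_ (fun i => ?_) j <;> simp [bunL, bunS, bunV, loc_apply, cl_ray _ h]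

lemma bunL_inr (σ : F.Cn) (j k : Fin (N + 1)) :
    F.bunL b σ j (F.bunV b (Sum.inr k)) = (if k = 0 then 1 else 0) - if k = j then 1 else 0 := by
  refine Fin.cases ?_ (fun i => ?_) j <;> simp [bunL, bunS, bunV]

/-- The split projective bundle with roots `b`. -/
def bun : Fan where
  Ξ := F.Ξ × (Fin N → ℝ)
  Ray := F.Ray ⊕ Fin (N + 1)
  Cn := F.Cn × Fin (N + 1)
  d := F.d + N
  v := F.bunV b
  rays σ := (F.rays σ.1).disjSum (Finset.univ.erase σ.2)
  x := F.bunX b
  μ σ := F.μ σ.1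
  card_rays σ := by simp [F.card_rays]
  x_out := by
    rintro σ (ρ | j) h
    · simp only [Finset.inl_mem_disjSum] at h
      simp [bunX, F.x_out _ _ h]
    · obtain rfl : j = σ.2 := by simpa using h
      simp [bunX]
  x_v := by
    rintro σ (ρ | j) (ρ' | k) h
    · simp only [Finset.inl_mem_disjSum] at h
      simp [bunX, bunV, F.x_v _ _ _ h]
    · simp [bunX, bunV]
    · simp only [Finset.inl_mem_disjSum] at h
      simp [bunX, bunL_inl _ _ _ _ h]
    · have hk : k ≠ σ.2 := by simpa using h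
      simp [bunX, bunL_inr, hk, eq_comm]
  sum_x := by
    rintro σ ⟨ξ, s⟩
    rw [Fintype.sum_sum_type]
    ext i
    · simp [bunX, bunV, Prod.fst_sum, F.sum_x]
    · have h1 : ∀ j, ∑ ρ, F.x σ.1 ρ ξ * b j ρ = F.cl (b j) ξ σ.1 := fun j =>
        Finset.sum_congr rfl fun _ _ => mul_comm _ _
      simp only [bunX, bunV, Prod.snd_add, Prod.snd_sum, Prod.smul_snd, Pi.add_apply,
        Finset.sum_apply, Pi.smul_apply, smul_eq_mul, LinearMap.comp_apply, LinearMap.fst_apply,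
        h1, mul_sub, mul_ite, mul_one, mul_zero, Finset.sum_sub_distrib, Finset.sum_ite_eq',
        Finset.mem_univ, if_true, LinearMap.sub_apply]
      simp [bunL, bunS, loc_apply]
  μ_pos σ := F.μ_pos σ.1

/-- The hyperplane class of the bundle. -/
def bunY : (F.bun b).Ray → ℝ
  | Sum.inl ρ => b 0 ρ
  | Sum.inr j => if j = 0 then 1 else 0

end Bun

section Sub

variable (r1 r2 : F.Ray) (α β : ℝ)

/-- The cones containing the edge. -/
def Both (σ : F.Cn) : Prop := r1 ∈ F.rays σ ∧ r2 ∈ F.rays σ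

instance (σ : F.Cn) : Decidable (F.Both r1 r2 σ) := by unfold Both; infer_instance

/-- The cones of the subdivision. -/
def SubC : Type := F.Cn ⊕ {σ // F.Both r1 r2 σ}

/-- The old cone containing a new cone. -/
def subPar : F.SubC r1 r2 → F.Cn := Sum.elim (fun σ => σ) fun σ => σ.1

/-- The class of the new ray. -/
noncomputable def subE : F.SubC r1 r2 → F.Ξ →ₗ[ℝ] ℝ
  | Sum.inl σ => if F.Both r1 r2 σ then α⁻¹ • F.x σ r1 else 0
  | Sum.inr σ => β⁻¹ • F.x σ.1 r2

/-- The rays of a new cone. -/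
def subR : F.SubC r1 r2 → Finset (Option F.Ray)
  | Sum.inl σ => if F.Both r1 r2 σ then ((F.rays σ).erase r1).insertNone
      else (F.rays σ).map Function.Embedding.some
  | Sum.inr σ => ((F.rays σ.1).erase r2).insertNone

/-- The coordinates on a new cone. -/
noncomputable def subX (σ : F.SubC r1 r2) : Option F.Ray → F.Ξ →ₗ[ℝ] ℝ
  | none => F.subE r1 r2 α β σ
  | some ρ => F.x (F.subPar r1 r2 σ) ρ -
      ((if ρ = r1 then α else 0) + if ρ = r2 then β else 0) • F.subE r1 r2 α β σ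

/-- The subdivision of the edge `r1 r2` at `α v r1 + β v r2`. -/
noncomputable def sub (h12 : r1 ≠ r2) (hα : 0 < α) (hβ : 0 < β) : Fan where
  Ξ := F.Ξ
  Ray := Option F.Ray
  Cn := F.SubC r1 r2
  fc := inferInstanceAs (Fintype (F.Cn ⊕ {σ // F.Both r1 r2 σ}))
  dc := inferInstanceAs (DecidableEq (F.Cn ⊕ {σ // F.Both r1 r2 σ}))
  ne := inferInstanceAs (Nonempty (F.Cn ⊕ {σ // F.Both r1 r2 σ}))
  d := F.d
  v ρ := ρ.elim (α • F.v r1 + β • F.v r2) F.v
  rays := F.subR r1 r2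
  x := F.subX r1 r2 α β
  μ := Sum.elim (fun σ => if F.Both r1 r2 σ then F.μ σ / α else F.μ σ) fun σ => F.μ σ.1 / β
  card_rays := by
    have key : ∀ σ r, r ∈ F.rays σ → ((F.rays σ).erase r).insertNone.card = F.d := by
      intro σ r h
      rw [Finset.card_insertNone, Finset.card_erase_add_one h, F.card_rays]
    rintro (σ | σ)
    · simp only [subR]
      split_ifs with h
      · exact key σ r1 h.1
      · rw [Finset.card_map, F.card_rays]
    · exact key σ.1 r2 σ.2.2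
  x_out := by
    rintro (σ | σ) (_ | ρ) h
    · by_cases hb : F.Both r1 r2 σ
      · simp [subR, hb] at h
      · simp [subX, subE, hb]
    · by_cases hb : F.Both r1 r2 σ
      · by_cases h1 : ρ = r1
        · subst h1
          simp [subX, subE, subPar, hb, h12, smul_smul, hα.ne']
        · have h2 : ρ ∉ F.rays σ := by simpa [subR, hb, h1] using h
          have h3 : ρ ≠ r2 := fun h3 => h2 (h3 ▸ hb.2)
          simp [subX, subPar, h1, h3, F.x_out _ _ h2]
      · have h2 : ρ ∉ F.rays σ := by simpa [subR, hb] using h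
        simp [subX, subE, subPar, hb, F.x_out _ _ h2]
    · simp [subR] at h
    · by_cases h1 : ρ = r2
      · subst h1
        simp [subX, subE, subPar, h12.symm, smul_smul, hβ.ne']
      · have h2 : ρ ∉ F.rays σ.1 := by simpa [subR, h1] using h
        have h3 : ρ ≠ r1 := fun h3 => h2 (h3 ▸ σ.2.1)
        simp [subX, subPar, h1, h3, F.x_out _ _ h2]
  x_v := by
    have e1 : ∀ σ, F.Both r1 r2 σ → ∀ ρ, F.x σ ρ (α • F.v r1 + β • F.v r2) =
        (if ρ = r1 then α else 0) + if ρ = r2 then β else 0 := by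
      intro σ h ρ
      simp [F.x_v _ _ _ h.1, F.x_v _ _ _ h.2]
    rintro (σ | σ) ρ (_ | ρ') h
    · have hb : F.Both r1 r2 σ := by
        by_contra hb
        simp [subR, hb] at h
      rcases ρ with _ | ρ
      · simp [-map_add, subX, subE, hb, e1 σ hb, h12, hα.ne']
      · simp [-map_add, subX, subE, subPar, hb, e1 σ hb, h12, hα.ne']
    · by_cases hb : F.Both r1 r2 σ
      · obtain ⟨h1, h2⟩ : ρ' ≠ r1 ∧ ρ' ∈ F.rays σ := by simpa [subR, hb] using h
        rcases ρ with _ | ρ <;> simp [subX, subE, subPar, hb, F.x_v _ _ _ h2, h1.symm]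
      · have h2 : ρ' ∈ F.rays σ := by simpa [subR, hb] using h
        rcases ρ with _ | ρ <;> simp [subX, subE, subPar, hb, F.x_v _ _ _ h2]
    · rcases ρ with _ | ρ
      · simp [-map_add, subX, subE, e1 σ.1 σ.2, h12.symm, hβ.ne']
      · simp [-map_add, subX, subE, subPar, e1 σ.1 σ.2, h12.symm, hβ.ne']
    · obtain ⟨h1, h2⟩ : ρ' ≠ r2 ∧ ρ' ∈ F.rays σ.1 := by simpa [subR] using h
      rcases ρ with _ | ρ <;> simp [subX, subE, subPar, F.x_v _ _ _ h2, h1.symm]
  sum_x := by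
    intro σ ξ
    rw [Fintype.sum_option]
    have h1 : ∀ ρ, F.subX r1 r2 α β σ (some ρ) ξ = F.x (F.subPar r1 r2 σ) ρ ξ -
        ((if ρ = r1 then α else 0) + if ρ = r2 then β else 0) * F.subE r1 r2 α β σ ξ :=
      fun _ => rfl
    simp only [h1, Option.elim, sub_smul, Finset.sum_sub_distrib, F.sum_x, add_mul, add_smul,
      ite_mul, zero_mul, ite_smul, zero_smul, Finset.sum_add_distrib, Finset.sum_ite_eq',
      Finset.mem_univ, if_true, smul_add, smul_smul]
    rw [subX, mul_comm α, mul_comm β]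
    abel
  μ_pos := by
    rintro (σ | σ)
    · simp only [Sum.elim_inl]
      split_ifs
      exacts [div_pos (F.μ_pos σ) hα, F.μ_pos σ]
    · exact div_pos (F.μ_pos σ.1) hβ

end Sub

end Fan

end G94
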