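import Pool.Agent.P.MP_740b33_co.HCut
import Pool.Agent.P.MP_740b33_co.FanP

/-! Package C5: the tautological relation kills the Bergman class. -/

namespace G94

open H40M Polynomial

namespace ParNull

section Alg

variable {R : Type} [CommRing R] [Algebra ℝ R] {V : Submodule ℝ R}

lemma eval_mem {N : ℕ} {P : R[X]} (hP : Wt V N P) {y : R} (hy : y ∈ V) : P.eval y ∈ V ^ N := by
  rw [eval_eq_sum_range, hP.2.1]
  refine sum_mem fun j hj => ?_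
  have hj' := Finset.mem_range.1 hj
  exact mul_mem_pow' (hP.2.2 j) (pow_mem_pow hy j) (by omega)

lemma eval_divX_mem (h1 : (1 : R) ∈ V) {N : ℕ} {P : R[X]} (hP : Wt V N P) {y : R} (hy : y ∈ V) :
    P.divX.eval y ∈ V ^ N := by
  have hd : P.divX.natDegree < N + 1 := by
    have := natDegree_divX_le (p := P)
    rw [hP.2.1] at this
    omega
  rw [eval_eq_sum_range' hd]
  refine sum_mem fun j hj => ?_
  have hj' := Finset.mem_range.1 hj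
  rw [coeff_divX]
  exact mem_pow_of_le h1 (by omega) (mul_mem_pow (hP.2.2 (j + 1)) (pow_mem_pow hy j))

omit [Algebra ℝ R] in
lemma eval_split (P : R[X]) (y : R) : P.eval 0 = P.eval y - y * P.divX.eval y := by
  have h := congrArg (eval y) (X_mul_divX_add P)
  rw [eval_add, eval_mul, eval_X, eval_C, coeff_zero_eq_eval_zero] at h
  rw [← h]; ring

end Alg

/-- Currying as an algebra map. -/
def cu (F : Fan) : (F.Ξ × F.Cn → ℝ) →ₐ[ℝ] (F.Ξ → F.Cn → ℝ) where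
  toFun g := fun ξ σ => g (ξ, σ)
  map_one' := rfl
  map_mul' _ _ := rfl
  map_zero' := rfl
  map_add' _ _ := rfl
  commutes' _ := rfl

/-- Degree one classes as functions of pairs. -/
def VU (F : Fan) : Submodule ℝ (F.Ξ × F.Cn → ℝ) := F.VP.comap (cu F).toLinearMap

lemma mem_VU {F : Fan} {g : F.Ξ × F.Cn → ℝ} : g ∈ VU F ↔ cu F g ∈ F.VP := Iff.rfl

lemma cu_mem {F : Fan} {j : ℕ} {g : F.Ξ × F.Cn → ℝ} (h : g ∈ VU F ^ j) : cu F g ∈ F.VP ^ j :=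
  map_mem_pow (cu F) (fun _ hv => mem_VU.1 hv) h

lemma one_mem_VU (F : Fan) : (1 : F.Ξ × F.Cn → ℝ) ∈ VU F := Fan.one_mem_VP

lemma cl_mem_VU {F : Fan} (f : F.Ray → ℝ) : (fun ω : F.Ξ × F.Cn => F.cl f ω.1 ω.2) ∈ VU F :=
  Fan.cl_mem_VP f

lemma lov_mem_VU {F : Fan} {n : ℕ} {W : Fin n → F.Ray → ℝ} {w : F.Cn → Equiv.Perm (Fin n)}
    (h : F.Ord W w) (f : Finset (Fin n) → ℝ) :
    lovF (fun i (ω : F.Ξ × F.Cn) => F.cl (W i) ω.1 ω.2) (fun ω => w ω.2) f ∈ VU F := by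
  have h1 : lovF (fun i (ω : F.Ξ × F.Cn) => F.cl (W i) ω.1 ω.2) (fun ω => w ω.2) f =
      fun ω : F.Ξ × F.Cn => F.cl (Fan.lovR W f) ω.1 ω.2 := by
    funext ω
    rw [Fan.cl_lovR h f ω.1]
    rfl
  rw [h1]
  exact cl_mem_VU _

instance (F : Fan) : Nonempty (F.Ξ × F.Cn) := ⟨(0, Classical.arbitrary _)⟩

lemma prod_mem {F : Fan} {n : ℕ} {W : Fin n → F.Ray → ℝ} {w : F.Cn → Equiv.Perm (Fin n)}
    (h : F.Ord W w) {ρ : Finset (Fin n) → ℕ} (hρ : IsRk ρ) (Y : F.Ray → ℝ) :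
    (fun ξ σ => ∏ b ∈ greedy ρ (w σ), (F.cl Y ξ σ + F.cl (W b) ξ σ)) ∈
      F.VP ^ ρ Finset.univ := by
  have h1 := cu_mem (eval_mem (wt_greedy (one_mem_VU F) (lov_mem_VU h) hρ) (cl_mem_VU Y))
  convert h1 using 1
  funext ξ σ
  exact (eval_fQ (fun i (ω : F.Ξ × F.Cn) => F.cl (W i) ω.1 ω.2)
    (B := fun ω => greedy ρ (w ω.2)) (fun ω => hρ.card_greedy _)
    (fun ω => F.cl Y ω.1 ω.2) (ξ, σ)).symm

lemma kap_split {F : Fan} {n : ℕ} {s : Fin n → F.Ξ →ₗ[ℝ] ℝ} {w : F.Cn → Equiv.Perm (Fin n)}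
    (h : F.Ord (fun j => F.lin (s j)) w) {ρ : Finset (Fin n) → ℕ} (hρ : IsRk ρ) (k : Fin n) :
    ∃ η ∈ F.VP ^ (n - ρ Finset.univ), ∀ ξ σ, k ∉ greedy ρ (w σ) →
      F.kap ρ s w ξ σ = s k ξ * η ξ σ := by
  have hc : ∀ ω : F.Ξ × F.Cn, ((greedy ρ (w ω.2))ᶜ).card = n - ρ Finset.univ := fun ω => by
    rw [Finset.card_compl, hρ.card_greedy, Fintype.card_fin]
  have hl : ∀ j ξ σ, F.cl (F.lin (s j)) ξ σ = s j ξ := fun j ξ σ => by
    rw [Fan.cl_lin]; rfl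
  have hW := wt_greedy_compl (one_mem_VU F) (lov_mem_VU h) hρ
  have hy : (-fun ω : F.Ξ × F.Cn => F.cl (F.lin (s k)) ω.1 ω.2) ∈ VU F :=
    neg_mem (cl_mem_VU _)
  refine ⟨_, cu_mem (eval_divX_mem (one_mem_VU F) hW hy), fun ξ σ hk => ?_⟩
  have h2 := congrFun (eval_split (fQ (fun i (ω : F.Ξ × F.Cn) => F.cl (F.lin (s i)) ω.1 ω.2)
    (fun ω => (greedy ρ (w ω.2))ᶜ) (n - ρ Finset.univ))
    (-fun ω : F.Ξ × F.Cn => F.cl (F.lin (s k)) ω.1 ω.2)) (ξ, σ)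
  rw [Pi.sub_apply, Pi.mul_apply, eval_fQ _ hc, eval_fQ _ hc] at h2
  simp only [Pi.zero_apply, zero_add, hl, Pi.neg_apply, neg_mul] at h2
  rw [Finset.prod_eq_zero (i := k) (f := fun x => -(s k) ξ + (s x) ξ) (Finset.mem_compl.2 hk)
    (neg_add_cancel _), zero_sub, neg_neg] at h2
  simp only [hl]
  exact h2

lemma lin_eq {F : Fan} {m m' : F.Ξ →ₗ[ℝ] ℝ} {σ : F.Cn}
    (h : ∀ ρ ∈ F.rays σ, F.lin m ρ = F.lin m' ρ) (ξ : F.Ξ) : m ξ = m' ξ := by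
  have h1 := Fan.cl_congr h ξ
  rw [Fan.cl_lin, Fan.cl_lin] at h1
  exact h1

lemma bef_sub {F F1 F' : Fan} {N : ℕ} {M : Map F1 F N} {R : Map F' F1 0}
    {W : Fin (N + 1) → F.Ray → ℝ} {w : F.Cn → Equiv.Perm (Fin (N + 1))}
    (hW : F.Ord W w) {Y : F1.Ray → ℝ} {s : Fin (N + 1) → F1.Ξ →ₗ[ℝ] ℝ}
    {top : F1.Cn → Fin (N + 1)} (hM : IsBunW M (fun j => -W j) Y s top)
    {w' : F'.Cn → Equiv.Perm (Fin (N + 1))} (ho : F'.Ord (fun j => F'.lin (s j ∘ₗ R.pr)) w')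
    (σ : F'.Cn) :
    bef (w (M.par (R.par σ))) (top (R.par σ)) ⊆ bef (w' σ) (top (R.par σ)) := by
  intro i hi
  set σ1 := R.par σ with hσ1
  set k := top σ1 with hk
  rw [mem_bef] at hi ⊢
  by_contra hn
  have hik : i ≠ k := fun e => by rw [e] at hi; exact lt_irrefl _ hi
  have a1 : ∀ ρ ∈ F.rays (M.par σ1), W i ρ ≤ W k ρ := fun ρ hρ => by
    simpa using hW _ ρ hρ hi.le
  have a2 : ∀ ρ ∈ F1.rays σ1, F1.lin (s i) ρ ≤ F1.lin (s k) ρ := fun ρ hρ => by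
    have b1 := M.pull_mono_on a1 ρ hρ
    have b2 := hM.le i ρ
    have b3 := hM.eq σ1 ρ hρ
    rw [← hk] at b3
    simp only [M.pull_neg, Pi.neg_apply] at b2 b3
    linarith
  have a3 : ∀ ρ ∈ F'.rays σ, F'.lin (s i ∘ₗ R.pr) ρ = F'.lin (s k ∘ₗ R.pr) ρ := fun ρ hρ => by
    refine le_antisymm ?_ ?_
    · have b1 := R.pull_mono_on a2 ρ hρ
      rwa [R.pull_lin, R.pull_lin] at b1
    · simpa using ho σ ρ hρ (not_lt.1 hn)
  obtain ⟨ξ1, -, h1⟩ := hM.fresh 0 (fun j => (j : ℕ)) (by simp)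
  obtain ⟨ξ', rfl⟩ := R.surj ξ1
  have a4 := lin_eq a3 ξ'
  simp only [LinearMap.comp_apply, h1] at a4
  exact hik (Fin.ext (by exact_mod_cast a4))

end ParNull

open ParNull in
theorem parent_null {F F1 F' : Fan} {N : ℕ} {M : Map F1 F N} {R : Map F' F1 0} (hR : IsRef R)
    (h1 : F1.Bal) {W : Fin (N + 1) → F.Ray → ℝ} {w : F.Cn → Equiv.Perm (Fin (N + 1))}
    (hW : F.Base W w) {Y : F1.Ray → ℝ} {s : Fin (N + 1) → F1.Ξ →ₗ[ℝ] ℝ}
    {top : F1.Cn → Fin (N + 1)} (hM : IsBun M (fun j => -W j) Y s top)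
    {w' : F'.Cn → Equiv.Perm (Fin (N + 1))} (ho : F'.Ord (fun j => F'.lin (s j ∘ₗ R.pr)) w')
    {ρ : Finset (Fin (N + 1)) → ℕ} (hρ : IsRk ρ) {ξ : F'.Ξ} (hξ : F'.Gen ξ) {j : ℕ}
    (hj : N + 1 + j = F'.d) {ζ : F'.Cn → ℝ} (hζ : ζ ∈ F'.V ξ ^ j) :
    F'.φ ξ (F'.kap ρ (fun j => s j ∘ₗ R.pr) w' ξ *
      (aevalTower (R.comp M (Nat.add_zero N)).ι (F'.cl (R.pull Y) ξ)
        (F.mQ ρ W w (M.pr (R.pr ξ))) * ζ)) = 0 := by
  obtain ⟨ζ', hζ', rfl⟩ := Fan.exists_lift hζ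
  obtain ⟨ξb, hb⟩ := F.exists_gen
  obtain ⟨ξ0, h0, h0'⟩ := hM.weak.fresh ξb 0 rfl
  have hg : F1.Gen ξ0 := by
    refine hM.gen_of ξ0 (h0.symm ▸ hb) fun σ a b hab => ?_
    simp only [h0, h0', Pi.zero_apply, add_zero, Fan.cl_neg, Pi.neg_apply, neg_inj] at hab
    exact hW.inj ξb hb σ hab
  have hr : ρ Finset.univ ≤ N + 1 := by
    rw [← hρ.card_greedy 1]
    simpa using Finset.card_le_univ (greedy ρ 1)
  have hA := prod_mem (M.ord hW.ord) hρ Y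
  have hη := mul_mem_pow (Fan.kap_mem hρ ho) hζ'
  have hd : ρ Finset.univ + (N + 1 - ρ Finset.univ + j) = F1.d := by
    have := R.dim
    omega
  have key := zero_of_vanish hR h1 hg hd hA hη (fun σ => ?_) hξ
  · convert key using 2
    funext σ
    have e1 : aevalTower (R.comp M (Nat.add_zero N)).ι (F'.cl (R.pull Y) ξ)
        (F.mQ ρ W w (M.pr (R.pr ξ))) σ =
        ∏ b ∈ greedy ρ (w (M.par (R.par σ))), (F1.cl Y (R.pr ξ) (R.par σ) +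
          F1.cl (M.pull (W b)) (R.pr ξ) (R.par σ)) := by
      have e2 := (R.comp M (Nat.add_zero N)).mQ_pull ρ W w ξ
      have e3 : aevalTower (R.comp M (Nat.add_zero N)).ι (F'.cl (R.pull Y) ξ)
          (F.mQ ρ W w (M.pr (R.pr ξ))) =
          (F'.mQ ρ (fun i => (R.comp M (Nat.add_zero N)).pull (W i))
            (fun σ => w ((R.comp M (Nat.add_zero N)).par σ)) ξ).eval (F'.cl (R.pull Y) ξ) := by
        rw [e2, eval_map]
        rfl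
      rw [e3, Fan.mQ, eval_fQ _ (fun ω => hρ.card_greedy _)]
      refine Finset.prod_congr rfl fun b _ => ?_
      rw [Map.comp_pull, R.cl_pull, R.cl_pull]
      rfl
    simp only [Pi.mul_apply, e1, Map.up]
    ring
  · by_cases hk : top σ ∈ greedy ρ (w (M.par σ))
    · left
      refine Finset.prod_eq_zero hk ?_
      rw [hM.weak.cl_top, M.cl_pull, Map.ι_apply, Fan.cl_neg, h0']
      simp
    · right
      obtain ⟨η, hη1, hη2⟩ := kap_split ho hρ (top σ)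
      refine ⟨s (top σ), _, _, mul_mem_pow hη1 hζ', h0' _, fun ξ' σ' hσ => ?_⟩
      subst hσ
      have hs := hρ.submod _ _ (top (R.par σ')) (bef_sub hW.ord hM.weak ho σ')
      have hk' : top (R.par σ') ∉ greedy ρ (w' σ') := by
        rw [mem_greedy] at hk ⊢
        omega
      simp only [Pi.mul_apply, hη2 ξ' σ' hk', LinearMap.comp_apply]
      ring

end G94
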