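import Pool.Agent.P.MP_740b33_co.Cut

/-! Package A4: the sign theorem for polynomials in nef classes killed by their sum. -/

namespace G94

open H40M Polynomial

variable {R : Type} [CommRing R] [Algebra ℝ R]

namespace SignA

variable {V : Submodule ℝ R} {φ : R →ₗ[ℝ] ℝ} {l : R} {N : Set R}

lemma fam_cuts {d e : ℕ} (h : Fam V φ d l N) (E : Multiset R) (hE : ∀ a ∈ E, a ∈ N)
    (he : e + E.card = d) : Fam V (cutφ φ E.prod) e l N := by
  intro U hU e' he'
  rw [cutφ_cutφ, ← Multiset.prod_add]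
  refine h (E + U) (fun a ha => ?_) e' (by rw [Multiset.card_add]; omega)
  rcases Multiset.mem_add.1 ha with ha | ha
  · exact hE a ha
  · exact hU a ha

lemma fam_cut {d e : ℕ} (h : Fam V φ d l N) {a : R} (ha : a ∈ N) (he : e + 1 = d) :
    Fam V (cutφ φ a) e l N := by
  have := fam_cuts h {a} (fun b hb => (Multiset.mem_singleton.1 hb).symm ▸ ha) (e := e)
    (by simpa using he)
  rwa [Multiset.prod_singleton] at this

lemma fam_cut2 {d e : ℕ} (h : Fam V φ d l N) {a b : R} (ha : a ∈ N) (hb : b ∈ N)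
    (he : e + 2 = d) : Fam V (cutφ φ (a * b)) e l N := by
  rw [← cutφ_cutφ]
  exact fam_cut (fam_cut h ha (e := e + 1) (by omega)) hb rfl

lemma fam_hru {d : ℕ} (h : Fam V φ d l N) : HRu V φ d l := by
  have := h 0 (by simp) d (by simp)
  rwa [Multiset.prod_zero, cutφ_one] at this

lemma c2 (h1 : (1 : R) ∈ V) (hfg : V.FG) (hl : l ∈ V) (hN : ∀ a ∈ N, a ∈ V) {D x : R}
    (hD : D ∈ N) {d j m : ℕ} (h : Fam V φ d l N) (hd : 2 * j + m = d)
    (hx : x ∈ V ^ j) (hDx : OrthLT V φ (j + m) (D * x))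
    (hp : ∀ ζ ∈ lowV V j, Orth V φ (j + m) (D * ζ) → φ (l ^ (m + 1) * x * ζ) = 0) :
    0 ≤ (-1) ^ j * φ (l ^ m * x * x) ∧
      (φ (l ^ m * x * x) = 0 → ∃ z ∈ lowV V j, Orth V φ (j + m) (x - D * z)) := by
  refine claim2 h1 hfg hl (hN D hD) (fam_hru h j m hd) (fun i hi => ?_) (fun i hi => ?_) hx hDx hp
  · exact (fam_hru (fam_cut h hD (e := 2 * i + (m + 1)) (by omega)) i (m + 1) rfl).hl h1 hl
  · exact fam_hru (fam_cut2 h hD hD (e := 2 * i + m) (by omega)) i m rfl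

lemma low_mul {j m : ℕ} {y a : R} (hy : y ∈ lowV V j) (ha : a ∈ V ^ (m + 1)) :
    y * a ∈ V ^ (j + m) := by
  rcases j with _ | j
  · rw [(Submodule.mem_bot ℝ).1 hy, zero_mul]; exact zero_mem _
  · exact mul_mem_pow' hy ha (by omega)

/-- The statement `R` in degree `j`. -/
def RR (V : Submodule ℝ R) (l : R) (N : Set R) (D : Multiset R) (j : ℕ) : Prop :=
  ∀ (φ : R →ₗ[ℝ] ℝ) (d m : ℕ), Fam V φ d l N → 2 * j + m = d → ∀ a ∈ D, ∀ ξ ∈ lowV V j,
    OrthLT V φ (j + m) (D.sum * (a * ξ)) → ∃ y ∈ lowV V j, Orth V φ (j + m) (a * ξ - D.sum * y)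

/-- The statement `T` in degree `j`. -/
def TT (V : Submodule ℝ R) (l : R) (N : Set R) (D : Multiset R) (j : ℕ) : Prop :=
  ∀ (φ : R →ₗ[ℝ] ℝ) (d m : ℕ), Fam V φ d l N → 2 * j + 1 + m = d → ∀ z ∈ V ^ j,
    Orth V φ (j + m) (D.sum * z) → ∀ a ∈ D,
      ∃ y ∈ lowV V j, Orth V φ (j + m) (a * (z - D.sum * y))

lemma sum_zero {D : Multiset R} (g : R →ₗ[ℝ] ℝ) (h : ∀ a ∈ D, 0 ≤ g a) (h0 : g D.sum = 0) :
    ∀ a ∈ D, g a = 0 := by
  intro a ha
  obtain ⟨D', rfl⟩ := Multiset.exists_cons_of_mem ha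
  rw [Multiset.sum_cons, map_add] at h0
  have h2 : 0 ≤ g D'.sum := by
    refine Multiset.sum_induction (fun b => 0 ≤ g b) D' (fun b c hb hc => ?_) (by simp)
      fun b hb => h b (Multiset.mem_cons_of_mem hb)
    rw [map_add]; exact add_nonneg hb hc
  have := h a ha
  linarith

lemma tt_of_rr (h1 : (1 : R) ∈ V) (hfg : V.FG) (hl : l ∈ V) (hN : ∀ a ∈ N, a ∈ V)
    {D : Multiset R} (hD : ∀ a ∈ D, a ∈ N) (hs : D.sum ∈ N) {j : ℕ} (hR : RR V l N D j) :
    TT V l N D j := by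
  intro φ d m h hd z hz hDz
  have key : ∀ a ∈ D, 0 ≤ (-1) ^ j * cutφ φ a (l ^ m * z * z) ∧
      (cutφ φ a (l ^ m * z * z) = 0 →
        ∃ y ∈ lowV V j, Orth V (cutφ φ a) (j + m) (z - D.sum * y)) := by
    intro a ha
    have haV := hN a (hD a ha)
    refine c2 h1 hfg hl hN hs (fam_cut h (hD a ha) (e := 2 * j + m) (by omega)) rfl hz
      (fun i hi ζ hζ => ?_) (fun ζ hζ hDζ => ?_)
    · rw [cutφ_apply, ← hDz (a * ζ) (mem_pow_of_le h1 (by omega)
        (mul_mem_pow (mem_pow_one haV) hζ))]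
      congr 1; ring
    · obtain ⟨y, hy, h2⟩ := hR φ d (m + 1) h (by omega) a ha ζ hζ (by
        rw [← add_assoc, orthLT_succ h1]
        intro w hw
        rw [← hDζ w hw, cutφ_apply]
        congr 1; ring)
      have h3 := h2 (z * l ^ (m + 1)) (mul_mem_pow hz (pow_mem_pow hl _))
      have h4 := hDz (y * l ^ (m + 1)) (low_mul hy (pow_mem_pow hl _))
      rw [cutφ_apply, show a * (l ^ (m + 1) * z * ζ) = (a * ζ - D.sum * y) * (z * l ^ (m + 1)) +
        D.sum * z * (y * l ^ (m + 1)) by ring, map_add, h3, h4, add_zero]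
  let g : R →ₗ[ℝ] ℝ := ((-1 : ℝ) ^ j) • (φ ∘ₗ LinearMap.mulRight ℝ (l ^ m * z * z))
  have hg : ∀ v, g v = (-1) ^ j * φ (v * (l ^ m * z * z)) := fun v => rfl
  have h0 : g D.sum = 0 := by
    rw [hg, show D.sum * (l ^ m * z * z) = D.sum * z * (z * l ^ m) by ring,
      hDz _ (mul_mem_pow hz (pow_mem_pow hl _)), mul_zero]
  intro a ha
  have h5 := sum_zero g (fun b hb => (key b hb).1) h0 a ha
  rw [hg] at h5
  obtain ⟨y, hy, h6⟩ := (key a ha).2 ((mul_eq_zero.1 h5).resolve_left (by simp))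
  refine ⟨y, hy, fun w hw => ?_⟩
  rw [mul_assoc]
  exact h6 w hw

lemma rr_succ (h1 : (1 : R) ∈ V) (hfg : V.FG) (hl : l ∈ V) (hN : ∀ a ∈ N, a ∈ V)
    {D : Multiset R} (hD : ∀ a ∈ D, a ∈ N) (hs : D.sum ∈ N) {i : ℕ} (hR : RR V l N D i) :
    RR V l N D (i + 1) := by
  have hT := tt_of_rr h1 hfg hl hN hD hs hR
  intro φ d m h hd a ha ξ hξ hDξ
  have haV := hN a (hD a ha)
  have hξ' : ξ ∈ V ^ i := hξ
  have hO : Orth V φ (i + m) (D.sum * (a * ξ)) := hDξ _ (by omega)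
  have hA := c2 h1 hfg hl hN hs h hd (mul_lowV haV hξ) hDξ (fun ζ hζ hDζ => by
    obtain ⟨y, hy, h2⟩ := hT φ d (m + 1) h (by omega) ζ hζ
      (by rwa [show i + (m + 1) = i + 1 + m by omega]) a ha
    have h3 := h2 (ξ * l ^ (m + 1)) (mul_mem_pow hξ' (pow_mem_pow hl _))
    have h4 := hO (y * l ^ (m + 1)) (low_mul hy (pow_mem_pow hl _))
    rw [show l ^ (m + 1) * (a * ξ) * ζ = a * (ζ - D.sum * y) * (ξ * l ^ (m + 1)) +
      D.sum * (a * ξ) * (y * l ^ (m + 1)) by ring, map_add, h3, h4, add_zero])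
  have hB := c2 h1 hfg hl hN hs
    (fam_cut2 h (hD a ha) (hD a ha) (e := 2 * i + m) (by omega)) rfl hξ'
    (fun e he ζ hζ => by
      rw [cutφ_apply, ← hO (a * ζ) (mem_pow_of_le h1 (by omega)
        (mul_mem_pow (mem_pow_one haV) hζ))]
      congr 1; ring)
    (fun ζ hζ hDζ => by
      obtain ⟨y, hy, h2⟩ := hR (cutφ φ a) (2 * i + (m + 1)) (m + 1)
        (fam_cut h (hD a ha) (by omega)) rfl a ha ζ hζ (by
          rw [← add_assoc, orthLT_succ h1]
          intro w hw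
          rw [← hDζ w hw, cutφ_apply, cutφ_apply]
          congr 1; ring)
      have h3 := h2 (ξ * l ^ (m + 1)) (mul_mem_pow hξ' (pow_mem_pow hl _))
      have h4 := hO (y * l ^ (m + 1)) (low_mul hy (pow_mem_pow hl _))
      rw [cutφ_apply] at h3 ⊢
      rw [show a * a * (l ^ (m + 1) * ξ * ζ) = a * ((a * ζ - D.sum * y) * (ξ * l ^ (m + 1))) +
        D.sum * (a * ξ) * (y * l ^ (m + 1)) by ring, map_add, h3, h4, add_zero])
  refine hA.2 ?_
  have h5 := hA.1
  have h6 := hB.1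
  rw [cutφ_apply, show a * a * (l ^ m * ξ * ξ) = l ^ m * (a * ξ) * (a * ξ) by ring] at h6
  rw [pow_succ] at h5
  have h7 : (-1 : ℝ) ^ i * φ (l ^ m * (a * ξ) * (a * ξ)) = 0 := by linarith
  exact (mul_eq_zero.1 h7).resolve_left (by simp)

lemma rr_all (h1 : (1 : R) ∈ V) (hfg : V.FG) (hl : l ∈ V) (hN : ∀ a ∈ N, a ∈ V)
    {D : Multiset R} (hD : ∀ a ∈ D, a ∈ N) (hs : D.sum ∈ N) (j : ℕ) : RR V l N D j := by
  induction j with
  | zero =>
    intro φ d m _ _ a _ ξ hξ _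
    refine ⟨0, zero_mem _, ?_⟩
    rw [(Submodule.mem_bot ℝ).1 hξ, mul_zero, mul_zero, sub_zero]
    exact Orth.zero _
  | succ j ih => exact rr_succ h1 hfg hl hN hD hs ih

lemma span_pow_le (hN : ∀ a ∈ N, a ∈ V) {D : Multiset R} (hD : ∀ a ∈ D, a ∈ N) {k : ℕ} {η : R}
    (hη : η ∈ Submodule.span ℝ {a | a ∈ D} ^ k) : η ∈ V ^ k :=
  map_mem_pow (AlgHom.id ℝ R)
    (fun _ hv => (Submodule.span_le.2 fun a ha => hN a (hD a ha) : _ ≤ V) hv) hη

lemma ss_all (h1 : (1 : R) ∈ V) (hfg : V.FG) (hl : l ∈ V) (hN : ∀ a ∈ N, a ∈ V)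
    {D : Multiset R} (hD : ∀ a ∈ D, a ∈ N) (hs : D.sum ∈ N) (j : ℕ) :
    ∀ (φ : R →ₗ[ℝ] ℝ) (d m : ℕ), Fam V φ d l N → 2 * j + 1 + m = d → ∀ z ∈ V ^ j,
      Orth V φ (j + m) (D.sum * z) → ∀ η ∈ Submodule.span ℝ {a | a ∈ D} ^ (j + 1),
        Orth V φ m (η * z) := by
  induction j using Nat.strong_induction_on with
  | _ j ih =>
    intro φ d m h hd z hz hDz η hη
    refine pow_succ_induction (P := fun η => Orth V φ m (η * z)) ?_ ?_ hη
    · intro v hv b hb
      refine Submodule.span_induction (p := fun v _ => Orth V φ m (v * b * z)) ?_ ?_ ?_ ?_ hv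
      · intro a ha
        have haV := hN a (hD a ha)
        obtain ⟨y, hy, h2⟩ := tt_of_rr h1 hfg hl hN hD hs (rr_all h1 hfg hl hN hD hs j) φ d m h hd
          z hz hDz a ha
        have h3 := h2.mul (span_pow_le hN hD hb)
        rcases j with _ | i
        · rw [(Submodule.mem_bot ℝ).1 hy, mul_zero, sub_zero] at h3
          rwa [show a * b * z = b * (a * z) by ring]
        · have h4 := ih i (Nat.lt_succ_self i) (cutφ φ (a * D.sum)) (2 * i + 1 + m) m
            (fam_cut2 h (hD a ha) hs (by omega)) rfl y hy (fun w hw => by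
              have h5 := h2 (D.sum * w) (mul_mem_pow' (mem_pow_one (hN _ hs)) hw (by omega))
              have h6 := hDz (a * w) (mul_mem_pow' (mem_pow_one haV) hw (by omega))
              rw [cutφ_apply, show a * D.sum * (D.sum * y * w) = D.sum * z * (a * w) -
                a * (z - D.sum * y) * (D.sum * w) by ring, map_sub, h5, h6, sub_zero]) b hb
          intro w hw
          have h5 := h3 w hw
          have h6 := h4 w hw
          rw [cutφ_apply] at h6
          rw [show a * b * z * w = b * (a * (z - D.sum * y)) * w + a * D.sum * (b * y * w) by ring,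
            map_add, h5, h6, add_zero]
      · rw [zero_mul, zero_mul]; exact Orth.zero _
      · intro x y _ _ hx hy
        rw [add_mul, add_mul]; exact hx.add hy
      · intro c x _ hx
        rw [smul_mul_assoc, smul_mul_assoc]; exact hx.smul c
    · intro a b ha hb
      rw [add_mul]; exact ha.add hb

end SignA

theorem sign_fam {V : Submodule ℝ R} {φ : R →ₗ[ℝ] ℝ} (h1 : (1 : R) ∈ V) (hfg : V.FG) {l : R}
    (hl : l ∈ V) {N : Set R} (hN : ∀ a ∈ N, a ∈ V) (D : Multiset R) (hD : ∀ a ∈ D, a ∈ N)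
    (hs : D.sum ∈ N) {k : ℕ} (h : Fam V φ (2 * k) l N) {η : R}
    (hη : η ∈ Submodule.span ℝ {a | a ∈ D} ^ k) (hp : OrthLT V φ k (D.sum * η)) :
    0 ≤ (-1) ^ k * φ (η * η) := by
  have := (SignA.c2 h1 hfg hl hN hs (j := k) (m := 0) h rfl (SignA.span_pow_le hN hD hη) hp
    (fun ζ hζ hDζ => by
      rcases k with _ | i
      · rw [(Submodule.mem_bot ℝ).1 hζ, mul_zero, map_zero]
      · have h2 := SignA.ss_all h1 hfg hl hN hD hs i φ _ 1 h (by omega) ζ hζ hDζ η hη l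
          (mem_pow_one hl)
        rw [← h2]; congr 1; ring)).1
  simpa using this

theorem sign_nef (S : Sys R) {l : R} (h : S.Lef l) (i : S.I) (E D : Multiset R)
    (hE : ∀ a ∈ E, GN S a) (hD : ∀ a ∈ D, GN S a) {k : ℕ} (hd : 2 * k + E.card = S.d i) {η : R}
    (hη : η ∈ Submodule.span ℝ {a | a ∈ D} ^ k)
    (hp : OrthLT S.V (S.φ i) k (E.prod * D.sum * η)) :
    0 ≤ (-1) ^ k * S.φ i (E.prod * η * η) := by
  have hs : GN S D.sum := fun j =>
    Multiset.sum_induction (S.Eff j) D (fun _ _ => Sys.Eff.add) (Sys.Eff.zero j)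
      fun a ha => hD a ha j
  have := sign_fam S.one_mem S.fg (h.1 i).mem (N := {a | GN S a}) (fun a ha => (ha i).mem) D hD hs
    (SignA.fam_cuts (fam_of_lef S h i) E hE hd) hη (fun j hj ζ hζ => by
      rw [cutφ_apply, ← hp j hj ζ hζ]; congr 1; ring)
  rwa [cutφ_apply, ← mul_assoc] at this

theorem eff_nonneg (S : Sys R) {l : R} (h : S.Lef l) (i : S.I) (E : Multiset R)
    (hE : ∀ a ∈ E, GN S a) {g : R} (hg : S.Eff i g) (hd : E.card + 1 = S.d i) :
    0 ≤ S.φ i (E.prod * g) := by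
  refine hg.nonneg (cutφ (S.φ i) E.prod) (fun D j hs => ?_) fun a _ ha => ?_
  · have h2 := sign_base S h j ⊤ Algebra.mem_top (p := 0) (Δ := 1) one_mem_pow_zero
      (fun g _ => orthLT_zero _) E (fun a ha j' _ => hE a ha j') (fun _ => Algebra.mem_top)
      (by have := S.step_d hs; omega)
    rw [cutφ_apply, mul_comm, ← S.step_φ hs]
    simpa using h2
  · rw [cutφ_apply, mul_comm,
      ha E.card (by omega) _ (multiset_prod_mem_pow E fun b hb => (hE b hb i).mem)]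

theorem pow_mono (S : Sys R) {l : R} (h : S.Lef l) (i : S.I) (E : Multiset R)
    (hE : ∀ a ∈ E, GN S a) {A B : R} (hA : GN S A) (hB : GN S B) (hAB : S.Eff i (A - B)) {m : ℕ}
    (hd : E.card + m = S.d i) : S.φ i (E.prod * B ^ m) ≤ S.φ i (E.prod * A ^ m) := by
  induction m generalizing E with
  | zero => simp
  | succ m ih =>
    have h1 := ih (B ::ₘ E) (fun a ha => by
      rcases Multiset.mem_cons.1 ha with rfl | ha
      · exact hB
      · exact hE a ha) (by rw [Multiset.card_cons]; omega)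
    have h2 := eff_nonneg S h i (E + Multiset.replicate m A) (fun a ha => by
      rcases Multiset.mem_add.1 ha with ha | ha
      · exact hE a ha
      · exact (Multiset.eq_of_mem_replicate ha).symm ▸ hA) hAB
      (by rw [Multiset.card_add, Multiset.card_replicate]; omega)
    rw [Multiset.prod_cons] at h1
    rw [Multiset.prod_add, Multiset.prod_replicate, show E.prod * A ^ m * (A - B) =
      E.prod * A ^ (m + 1) - B * E.prod * A ^ m by ring, map_sub] at h2
    rw [show E.prod * B ^ (m + 1) = B * E.prod * B ^ m by ring]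
    linarith

end G94
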