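import Pool.Agent.P.MP_740b33_co.HCut
import Pool.Agent.P.MP_740b33_co.SignA
import Pool.Agent.P.MP_740b33_co.FanP

/-! Package C6: the degree of the Bergman class on a fibre is positive. -/

namespace G94

open H40M Polynomial

namespace ParPos

variable {n : ℕ}

lemma le_univ {ρ : Finset (Fin n) → ℕ} (h : IsRk ρ) (A : Finset (Fin n)) :
    ρ A ≤ ρ Finset.univ := by
  have h1 := h.le A Finset.univ
  rwa [Finset.union_eq_left.2 (Finset.subset_univ A)] at h1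

lemma le_of_subset {ρ : Finset (Fin n) → ℕ} (h : IsRk ρ) {A B : Finset (Fin n)} (hAB : A ⊆ B) :
    ρ A ≤ ρ B := by
  have h1 := h.le A B
  rwa [Finset.union_eq_left.2 hAB] at h1

lemma isRk_min {ρ : Finset (Fin n) → ℕ} (h : IsRk ρ) (r : ℕ) : IsRk fun A => min (ρ A) r := by
  refine ⟨by simp [h.empty], fun A e => ?_, fun A e => ?_, fun A B e hAB => ?_⟩
  · have := h.mono A e
    omega
  · have := h.unit A e
    omega
  · have h1 := h.submod A B e hAB
    have h2 := h.mono A e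
    have h3 := h.unit A e
    have h4 := h.mono B e
    have h5 := le_of_subset h hAB
    omega

lemma isRk_card : IsRk fun A : Finset (Fin n) => A.card := by
  refine ⟨rfl, fun A e => Finset.card_le_card (Finset.subset_insert _ _),
    fun A e => Finset.card_insert_le _ _, fun A B e hAB => ?_⟩
  by_cases hB : e ∈ B
  · rw [Finset.insert_eq_of_mem hB]
    have := Finset.card_le_card (Finset.subset_insert e A)
    omega
  · rw [Finset.card_insert_of_notMem hB, Finset.card_insert_of_notMem fun h => hB (hAB h)]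
    omega

lemma greedy_card (w : Equiv.Perm (Fin n)) :
    greedy (fun A : Finset (Fin n) => A.card) w = Finset.univ := by
  refine Finset.eq_univ_of_forall fun e => ?_
  rw [mem_greedy, Finset.card_insert_of_notMem (not_mem_bef_self w e)]
  omega

lemma rk_le_card {ρ : Finset (Fin n) → ℕ} (h : IsRk ρ) : ρ Finset.univ ≤ n := by
  rw [← h.card_greedy 1]
  simpa using Finset.card_le_univ (greedy ρ 1)

lemma greedy_min {ρ : Finset (Fin n) → ℕ} (h : IsRk ρ) {r : ℕ} (hr : ρ Finset.univ = r + 1)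
    (t : Fin n → ℝ) (w : Equiv.Perm (Fin n)) :
    ∏ c ∈ (greedy (fun A => min (ρ A) r) w)ᶜ, t c =
      (∏ c ∈ (greedy ρ w)ᶜ, t c) * lov t (fun A => (ρ A : ℝ) - (min (ρ A) r : ℕ)) w := by
  have hm := isRk_min h r
  have hs : greedy (fun A => min (ρ A) r) w ⊆ greedy ρ w := by
    intro e he
    rw [mem_greedy] at he ⊢
    have := h.mono (bef w e) e
    omega
  have hc : (greedy (fun A => min (ρ A) r) w).card + 1 = (greedy ρ w).card := by
    rw [h.card_greedy, hm.card_greedy, hr]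
    omega
  obtain ⟨b, h1, h2⟩ := Finset.exists_eq_insert_iff.2 ⟨hs, hc⟩
  have h3 : lov t (fun A => (ρ A : ℝ) - (min (ρ A) r : ℕ)) w = t b := by
    have h4 : ∀ e, t e * (((ρ (insert e (bef w e)) : ℝ) - (min (ρ (insert e (bef w e))) r : ℕ)) -
        ((ρ (bef w e) : ℝ) - (min (ρ (bef w e)) r : ℕ))) =
        (if e ∈ greedy ρ w then t e else 0) -
          if e ∈ greedy (fun A => min (ρ A) r) w then t e else 0 := by
      intro e
      rw [sub_sub_sub_comm, h.inc, hm.inc w e]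
      split_ifs <;> ring
    unfold lov
    simp only [h4, Finset.sum_sub_distrib, Finset.sum_ite_mem, Finset.univ_inter]
    rw [← h2, Finset.sum_insert h1, add_sub_cancel_right]
  have h5 : (greedy (fun A => min (ρ A) r) w)ᶜ = insert b (greedy ρ w)ᶜ := by
    rw [← h2]
    ext c
    simp only [Finset.mem_compl, Finset.mem_insert]
    constructor
    · intro hc
      by_cases hcb : c = b
      · exact Or.inl hcb
      · exact Or.inr fun h6 => h6.elim hcb hc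
    · rintro (rfl | hc)
      · exact h1
      · exact fun h6 => hc (Or.inr h6)
  rw [h3, h5, Finset.prod_insert (by rw [← h2]; simp), mul_comm]

lemma lov_univ (t : Fin (n + 1) → ℝ) (w : Equiv.Perm (Fin (n + 1))) :
    lov t (fun A => if A = Finset.univ then 1 else 0) w = t (w (Fin.last n)) := by
  unfold lov
  rw [Finset.sum_eq_single (w (Fin.last n))]
  · have h1 : insert (w (Fin.last n)) (bef w (w (Fin.last n))) = Finset.univ :=
      Finset.eq_univ_of_forall fun a => mem_insert_bef.2 (by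
        rw [w.symm_apply_apply]; exact Fin.le_last _)
    have h2 : bef w (w (Fin.last n)) ≠ Finset.univ := fun h =>
      not_mem_bef_self w _ (h.symm ▸ Finset.mem_univ _)
    simp [h1, h2]
  · intro e _ he
    have h1 : insert e (bef w e) ≠ Finset.univ := fun h => by
      have h2 : w (Fin.last n) ∈ insert e (bef w e) := h.symm ▸ Finset.mem_univ _
      rw [mem_insert_bef, w.symm_apply_apply] at h2
      exact he (by rw [← Fin.last_le_iff.1 h2, w.apply_symm_apply])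
    have h2 : bef w e ≠ Finset.univ := fun h =>
      not_mem_bef_self w _ (h.symm ▸ Finset.mem_univ _)
    simp [h1, h2]
  · simp

lemma last_sub {ρ : Finset (Fin (n + 1)) → ℕ} (h : IsRk ρ) {r : ℕ} (hr : ρ Finset.univ = r + 1)
    (t : Fin (n + 1) → ℝ) (w : Equiv.Perm (Fin (n + 1))) :
    t (w (Fin.last n)) = lov t (fun A => (ρ A : ℝ) - (min (ρ A) r : ℕ)) w +
      ∑ A ∈ Finset.univ.filter (fun A => A ≠ Finset.univ ∧ ρ A = r + 1), xs t A w := by
  have h1 := congrFun (lov_sub t (fun A => if A = Finset.univ then 1 else 0)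
    (fun A => (ρ A : ℝ) - (min (ρ A) r : ℕ))) w
  rw [Pi.sub_apply, lov_univ, lov_eq_sum, Finset.sum_apply] at h1
  rw [← sub_eq_iff_eq_add', ← h1, Finset.sum_filter]
  refine Finset.sum_congr rfl fun A _ => ?_
  have h2 := le_univ h A
  rw [Pi.smul_apply, smul_eq_mul]
  by_cases hA : A = Finset.univ
  · subst hA
    rw [hr, show min (r + 1) r = r by omega]
    simp
  · by_cases h3 : ρ A = r + 1
    · rw [if_neg hA, if_pos ⟨hA, h3⟩, h3, show min (r + 1) r = r by omega]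
      simp
    · rw [if_neg hA, if_neg fun h4 => h3 h4.2, show min (ρ A) r = ρ A by omega]
      simp

lemma lovF_mem {F : Fan} {s : Fin n → F.Ξ →ₗ[ℝ] ℝ} {w : F.Cn → Equiv.Perm (Fin n)}
    (ho : F.Ord (fun j => F.lin (s j)) w) (ξ : F.Ξ) (f : Finset (Fin n) → ℝ) :
    lovF (fun i (_ : F.Cn) => s i ξ) w f ∈ F.V ξ := by
  have h1 := Fan.cl_lovR ho f ξ
  have h2 : (fun i => F.cl (F.lin (s i)) ξ) = fun i (_ : F.Cn) => s i ξ := by
    funext i
    rw [Fan.cl_lin]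
    rfl
  rw [← h2, ← h1]
  exact Fan.cl_mem _ ξ

lemma kap_xs {F : Fan} (hB : F.Bal) {s : Fin (n + 1) → F.Ξ →ₗ[ℝ] ℝ}
    {w : F.Cn → Equiv.Perm (Fin (n + 1))} (ho : F.Ord (fun j => F.lin (s j)) w)
    {ρ : Finset (Fin (n + 1)) → ℕ} (hρ : IsRk ρ) {r : ℕ} (hr : ρ Finset.univ = r + 1)
    {ξ : F.Ξ} (hξ : F.Gen ξ) {j : ℕ} (hj : n - r + 1 + j = F.d) {ζ : F.Cn → ℝ}
    (hζ : ζ ∈ F.V ξ ^ j) {A : Finset (Fin (n + 1))} (hA : A ≠ Finset.univ) (hA' : ρ A = r + 1) :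
    F.φ ξ (F.kap ρ s w ξ * (fun σ => xs (fun i => s i ξ) A (w σ)) * ζ) = 0 := by
  obtain ⟨c, hc⟩ : ∃ c, c ∉ A := by
    by_contra h
    exact hA (Finset.eq_univ_of_forall fun c => by_contra fun h1 => h ⟨c, h1⟩)
  have hW := wt_greedy_compl (Fan.one_mem_V ξ) (lovF_mem ho ξ) hρ
  rw [hr, show n + 1 - (r + 1) = n - r by omega] at hW
  have hcard : ∀ σ, ((greedy ρ (w σ))ᶜ).card = n - r := fun σ => by
    rw [Finset.card_compl, hρ.card_greedy, hr, Fintype.card_fin]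
    omega
  set Q := fQ (fun i (_ : F.Cn) => s i ξ) (fun σ => (greedy ρ (w σ))ᶜ) (n - r) with hQ
  set x : F.Cn → ℝ := fun σ => xs (fun i => s i ξ) A (w σ) with hx
  have hxm : x ∈ F.V ξ := lovF_mem ho ξ _
  set y : F.Cn → ℝ := algebraMap ℝ _ (-s c ξ) with hy
  have h0 : F.kap ρ s w ξ = Q.coeff 0 := by
    funext σ
    rw [coeff_zero_eq_eval_zero, hQ, eval_fQ _ hcard]
    simp [Fan.kap]
  have h1 : Q.eval y * x = 0 := by
    funext σ
    rw [Pi.mul_apply, Pi.zero_apply]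
    by_cases hI : Ini (w σ) A
    · rw [hQ, eval_fQ _ hcard, Finset.prod_eq_zero (i := c), zero_mul]
      · rw [Finset.mem_compl, mem_greedy]
        have h2 : A ⊆ bef (w σ) c := fun a ha => mem_bef.2 (hI a ha c hc)
        have h3 := le_of_subset hρ h2
        have h4 := le_univ hρ (insert c (bef (w σ) c))
        omega
      · simp [hy]
    · rw [hx]
      dsimp only
      rw [xs_eq_zero hI, mul_zero]
  have h2 : Q.eval y = Q.coeff 0 + ∑ k ∈ Finset.range (n - r), Q.coeff (k + 1) * y ^ (k + 1) := by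
    rw [eval_eq_sum_range, hW.2.1, Finset.sum_range_succ', pow_zero, mul_one, add_comm]
  have h3 : Q.coeff 0 * x * ζ =
      -∑ k ∈ Finset.range (n - r), Q.coeff (k + 1) * y ^ (k + 1) * x * ζ := by
    rw [← Finset.sum_mul, ← Finset.sum_mul, eq_neg_iff_add_eq_zero, ← add_mul, ← add_mul, ← h2,
      h1, zero_mul]
  rw [h0, h3, map_neg, map_sum, Finset.sum_eq_zero, neg_zero]
  intro k hk
  rw [Finset.mem_range] at hk
  refine hB ξ hξ (n - r - (k + 1) + 0 + 1 + j) (by omega) _ ?_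
  refine mul_mem_pow (mul_mem_pow (mul_mem_pow (hW.2.2 _) ?_) (mem_pow_one hxm)) hζ
  rw [hy, ← map_pow]
  exact mem_pow_zero_iff.2 ⟨_, rfl⟩

end ParPos

/-- Cutting the Bergman class by the maximum of the coordinates truncates the matroid. -/
theorem kap_trunc {F : Fan} (hB : F.Bal) {n : ℕ} {s : Fin (n + 1) → F.Ξ →ₗ[ℝ] ℝ}
    {w : F.Cn → Equiv.Perm (Fin (n + 1))} (ho : F.Ord (fun j => F.lin (s j)) w)
    {ρ : Finset (Fin (n + 1)) → ℕ} (hρ : IsRk ρ) {r : ℕ} (hr : ρ Finset.univ = r + 1)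
    {ξ : F.Ξ} (hξ : F.Gen ξ) {j : ℕ} (hj : n - r + 1 + j = F.d) {ζ : F.Cn → ℝ}
    (hζ : ζ ∈ F.V ξ ^ j) :
    F.φ ξ (F.kap ρ s w ξ * (fun σ => s (w σ (Fin.last n)) ξ) * ζ) =
      F.φ ξ (F.kap (fun A => min (ρ A) r) s w ξ * ζ) := by
  have h1 : F.kap ρ s w ξ * (fun σ => s (w σ (Fin.last n)) ξ) * ζ =
      F.kap (fun A => min (ρ A) r) s w ξ * ζ +
        ∑ A ∈ Finset.univ.filter (fun A => A ≠ Finset.univ ∧ ρ A = r + 1),
          F.kap ρ s w ξ * (fun σ => xs (fun i => s i ξ) A (w σ)) * ζ := by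
    funext σ
    simp only [Pi.mul_apply, Pi.add_apply, Finset.sum_apply, Fan.kap]
    rw [ParPos.greedy_min hρ hr, ParPos.last_sub hρ hr (fun i => s i ξ) (w σ), ← Finset.sum_mul,
      ← Finset.mul_sum]
    ring
  rw [h1, map_add, map_sum, Finset.sum_eq_zero, add_zero]
  intro A hA
  rw [Finset.mem_filter] at hA
  exact ParPos.kap_xs hB ho hρ hr hξ hj hζ hA.2.1 hA.2.2

namespace ParPos

lemma trunc_iter {F : Fan} (hB : F.Bal) {n : ℕ} {s : Fin (n + 1) → F.Ξ →ₗ[ℝ] ℝ}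
    {w : F.Cn → Equiv.Perm (Fin (n + 1))} (ho : F.Ord (fun j => F.lin (s j)) w)
    {ξ : F.Ξ} (hξ : F.Gen ξ) (hα : (fun σ => s (w σ (Fin.last n)) ξ) ∈ F.V ξ) {j : ℕ}
    (hj : n + j = F.d) {ζ : F.Cn → ℝ} (hζ : ζ ∈ F.V ξ ^ j) (r : ℕ) :
    ∀ ρ : Finset (Fin (n + 1)) → ℕ, IsRk ρ → ρ Finset.univ = r + 1 →
      F.φ ξ (F.kap ρ s w ξ * ((fun σ => s (w σ (Fin.last n)) ξ) ^ r * ζ)) =
        F.φ ξ (F.kap (fun A => min (ρ A) 1) s w ξ * ζ) := by
  induction r with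
  | zero =>
    intro ρ hρ hr
    have h1 : (fun A => min (ρ A) 1) = ρ := by
      funext A
      have := le_univ hρ A
      omega
    rw [h1, pow_zero, one_mul]
  | succ r ih =>
    intro ρ hρ hr
    have h0 := rk_le_card hρ
    have h1 := kap_trunc hB ho hρ hr hξ (j := r + j) (by omega)
      (mul_mem_pow (pow_mem_pow hα r) hζ)
    have h2 := ih _ (isRk_min hρ (r + 1)) (by rw [hr]; omega)
    have h3 : (fun A => min (min (ρ A) (r + 1)) 1) = fun A => min (ρ A) 1 := by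
      funext A
      omega
    rw [h3] at h2
    rw [← h2, ← h1, pow_succ']
    congr 1
    ring

lemma shift {F F' : Fan} {N : ℕ} (M : Map F' F N) {ξ : F'.Ξ} (hξ : F'.Gen ξ) (g L : F.Cn → ℝ)
    (hL : M.ι L ∈ F'.V ξ) {A : F'.Cn → ℝ} (hA : A ∈ F'.V ξ) (m : ℕ) :
    ∀ p, p + m = N → ∀ u ∈ F'.V ξ ^ p,
      F'.φ ξ (M.ι g * (u * (A + M.ι L) ^ m)) = F'.φ ξ (M.ι g * (u * A ^ m)) := by
  induction m with
  | zero => intro p _ u _; simp
  | succ m ih =>
    intro p hp u hu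
    have h1 := ih (p + 1) (by omega) (u * A) (mul_mem_pow hu (mem_pow_one hA))
    have h2 : F'.φ ξ (M.ι (g * L) * (u * (A + M.ι L) ^ m)) = 0 := by
      rw [M.φ_ι_mul hξ]
      have h3 := (M.push_mem ξ hξ (p + m) _
        (mul_mem_pow hu (pow_mem_pow (add_mem hA hL) m))).2 (by omega)
      rw [show M.push ξ (u * (A + M.ι L) ^ m) = 0 from h3, mul_zero, map_zero]
    have h4 : M.ι g * (u * (A + M.ι L) ^ (m + 1)) =
        M.ι g * (u * A * (A + M.ι L) ^ m) + M.ι (g * L) * (u * (A + M.ι L) ^ m) := by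
      rw [map_mul]; ring
    rw [h4, map_add, h1, h2, add_zero]
    congr 1
    ring

lemma exists_K {F : Fan} {l : F.Ray → ℝ} (hl : F.SConv l) {N : ℕ}
    (b : Fin (N + 1) → F.Ray → ℝ) :
    ∃ K : ℝ, 0 ≤ K ∧ ∀ j ρ, b j ρ ≤ (K • l) ρ ∧ -(K • l) ρ ≤ b j ρ := by
  obtain ⟨K, hK⟩ := Finite.exists_le fun p : Fin (N + 1) × F.Ray => |b p.1 p.2| / l p.2
  refine ⟨max K 0, le_max_right _ _, fun j ρ => ?_⟩
  have h1 : |b j ρ| / l ρ ≤ max K 0 := (hK (j, ρ)).trans (le_max_left _ _)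
  rw [div_le_iff₀ (hl.2 ρ)] at h1
  exact ⟨(le_abs_self _).trans h1, neg_le.1 ((neg_le_abs _).trans h1)⟩

end ParPos

theorem parent_pos {F F' : Fan} {N : ℕ} {M : Map F' F N} (hF : F.Good) (hF' : F'.Good)
    {b : Fin (N + 1) → F.Ray → ℝ} (hb : ∀ j, F.Conv (b j)) {Y : F'.Ray → ℝ}
    {s : Fin (N + 1) → F'.Ξ →ₗ[ℝ] ℝ} {top : F'.Cn → Fin (N + 1)} (hM : IsBunW M b Y s top)
    {w : F'.Cn → Equiv.Perm (Fin (N + 1))} (ho : F'.Ord (fun j => F'.lin (s j)) w)
    {ρ : Finset (Fin (N + 1)) → ℕ} (hρ : IsRk ρ) {r : ℕ} (hr : ρ Finset.univ = r + 1)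
    (hl : ∀ e, ρ {e} = 1) {ξ : F'.Ξ} (hξ : F'.Gen ξ) :
    ∃ c : ℝ, 0 < c ∧ M.push ξ (F'.kap ρ s w ξ * F'.cl Y ξ ^ r) = algebraMap ℝ _ c := by
  have hrN : r ≤ N := by
    have := ParPos.rk_le_card hρ
    omega
  have hcut := (hcut_prod hρ hr (m := 1) (fun _ => s) (fun _ => w) (fun _ => hM.s0)
    (fun _ => ho)).cutOK hF' ξ hξ
  rw [Fin.prod_univ_one, one_mul] at hcut
  obtain ⟨hk, hS⟩ := hcut
  obtain ⟨S, i, l0, hLef, -, hφ, hd, hGN, hEff⟩ := hS (by rw [M.dim]; omega)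
  rw [M.dim] at hd
  have hYm := Fan.cl_mem Y ξ
  have hpush := (M.push_mem ξ hξ N _
    (mul_mem_pow' hk (pow_mem_pow hYm r) (by omega))).1
  rw [Nat.sub_self] at hpush
  obtain ⟨c, hc⟩ := mem_pow_zero_iff.1 hpush
  have hc' : M.push ξ (F'.kap ρ s w ξ * F'.cl Y ξ ^ r) = algebraMap ℝ _ c := hc.symm
  refine ⟨c, ?_, hc'⟩
  obtain ⟨l, hl0⟩ := hF.amp
  obtain ⟨l', hl'⟩ := hF'.amp
  obtain ⟨K, hK0, hK⟩ := ParPos.exists_K hl0 b
  have hpos := hF.top_pos (M.gen ξ hξ) hl0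
  set α : F'.Ray → ℝ := fun ρ' => Finset.univ.sup' Finset.univ_nonempty fun j => F'.lin (s j) ρ'
    with hα
  have hα1 : ∀ j ρ', F'.lin (s j) ρ' ≤ α ρ' := fun j ρ' =>
    Finset.le_sup' (fun j => F'.lin (s j) ρ') (Finset.mem_univ j)
  have hα2 : ∀ σ, ∀ ρ' ∈ F'.rays σ, α ρ' = F'.lin (s (w σ (Fin.last N))) ρ' := by
    intro σ ρ' hρ'
    refine le_antisymm (Finset.sup'_le _ _ fun j _ => ?_) (hα1 _ _)
    have h1 := ho σ ρ' hρ' (Fin.le_last ((w σ).symm j))
    simpa using h1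
  have hαc : F'.Conv α := Fan.conv_max (f := fun j => F'.lin (s j)) (fun σ => w σ (Fin.last N))
    (fun _ => Fan.conv_lin _) (fun _ _ => hα1 _ _) hα2
  have hαcl : F'.cl α ξ = fun σ => s (w σ (Fin.last N)) ξ := by
    funext σ
    rw [Fan.cl_congr (hα2 σ), Fan.cl_lin]
    rfl
  have hYc : F'.Conv Y := hM.conv hb
  have hKl : F'.Conv (M.pull (K • l)) := M.conv (hl0.conv.smul hK0)
  have hnn1 : F'.NN (Y + M.pull (K • l) - α) := by
    intro σ ρ' hρ'
    have h1 := hM.le (w σ (Fin.last N)) ρ'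
    have h2 := M.pull_mono (g := -(K • l)) (h := b (w σ (Fin.last N))) (fun ρ => (hK _ ρ).2) ρ'
    rw [M.pull_neg, Pi.neg_apply] at h2
    rw [Pi.sub_apply, Pi.add_apply, hα2 σ ρ' hρ']
    linarith
  have hnn2 : F'.NN (α + M.pull (K • l) - Y) := by
    intro σ ρ' hρ'
    have h1 := hM.eq σ ρ' hρ'
    have h2 := M.pull_mono (g := b (top σ)) (h := K • l) (fun ρ => (hK _ ρ).1) ρ'
    have h3 := hα1 (top σ) ρ'
    rw [Pi.sub_apply, Pi.add_apply]
    linarith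
  set g : F.Cn → ℝ := F.cl l (M.pr ξ) ^ F.d with hg
  set E : Multiset (F'.Cn → ℝ) := Multiset.replicate F.d (F'.cl (M.pull l) ξ) with hE
  have hEp : E.prod = M.ι g := by
    rw [hE, Multiset.prod_replicate, M.cl_pull, hg, map_pow]
  have hEc : E.card = F.d := Multiset.card_replicate _ _
  have hgm : M.ι g ∈ F'.V ξ ^ F.d := by
    rw [hg, map_pow, ← M.cl_pull]
    exact pow_mem_pow (Fan.cl_mem _ ξ) _
  have hLm : M.ι (F.cl (K • l) (M.pr ξ)) ∈ F'.V ξ := by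
    rw [← M.cl_pull]
    exact Fan.cl_mem _ ξ
  have hlc : F'.Conv (M.pull l) := M.conv hl0.conv
  -- first comparison, in the cut system
  have h1 := pow_mono S hLef i E
    (fun a ha => by rw [Multiset.eq_of_mem_replicate ha]; exact hGN _ hlc)
    (hGN _ (hYc.add hKl)) (hGN _ hαc) (by rw [← Fan.cl_sub]; exact hEff _ hnn1) (m := r)
    (by omega)
  rw [hφ, cutφ_apply, cutφ_apply, hEp, Fan.cl_add, M.cl_pull, mul_left_comm _ (M.ι g) (F'.cl α ξ ^ r),
    mul_left_comm (F'.kap ρ s w ξ) (M.ι g),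
    ParPos.shift M hξ g _ hLm hYm r (N - r) (by omega) _ hk, M.φ_ι_mul hξ _ (_ * F'.cl Y ξ ^ r),
    hc', mul_comm g, ← Algebra.smul_def, map_smul, smul_eq_mul] at h1
  -- second comparison, in the system of the fan
  have h2 := pow_mono (F'.sys ξ) (hF'.lef hξ hl') F'.face0 E
    (fun a ha => by rw [Multiset.eq_of_mem_replicate ha]; exact Fan.gn_conv hF'.bal hξ hlc)
    (Fan.gn_conv hF'.bal hξ (hαc.add hKl)) (Fan.gn_conv hF'.bal hξ hYc)
    (by rw [← Fan.cl_sub]; exact Fan.eff_nn ξ _ hnn2 fun _ h => absurd h (Finset.notMem_empty _))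
    (m := N) (by rw [Fan.sys_d0, M.dim, hEc])
  have h3 := ParPos.shift M hξ g _ hLm (Fan.cl_mem α ξ) N 0 (by omega) 1 one_mem_pow_zero
  rw [one_mul, one_mul] at h3
  rw [Fan.sys_φ0, hEp, Fan.cl_add, M.cl_pull, h3, M.φ_ι_mul hξ _ (F'.cl Y ξ ^ N), hM.one ξ hξ,
    mul_one] at h2
  -- truncations
  have hαm : (fun σ => s (w σ (Fin.last N)) ξ) ∈ F'.V ξ := hαcl ▸ Fan.cl_mem α ξ
  have h4 := ParPos.trunc_iter hF'.bal ho hξ hαm (j := F.d) (by rw [M.dim, add_comm]) hgm r ρ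
    hρ hr
  have h5 := ParPos.trunc_iter hF'.bal ho hξ hαm (j := F.d) (by rw [M.dim, add_comm]) hgm N
    (fun A => A.card) ParPos.isRk_card (by simp)
  have h6 : (fun A => min (ρ A) 1) = fun A : Finset (Fin (N + 1)) => min A.card 1 := by
    funext A
    rcases A.eq_empty_or_nonempty with rfl | ⟨e, he⟩
    · rw [hρ.empty, Finset.card_empty]
    · have h7 := ParPos.le_of_subset hρ (Finset.singleton_subset_iff.2 he)
      have h8 := Finset.card_pos.2 ⟨e, he⟩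
      rw [hl] at h7
      omega
  have h7 : F'.kap (fun A => A.card) s w ξ = 1 := by
    funext σ
    simp [Fan.kap, ParPos.greedy_card]
  rw [h7, one_mul, ← h6, ← h4, ← hαcl, mul_comm] at h5
  have h8 : F'.kap ρ s w ξ * (F'.cl α ξ ^ r * M.ι g) =
      M.ι g * (F'.kap ρ s w ξ * F'.cl α ξ ^ r) := by ring
  rw [h8] at h5
  have h9 : F.φ (M.pr ξ) g ≤ c * F.φ (M.pr ξ) g := h2.trans (h5.trans_le h1)
  by_contra h10
  have h11 : c * F.φ (M.pr ξ) g ≤ 0 := mul_nonpos_of_nonpos_of_nonneg (not_lt.1 h10) hpos.le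
  linarith

end G94
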