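import Pool.Agent.P.MP_740b33_co.Child
import Pool.Agent.P.MP_740b33_co.ParNull
import Pool.Agent.P.MP_740b33_co.ParPos

/-! The nodes of the top level of the tower. -/

namespace G94

open H40M Polynomial

lemma rk_le {n : ℕ} {ρ : Finset (Fin n) → ℕ} (hρ : IsRk ρ) : ρ Finset.univ ≤ n := by
  rw [← hρ.card_greedy 1]
  simpa using Finset.card_le_univ (greedy ρ 1)

theorem exists_parent {F : Fan} (hF : F.Good) {N : ℕ} {W : Fin (N + 1) → F.Ray → ℝ}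
    {w : F.Cn → Equiv.Perm (Fin (N + 1))} (hW : F.Base W w) {ρ : Finset (Fin (N + 1)) → ℕ}
    (hρ : IsRk ρ) {r : ℕ} (hr : ρ Finset.univ = r + 1) (hl : ∀ e, ρ {e} = 1) :
    ∃ (F' : Fan) (M : Map F' F N) (Y : F'.Ray → ℝ) (e : Fin (N + 1) → F'.Ray → ℝ)
      (s : Fin (N + 1) → F'.Ξ →ₗ[ℝ] ℝ) (w' : F'.Cn → Equiv.Perm (Fin (N + 1))), F'.Good ∧
      F'.Node (fun l => M.pull (W l)) Y e ∧ F'.Van (fun l => M.pull (W l)) 1 0 Y e (N + 1) ∧
      s 0 = 0 ∧ F'.Ord (fun j => F'.lin (s j)) w' ∧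
      ∀ ξ, F'.Gen ξ → ∃ c : ℝ, 0 < c ∧ GExt (F.V (M.pr ξ)) (F.φ (M.pr ξ)) F.d (F'.V ξ)
        (cutφ (F'.φ ξ) (F'.kap ρ s w' ξ)) M.ι (F'.cl Y ξ) r (F.mQ ρ W w (M.pr ξ)) c := by
  have hrN : r ≤ N := by have := rk_le hρ; omega
  obtain ⟨F1, M1, Y1, s, top, h1, hB⟩ := exists_bun hF hW.neg
  obtain ⟨F', R, e, w', h', hR, hN, hz, ho⟩ := exists_node h1 W hW.neg hB.weak
    (fun l => Finset.Iic l) (fun l => ⟨l, Finset.mem_Iic.2 le_rfl⟩) (fun _ _ => 0)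
    fun l j hj => ⟨fun _ _ _ => le_rfl, by
      have := hW.sub j l (Finset.mem_Iic.1 hj)
      rwa [show -W j + W l - 0 = W l - W j by abel]⟩
  have hW' := hB.weak.refine hR
  refine ⟨F', R.comp M1 (Nat.add_zero N), R.pull Y1, e, fun j => s j ∘ₗ R.pr, w', h', ?_, ?_,
    hW'.s0, ho, fun ξ hξ => ?_⟩
  · simpa only [Map.comp_pull] using hN
  · refine van_top h'.bal hW' fun l σ h => hz l σ (Finset.mem_Iic.2 h) ?_
    rw [Map.pull_zero, Map.pull_zero]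
    exact fun _ _ => rfl
  · obtain ⟨c, hc, hpush⟩ := parent_pos hF h' hW.neg hW' ho hρ hr hl hξ
    set M := R.comp M1 (Nat.add_zero N) with hM
    have hk : F'.kap ρ (fun j => s j ∘ₗ R.pr) w' ξ ∈ F'.V ξ ^ (N - r) := by
      have := Fan.eval_mem (Fan.kap_mem hρ ho) ξ
      rwa [hr, Nat.add_sub_add_right] at this
    refine ⟨c, hc, GExt.of_push (Fan.one_mem_V _) (hr ▸ Fan.wt_mQ hW.ord hρ _) (Fan.one_mem_V _)
      (M.ι_mem ξ) (Fan.cl_mem _ _) (fun j ζ hζ => ?_) (fun g => ?_) fun i hi ζ hζ => ?_⟩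
    · obtain ⟨h2, h3⟩ := M.push_mem ξ hξ _ _ (mul_mem_pow hk hζ)
      refine ⟨M.push ξ (F'.kap ρ (fun j => s j ∘ₗ R.pr) w' ξ * ζ), ?_, fun hj => h3 (by omega),
        fun g => ?_⟩
      · rwa [show N - r + j - N = j - r by omega] at h2
      · rw [cutφ_apply, mul_left_comm, M.φ_ι_mul hξ]
    · rw [cutφ_apply, mul_left_comm, M.φ_ι_mul hξ, hpush, mul_comm, ← Algebra.smul_def, map_smul,
        smul_eq_mul]
    · have hd := M.dim
      exact parent_null hR h1.bal hW hB ho hρ hξ (by omega) hζ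

lemma Map.up_kap {F' F : Fan} {f : ℕ} (M : Map F' F f) {n : ℕ} (ρ : Finset (Fin n) → ℕ)
    (s : Fin n → F.Ξ →ₗ[ℝ] ℝ) (w : F.Cn → Equiv.Perm (Fin n)) :
    M.up (F.kap ρ s w) = F'.kap ρ (fun j => s j ∘ₗ M.pr) fun σ => w (M.par σ) := rfl

lemma Map.up_prod {F' F : Fan} {f : ℕ} (M : Map F' F f) {κ : Type} (s : Finset κ)
    (K : κ → F.Ξ → F.Cn → ℝ) : M.up (∏ i ∈ s, K i) = ∏ i ∈ s, M.up (K i) := by
  funext ξ σ
  simp [Map.up, Finset.prod_apply]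

theorem exists_parents {F : Fan} (hF : F.Good) {N : ℕ} {W : Fin (N + 1) → F.Ray → ℝ}
    {w : F.Cn → Equiv.Perm (Fin (N + 1))} (hW : F.Base W w) {ρ : Finset (Fin (N + 1)) → ℕ}
    (hρ : IsRk ρ) {r : ℕ} (hr : ρ Finset.univ = r + 1) (hl : ∀ e, ρ {e} = 1) (k : ℕ) :
    ∃ (F' : Fan) (M : Map F' F (k * N)) (Y : Fin k → F'.Ray → ℝ)
      (e : Fin k → Fin (N + 1) → F'.Ray → ℝ) (s : Fin k → Fin (N + 1) → F'.Ξ →ₗ[ℝ] ℝ)
      (w' : Fin k → F'.Cn → Equiv.Perm (Fin (N + 1))), F'.Good ∧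
      (∀ c, F'.Node (fun l => M.pull (W l)) (Y c) (e c)) ∧
      (∀ c, F'.Van (fun l => M.pull (W l)) 1 0 (Y c) (e c) (N + 1)) ∧
      (∀ c, s c 0 = 0) ∧ (∀ c, F'.Ord (fun j => F'.lin (s c j)) (w' c)) ∧
      ∀ ξ, F'.Gen ξ → ∃ c : ℝ, 0 < c ∧ MG (F.V (M.pr ξ)) (F.φ (M.pr ξ)) F.d (F'.V ξ)
        (cutφ (F'.φ ξ) ((∏ b, F'.kap ρ (s b) (w' b)) ξ)) M.ι (fun c => F'.cl (Y c) ξ) r
        (F.mQ ρ W w (M.pr ξ)) c := by
  have hrN : r ≤ N := by have := rk_le hρ; omega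
  induction k with
  | zero =>
    refine ⟨F, (Map.id F).comp (Map.id F) (by simp), Fin.elim0, Fin.elim0, Fin.elim0, Fin.elim0,
      hF, fun c => c.elim0, fun c => c.elim0, fun c => c.elim0, fun c => c.elim0,
      fun ξ _ => ⟨1, one_pos, ?_⟩⟩
    rw [Fin.prod_univ_zero, Pi.one_apply, cutφ_one]
    exact MG.zero _ _ _ _ _ fun _ => rfl
  | succ k ih =>
    obtain ⟨F1, M1, Y, e1, s1, w1, h1, hN, hV1, hs1, ho1, hM⟩ := ih
    obtain ⟨F2, M2, Z, e2, s2, w2, h2, hN2, hV2, hs2, ho2, hG⟩ :=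
      exists_parent h1 (M1.base hW) hρ hr hl
    refine ⟨F2, M2.comp M1 (by ring), Fin.cons Z fun c => M2.pull (Y c),
      Fin.cons e2 fun c l => M2.pull (e1 c l), Fin.cons s2 fun c j => s1 c j ∘ₗ M2.pr,
      Fin.cons w2 fun c σ => w1 c (M2.par σ), h2, fun c => ?_, fun c => ?_, fun c => ?_,
      fun c => ?_, fun ξ hξ => ?_⟩
    · simp only [Map.comp_pull]
      refine Fin.cases ?_ (fun c => ?_) c
      · exact hN2
      · exact M2.node (hN c)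
    · simp only [Map.comp_pull]
      refine Fin.cases ?_ (fun c => ?_) c
      · exact hV2
      · exact M2.van (hV1 c)
    · refine Fin.cases hs2 (fun c => ?_) c
      simp [hs1 c]
    · refine Fin.cases ho2 (fun c => ?_) c
      have := M2.ord (ho1 c)
      simp only [Map.pull_lin] at this
      exact this
    · have hξ1 := M2.gen ξ hξ
      obtain ⟨c1, hc1, h3⟩ := hM _ hξ1
      obtain ⟨c2, hc2, h4⟩ := hG ξ hξ
      refine ⟨c2 * c1, mul_pos hc2 hc1, ?_⟩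
      have hK : (∏ b, F1.kap ρ (s1 b) (w1 b)) (M2.pr ξ) ∈ F1.V (M2.pr ξ) ^ (k * (N - r)) :=
        ((hcut_prod hρ hr s1 w1 hs1 ho1).cutOK h1 _ hξ1).1
      have hd : F1.d = F.d + k * r + k * (N - r) := by
        rw [M1.dim, add_assoc, ← mul_add, Nat.add_sub_of_le hrN]
      rw [M1.mQ_pull, hd] at h4
      have h5 := MG.succ (Fan.one_mem_V _) (hr ▸ Fan.wt_mQ hW.ord hρ _) (M1.ι_mem _)
        (fun c => Fan.cl_mem _ _) h3 (h4.cut hK)
        (ι'' := (M2.comp M1 (by ring : k * N + N = (k + 1) * N)).ι) fun _ => rfl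
      have h6 : (fun c => F2.cl ((Fin.cons Z fun c => M2.pull (Y c) : Fin (k + 1) → _) c) ξ) =
          Fin.cons (F2.cl Z ξ) fun b => M2.ι (F1.cl (Y b) (M2.pr ξ)) := by
        funext c
        refine Fin.cases rfl (fun c => ?_) c
        exact M2.cl_pull _ _
      rw [cutφ_cutφ, ← M2.up_apply, M2.up_prod] at h5
      rw [h6, Fin.prod_univ_succ]
      exact h5

end G94
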