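import Pool.Agent.P.MP_740b33_co.SubMap

/-! Package B7: subdivisions of good fans are good. -/

namespace G94

open H40M Polynomial

namespace SubGood

variable {F : Fan} {r1 r2 : F.Ray} {α β : ℝ} (h12 : r1 ≠ r2) (hα : 0 < α) (hβ : 0 < β)

lemma ev {A B C D : ℝ} (h : A < C ∨ (A = C ∧ D < B)) :
    ∀ᶠ K in Filter.atTop, K * A - B < K * C - D := by
  rcases h with h | ⟨rfl, h⟩
  · filter_upwards [Filter.eventually_gt_atTop ((D - B) / (C - A))] with K hK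
    rw [div_lt_iff₀ (by linarith)] at hK
    linarith
  · exact Filter.Eventually.of_forall fun K => by linarith

lemma cl_delta (ξ : F.Ξ) : (F.sub r1 r2 α β h12 hα hβ).cl
    (fun ρ => Option.elim ρ 1 fun _ => 0) ξ = (F.sub r1 r2 α β h12 hα hβ).xr none ξ := by
  refine (Fan.cl_eq_sum (F := F.sub r1 r2 α β h12 hα hβ) _ ξ).trans ?_
  refine (Fintype.sum_option (α := F.Ray) (fun ρ => (Option.elim ρ (1 : ℝ) fun _ => 0) •
    (F.sub r1 r2 α β h12 hα hβ).xr ρ ξ)).trans ?_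
  simp

lemma cl_sub (l : F.Ray → ℝ) (K : ℝ) (ξ : F.Ξ) : (F.sub r1 r2 α β h12 hα hβ).cl
    (fun ρ => K * (F.subMap h12 hα hβ).pull l ρ - Option.elim ρ 1 fun _ => 0) ξ =
    K • F.subι h12 hα hβ (F.cl l ξ) - (F.sub r1 r2 α β h12 hα hβ).xr none ξ := by
  have h := Fan.cl_sub (F := F.sub r1 r2 α β h12 hα hβ) (K • (F.subMap h12 hα hβ).pull l)
    (fun ρ => Option.elim ρ 1 fun _ => 0) ξ
  refine h.trans (congrArg₂ (fun a b => a - b) ?_ (cl_delta h12 hα hβ ξ))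
  exact (Fan.cl_smul (F := F.sub r1 r2 α β h12 hα hβ) _ _ ξ).trans
    (congrArg (fun a => K • a) ((F.subMap h12 hα hβ).cl_pull l ξ))

lemma cl_comb (l : F.Ray → ℝ) (t : ℝ) (g : (F.sub r1 r2 α β h12 hα hβ).Ray → ℝ) (ξ : F.Ξ) :
    (F.sub r1 r2 α β h12 hα hβ).cl ((F.subMap h12 hα hβ).pull l + t • g) ξ =
      F.subι h12 hα hβ (F.cl l ξ) + t • (F.sub r1 r2 α β h12 hα hβ).cl g ξ :=
  (Fan.cl_add (F := F.sub r1 r2 α β h12 hα hβ) _ _ ξ).trans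
    (congrArg₂ (fun a b => a + b) ((F.subMap h12 hα hβ).cl_pull l ξ)
      (Fan.cl_smul (F := F.sub r1 r2 α β h12 hα hβ) _ _ ξ))

lemma dec {ξ : F.Ξ} {v : (F.sub r1 r2 α β h12 hα hβ).Cn → ℝ}
    (hv : v ∈ (F.sub r1 r2 α β h12 hα hβ).V ξ) : ∃ u ∈ F.V ξ, ∃ t : ℝ,
      v = F.subι h12 hα hβ u + t • (F.sub r1 r2 α β h12 hα hβ).xr none ξ := by
  obtain ⟨c, f, rfl⟩ := Fan.mem_V.1 hv
  refine ⟨algebraMap ℝ _ c + F.cl (fun ρ => f (some ρ)) ξ,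
    Fan.mem_V.2 ⟨c, _, rfl⟩, f none - (α * f (some r1) + β * f (some r2)), ?_⟩
  have h : f = (F.subMap h12 hα hβ).pull (fun ρ => f (some ρ)) +
      (f none - (α * f (some r1) + β * f (some r2))) •
        (fun ρ : (F.sub r1 r2 α β h12 hα hβ).Ray => Option.elim ρ (1 : ℝ) fun _ => 0) := by
    funext ρ
    rcases ρ with _ | ρ
    · change f none = (F.subMap h12 hα hβ).pull (fun ρ => f (some ρ)) none + _ * 1
      rw [Fan.subMap_pull_none]; ring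
    · change f (some ρ) = (F.subMap h12 hα hβ).pull (fun ρ => f (some ρ)) (some ρ) + _ * 0
      rw [Fan.subMap_pull_some]; ring
  have h2 := (congrArg (fun g => (F.sub r1 r2 α β h12 hα hβ).cl g ξ) h).trans
    ((cl_comb h12 hα hβ _ _ _ ξ).trans (congrArg (fun a => _ + _ • a) (cl_delta h12 hα hβ ξ)))
  rw [map_add, AlgHom.commutes, add_assoc]
  exact congrArg (fun a => _ + a) h2

lemma φ_ι {ξ : F.Ξ} (hξ : (F.sub r1 r2 α β h12 hα hβ).Gen ξ) (g : F.Cn → ℝ) :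
    (F.sub r1 r2 α β h12 hα hβ).φ ξ (F.subι h12 hα hβ g) = F.φ ξ g := by
  have h := (F.subMap h12 hα hβ).φ_ι_mul hξ g 1
  rw [(F.isRef_subMap h12 hα hβ).one ξ hξ, mul_one, mul_one] at h
  exact h

lemma φ_E {ξ : F.Ξ} (hξ : (F.sub r1 r2 α β h12 hα hβ).Gen ξ) (g : F.Cn → ℝ) :
    (F.sub r1 r2 α β h12 hα hβ).φ ξ
      ((F.sub r1 r2 α β h12 hα hβ).xr none ξ * F.subι h12 hα hβ g) = 0 := by
  have h := (F.subMap h12 hα hβ).φ_ι_mul hξ g ((F.sub r1 r2 α β h12 hα hβ).xr none ξ)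
  have h2 : (F.subMap h12 hα hβ).push ξ ((F.sub r1 r2 α β h12 hα hβ).xr none ξ) = 0 :=
    F.pushF_sub_E h12 hα hβ hξ
  rw [h2, mul_zero, map_zero, mul_comm] at h
  exact h

lemma sq (ξ : F.Ξ) : (F.sub r1 r2 α β h12 hα hβ).xr none ξ * (F.sub r1 r2 α β h12 hα hβ).xr none ξ =
    F.subι h12 hα hβ (-((α⁻¹ • F.xr r1 ξ) * (β⁻¹ • F.xr r2 ξ))) +
      (F.sub r1 r2 α β h12 hα hβ).xr none ξ *
        F.subι h12 hα hβ (α⁻¹ • F.xr r1 ξ + β⁻¹ • F.xr r2 ξ) := by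
  have h := F.sub_sq h12 hα hβ ξ
  rw [map_neg, map_mul, map_add]
  linear_combination h

lemma φ_EE {ξ : F.Ξ} (hξ : (F.sub r1 r2 α β h12 hα hβ).Gen ξ) (g : F.Cn → ℝ) :
    (F.sub r1 r2 α β h12 hα hβ).φ ξ ((F.sub r1 r2 α β h12 hα hβ).xr none ξ *
      (F.sub r1 r2 α β h12 hα hβ).xr none ξ * F.subι h12 hα hβ g) =
      -(α⁻¹ * β⁻¹ * F.φ ξ (F.xr r1 ξ * (F.xr r2 ξ * g))) := by
  have h : -((α⁻¹ • F.xr r1 ξ) * (β⁻¹ • F.xr r2 ξ)) * g =
      -((α⁻¹ * β⁻¹) • (F.xr r1 ξ * (F.xr r2 ξ * g))) := by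
    funext σ
    simp only [Pi.neg_apply, Pi.mul_apply, Pi.smul_apply, smul_eq_mul]
    ring
  rw [sq, add_mul, map_add, mul_assoc, ← map_mul, ← map_mul, φ_ι h12 hα hβ hξ, φ_E h12 hα hβ hξ,
    add_zero, h, map_neg, map_smul, smul_eq_mul]

/-- Transfer when the new ray class agrees with an old class on the star of the face. -/
lemma trans {ξ : F.Ξ} {P : (F.sub r1 r2 α β h12 hα hβ).Cn → ℝ} {e l : F.Cn → ℝ}
    (he : e ∈ F.V ξ) (hl : l ∈ F.V ξ)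
    (hP : P * ((F.sub r1 r2 α β h12 hα hβ).xr none ξ - F.subι h12 hα hβ e) = 0)
    {φ0 : (F.Cn → ℝ) →ₗ[ℝ] ℝ} {c : ℝ} (hc : 0 < c)
    (hφ : ∀ η, (F.sub r1 r2 α β h12 hα hβ).φ ξ (P * F.subι h12 hα hβ η) = c * φ0 η) {d : ℕ}
    (h : HRu (F.V ξ) φ0 d l) :
    HRu ((F.sub r1 r2 α β h12 hα hβ).V ξ) (cutφ ((F.sub r1 r2 α β h12 hα hβ).φ ξ) P) d
      (F.subι h12 hα hβ l) := by
  have hm : ∀ v ∈ F.V ξ, F.subι h12 hα hβ v ∈ (F.sub r1 r2 α β h12 hα hβ).V ξ :=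
    (F.subMap h12 hα hβ).ι_mem ξ
  refine (hru_transfer (F.subι h12 hα hβ) (Fan.one_mem_V ξ)
    (Fan.one_mem_V (F := F.sub r1 r2 α β h12 hα hβ) ξ)
    (LinearMap.ker (LinearMap.mulLeft ((F.sub r1 r2 α β h12 hα hβ).Cn → ℝ) P))
    (fun η hη => ?_) (fun v hv => ⟨_, hm v hv, ?_⟩) (fun v hv => ?_) hc (fun η _ => hφ η) hl
    (hm l hl) ?_).1 h
  · have h1 : P * η = 0 := hη
    rw [cutφ_apply, h1, map_zero]
  · rw [sub_self]; exact zero_mem _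
  · obtain ⟨u, hu, t, rfl⟩ := dec h12 hα hβ hv
    refine ⟨u + t • e, add_mem hu (Submodule.smul_mem _ _ he), ?_⟩
    change P * _ = 0
    rw [map_add, map_smul, add_sub_add_left_eq_sub, ← smul_sub, mul_smul_comm, hP, smul_zero]
  · rw [sub_self]; exact zero_mem _

lemma prod_some (ξ : F.Ξ) {τ : Finset F.Ray} (h1 : r1 ∉ τ) (h2 : r2 ∉ τ) :
    ∏ ρ ∈ τ, (F.sub r1 r2 α β h12 hα hβ).xr (some ρ) ξ =
      F.subι h12 hα hβ (∏ ρ ∈ τ, F.xr ρ ξ) := by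
  rw [map_prod]
  refine Finset.prod_congr rfl fun ρ hρ => ?_
  have e1 : ρ ≠ r1 := fun h => h1 (h ▸ hρ)
  have e2 : ρ ≠ r2 := fun h => h2 (h ▸ hρ)
  rw [Fan.sub_xr_some, if_neg e1, if_neg e2]
  simp

lemma xr1 (ξ : F.Ξ) : (F.sub r1 r2 α β h12 hα hβ).xr (some r1) ξ =
    α • (F.subι h12 hα hβ (α⁻¹ • F.xr r1 ξ) - (F.sub r1 r2 α β h12 hα hβ).xr none ξ) := by
  rw [Fan.sub_xr_some, if_pos rfl, if_neg h12, add_zero, map_smul, smul_sub, smul_smul,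
    mul_inv_cancel₀ hα.ne', one_smul]

lemma xr2 (ξ : F.Ξ) : (F.sub r1 r2 α β h12 hα hβ).xr (some r2) ξ =
    β • (F.subι h12 hα hβ (β⁻¹ • F.xr r2 ξ) - (F.sub r1 r2 α β h12 hα hβ).xr none ξ) := by
  rw [Fan.sub_xr_some, if_pos rfl, if_neg h12.symm, zero_add, map_smul, smul_sub, smul_smul,
    mul_inv_cancel₀ hβ.ne', one_smul]

lemma old {l : F.Ray → ℝ} (hF : F.Good) (hl : F.SConv l) {ξ : F.Ξ} (hξ : F.Gen ξ)
    {τ : Finset F.Ray} {σ : F.Cn} (h : τ ⊆ F.rays σ) :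
    HRu (F.V ξ) (cutφ (F.φ ξ) (∏ ρ ∈ τ, F.xr ρ ξ)) (F.d - τ.card) (F.cl l ξ) :=
  (hF.hr ξ hξ ⟨τ, σ, h⟩).hru (Fan.amp_sconv hF.bal hξ hl ⟨τ, σ, h⟩)

/-- Faces away from the new ray and from the edge. -/
lemma case1 {l : F.Ray → ℝ} (hF : F.Good) (hl : F.SConv l) {ξ : F.Ξ}
    (hξ : (F.sub r1 r2 α β h12 hα hβ).Gen ξ) {τ : Finset F.Ray} {σ : F.Cn} (h : τ ⊆ F.rays σ)
    (h1 : r1 ∉ τ) (h2 : r2 ∉ τ) :
    HRu ((F.sub r1 r2 α β h12 hα hβ).V ξ) (cutφ ((F.sub r1 r2 α β h12 hα hβ).φ ξ)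
      (F.subι h12 hα hβ (∏ ρ ∈ τ, F.xr ρ ξ))) (F.d - τ.card) (F.subι h12 hα hβ (F.cl l ξ)) := by
  have hg := F.sub_gen h12 hα hβ hξ
  have ha : α⁻¹ • F.xr r1 ξ ∈ F.V ξ := Submodule.smul_mem _ _ (Fan.xr_mem _ _)
  have hb : β⁻¹ • F.xr r2 ξ ∈ F.V ξ := Submodule.smul_mem _ _ (Fan.xr_mem _ _)
  by_cases hf : ∃ σ', insert r1 (insert r2 τ) ⊆ F.rays σ'
  · obtain ⟨σ', hσ'⟩ := hf
    have h3 : r1 ∉ insert r2 τ := by simp [h12, h1]
    have hc : (insert r1 (insert r2 τ)).card = τ.card + 2 := by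
      rw [Finset.card_insert_of_notMem h3, Finset.card_insert_of_notMem h2]
    have hd := Finset.card_le_card hσ'
    rw [F.card_rays, hc] at hd
    have h0 := old hF hl hg hσ'
    rw [Finset.prod_insert h3, Finset.prod_insert h2, hc] at h0
    refine HRu_semismall (F.subι h12 hα hβ) (Finset.univ : Finset Unit)
      (fun _ => (F.sub r1 r2 α β h12 hα hβ).xr none ξ)
      (fun _ => (α⁻¹ * β⁻¹) • cutφ (F.φ ξ) (F.xr r1 ξ * (F.xr r2 ξ * ∏ ρ ∈ τ, F.xr ρ ξ)))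
      (φY := cutφ (F.φ ξ) (∏ ρ ∈ τ, F.xr ρ ξ))
      (Fan.one_mem_V ξ) (Fan.cl_mem l ξ) ((F.subMap h12 hα hβ).ι_mem ξ)
      (fun _ _ => Fan.xr_mem _ _) (fun v hv => ?_) (fun _ _ _ _ => ?_) (fun η => ?_)
      (fun _ _ η => ?_) (fun _ _ _ _ h => absurd rfl h) (fun _ _ η => ?_) (old hF hl hg h)
      (fun _ _ => ⟨F.d - (τ.card + 2), by omega, ?_⟩)
    · obtain ⟨u, hu, t, rfl⟩ := dec h12 hα hβ hv
      exact ⟨u, hu, fun _ => t, by simp⟩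
    · refine ⟨_, neg_mem (mul_mem_pow' (mem_pow_one ha) (mem_pow_one hb) rfl),
        fun _ => _, fun _ _ => add_mem ha hb, ?_⟩
      rw [Finset.univ_unique, Finset.sum_singleton]
      exact sq h12 hα hβ ξ
    · rw [cutφ_apply, ← map_mul, φ_ι h12 hα hβ hξ, cutφ_apply]
    · rw [cutφ_apply, mul_left_comm, ← map_mul, φ_E h12 hα hβ hξ]
    · rw [cutφ_apply, mul_left_comm, ← map_mul, φ_EE h12 hα hβ hξ, LinearMap.smul_apply,
        cutφ_apply, smul_eq_mul, mul_assoc (F.xr r1 ξ), mul_assoc (F.xr r2 ξ)]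
    · refine (hru_transfer (AlgHom.id ℝ _) (Fan.one_mem_V ξ) (Fan.one_mem_V ξ) ⊥
        (fun η hη => ?_) (fun v hv => ⟨v, hv, by simp⟩) (fun v hv => ⟨v, hv, by simp⟩)
        (mul_pos (inv_pos.2 hα) (inv_pos.2 hβ)) (fun η _ => rfl) (Fan.cl_mem l ξ)
        (Fan.cl_mem l ξ) (by simp)).1 h0
      rw [Ideal.mem_bot.1 hη, map_zero]
  · refine trans h12 hα hβ (zero_mem _) (Fan.cl_mem l ξ) ?_ one_pos (fun η => ?_) (old hF hl hg h)
    · rw [map_zero, sub_zero]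
      funext σ'
      change (∏ ρ ∈ τ, F.xr ρ ξ) (F.subPar r1 r2 σ') *
        (F.sub r1 r2 α β h12 hα hβ).x σ' none ξ = 0
      by_cases hn : none ∈ (F.sub r1 r2 α β h12 hα hβ).rays σ'
      · have hb := (F.sub_none_mem h12 hα hβ).1 hn
        rw [Fan.FanP_prod_zero (fun h' => hf ⟨_, Finset.insert_subset hb.1
          (Finset.insert_subset hb.2 h')⟩), zero_mul]
      · rw [(F.sub r1 r2 α β h12 hα hβ).x_out σ' none hn]
        exact mul_zero _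
    · rw [← map_mul, φ_ι h12 hα hβ hξ, one_mul, cutφ_apply]

/-- Faces containing one end of the edge. -/
lemma case2 {ξ : F.Ξ} (hξ : (F.sub r1 r2 α β h12 hα hβ).Gen ξ) {a b P l : F.Cn → ℝ} {c : ℝ}
    (hb : b ∈ F.V ξ) (hl : l ∈ F.V ξ)
    (hab : ((F.sub r1 r2 α β h12 hα hβ).xr none ξ - F.subι h12 hα hβ a) *
      ((F.sub r1 r2 α β h12 hα hβ).xr none ξ - F.subι h12 hα hβ b) = 0) {d : ℕ}
    (h : HRu (F.V ξ) (cutφ (F.φ ξ) (c • a * P)) d l) :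
    HRu ((F.sub r1 r2 α β h12 hα hβ).V ξ) (cutφ ((F.sub r1 r2 α β h12 hα hβ).φ ξ)
      (c • (F.subι h12 hα hβ a - (F.sub r1 r2 α β h12 hα hβ).xr none ξ) * F.subι h12 hα hβ P)) d
      (F.subι h12 hα hβ l) := by
  refine trans h12 hα hβ hb hl ?_ one_pos (fun η => ?_) h
  · rw [smul_mul_assoc, smul_mul_assoc]
    have : (F.subι h12 hα hβ a - (F.sub r1 r2 α β h12 hα hβ).xr none ξ) * F.subι h12 hα hβ P *
        ((F.sub r1 r2 α β h12 hα hβ).xr none ξ - F.subι h12 hα hβ b) = 0 := by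
      linear_combination (-F.subι h12 hα hβ P) * hab
    rw [this, smul_zero]
  · rw [one_mul, cutφ_apply, smul_mul_assoc, smul_mul_assoc, smul_mul_assoc, smul_mul_assoc,
      map_smul, map_smul, mul_assoc, ← map_mul, sub_mul, map_sub, ← map_mul, φ_ι h12 hα hβ hξ,
      φ_E h12 hα hβ hξ, sub_zero, mul_assoc]

/-- Faces containing the new ray and one end of the edge. -/
lemma case3 {ξ : F.Ξ} (hξ : (F.sub r1 r2 α β h12 hα hβ).Gen ξ) {a b P l : F.Cn → ℝ} {c : ℝ}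
    (hc : 0 < c) (hb : b ∈ F.V ξ) (hl : l ∈ F.V ξ)
    (hab : ((F.sub r1 r2 α β h12 hα hβ).xr none ξ - F.subι h12 hα hβ a) *
      ((F.sub r1 r2 α β h12 hα hβ).xr none ξ - F.subι h12 hα hβ b) = 0) {d : ℕ}
    (h : HRu (F.V ξ) (cutφ (F.φ ξ) (F.xr r1 ξ * (F.xr r2 ξ * P))) d l) :
    HRu ((F.sub r1 r2 α β h12 hα hβ).V ξ) (cutφ ((F.sub r1 r2 α β h12 hα hβ).φ ξ)
      ((F.sub r1 r2 α β h12 hα hβ).xr none ξ *
        (c • (F.subι h12 hα hβ a - (F.sub r1 r2 α β h12 hα hβ).xr none ξ) * F.subι h12 hα hβ P))) d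
      (F.subι h12 hα hβ l) := by
  refine trans h12 hα hβ hb hl ?_ (mul_pos hc (mul_pos (inv_pos.2 hα) (inv_pos.2 hβ)))
    (fun η => ?_) h
  · rw [smul_mul_assoc, mul_smul_comm, smul_mul_assoc]
    have : (F.sub r1 r2 α β h12 hα hβ).xr none ξ *
        ((F.subι h12 hα hβ a - (F.sub r1 r2 α β h12 hα hβ).xr none ξ) * F.subι h12 hα hβ P) *
        ((F.sub r1 r2 α β h12 hα hβ).xr none ξ - F.subι h12 hα hβ b) = 0 := by
      linear_combination (-((F.sub r1 r2 α β h12 hα hβ).xr none ξ * F.subι h12 hα hβ P)) * hab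
    rw [this, smul_zero]
  · have : (F.sub r1 r2 α β h12 hα hβ).xr none ξ *
        ((F.subι h12 hα hβ a - (F.sub r1 r2 α β h12 hα hβ).xr none ξ) * F.subι h12 hα hβ P) *
        F.subι h12 hα hβ η = (F.sub r1 r2 α β h12 hα hβ).xr none ξ * F.subι h12 hα hβ (a * P * η) -
        (F.sub r1 r2 α β h12 hα hβ).xr none ξ * (F.sub r1 r2 α β h12 hα hβ).xr none ξ *
          F.subι h12 hα hβ (P * η) := by
      simp only [map_mul]; ring
    rw [smul_mul_assoc, mul_smul_comm, smul_mul_assoc, map_smul, this, map_sub, φ_E h12 hα hβ hξ,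
      φ_EE h12 hα hβ hξ, cutφ_apply, smul_eq_mul, mul_assoc (F.xr r1 ξ), mul_assoc (F.xr r2 ξ)]
    ring

/-- Faces containing the new ray and no end of the edge. -/
lemma case4 {ξ : F.Ξ} (hξ : (F.sub r1 r2 α β h12 hα hβ).Gen ξ) {P l : F.Cn → ℝ} (K : ℝ)
    (hl : l ∈ F.V ξ) {d : ℕ}
    (h : HRu (F.V ξ) (cutφ (F.φ ξ) (F.xr r1 ξ * (F.xr r2 ξ * P))) d l) :
    ∃ ε : ℝ, 0 < ε ∧ HRu ((F.sub r1 r2 α β h12 hα hβ).V ξ) (cutφ ((F.sub r1 r2 α β h12 hα hβ).φ ξ)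
      ((F.sub r1 r2 α β h12 hα hβ).xr none ξ * F.subι h12 hα hβ P)) (d + 1)
      (F.subι h12 hα hβ l +
        ε • (K • F.subι h12 hα hβ l - (F.sub r1 r2 α β h12 hα hβ).xr none ξ)) := by
  have ha : α⁻¹ • F.xr r1 ξ ∈ F.V ξ := Submodule.smul_mem _ _ (Fan.xr_mem _ _)
  have hb : β⁻¹ • F.xr r2 ξ ∈ F.V ξ := Submodule.smul_mem _ _ (Fan.xr_mem _ _)
  have hK : K • l ∈ F.V ξ := Submodule.smul_mem _ _ hl
  have hm : ∀ v ∈ F.V ξ, F.subι h12 hα hβ v ∈ (F.sub r1 r2 α β h12 hα hβ).V ξ :=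
    (F.subMap h12 hα hβ).ι_mem ξ
  set Y := K • F.subι h12 hα hβ l - (F.sub r1 r2 α β h12 hα hβ).xr none ξ with hY
  have hYm : Y ∈ (F.sub r1 r2 α β h12 hα hβ).V ξ :=
    sub_mem (Submodule.smul_mem _ _ (hm l hl)) (Fan.xr_mem _ _)
  have hw := wt_prod (Fan.one_mem_V ξ) (Finset.univ : Finset Bool)
    (fun i => cond i (α⁻¹ • F.xr r1 ξ - K • l) (β⁻¹ • F.xr r2 ξ - K • l))
    (fun i _ => by cases i; exacts [sub_mem hb hK, sub_mem ha hK])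
  rw [Fintype.prod_bool] at hw
  set Q : (F.Cn → ℝ)[X] := (X + C (α⁻¹ • F.xr r1 ξ - K • l)) * (X + C (β⁻¹ • F.xr r2 ξ - K • l))
    with hQ
  replace hw : Wt (F.V ξ) (1 + 1) Q := hw
  have hQ0 : aevalTower (F.subι h12 hα hβ) Y Q = 0 := by
    rw [hQ, map_mul, map_add, map_add, aevalTower_X, aevalTower_C, aevalTower_C, map_sub, map_sub,
      map_smul _ K, hY]
    linear_combination F.sub_sq h12 hα hβ ξ
  obtain ⟨ε, hε, h1⟩ := HRu_proj (Fan.one_mem_V ξ) (Fan.fg_V ξ) hl h hw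
  refine ⟨ε, hε, (hru_transfer (aevalTower (F.subι h12 hα hβ) Y)
    (by simpa using C_mem_extV (Fan.one_mem_V ξ))
    (Fan.one_mem_V (F := F.sub r1 r2 α β h12 hα hβ) ξ) ⊥ (fun η hη => ?_)
    (fun v hv => ?_) (fun v hv => ?_) (mul_pos (inv_pos.2 hα) (inv_pos.2 hβ)) (fun η _ => ?_)
    (add_mem (C_mem_extV hl) (Submodule.smul_mem _ _ X_mem_extV))
    (add_mem (hm l hl) (Submodule.smul_mem _ _ hYm)) ?_).1 h1⟩
  · rw [Ideal.mem_bot.1 hη, map_zero]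
  · obtain ⟨a, ha', c, rfl⟩ := mem_extV.1 hv
    refine ⟨_, add_mem (hm a ha') (Submodule.smul_mem _ c hYm), ?_⟩
    rw [map_add, map_smul, aevalTower_X, aevalTower_C, sub_self]
    exact zero_mem _
  · obtain ⟨u, hu, t, rfl⟩ := dec h12 hα hβ hv
    refine ⟨C (u + t • K • l) + (-t) • X,
      mem_extV.2 ⟨_, add_mem hu (Submodule.smul_mem _ _ hK), _, rfl⟩, ?_⟩
    rw [map_add, map_smul, aevalTower_X, aevalTower_C, map_add, map_smul, map_smul, hY,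
      Ideal.mem_bot]
    module
  · have h2 := modByMonic_add_div η Q
    have h3 : (η %ₘ Q).degree < ((1 + 1 : ℕ) : WithBot ℕ) := degree_mod_lt hw.1 hw.2.1 η
    have h4 : η %ₘ Q = C ((η %ₘ Q).coeff 1) * X + C ((η %ₘ Q).coeff 0) :=
      eq_X_add_C_of_degree_le_one (Order.le_of_lt_succ h3)
    have h5 : aevalTower (F.subι h12 hα hβ) Y η =
        F.subι h12 hα hβ ((η %ₘ Q).coeff 1) * Y + F.subι h12 hα hβ ((η %ₘ Q).coeff 0) := by
      conv_lhs => rw [← h2, h4]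
      rw [map_add, map_mul, hQ0, zero_mul, add_zero, map_add, map_mul, aevalTower_X, aevalTower_C,
        aevalTower_C]
    have h6 : (F.sub r1 r2 α β h12 hα hβ).xr none ξ * F.subι h12 hα hβ P *
        (F.subι h12 hα hβ ((η %ₘ Q).coeff 1) * Y + F.subι h12 hα hβ ((η %ₘ Q).coeff 0)) =
        (F.sub r1 r2 α β h12 hα hβ).xr none ξ * F.subι h12 hα hβ
          (P * ((η %ₘ Q).coeff 1 * (K • l) + (η %ₘ Q).coeff 0)) -
        (F.sub r1 r2 α β h12 hα hβ).xr none ξ * (F.sub r1 r2 α β h12 hα hβ).xr none ξ *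
          F.subι h12 hα hβ (P * (η %ₘ Q).coeff 1) := by
      simp only [map_mul, map_add, map_smul, hY]; ring
    rw [cutφ_apply, h5, h6, map_sub, φ_E h12 hα hβ hξ, φ_EE h12 hα hβ hξ, extφ_apply, push_apply,
      cutφ_apply, mul_assoc (F.xr r1 ξ), mul_assoc (F.xr r2 ξ)]
    simp
  · rw [map_add, map_smul, aevalTower_X, aevalTower_C, sub_self]
    exact zero_mem _

lemma opt_dec {R : Type*} (s : Finset (Option R)) :
    ∃ τ : Finset R, s = τ.map Function.Embedding.some ∨ s = τ.insertNone := by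
  classical
  refine ⟨Finset.eraseNone s, ?_⟩
  by_cases hn : none ∈ s
  · right
    rw [Finset.insertNone_eraseNone]
    exact (Finset.insert_eq_of_mem hn).symm
  · left
    rw [Finset.map_some_eraseNone]
    exact (Finset.erase_eq_of_notMem hn).symm

end SubGood

theorem Fan.sub_sconv {F : Fan} {l : F.Ray → ℝ} (hl : F.SConv l) {r1 r2 : F.Ray} {α β : ℝ}
    (h12 : r1 ≠ r2) (hα : 0 < α) (hβ : 0 < β) :
    ∃ K : ℝ, 0 < K ∧ (F.sub r1 r2 α β h12 hα hβ).SConv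
      (fun ρ => K * (F.subMap h12 hα hβ).pull l ρ - Option.elim ρ 1 fun _ => 0) := by
  have e1 : ∀ᶠ K in Filter.atTop, ∀ (σ : (F.sub r1 r2 α β h12 hα hβ).Cn) (ρ : Option F.Ray),
      ρ ∉ (F.sub r1 r2 α β h12 hα hβ).rays σ →
        K * F.cl l ((F.sub r1 r2 α β h12 hα hβ).v ρ) (F.subPar r1 r2 σ) -
          F.subE r1 r2 α β σ ((F.sub r1 r2 α β h12 hα hβ).v ρ) <
        K * (F.subMap h12 hα hβ).pull l ρ - Option.elim ρ 1 fun _ => 0 := by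
    refine Filter.eventually_all.2 fun σ => Filter.eventually_all.2 fun ρ => ?_
    refine Filter.eventually_imp_distrib_left.2 fun hρ => SubGood.ev ?_
    rcases ρ with _ | ρ
    · left
      have hb : ¬ F.Both r1 r2 (F.subPar r1 r2 σ) := fun h => hρ ((F.sub_none_mem h12 hα hβ).2 h)
      change F.cl l (α • F.v r1 + β • F.v r2) _ < _
      rw [Fan.subMap_pull_none, ← Fan.loc_apply, map_add, map_smul, map_smul, Fan.loc_apply,
        Fan.loc_apply, smul_eq_mul, smul_eq_mul]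
      have c1 := hl.conv (F.subPar r1 r2 σ) r1
      have c2 := hl.conv (F.subPar r1 r2 σ) r2
      rcases not_and_or.1 hb with h | h
      · have := hl.1 _ _ h
        nlinarith
      · have := hl.1 _ _ h
        nlinarith
    · rw [Fan.subMap_pull_some]
      change F.cl l (F.v ρ) _ < _ ∨ F.cl l (F.v ρ) _ = _ ∧ 0 < F.subE r1 r2 α β σ (F.v ρ)
      by_cases h : ρ ∈ F.rays (F.subPar r1 r2 σ)
      · refine Or.inr ⟨Fan.cl_ray l h, ?_⟩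
        change some ρ ∉ F.subR r1 r2 σ at hρ
        rcases σ with σ | σ
        · change ρ ∈ F.rays σ at h
          by_cases hb : F.Both r1 r2 σ
          · obtain rfl : ρ = r1 := by simpa [Fan.subR, hb, h] using hρ
            simp [Fan.subE, hb, F.x_v _ _ _ h, hα]
          · simp [Fan.subR, hb, h] at hρ
        · change ρ ∈ F.rays σ.1 at h
          obtain rfl : ρ = r2 := by simpa [Fan.subR, h] using hρ
          simp [Fan.subE, F.x_v _ _ _ h, hβ]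
      · exact Or.inl (hl.1 _ _ h)
  have e2 : ∀ᶠ K in Filter.atTop, ∀ ρ : Option F.Ray,
      K * 0 - 0 < K * (F.subMap h12 hα hβ).pull l ρ - Option.elim ρ 1 fun _ => 0 := by
    refine Filter.eventually_all.2 fun ρ => SubGood.ev (Or.inl ?_)
    rcases ρ with _ | ρ
    · rw [Fan.subMap_pull_none]
      exact add_pos (mul_pos hα (hl.2 _)) (mul_pos hβ (hl.2 _))
    · rw [Fan.subMap_pull_some]; exact hl.2 _
  obtain ⟨K, hK, h1, h2⟩ := ((Filter.eventually_gt_atTop (0 : ℝ)).and (e1.and e2)).exists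
  refine ⟨K, hK, fun σ ρ hρ => ?_, fun ρ => by simpa using h2 ρ⟩
  exact (congrFun (SubGood.cl_sub h12 hα hβ l K _) σ).trans_lt (h1 σ ρ hρ)

theorem Fan.sub_good {F : Fan} (hF : F.Good) {r1 r2 : F.Ray} {α β : ℝ} (h12 : r1 ≠ r2)
    (hα : 0 < α) (hβ : 0 < β) : (F.sub r1 r2 α β h12 hα hβ).Good := by
  obtain ⟨l, hl⟩ := hF.amp
  obtain ⟨K, -, hK⟩ := Fan.sub_sconv hl h12 hα hβ
  have hB := (F.subMap h12 hα hβ).bal hF.bal
  refine ⟨hB, ⟨_, hK⟩, fun ξ hξ τ => hri_all _ (fun i _ => ?_) τ⟩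
  obtain ⟨τ', σ, hσ⟩ := i
  have hg := F.sub_gen h12 hα hβ hξ
  have hN : ∀ j, ((F.sub r1 r2 α β h12 hα hβ).sys ξ).Nef j (F.subι h12 hα hβ (F.cl l ξ)) := by
    intro j k _
    have := Fan.gn_conv hB hξ ((F.subMap h12 hα hβ).conv hl.conv) k
    exact (F.subMap h12 hα hβ).cl_pull l ξ ▸ this
  have ha : α⁻¹ • F.xr r1 ξ ∈ F.V ξ := Submodule.smul_mem _ _ (Fan.xr_mem _ _)
  have hb : β⁻¹ • F.xr r2 ξ ∈ F.V ξ := Submodule.smul_mem _ _ (Fan.xr_mem _ _)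
  have hsq := F.sub_sq h12 hα hβ ξ
  have hsq' := hsq
  rw [mul_comm] at hsq'
  have hlm := Fan.cl_mem l ξ
  obtain ⟨τ, hτ⟩ := SubGood.opt_dec (R := F.Ray) τ'
  have hs : ∀ ρ ∈ τ, some ρ ∈ (F.sub r1 r2 α β h12 hα hβ).rays σ := by
    intro ρ hρ
    apply hσ
    rcases hτ with rfl | rfl
    · exact Finset.mem_map_of_mem _ hρ
    · exact Finset.some_mem_insertNone.2 hρ
  have hτσ : τ ⊆ F.rays (F.subPar r1 r2 σ) := fun ρ hρ => F.sub_some_mem h12 hα hβ (hs ρ hρ)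
  have hnb : ¬ (r1 ∈ τ ∧ r2 ∈ τ) := fun h => F.sub_not_both h12 hα hβ σ ⟨hs _ h.1, hs _ h.2⟩
  change ∃ l0, ((F.sub r1 r2 α β h12 hα hβ).sys ξ).Nef _ l0 ∧
    HRu ((F.sub r1 r2 α β h12 hα hβ).V ξ) (cutφ ((F.sub r1 r2 α β h12 hα hβ).φ ξ)
      (∏ ρ ∈ τ', (F.sub r1 r2 α β h12 hα hβ).xr ρ ξ)) (F.d - τ'.card) l0
  have split : (r1 ∉ τ ∧ r2 ∉ τ) ∨ (∃ τ0, r1 ∉ τ0 ∧ r2 ∉ τ0 ∧ τ = insert r1 τ0) ∨
      ∃ τ0, r1 ∉ τ0 ∧ r2 ∉ τ0 ∧ τ = insert r2 τ0 := by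
    by_cases h1 : r1 ∈ τ
    · exact Or.inr (Or.inl ⟨τ.erase r1, by simp, fun h => hnb ⟨h1, Finset.mem_of_mem_erase h⟩,
        (Finset.insert_erase h1).symm⟩)
    by_cases h2 : r2 ∈ τ
    · exact Or.inr (Or.inr ⟨τ.erase r2, fun h => h1 (Finset.mem_of_mem_erase h), by simp,
        (Finset.insert_erase h2).symm⟩)
    · exact Or.inl ⟨h1, h2⟩
  rcases hτ with rfl | rfl
  · refine ⟨_, hN _, ?_⟩
    have hp : ∏ ρ ∈ τ.map Function.Embedding.some, (F.sub r1 r2 α β h12 hα hβ).xr ρ ξ =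
        ∏ ρ ∈ τ, (F.sub r1 r2 α β h12 hα hβ).xr (some ρ) ξ := Finset.prod_map _ _ _
    have hc : (τ.map Function.Embedding.some).card = τ.card := Finset.card_map _
    refine (congrArg₂ (fun P n => HRu _ (cutφ _ P) (F.d - n) _) hp hc).mpr ?_
    have h0 := SubGood.old hF hl hg hτσ
    rcases split with ⟨h1, h2⟩ | ⟨τ0, h1, h2, rfl⟩ | ⟨τ0, h1, h2, rfl⟩
    · rw [SubGood.prod_some h12 hα hβ ξ h1 h2]
      exact SubGood.case1 h12 hα hβ hF hl hξ hτσ h1 h2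
    · rw [Finset.prod_insert h1, SubGood.prod_some h12 hα hβ ξ h1 h2, SubGood.xr1 h12 hα hβ ξ]
      refine SubGood.case2 h12 hα hβ hξ hb hlm hsq ?_
      rwa [smul_smul, mul_inv_cancel₀ hα.ne', one_smul, ← Finset.prod_insert (f := fun ρ => F.xr ρ ξ) h1]
    · rw [Finset.prod_insert h2, SubGood.prod_some h12 hα hβ ξ h1 h2, SubGood.xr2 h12 hα hβ ξ]
      refine SubGood.case2 h12 hα hβ hξ ha hlm hsq' ?_
      rwa [smul_smul, mul_inv_cancel₀ hβ.ne', one_smul, ← Finset.prod_insert (f := fun ρ => F.xr ρ ξ) h2]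
  · have hb' : F.Both r1 r2 (F.subPar r1 r2 σ) :=
      (F.sub_none_mem h12 hα hβ).1 (hσ Finset.none_mem_insertNone)
    have hp : ∏ ρ ∈ τ.insertNone, (F.sub r1 r2 α β h12 hα hβ).xr ρ ξ =
        (F.sub r1 r2 α β h12 hα hβ).xr none ξ *
          ∏ ρ ∈ τ, (F.sub r1 r2 α β h12 hα hβ).xr (some ρ) ξ := Finset.prod_insertNone _ _
    have hc : τ.insertNone.card = τ.card + 1 := Finset.card_insertNone _
    have key : ∀ τ0 : Finset F.Ray, r1 ∉ τ0 → r2 ∉ τ0 → τ0 ⊆ τ → τ0.card + 2 ≤ F.d ∧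
        HRu (F.V ξ) (cutφ (F.φ ξ) (F.xr r1 ξ * (F.xr r2 ξ * ∏ ρ ∈ τ0, F.xr ρ ξ)))
          (F.d - (τ0.card + 2)) (F.cl l ξ) := by
      intro τ0 h1 h2 h
      have h3 : r1 ∉ insert r2 τ0 := by simp [h12, h1]
      have h4 : insert r1 (insert r2 τ0) ⊆ F.rays (F.subPar r1 r2 σ) :=
        Finset.insert_subset hb'.1 (Finset.insert_subset hb'.2 (h.trans hτσ))
      have h5 := Finset.card_le_card h4
      have h0 := SubGood.old hF hl hg h4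
      rw [Finset.card_insert_of_notMem h3, Finset.card_insert_of_notMem h2] at h0 h5
      rw [Finset.prod_insert h3, Finset.prod_insert h2] at h0
      rw [F.card_rays] at h5
      exact ⟨h5, h0⟩
    rcases split with ⟨h1, h2⟩ | ⟨τ0, h1, h2, rfl⟩ | ⟨τ0, h1, h2, rfl⟩
    · obtain ⟨h3, h0⟩ := key τ h1 h2 (Finset.Subset.refl _)
      obtain ⟨ε, hε, h4⟩ := SubGood.case4 h12 hα hβ hξ K hlm h0
      refine ⟨_, fun j _ => ?_, (congrArg₂ (fun P n => HRu _ (cutφ _ P) n _)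
        (hp.trans (by rw [SubGood.prod_some h12 hα hβ ξ h1 h2]))
        (show F.d - τ.insertNone.card = F.d - (τ.card + 2) + 1 by omega)).mpr h4⟩
      have := Fan.gn_conv hB hξ (((F.subMap h12 hα hβ).conv hl.conv).add (hK.conv.smul hε.le)) j
      exact ((SubGood.cl_comb h12 hα hβ l ε _ ξ).trans
        (congrArg (fun a => _ + ε • a) (SubGood.cl_sub h12 hα hβ l K ξ))) ▸ this
    · refine ⟨_, hN _, (congrArg₂ (fun P n => HRu _ (cutφ _ P) (F.d - n) _) hp hc).mpr ?_⟩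
      rw [Finset.prod_insert h1, SubGood.prod_some h12 hα hβ ξ h1 h2, SubGood.xr1 h12 hα hβ ξ,
        Finset.card_insert_of_notMem h1]
      exact SubGood.case3 h12 hα hβ hξ hα hb hlm hsq (key τ0 h1 h2 (Finset.subset_insert _ _)).2
    · refine ⟨_, hN _, (congrArg₂ (fun P n => HRu _ (cutφ _ P) (F.d - n) _) hp hc).mpr ?_⟩
      rw [Finset.prod_insert h2, SubGood.prod_some h12 hα hβ ξ h1 h2, SubGood.xr2 h12 hα hβ ξ,
        Finset.card_insert_of_notMem h2]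
      exact SubGood.case3 h12 hα hβ hξ hβ ha hlm hsq' (key τ0 h1 h2 (Finset.subset_insert _ _)).2

end G94
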