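import Pool.Agent.P.MP_740b33_co.BunGood
import Pool.Agent.P.MP_740b33_co.SubGood

/-! Package B8: refinements that order finitely many functions, and new nodes. -/

namespace G94

open H40M Polynomial

namespace Refine

open Classical in
/-- The pairs of rays of a common cone on which `g` changes sign. -/
noncomputable def bad (F : Fan) (g : F.Ray → ℝ) : Finset (F.Ray × F.Ray) :=
  Finset.univ.filter fun p => (∃ σ, p.1 ∈ F.rays σ ∧ p.2 ∈ F.rays σ) ∧ 0 < g p.1 ∧ g p.2 < 0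

lemma mem_bad {F : Fan} {g : F.Ray → ℝ} {p : F.Ray × F.Ray} :
    p ∈ bad F g ↔ (∃ σ, p.1 ∈ F.rays σ ∧ p.2 ∈ F.rays σ) ∧ 0 < g p.1 ∧ g p.2 < 0 := by
  simp [bad]

lemma one (n : ℕ) : ∀ (F : Fan), F.Good → ∀ g : F.Ray → ℝ, (bad F g).card ≤ n →
    ∃ (F' : Fan) (R : Map F' F 0), F'.Good ∧ IsRef R ∧ F'.SignDef (R.pull g) := by
  have base : ∀ (F : Fan), F.Good → ∀ g : F.Ray → ℝ, bad F g = ∅ →
      ∃ (F' : Fan) (R : Map F' F 0), F'.Good ∧ IsRef R ∧ F'.SignDef (R.pull g) := by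
    intro F hF g h
    refine ⟨F, Map.id F, hF, isRef_id F, fun σ => ?_⟩
    rw [Map.id_pull]
    by_contra hc
    push Not at hc
    obtain ⟨⟨ρ', a1, a2⟩, ρ, a3, a4⟩ := hc
    have : (ρ, ρ') ∈ bad F g := mem_bad.2 ⟨⟨σ, a3, a1⟩, a4, a2⟩
    rw [h] at this
    simp at this
  induction n with
  | zero => exact fun F hF g h => base F hF g (Finset.card_eq_zero.1 (by omega))
  | succ n ih =>
    intro F hF g h
    rcases (bad F g).eq_empty_or_nonempty with h0 | ⟨⟨r1, r2⟩, hp⟩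
    · exact base F hF g h0
    obtain ⟨-, p1, p2⟩ := mem_bad.1 hp
    have h12 : r1 ≠ r2 := by
      rintro rfl
      exact lt_asymm p1 p2
    have hα : 0 < -g r2 := neg_pos.2 p2
    have hn : (F.subMap h12 hα p1).pull g none = 0 := by
      rw [Fan.subMap_pull_none]; ring
    obtain ⟨F', R, a1, a2, a3⟩ := ih _ (Fan.sub_good hF h12 hα p1) ((F.subMap h12 hα p1).pull g) (by
      classical
      have sub : bad _ ((F.subMap h12 hα p1).pull g) ⊆
          ((bad F g).erase (r1, r2)).image (Prod.map some some) := by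
        rintro ⟨a, b⟩ hab
        obtain ⟨⟨σ, b1, b2⟩, b3, b4⟩ := mem_bad.1 hab
        rcases a with _ | a
        · exact absurd (hn ▸ b3) (lt_irrefl _)
        rcases b with _ | b
        · exact absurd (hn ▸ b4) (lt_irrefl _)
        refine Finset.mem_image.2 ⟨(a, b), Finset.mem_erase.2 ⟨?_, mem_bad.2
          ⟨⟨_, Fan.sub_some_mem _ _ _ _ b1, Fan.sub_some_mem _ _ _ _ b2⟩, ?_, ?_⟩⟩, rfl⟩
        · intro e
          obtain ⟨rfl, rfl⟩ := Prod.mk.inj e
          exact Fan.sub_not_both _ _ _ _ σ ⟨b1, b2⟩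
        · rwa [Fan.subMap_pull_some] at b3
        · rwa [Fan.subMap_pull_some] at b4
      have := (Finset.card_le_card sub).trans Finset.card_image_le
      rw [Finset.card_erase_of_mem hp] at this
      omega)
    exact ⟨F', R.comp (F.subMap h12 hα p1) rfl, a1, a2.comp (F.isRef_subMap h12 hα p1),
      by rwa [Map.comp_pull]⟩

end Refine

theorem exists_ref {F : Fan} (hF : F.Good) {κ : Type} [Fintype κ] (g : κ → F.Ray → ℝ) :
    ∃ (F' : Fan) (R : Map F' F 0), F'.Good ∧ IsRef R ∧ ∀ i, F'.SignDef (R.pull (g i)) := by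
  classical
  have key : ∀ s : Finset κ, ∃ (F' : Fan) (R : Map F' F 0), F'.Good ∧ IsRef R ∧
      ∀ i ∈ s, F'.SignDef (R.pull (g i)) := by
    intro s
    induction s using Finset.induction_on with
    | empty => exact ⟨F, Map.id F, hF, isRef_id F, by simp⟩
    | insert a s _ ih =>
      obtain ⟨F1, R1, a1, a2, a3⟩ := ih
      obtain ⟨F2, R2, b1, b2, b3⟩ := Refine.one _ F1 a1 (R1.pull (g a)) le_rfl
      refine ⟨F2, R2.comp R1 rfl, b1, b2.comp a2, fun i hi => ?_⟩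
      rw [Map.comp_pull]
      rcases Finset.mem_insert.1 hi with rfl | hi
      · exact b3
      · exact R2.signDef (a3 i hi)
  obtain ⟨F', R, a1, a2, a3⟩ := key Finset.univ
  exact ⟨F', R, a1, a2, fun i => a3 i (Finset.mem_univ i)⟩

theorem exists_ord {F : Fan} {n : ℕ} (W : Fin n → F.Ray → ℝ)
    (h : ∀ i j, F.SignDef (W i - W j)) : ∃ w, F.Ord W w := by
  refine ⟨fun σ => Tuple.sort fun i => ∑ ρ ∈ F.rays σ, W i ρ, fun σ ρ hρ a b hab => ?_⟩
  have h1 := Tuple.monotone_sort (fun i => ∑ ρ ∈ F.rays σ, W i ρ) hab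
  simp only [Function.comp] at h1 ⊢
  generalize (Tuple.sort fun i => ∑ ρ ∈ F.rays σ, W i ρ) a = i at h1 ⊢
  generalize (Tuple.sort fun i => ∑ ρ ∈ F.rays σ, W i ρ) b = j at h1 ⊢
  rcases h i j σ with h2 | h2
  · have h3 := Finset.single_le_sum h2 hρ
    simp only [Pi.sub_apply, Finset.sum_sub_distrib] at h3
    linarith
  · exact sub_nonpos.1 (h2 ρ hρ)

theorem exists_bun {F : Fan} (hF : F.Good) {N : ℕ} {b : Fin (N + 1) → F.Ray → ℝ}
    (hb : ∀ j, F.Conv (b j)) :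
    ∃ (F' : Fan) (M : Map F' F N) (Y : F'.Ray → ℝ) (s : Fin (N + 1) → F'.Ξ →ₗ[ℝ] ℝ)
      (top : F'.Cn → Fin (N + 1)), F'.Good ∧ IsBun M b Y s top :=
  ⟨_, _, _, _, _, Fan.bun_good hF hb, F.isBun_bunMap b⟩

theorem exists_node {F F1 : Fan} (h1 : F1.Good) {n N : ℕ} (W : Fin n → F.Ray → ℝ)
    {b : Fin (N + 1) → F.Ray → ℝ} (hb : ∀ j, F.Conv (b j)) {M : Map F1 F N} {Y : F1.Ray → ℝ}
    {s : Fin (N + 1) → F1.Ξ →ₗ[ℝ] ℝ} {top : F1.Cn → Fin (N + 1)} (hM : IsBunW M b Y s top)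
    (J : Fin n → Finset (Fin (N + 1))) (hJ : ∀ l, (J l).Nonempty)
    (ε : Fin n → Fin (N + 1) → F.Ray → ℝ)
    (hε : ∀ l, ∀ j ∈ J l, F.NN (ε l j) ∧ F.Conv (b j + W l - ε l j)) :
    ∃ (F' : Fan) (R : Map F' F1 0) (e : Fin n → F'.Ray → ℝ)
      (w : F'.Cn → Equiv.Perm (Fin (N + 1))), F'.Good ∧ IsRef R ∧
      F'.Node (fun l => R.pull (M.pull (W l))) (R.pull Y) e ∧
      (∀ l σ, top (R.par σ) ∈ J l → F'.Z (R.pull (M.pull (ε l (top (R.par σ))))) σ →
        F'.Z (e l) σ) ∧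
      F'.Ord (fun j => F'.lin (s j ∘ₗ R.pr)) w := by
  set y : Fin (N + 1) → F1.Ray → ℝ := fun j => Y - M.pull (b j) - F1.lin (s j) with hy
  set u : Fin n → Fin (N + 1) → F1.Ray → ℝ := fun l j => y j + M.pull (ε l j) with hu
  obtain ⟨F', R, a1, a2, a3⟩ := exists_ref h1
    (κ := (Fin (N + 1) × Fin (N + 1)) ⊕ (Fin n × Fin (N + 1) × Fin (N + 1)))
    (Sum.elim (fun p => F1.lin (s p.1) - F1.lin (s p.2)) fun p => u p.1 p.2.1 - u p.1 p.2.2)
  obtain ⟨w, hw⟩ := exists_ord (F := F') (fun j => F'.lin (s j ∘ₗ R.pr)) fun i j => by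
    have := a3 (Sum.inl (i, j))
    rwa [Sum.elim_inl, Map.pull_sub, Map.pull_lin, Map.pull_lin] at this
  have un : ∀ l, ∀ j ∈ J l, F'.NN (R.pull (u l j)) := fun l j hj => R.nn fun σ ρ hρ => by
    have b1 := M.nn (hε l j hj).1 σ ρ hρ
    have b2 := hM.le j ρ
    simp only [hu, hy, Pi.add_apply, Pi.sub_apply]
    linarith
  have en : ∀ l, F'.NN fun ρ => (J l).inf' (hJ l) fun j => R.pull (u l j) ρ :=
    fun l σ ρ hρ => Finset.le_inf' _ _ fun j hj => un l j hj σ ρ hρ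
  refine ⟨F', R, fun l ρ => (J l).inf' (hJ l) fun j => R.pull (u l j) ρ, w, a1, a2,
    ⟨R.conv (hM.conv hb), en, fun l => ?_⟩, fun l σ hk hz ρ hρ => ?_, hw⟩
  · obtain ⟨o, ho⟩ := exists_ord (F := F') (fun j => R.pull (u l j)) fun i j => by
      have := a3 (Sum.inr (l, i, j))
      rwa [Sum.elim_inr, Map.pull_sub] at this
    choose tp t1 t2 using fun σ => (J l).exists_min_image (o σ).symm (hJ l)
    refine Fan.conv_max (f := fun j => R.pull Y + R.pull (M.pull (W l)) - R.pull (u l j)) tp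
      (fun σ => ?_) (fun σ ρ => ?_) fun σ ρ hρ => ?_
    · have e : Y + M.pull (W l) - u l (tp σ) =
          M.pull (b (tp σ) + W l - ε l (tp σ)) + F1.lin (s (tp σ)) := by
        rw [Map.pull_sub, Map.pull_add]
        simp only [hu, hy]
        abel
      have := R.conv ((M.conv (hε l _ (t1 σ)).2).add (Fan.conv_lin (s (tp σ))))
      rwa [← e, Map.pull_sub, Map.pull_add] at this
    · exact sub_le_sub_left (Finset.inf'_le (fun j => R.pull (u l j) ρ) (t1 σ)) _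
    · have : (J l).inf' (hJ l) (fun j => R.pull (u l j) ρ) = R.pull (u l (tp σ)) ρ := by
        refine le_antisymm (Finset.inf'_le _ (t1 σ)) (Finset.le_inf' _ _ fun j hj => ?_)
        simpa using ho σ ρ hρ (t2 σ j hj)
      simp only [Pi.sub_apply, this]
  · refine le_antisymm ((Finset.inf'_le (fun j => R.pull (u l j) ρ) hk).trans (le_of_eq ?_))
      (en l σ ρ hρ)
    have b1 : F'.Z (R.pull (y (top (R.par σ)))) σ := R.z fun ρ' hρ' => by
      simp only [hy, Pi.sub_apply]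
      linarith [hM.eq _ ρ' hρ']
    simp only [hu]
    rw [Map.pull_add, Pi.add_apply, b1 ρ hρ, hz ρ hρ, add_zero]

end G94
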