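import Pool.Agent.P.MP_740b33_co.Stmt

/-! The class `C(M)` weighted by a power of the last variable. -/

namespace G94

open H40M MvPolynomial

/-- The variable `t_(w_n)` of the last entry of the ordering `w`. -/
noncomputable def lastVar (r : ℕ) {n : ℕ} (w : Equiv.Perm (Fin n)) : PR r n :=
  ∏ j ∈ Finset.univ.filter (fun j : Fin n => (w.symm j : ℕ) + 1 = n), X (Sum.inr j)

/-- The class `C_m(M)`: the sum defining `C(M)` with the weight `t_(w_n) ^ m`. -/
noncomputable def chowW (r m : ℕ) {n : ℕ} (M : Matroid (Fin n)) : KR r n :=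
  ∑ w : Equiv.Perm (Fin n),
    algebraMap (PR r n) (KR r n) (lastVar r w ^ m *
        ∏ j ∈ (lexBasis M w)ᶜ, ∏ i : Fin r, (X (Sum.inr j) + X (Sum.inl i))) /
      algebraMap (PR r n) (KR r n) (denom r w)

/-- `d` is the family of coefficients of `C_m(M)` in the double Schur basis. -/
def IsExpW (r m : ℕ) {n : ℕ} (M : Matroid (Fin n))
    (d : (Fin r → ℕ) → MvPolynomial (Fin n) ℤ) : Prop :=
  chowW r m M = ∑ lam ∈ box r n,
    algebraMap (PR r n) (KR r n) (rename Sum.inr (d lam)) * dschur n lam

end G94
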