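import Pool.Agent.P.MP_740b33_co.OpDefs

/-! Package B6: the subdivision of an edge is a refinement. -/

namespace G94

open H40M Polynomial

namespace Fan

variable (F : Fan) {r1 r2 : F.Ray} {α β : ℝ} (h12 : r1 ≠ r2) (hα : 0 < α) (hβ : 0 < β)

/-- Pull-back of functions on cones. -/
def subι : (F.Cn → ℝ) →ₐ[ℝ] ((F.sub r1 r2 α β h12 hα hβ).Cn → ℝ) where
  toFun g := fun σ => g (F.subPar r1 r2 σ)
  map_one' := rfl
  map_mul' _ _ := rfl
  map_zero' := rfl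
  map_add' _ _ := rfl
  commutes' _ := rfl

lemma SubMap_E1 {ξ : F.Ξ} (h : (F.sub r1 r2 α β h12 hα hβ).Gen ξ) {σ : F.Cn}
    (hb : F.Both r1 r2 σ) : F.x σ r1 ξ ≠ 0 := by
  have h1 := h (Sum.inl σ) none (by
    change none ∈ F.subR r1 r2 (Sum.inl σ)
    simp [subR, hb])
  change F.subX r1 r2 α β (Sum.inl σ) none ξ ≠ 0 at h1
  intro h0
  apply h1
  simp [subX, subE, hb, h0]

lemma SubMap_E2 {ξ : F.Ξ} (h : (F.sub r1 r2 α β h12 hα hβ).Gen ξ) {σ : F.Cn}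
    (hb : F.Both r1 r2 σ) : F.x σ r2 ξ ≠ 0 := by
  have h1 := h (Sum.inr ⟨σ, hb⟩) none (by
    change none ∈ F.subR r1 r2 (Sum.inr ⟨σ, hb⟩)
    simp [subR])
  change F.subX r1 r2 α β (Sum.inr ⟨σ, hb⟩) none ξ ≠ 0 at h1
  intro h0
  apply h1
  simp [subX, subE, h0]

lemma SubMap_E3 {ξ : F.Ξ} (h : (F.sub r1 r2 α β h12 hα hβ).Gen ξ) {σ : F.Cn}
    (hb : F.Both r1 r2 σ) : F.x σ r2 ξ - β * (α⁻¹ * F.x σ r1 ξ) ≠ 0 := by
  have h1 := h (Sum.inl σ) (some r2) (by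
    change some r2 ∈ F.subR r1 r2 (Sum.inl σ)
    simp [subR, hb, hb.2, h12.symm])
  change F.subX r1 r2 α β (Sum.inl σ) (some r2) ξ ≠ 0 at h1
  simpa [subX, subE, subPar, hb, h12.symm] using h1

lemma sub_gen {ξ : F.Ξ} (h : (F.sub r1 r2 α β h12 hα hβ).Gen ξ) : F.Gen ξ := by
  intro σ ρ hρ
  by_cases hb : F.Both r1 r2 σ
  · by_cases h1 : ρ = r1
    · rw [h1]; exact F.SubMap_E1 h12 hα hβ h hb
    by_cases h2 : ρ = r2
    · rw [h2]; exact F.SubMap_E2 h12 hα hβ h hb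
    have h3 := h (Sum.inl σ) (some ρ) (by
      change some ρ ∈ F.subR r1 r2 (Sum.inl σ)
      simp [subR, hb, hρ, h1])
    change F.subX r1 r2 α β (Sum.inl σ) (some ρ) ξ ≠ 0 at h3
    simpa [subX, subE, subPar, hb, h1, h2] using h3
  · have h3 := h (Sum.inl σ) (some ρ) (by
      change some ρ ∈ F.subR r1 r2 (Sum.inl σ)
      simp [subR, hb, hρ])
    change F.subX r1 r2 α β (Sum.inl σ) (some ρ) ξ ≠ 0 at h3
    simpa [subX, subE, subPar, hb] using h3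

lemma sub_xr_some (ξ : F.Ξ) (ρ : F.Ray) :
    (F.sub r1 r2 α β h12 hα hβ).xr (some ρ) ξ = F.subι h12 hα hβ (F.xr ρ ξ) -
      ((if ρ = r1 then α else 0) + if ρ = r2 then β else 0) •
        (F.sub r1 r2 α β h12 hα hβ).xr none ξ := rfl

/-- The quadratic relation of the new ray. -/
lemma sub_sq (ξ : F.Ξ) :
    ((F.sub r1 r2 α β h12 hα hβ).xr none ξ - F.subι h12 hα hβ (α⁻¹ • F.xr r1 ξ)) *
      ((F.sub r1 r2 α β h12 hα hβ).xr none ξ - F.subι h12 hα hβ (β⁻¹ • F.xr r2 ξ)) = 0 := by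
  funext σ
  change (F.subE r1 r2 α β σ ξ - α⁻¹ * F.x (F.subPar r1 r2 σ) r1 ξ) *
    (F.subE r1 r2 α β σ ξ - β⁻¹ * F.x (F.subPar r1 r2 σ) r2 ξ) = 0
  rcases σ with σ | σ
  · by_cases hb : F.Both r1 r2 σ
    · simp [subE, subPar, hb]
    · rcases not_and_or.1 hb with h1 | h1 <;> simp [subE, subPar, hb, F.x_out _ _ h1]
  · simp [subE, subPar]

lemma SubMap_sum (f : (F.sub r1 r2 α β h12 hα hβ).Cn → ℝ) (σ : F.Cn) :
    ∑ σ' ∈ Finset.univ.filter fun σ' : (F.sub r1 r2 α β h12 hα hβ).Cn => F.subPar r1 r2 σ' = σ,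
      f σ' = f (Sum.inl σ) + if h : F.Both r1 r2 σ then f (Sum.inr ⟨σ, h⟩) else 0 := by
  rw [Finset.sum_filter]
  have e := Fintype.sum_sum_type (α₁ := F.Cn) (α₂ := {σ // F.Both r1 r2 σ})
    (fun σ' => if F.subPar r1 r2 σ' = σ then f σ' else 0)
  refine e.trans ?_
  congr 1
  · exact (Finset.sum_ite_eq' Finset.univ σ fun a => f (Sum.inl a)).trans
      (if_pos (Finset.mem_univ σ))
  · split_ifs with hb
    · rw [Finset.sum_eq_single (⟨σ, hb⟩ : {σ // F.Both r1 r2 σ})]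
      · simp [subPar]
      · intro τ _ hτ
        rw [if_neg]
        intro h0
        exact hτ (Subtype.ext h0)
      · simp
    · refine Finset.sum_eq_zero fun τ _ => if_neg fun h0 => hb ?_
      have h1 : τ.1 = σ := h0
      exact h1 ▸ τ.2

lemma SubMap_wt_out (ξ : F.Ξ) {σ : F.Cn} (hb : ¬ F.Both r1 r2 σ) :
    (F.sub r1 r2 α β h12 hα hβ).wt ξ (Sum.inl σ) = F.wt ξ σ := by
  change (if F.Both r1 r2 σ then F.μ σ / α else F.μ σ) /
    ∏ ρ ∈ F.subR r1 r2 (Sum.inl σ), F.subX r1 r2 α β (Sum.inl σ) ρ ξ = _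
  simp [subR, subX, subE, subPar, hb, wt]

lemma SubMap_prod (ξ : F.Ξ) {σ : F.Cn} (hb : F.Both r1 r2 σ) (h12 : r1 ≠ r2) :
    ∏ ρ ∈ F.rays σ, F.x σ ρ ξ =
      F.x σ r1 ξ * (F.x σ r2 ξ * ∏ ρ ∈ ((F.rays σ).erase r1).erase r2, F.x σ ρ ξ) := by
  rw [Finset.mul_prod_erase _ (fun ρ => F.x σ ρ ξ) (Finset.mem_erase.2 ⟨h12.symm, hb.2⟩),
    Finset.mul_prod_erase _ (fun ρ => F.x σ ρ ξ) hb.1]

lemma SubMap_wt_inl (ξ : F.Ξ) {σ : F.Cn} (hb : F.Both r1 r2 σ) :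
    (F.sub r1 r2 α β h12 hα hβ).wt ξ (Sum.inl σ) = F.μ σ / α / (α⁻¹ * F.x σ r1 ξ *
      ((F.x σ r2 ξ - β * (α⁻¹ * F.x σ r1 ξ)) *
        ∏ ρ ∈ ((F.rays σ).erase r1).erase r2, F.x σ ρ ξ)) := by
  change (if F.Both r1 r2 σ then F.μ σ / α else F.μ σ) /
    ∏ ρ ∈ F.subR r1 r2 (Sum.inl σ), F.subX r1 r2 α β (Sum.inl σ) ρ ξ = _
  rw [if_pos hb, subR, if_pos hb, Finset.prod_insertNone,
    ← Finset.mul_prod_erase _ _ (Finset.mem_erase.2 ⟨h12.symm, hb.2⟩)]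
  congr 2
  · simp [subX, subE, hb]
  congr 1
  · simp [subX, subE, subPar, hb, h12.symm]
  · refine Finset.prod_congr rfl fun ρ hρ => ?_
    have h2 := (Finset.mem_erase.1 hρ).1
    have h1 := (Finset.mem_erase.1 (Finset.mem_erase.1 hρ).2).1
    simp [subX, subPar, h1, h2]

lemma SubMap_wt_inr (ξ : F.Ξ) {σ : F.Cn} (hb : F.Both r1 r2 σ) :
    (F.sub r1 r2 α β h12 hα hβ).wt ξ (Sum.inr ⟨σ, hb⟩) = F.μ σ / β / (β⁻¹ * F.x σ r2 ξ *
      ((F.x σ r1 ξ - α * (β⁻¹ * F.x σ r2 ξ)) *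
        ∏ ρ ∈ ((F.rays σ).erase r1).erase r2, F.x σ ρ ξ)) := by
  change (F.μ σ / β) /
    ∏ ρ ∈ F.subR r1 r2 (Sum.inr ⟨σ, hb⟩), F.subX r1 r2 α β (Sum.inr ⟨σ, hb⟩) ρ ξ = _
  rw [subR, Finset.prod_insertNone,
    ← Finset.mul_prod_erase _ _ (Finset.mem_erase.2 ⟨h12, hb.1⟩), Finset.erase_right_comm]
  congr 2
  congr 1
  · simp [subX, subE, subPar, h12]
  · refine Finset.prod_congr rfl fun ρ hρ => ?_
    have h2 := (Finset.mem_erase.1 hρ).1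
    have h1 := (Finset.mem_erase.1 (Finset.mem_erase.1 hρ).2).1
    simp [subX, subPar, h1, h2]

lemma SubMap_P {ξ : F.Ξ} (h : F.Gen ξ) (σ : F.Cn) :
    ∏ ρ ∈ ((F.rays σ).erase r1).erase r2, F.x σ ρ ξ ≠ 0 :=
  Finset.prod_ne_zero_iff.2 fun ρ hρ =>
    h σ ρ (Finset.mem_of_mem_erase (Finset.mem_of_mem_erase hρ))

lemma pushF_sub_one {ξ : F.Ξ} (h : (F.sub r1 r2 α β h12 hα hβ).Gen ξ) :
    pushF (F.sub r1 r2 α β h12 hα hβ) F LinearMap.id (F.subPar r1 r2) ξ 1 = 1 := by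
  funext σ
  have hg := F.sub_gen h12 hα hβ h
  change (∑ σ' ∈ Finset.univ.filter
    fun σ' : (F.sub r1 r2 α β h12 hα hβ).Cn => F.subPar r1 r2 σ' = σ,
      (F.sub r1 r2 α β h12 hα hβ).wt ξ σ' * 1) / F.wt ξ σ = 1
  rw [div_eq_one_iff_eq (wt_ne_zero hg σ), SubMap_sum]
  split_ifs with hb
  · have h1 := F.SubMap_E1 h12 hα hβ h hb
    have h2 := F.SubMap_E2 h12 hα hβ h hb
    have h3 := F.SubMap_E3 h12 hα hβ h hb
    have h4 := F.SubMap_P (r1 := r1) (r2 := r2) hg σ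
    rw [SubMap_wt_inl _ _ _ _ _ hb, SubMap_wt_inr _ _ _ _ _ hb, wt, F.SubMap_prod ξ hb h12]
    generalize ∏ ρ ∈ ((F.rays σ).erase r1).erase r2, F.x σ ρ ξ = P at h4 ⊢
    generalize F.x σ r1 ξ = a at h1 h3 ⊢
    generalize F.x σ r2 ξ = b at h2 h3 ⊢
    have hα' := hα.ne'
    have hβ' := hβ.ne'
    have h5 : α * b - β * a ≠ 0 := fun h0 => h3 (by field_simp; linarith)
    have e1 : b - β * (α⁻¹ * a) = (α * b - β * a) / α := by field_simp
    have e2 : a - α * (β⁻¹ * b) = -(α * b - β * a) / β := by field_simp; ring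
    rw [e1, e2]
    obtain ⟨D, hD⟩ : ∃ D, D = α * b - β * a := ⟨_, rfl⟩
    rw [← hD] at h5 ⊢
    field_simp
    rw [hD]
    ring
  · rw [SubMap_wt_out _ _ _ _ _ hb]; simp

lemma pushF_sub_E {ξ : F.Ξ} (h : (F.sub r1 r2 α β h12 hα hβ).Gen ξ) :
    pushF (F.sub r1 r2 α β h12 hα hβ) F LinearMap.id (F.subPar r1 r2) ξ
      ((F.sub r1 r2 α β h12 hα hβ).xr none ξ) = 0 := by
  funext σ
  have hg := F.sub_gen h12 hα hβ h
  change (∑ σ' ∈ Finset.univ.filter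
    fun σ' : (F.sub r1 r2 α β h12 hα hβ).Cn => F.subPar r1 r2 σ' = σ,
      (F.sub r1 r2 α β h12 hα hβ).wt ξ σ' * F.subE r1 r2 α β σ' ξ) / F.wt ξ σ = 0
  rw [div_eq_zero_iff, SubMap_sum]
  left
  split_ifs with hb
  · have h1 := F.SubMap_E1 h12 hα hβ h hb
    have h2 := F.SubMap_E2 h12 hα hβ h hb
    have h3 := F.SubMap_E3 h12 hα hβ h hb
    have h4 := F.SubMap_P (r1 := r1) (r2 := r2) hg σ
    have e3 : F.subE r1 r2 α β (Sum.inl σ) ξ = α⁻¹ * F.x σ r1 ξ := by simp [subE, hb]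
    have e4 : F.subE r1 r2 α β (Sum.inr ⟨σ, hb⟩) ξ = β⁻¹ * F.x σ r2 ξ := by simp [subE]
    rw [SubMap_wt_inl _ _ _ _ _ hb, SubMap_wt_inr _ _ _ _ _ hb, e3, e4]
    generalize ∏ ρ ∈ ((F.rays σ).erase r1).erase r2, F.x σ ρ ξ = P at h4 ⊢
    generalize F.x σ r1 ξ = a at h1 h3 ⊢
    generalize F.x σ r2 ξ = b at h2 h3 ⊢
    have hα' := hα.ne'
    have hβ' := hβ.ne'
    have h5 : α * b - β * a ≠ 0 := fun h0 => h3 (by field_simp; linarith)
    have e1 : b - β * (α⁻¹ * a) = (α * b - β * a) / α := by field_simp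
    have e2 : a - α * (β⁻¹ * b) = -(α * b - β * a) / β := by field_simp; ring
    rw [e1, e2]
    field_simp
    ring
  · simp [subE, hb]

/-- Pull-back of families of functions on cones. -/
def SubMap_ιP : (F.Ξ → F.Cn → ℝ) →ₐ[ℝ]
    ((F.sub r1 r2 α β h12 hα hβ).Ξ → (F.sub r1 r2 α β h12 hα hβ).Cn → ℝ) where
  toFun g := fun ξ σ => g ξ (F.subPar r1 r2 σ)
  map_one' := rfl
  map_mul' _ _ := rfl
  map_zero' := rfl
  map_add' _ _ := rfl
  commutes' _ := rfl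

lemma SubMap_push_mul (ξ : F.Ξ) (g : F.Cn → ℝ) (η : (F.sub r1 r2 α β h12 hα hβ).Cn → ℝ) :
    pushF (F.sub r1 r2 α β h12 hα hβ) F LinearMap.id (F.subPar r1 r2) ξ
      (η * F.subι h12 hα hβ g) =
      pushF (F.sub r1 r2 α β h12 hα hβ) F LinearMap.id (F.subPar r1 r2) ξ η * g := by
  funext σ
  change (∑ σ' ∈ Finset.univ.filter
    fun σ' : (F.sub r1 r2 α β h12 hα hβ).Cn => F.subPar r1 r2 σ' = σ,
      (F.sub r1 r2 α β h12 hα hβ).wt ξ σ' * (η σ' * g (F.subPar r1 r2 σ'))) / F.wt ξ σ =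
    (∑ σ' ∈ Finset.univ.filter
    fun σ' : (F.sub r1 r2 α β h12 hα hβ).Cn => F.subPar r1 r2 σ' = σ,
      (F.sub r1 r2 α β h12 hα hβ).wt ξ σ' * η σ') / F.wt ξ σ * g σ
  rw [div_mul_eq_mul_div, Finset.sum_mul]
  congr 1
  refine Finset.sum_congr rfl fun σ' hσ' => ?_
  rw [(Finset.mem_filter.1 hσ').2, mul_assoc]

lemma SubMap_xr_mem (ρ : F.Ray) : F.xr ρ ∈ F.VP :=
  Submodule.subset_span (Set.mem_insert_of_mem _ ⟨ρ, rfl⟩)

lemma SubMap_unif (j : ℕ)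
    (η : (F.sub r1 r2 α β h12 hα hβ).Ξ → (F.sub r1 r2 α β h12 hα hβ).Cn → ℝ)
    (hη : η ∈ (F.sub r1 r2 α β h12 hα hβ).VP ^ j) :
    ∃ G ∈ F.VP ^ j, ∀ ξ, (F.sub r1 r2 α β h12 hα hβ).Gen ξ →
      pushF (F.sub r1 r2 α β h12 hα hβ) F LinearMap.id (F.subPar r1 r2) ξ (η ξ) = G ξ := by
  have key : ∀ (u g : F.Ξ → F.Cn → ℝ) (ξ : F.Ξ), (F.sub r1 r2 α β h12 hα hβ).Gen ξ →
      pushF (F.sub r1 r2 α β h12 hα hβ) F LinearMap.id (F.subPar r1 r2) ξ
        (F.subι h12 hα hβ (u ξ) +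
          (F.sub r1 r2 α β h12 hα hβ).xr none ξ * F.subι h12 hα hβ (g ξ)) = u ξ := by
    intro u g ξ hξ
    rw [map_add, SubMap_push_mul, F.pushF_sub_E h12 hα hβ hξ, zero_mul, add_zero,
      ← one_mul (F.subι h12 hα hβ (u ξ)), SubMap_push_mul, F.pushF_sub_one h12 hα hβ hξ, one_mul]
  rcases j with _ | k
  · obtain ⟨c, rfl⟩ := mem_pow_zero_iff.1 hη
    refine ⟨algebraMap ℝ _ c, mem_pow_zero_iff.2 ⟨c, rfl⟩, fun ξ hξ => ?_⟩
    refine Eq.trans ?_ (key (algebraMap ℝ _ c) 0 ξ hξ)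
    congr 1
    funext σ
    change c = c + F.subE r1 r2 α β σ ξ * 0
    ring
  · have hd := Semi.mem_dec (VY := F.VP) (ι := F.SubMap_ιP h12 hα hβ)
      (A := (Finset.univ : Finset Unit))
      (z := fun _ => (F.sub r1 r2 α β h12 hα hβ).xr none) ?_ ?_ hη
    · obtain ⟨u, hu, g, -, rfl⟩ := hd
      refine ⟨u, hu, fun ξ hξ => ?_⟩
      rw [Finset.univ_unique, Finset.sum_singleton]
      exact key u (g default) ξ hξ
    · intro v hv
      simp only [Finset.univ_unique, Finset.sum_singleton]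
      induction hv using Submodule.span_induction with
      | mem v hv =>
        rcases hv with rfl | ⟨ρ, rfl⟩
        · exact ⟨1, one_mem_VP, 0, by simp⟩
        · rcases ρ with _ | ρ
          · exact ⟨0, zero_mem _, 1, by simp⟩
          · refine ⟨F.xr ρ, F.SubMap_xr_mem ρ,
              fun _ => -((if ρ = r1 then α else 0) + if ρ = r2 then β else 0), ?_⟩
            rw [neg_smul, ← sub_eq_add_neg]
            rfl
      | zero => exact ⟨0, zero_mem _, 0, by simp⟩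
      | add v w _ _ hv hw =>
        obtain ⟨u, hu, c, rfl⟩ := hv
        obtain ⟨u', hu', c', rfl⟩ := hw
        refine ⟨u + u', add_mem hu hu', c + c', ?_⟩
        rw [map_add, Pi.add_apply, add_smul]
        abel
      | smul t v _ hv =>
        obtain ⟨u, hu, c, rfl⟩ := hv
        refine ⟨t • u, Submodule.smul_mem _ _ hu, t • c, ?_⟩
        rw [map_smul, Pi.smul_apply, smul_add, smul_eq_mul, mul_smul]
    · intro _ _ _ _
      have ha : α⁻¹ • F.xr r1 ∈ F.VP := Submodule.smul_mem _ _ (F.SubMap_xr_mem r1)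
      have hb : β⁻¹ • F.xr r2 ∈ F.VP := Submodule.smul_mem _ _ (F.SubMap_xr_mem r2)
      refine ⟨-((α⁻¹ • F.xr r1) * (β⁻¹ • F.xr r2)),
        neg_mem (mul_mem_pow' (mem_pow_one ha) (mem_pow_one hb) rfl),
        fun _ => α⁻¹ • F.xr r1 + β⁻¹ • F.xr r2, fun _ _ => add_mem ha hb, ?_⟩
      have h0 : ((F.sub r1 r2 α β h12 hα hβ).xr none - F.SubMap_ιP h12 hα hβ (α⁻¹ • F.xr r1)) *
          ((F.sub r1 r2 α β h12 hα hβ).xr none - F.SubMap_ιP h12 hα hβ (β⁻¹ • F.xr r2)) = 0 :=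
        funext fun ξ => F.sub_sq h12 hα hβ ξ
      rw [Finset.univ_unique, Finset.sum_singleton, map_neg, map_mul, map_add]
      linear_combination h0

lemma SubMap_some {σ : F.SubC r1 r2} {ρ : F.Ray} (h : some ρ ∈ F.subR r1 r2 σ) :
    ρ ∈ F.rays (F.subPar r1 r2 σ) := by
  rcases σ with σ | σ
  · by_cases hb : F.Both r1 r2 σ
    · have h2 : ρ ≠ r1 ∧ ρ ∈ F.rays σ := by simpa [subR, hb] using h
      exact h2.2
    · have h2 : ρ ∈ F.rays σ := by simpa [subR, hb] using h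
      exact h2
  · have h2 : ρ ≠ r2 ∧ ρ ∈ F.rays σ.1 := by simpa [subR] using h
    exact h2.2

lemma SubMap_none {σ : F.SubC r1 r2} :
    none ∈ F.subR r1 r2 σ ↔ F.Both r1 r2 (F.subPar r1 r2 σ) := by
  rcases σ with σ | σ
  · by_cases hb : F.Both r1 r2 σ <;> simp [subR, subPar, hb]
  · simp [subR, subPar, σ.2]

/-- The subdivision as a morphism. -/
noncomputable def subMap : Map (F.sub r1 r2 α β h12 hα hβ) F 0 where
  pr := LinearMap.id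
  par := F.subPar r1 r2
  a ρ' ρ := ρ'.elim ((if ρ = r1 then α else 0) + if ρ = r2 then β else 0)
    fun ρ' => if ρ' = ρ then 1 else 0
  surj := Function.surjective_id
  a_nonneg := by
    rintro (_ | ρ') ρ
    · simp only [Option.elim]
      refine add_nonneg ?_ ?_ <;> split_ifs
      exacts [hα.le, le_rfl, hβ.le, le_rfl]
    · simp only [Option.elim]
      split_ifs
      exacts [zero_le_one, le_rfl]
  a_out := by
    rintro σ (_ | ρ') h' ρ hρ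
    · have hb : F.Both r1 r2 (F.subPar r1 r2 σ) := F.SubMap_none.1 h'
      have h1 : ρ ≠ r1 := fun h => hρ (h ▸ hb.1)
      have h2 : ρ ≠ r2 := fun h => hρ (h ▸ hb.2)
      simp [h1, h2]
    · have h1 : ρ' ∈ F.rays (F.subPar r1 r2 σ) := F.SubMap_some h'
      have h2 : ρ' ≠ ρ := fun h => hρ (h ▸ h1)
      simp [h2]
  pr_v := by
    rintro (_ | ρ')
    · change α • F.v r1 + β • F.v r2 = _
      simp [add_smul, Finset.sum_add_distrib]
    · change F.v ρ' = _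
      simp
  gen := fun _ h => F.sub_gen h12 hα hβ h
  dim := rfl
  push_mem := by
    intro ξ hξ j η hη
    refine ⟨?_, fun h => absurd h (Nat.not_lt_zero j)⟩
    obtain ⟨η', h1, rfl⟩ := exists_lift hη
    obtain ⟨G, hG, h2⟩ := F.SubMap_unif h12 hα hβ j η' h1
    rw [h2 ξ hξ]
    exact eval_mem hG ξ

lemma subMap_pull_some (g : F.Ray → ℝ) (ρ : F.Ray) :
    (F.subMap h12 hα hβ).pull g (some ρ) = g ρ := by
  change ∑ ρ', (if ρ = ρ' then (1 : ℝ) else 0) * g ρ' = g ρ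
  simp

lemma subMap_pull_none (g : F.Ray → ℝ) :
    (F.subMap h12 hα hβ).pull g none = α * g r1 + β * g r2 := by
  change ∑ ρ, ((if ρ = r1 then α else 0) + if ρ = r2 then β else 0) * g ρ = _
  simp [add_mul, Finset.sum_add_distrib]

lemma sub_some_mem {σ : (F.sub r1 r2 α β h12 hα hβ).Cn} {ρ : F.Ray}
    (h : some ρ ∈ (F.sub r1 r2 α β h12 hα hβ).rays σ) : ρ ∈ F.rays (F.subPar r1 r2 σ) :=
  F.SubMap_some h

lemma sub_not_both (σ : (F.sub r1 r2 α β h12 hα hβ).Cn) :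
    ¬(some r1 ∈ (F.sub r1 r2 α β h12 hα hβ).rays σ ∧
      some r2 ∈ (F.sub r1 r2 α β h12 hα hβ).rays σ) := by
  change ¬(some r1 ∈ F.subR r1 r2 σ ∧ some r2 ∈ F.subR r1 r2 σ)
  rcases σ with σ | σ
  · by_cases hb : F.Both r1 r2 σ
    · simp [subR, hb]
    · rintro ⟨h1, h2⟩
      exact hb ⟨by simpa [subR, hb] using h1, by simpa [subR, hb] using h2⟩
  · simp [subR]

lemma sub_none_mem {σ : (F.sub r1 r2 α β h12 hα hβ).Cn} :
    none ∈ (F.sub r1 r2 α β h12 hα hβ).rays σ ↔ F.Both r1 r2 (F.subPar r1 r2 σ) :=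
  F.SubMap_none

lemma isRef_subMap : IsRef (F.subMap h12 hα hβ) :=
  ⟨fun _ h => F.pushF_sub_one h12 hα hβ h, fun j η hη => F.SubMap_unif h12 hα hβ j η hη⟩

end Fan

end G94
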